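import Pool.Agent.Lib.MP_8d00da_gt.Kls

/-!
# Log-concave laws and order polytopes
-/

open MeasureTheory Filter Topology

set_option linter.unusedSectionVars false

namespace Pool.Agent.Lib.MP_8d00da_gt

/-- The one-dimensional Poincaré inequality for all Lipschitz functions, from `P1`. -/
theorem poincare_of_P1 {ρ : Measure ℝ} [IsProbabilityMeasure ρ] (hac : ρ ≪ volume) {D : ℝ}
    (hD : 0 < D) (hP : P1 ρ D) (hmom : Integrable (fun x : ℝ => x ^ 2) ρ) : PoincareWith ρ D := by
  have hK : prodM (Fin 1) ρ (ordCone (∅ : Set (Fin 1 × Fin 1))) ≠ 0 := by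
    have : ordCone (∅ : Set (Fin 1 × Fin 1)) = Set.univ := by
      ext x; simp [ordCone]
    rw [this, measure_univ]
    exact one_ne_zero
  exact ord_backward hac one_pos hK (poin_of_PIneq hK hmom hD fun F L hF =>
    ordCone_main hac hD hP hmom ∅ hF)

section logconcave

variable {h : ℝ → ℝ} [IsProbabilityMeasure (dens h)]

theorem integrable_sq_of_hazard (hm : Measurable h) {M c : ℝ}
    (hc : 0 < c)
    (hr : ∀ x, M ≤ x → ENNReal.ofReal (2 * c) * dens h (Set.Ici x) ≤ ENNReal.ofReal (h x))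
    (hl : ∀ x, x ≤ M → ENNReal.ofReal (2 * c) * dens h (Set.Iic x) ≤ ENNReal.ofReal (h x)) :
    Integrable (fun x : ℝ => x ^ 2) (dens h) := by
  have h1 := second_moment hm hc hr hl
  have h2 : Integrable (fun x : ℝ => (x - M) ^ 2) (dens h) := by
    refine ⟨by fun_prop, ?_⟩
    rw [hasFiniteIntegral_iff_ofReal (Eventually.of_forall fun x => sq_nonneg _)]
    exact h1.trans_lt ENNReal.ofReal_lt_top
  have h3 : Integrable (fun x : ℝ => 2 * (x - M) ^ 2 + 2 * M ^ 2) (dens h) :=
    (h2.const_mul 2).add (integrable_const _)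
  refine h3.mono' (by fun_prop) (Eventually.of_forall fun x => ?_)
  rw [Real.norm_eq_abs, abs_of_nonneg (sq_nonneg _)]
  nlinarith [sq_nonneg (x - 2 * M)]

theorem var_lower' (hm : Measurable h) (hmom : Integrable (fun x : ℝ => x ^ 2) (dens h)) {S : ℝ}
    (hS0 : 0 < S) (hS : ∀ x, h x ≤ S) :
    1 / (12 * S ^ 2) ≤ ProbabilityTheory.variance (fun x : ℝ => x) (dens h) := by
  have hid : MemLp (fun x : ℝ => x) 2 (dens h) := by
    rw [memLp_two_iff_integrable_sq (by fun_prop)]
    exact hmom
  rw [ProbabilityTheory.variance_eq_integral hid.aemeasurable]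
  have h1 := var_lower hm hS0 hS (∫ x, x ∂(dens h))
  have h2 : Integrable (fun x : ℝ => (x - ∫ x, x ∂(dens h)) ^ 2) (dens h) :=
    (hid.sub (memLp_const _)).integrable_sq
  rw [← ofReal_integral_eq_lintegral_ofReal h2 (Eventually.of_forall fun x => sq_nonneg _)] at h1
  exact (ENNReal.ofReal_le_ofReal_iff (integral_nonneg fun x => sq_nonneg _)).1 h1

/-- **KLS for log-concave laws conditioned on order relations.** -/
theorem kls_ord (H : LCD h) {n : ℕ} (hn : 0 < n) {E : Set (Fin n × Fin n)}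
    (hK : prodM (Fin n) (dens h) (ordCone E) ≠ 0) {lam : ℝ}
    (hl : LinPoincareWith (iidCond n (dens h) (ordCone E)) lam) :
    PoincareWith (iidCond n (dens h) (ordCone E)) (7 * lam) := by
  obtain ⟨M, hM, hr, hle, hsup⟩ := H.median
  have hmom := integrable_sq_of_hazard H.meas hM hr hle
  have hP1 := P1_of_hazard H.meas hM hr hle
  have hac := dens_ac h
  have hP := ord_forward hac hK (poincare_of_P1 hac (by positivity) hP1 hmom)
  have h1 := var_lower' H.meas hmom (S := 2 * h M) (by positivity) hsup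
  have h2 := lin_ord hac hn hK hmom hl
  have h3 := h1.trans h2
  have hpos : 0 < max lam 0 := by
    by_contra hcon
    have h0 : max lam 0 = 0 := le_antisymm (not_lt.1 hcon) (le_max_right _ _)
    rw [h0] at h3
    have : 0 < 1 / (12 * (2 * h M) ^ 2) := by positivity
    have e0 : (0 : ℝ) ^ 2 = 0 := by norm_num
    rw [e0] at h3
    linarith
  have hlam : 0 < lam := by
    by_contra hcon
    rw [max_eq_right (not_lt.1 hcon)] at hpos
    exact lt_irrefl _ hpos
  rw [max_eq_left hlam.le] at h3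
  refine hP.mono ?_
  have h4 : (1 / h M) ^ 2 ≤ (7 * lam) ^ 2 := by
    have e : 1 / (12 * (2 * h M) ^ 2) = (1 / 48) * (1 / h M) ^ 2 := by
      field_simp
      norm_num
    rw [e] at h3
    nlinarith [sq_nonneg lam]
  exact le_of_sq_le_sq h4 (by positivity)

/-- **KLS for even log-concave laws conditioned on signed order relations.** -/
theorem kls_lit (H : LCD h) (he : ∀ x, h (-x) = h x) {n : ℕ} (hn : 0 < n)
    {E : Set ((Fin n × Bool) × (Fin n × Bool))}
    (hK : prodM (Fin n) (dens h) (litCone E) ≠ 0) {lam : ℝ}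
    (hl : LinPoincareWith (iidCond n (dens h) (litCone E)) lam) :
    PoincareWith (iidCond n (dens h) (litCone E)) (144 * lam) := by
  obtain ⟨hM, hr, hle, hsup⟩ := H.even he
  have hmom := integrable_sq_of_hazard H.meas hM hr hle
  have hP1 := P1_of_hazard H.meas hM hr hle
  have hac := dens_ac h
  have hsym := dens_symm H.meas he
  have hρ := poincare_of_P1 hac (by positivity) hP1 hmom
  have hP := lit_forward hac hsym hK hρ
  have h1 := lin_lit hac hsym hn hK hρ hl
  set c := h 0 with hc
  have hσ0 : 0 ≤ ∫ x, x ^ 2 ∂(dens h) := integral_nonneg fun x => sq_nonneg x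
  -- the second moment
  have hσ : ∫ x, x ^ 2 ∂(dens h) ≤ (1 / c) ^ 2 := by
    have h2 := second_moment H.meas hM hr hle
    simp only [sub_zero] at h2
    rw [← ofReal_integral_eq_lintegral_ofReal hmom (Eventually.of_forall fun x => sq_nonneg _)] at h2
    exact (ENNReal.ofReal_le_ofReal_iff (by positivity)).1 h2
  -- the variance of the square
  have hv : 1 / (1280 * c ^ 4) ≤ ProbabilityTheory.variance (fun x : ℝ => x ^ 2) (dens h) := by
    have hsq : MemLp (fun x : ℝ => x ^ 2) 2 (dens h) := by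
      have := hρ.memLp_sq 0
      simpa using this
    rw [ProbabilityTheory.variance_eq_integral hsq.aemeasurable]
    have h3 := sq_var_lower H.meas hM hsup hσ0
    have h4 : Integrable (fun x : ℝ => (x ^ 2 - ∫ x, x ^ 2 ∂(dens h)) ^ 2) (dens h) :=
      (hsq.sub (memLp_const _)).integrable_sq
    rw [← ofReal_integral_eq_lintegral_ofReal h4 (Eventually.of_forall fun x => sq_nonneg _)] at h3
    exact (ENNReal.ofReal_le_ofReal_iff (integral_nonneg fun x => sq_nonneg _)).1 h3
  have h5 : 1 / (1280 * c ^ 4) ≤ 8 * ((1 / c) ^ 2 + (1 / c) ^ 2) * (max lam 0) ^ 2 := by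
    refine hv.trans (h1.trans ?_)
    have : (0 : ℝ) ≤ (max lam 0) ^ 2 := sq_nonneg _
    nlinarith
  have hpos : 0 < max lam 0 := by
    by_contra hcon
    have h0 : max lam 0 = 0 := le_antisymm (not_lt.1 hcon) (le_max_right _ _)
    rw [h0] at h5
    have : 0 < 1 / (1280 * c ^ 4) := by positivity
    have e : 8 * ((1 / c) ^ 2 + (1 / c) ^ 2) * (0 : ℝ) ^ 2 = 0 := by ring
    rw [e] at h5
    linarith
  have hlam : 0 < lam := by
    by_contra hcon
    rw [max_eq_right (not_lt.1 hcon)] at hpos
    exact lt_irrefl _ hpos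
  rw [max_eq_left hlam.le] at h5
  refine hP.mono ?_
  have h6 : (1 / c) ^ 2 ≤ (144 * lam) ^ 2 := by
    have e : 1 / (1280 * c ^ 4) = (1 / 1280) * (1 / c) ^ 2 * (1 / c) ^ 2 := by
      field_simp
    have e' : 8 * ((1 / c) ^ 2 + (1 / c) ^ 2) * lam ^ 2 = (16 * lam ^ 2) * (1 / c) ^ 2 := by ring
    rw [e, e'] at h5
    have h7 : (0 : ℝ) < (1 / c) ^ 2 := by positivity
    have h8 := le_of_mul_le_mul_right h5 h7
    nlinarith [sq_nonneg lam]
  exact le_of_sq_le_sq h6 (by positivity)

end logconcave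

end Pool.Agent.Lib.MP_8d00da_gt
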