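import Pool.Agent.Lib.MP_8d00da_gt.Sine

/-!
# Cells

The box is cut into cells indexed by vectors of odd integers; functions are averaged over cells.
-/

open Finset MeasureTheory

namespace Pool.Agent.Lib.MP_8d00da_gt

variable {ι : Type*} [Fintype ι]

/-- The index of the cell containing `z`. -/
noncomputable def idx (m : ℕ) (z : ι → ℝ) : ι → ℤ := fun i => 2 * ⌊(m : ℝ) * z i⌋ + 1

/-- The cell with index `v`. -/
def cell (m : ℕ) (v : ι → ℤ) : Set (ι → ℝ) := {z | idx m z = v}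

theorem measurable_idx (m : ℕ) : Measurable (idx m : (ι → ℝ) → ι → ℤ) := by
  rw [measurable_pi_iff]
  intro i
  unfold idx
  have h1 : Measurable fun z : ι → ℝ => ⌊(m : ℝ) * z i⌋ :=
    Int.measurable_floor.comp ((measurable_pi_apply i).const_mul _)
  exact (measurable_from_top (f := fun k : ℤ => 2 * k + 1)).comp h1

theorem measurableSet_cell (m : ℕ) (v : ι → ℤ) : MeasurableSet (cell m v) :=
  measurable_idx m (MeasurableSet.singleton v)

theorem mem_cell {m : ℕ} (hm : 0 < m) {v : ι → ℤ} {z : ι → ℝ} (hv : ∀ i, v i % 2 = 1) :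
    z ∈ cell m v ↔ ∀ i, ((v i - 1 : ℤ) : ℝ) / (2 * m) ≤ z i ∧ z i < ((v i + 1 : ℤ) : ℝ) / (2 * m) := by
  have hm' : (0 : ℝ) < m := by exact_mod_cast hm
  constructor
  · intro h i
    have h1 : 2 * ⌊(m : ℝ) * z i⌋ + 1 = v i := congrFun h i
    have h2 := Int.floor_le ((m : ℝ) * z i)
    have h3 := Int.lt_floor_add_one ((m : ℝ) * z i)
    rw [← h1]
    push_cast
    constructor
    · rw [div_le_iff₀ (by positivity)]
      linarith
    · rw [lt_div_iff₀ (by positivity)]
      linarith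
  · intro h
    funext i
    obtain ⟨h1, h2⟩ := h i
    rw [div_le_iff₀ (by positivity)] at h1
    rw [lt_div_iff₀ (by positivity)] at h2
    have h3 : ⌊(m : ℝ) * z i⌋ = (v i - 1) / 2 := by
      rw [Int.floor_eq_iff]
      have h4 : 2 * ((v i - 1) / 2) = v i - 1 := by
        have := hv i
        omega
      have h5 : (2 : ℝ) * (((v i - 1) / 2 : ℤ) : ℝ) = ((v i - 1 : ℤ) : ℝ) := by
        exact_mod_cast h4
      push_cast at h1 h2 h5
      constructor
      · linarith
      · linarith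
    show 2 * ⌊(m : ℝ) * z i⌋ + 1 = v i
    rw [h3]
    have := hv i
    omega

theorem cell_eq {m : ℕ} (hm : 0 < m) {v : ι → ℤ} (hv : ∀ i, v i % 2 = 1) :
    cell m v = Set.pi Set.univ fun i =>
      Set.Ico (((v i - 1 : ℤ) : ℝ) / (2 * m)) (((v i + 1 : ℤ) : ℝ) / (2 * m)) := by
  ext z
  rw [mem_cell hm hv]
  simp [Set.mem_pi]

theorem volume_cell {m : ℕ} (hm : 0 < m) {v : ι → ℤ} (hv : ∀ i, v i % 2 = 1) :
    volume.real (cell m v) = (1 / (m : ℝ)) ^ Fintype.card ι := by
  have hm' : (0 : ℝ) < m := by exact_mod_cast hm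
  rw [cell_eq hm hv, Measure.real, Real.volume_pi_Ico, ENNReal.toReal_prod]
  have h : ∀ i : ι, (ENNReal.ofReal (((v i + 1 : ℤ) : ℝ) / (2 * m) - ((v i - 1 : ℤ) : ℝ) / (2 * m))).toReal =
      1 / (m : ℝ) := by
    intro i
    have e : ((v i + 1 : ℤ) : ℝ) / (2 * m) - ((v i - 1 : ℤ) : ℝ) / (2 * m) = 1 / (m : ℝ) := by
      push_cast
      field_simp
      ring
    rw [e, ENNReal.toReal_ofReal (by positivity)]
  rw [Finset.prod_congr rfl fun i _ => h i, Finset.prod_const, Finset.card_univ]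

theorem cell_subset_Icc {m : ℕ} (hm : 0 < m) {v : ι → ℤ} (hv : ∀ i, v i % 2 = 1) :
    cell m v ⊆ Set.Icc (fun i => ((v i - 1 : ℤ) : ℝ) / (2 * m))
      (fun i => ((v i + 1 : ℤ) : ℝ) / (2 * m)) := by
  intro z hz
  rw [mem_cell hm hv] at hz
  exact ⟨fun i => (hz i).1, fun i => (hz i).2.le⟩

theorem volume_cell_lt_top {m : ℕ} (hm : 0 < m) {v : ι → ℤ} (hv : ∀ i, v i % 2 = 1) :
    volume (cell m v) < ⊤ :=
  lt_of_le_of_lt (measure_mono (cell_subset_Icc hm hv)) isCompact_Icc.measure_lt_top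

theorem integrableOn_cell {m : ℕ} (hm : 0 < m) {v : ι → ℤ} (hv : ∀ i, v i % 2 = 1)
    {G : (ι → ℝ) → ℝ} (hG : Continuous G) : IntegrableOn G (cell m v) :=
  (hG.continuousOn.integrableOn_compact isCompact_Icc).mono_set (cell_subset_Icc hm hv)

theorem dist_cell {m : ℕ} (hm : 0 < m) {v : ι → ℤ} (hv : ∀ i, v i % 2 = 1) {z w : ι → ℝ}
    (hz : z ∈ cell m v) (hw : w ∈ cell m v) : dist z w ≤ 1 / m := by
  have hm' : (0 : ℝ) < m := by exact_mod_cast hm
  rw [dist_pi_le_iff (by positivity)]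
  intro i
  rw [mem_cell hm hv] at hz hw
  obtain ⟨h1, h2⟩ := hz i
  obtain ⟨h3, h4⟩ := hw i
  have e : ((v i + 1 : ℤ) : ℝ) / (2 * m) = ((v i - 1 : ℤ) : ℝ) / (2 * m) + 1 / m := by
    push_cast
    field_simp
    ring
  rw [Real.dist_eq, abs_le]
  constructor <;> linarith

/-- The average over a cell. -/
noncomputable def avg (m : ℕ) (G : (ι → ℝ) → ℝ) (v : ι → ℤ) : ℝ :=
  (m : ℝ) ^ Fintype.card ι * ∫ z in cell m v, G z

/-- Variance identity on a cell. -/
theorem avg_var {m : ℕ} (hm : 0 < m) {v : ι → ℤ} (hv : ∀ i, v i % 2 = 1)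
    {G : (ι → ℝ) → ℝ} (hG : Continuous G) :
    ∫ z in cell m v, (G z - avg m G v) ^ 2 =
      (∫ z in cell m v, G z ^ 2) - (1 / (m : ℝ)) ^ Fintype.card ι * avg m G v ^ 2 := by
  have hm' : (0 : ℝ) < m := by exact_mod_cast hm
  set a := avg m G v with ha
  have hI : ∫ z in cell m v, G z = (1 / (m : ℝ)) ^ Fintype.card ι * a := by
    rw [ha, avg, ← mul_assoc, ← mul_pow, one_div_mul_cancel hm'.ne', one_pow, one_mul]
  have h1 : IntegrableOn G (cell m v) := integrableOn_cell hm hv hG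
  have h2 : IntegrableOn (fun z => G z ^ 2) (cell m v) := integrableOn_cell hm hv (hG.pow 2)
  have h3 : IntegrableOn (fun _ : ι → ℝ => a ^ 2) (cell m v) :=
    integrableOn_cell hm hv continuous_const
  have e : ∀ z, (G z - a) ^ 2 = (G z ^ 2 - 2 * a * G z) + a ^ 2 := fun z => by ring
  simp only [e]
  have h5 : IntegrableOn (fun z => 2 * a * G z) (cell m v) := h1.const_mul _
  have h4 : IntegrableOn (fun z => G z ^ 2 - 2 * a * G z) (cell m v) := h2.sub h5
  rw [integral_add h4 h3, integral_sub h2 h5,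
    integral_const_mul, hI, setIntegral_const, volume_cell hm hv, smul_eq_mul]
  ring

/-- Jensen's inequality on a cell. -/
theorem avg_sq_le {m : ℕ} (hm : 0 < m) {v : ι → ℤ} (hv : ∀ i, v i % 2 = 1)
    {G : (ι → ℝ) → ℝ} (hG : Continuous G) :
    (1 / (m : ℝ)) ^ Fintype.card ι * avg m G v ^ 2 ≤ ∫ z in cell m v, G z ^ 2 := by
  have h := avg_var hm hv hG
  have h1 : 0 ≤ ∫ z in cell m v, (G z - avg m G v) ^ 2 :=
    integral_nonneg fun z => sq_nonneg _
  linarith

/-- The average is close to the values. -/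
theorem avg_close {m : ℕ} (hm : 0 < m) {v : ι → ℤ} (hv : ∀ i, v i % 2 = 1)
    {G : (ι → ℝ) → ℝ} {L : NNReal} (hG : LipschitzWith L G) {z : ι → ℝ} (hz : z ∈ cell m v) :
    |G z - avg m G v| ≤ L / m := by
  have hm' : (0 : ℝ) < m := by exact_mod_cast hm
  have hI : ∫ w in cell m v, (G z - G w) = (1 / (m : ℝ)) ^ Fintype.card ι * (G z - avg m G v) := by
    rw [integral_sub (integrableOn_cell hm hv continuous_const)
      (integrableOn_cell hm hv hG.continuous), setIntegral_const, volume_cell hm hv, smul_eq_mul,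
      avg, mul_sub, ← mul_assoc, ← mul_pow, one_div_mul_cancel hm'.ne', one_pow, one_mul]
  have hb : ‖∫ w in cell m v, (G z - G w)‖ ≤ (L / m) * volume.real (cell m v) := by
    apply norm_setIntegral_le_of_norm_le_const (volume_cell_lt_top hm hv)
    intro w hw
    rw [← dist_eq_norm]
    calc dist (G z) (G w) ≤ L * dist z w := hG.dist_le_mul z w
      _ ≤ L * (1 / m) := by
        apply mul_le_mul_of_nonneg_left (dist_cell hm hv hz hw) L.coe_nonneg
      _ = L / m := by ring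
  rw [hI, volume_cell hm hv, norm_mul, Real.norm_eq_abs, abs_of_pos (by positivity),
    mul_comm (L / (m : ℝ))] at hb
  exact le_of_mul_le_mul_left hb (by positivity)

theorem sq_int_le {m : ℕ} (hm : 0 < m) {v : ι → ℤ} (hv : ∀ i, v i % 2 = 1)
    {G : (ι → ℝ) → ℝ} {L : NNReal} (hG : LipschitzWith L G) :
    ∫ z in cell m v, G z ^ 2 ≤ (1 / (m : ℝ)) ^ Fintype.card ι * (avg m G v ^ 2 + (L / m) ^ 2) := by
  have h := avg_var hm hv hG.continuous
  have h1 : ∫ z in cell m v, (G z - avg m G v) ^ 2 ≤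
      (L / m) ^ 2 * (1 / (m : ℝ)) ^ Fintype.card ι := by
    rw [← volume_cell hm hv]
    have h2 : ‖∫ z in cell m v, (G z - avg m G v) ^ 2‖ ≤ (L / m) ^ 2 * volume.real (cell m v) := by
      apply norm_setIntegral_le_of_norm_le_const (volume_cell_lt_top hm hv)
      intro z hz
      rw [Real.norm_eq_abs, abs_of_nonneg (sq_nonneg _), ← sq_abs]
      exact pow_le_pow_left₀ (abs_nonneg _) (avg_close hm hv hG hz) 2
    exact (le_abs_self _).trans h2
  nlinarith

theorem idx_add {m : ℕ} (hm : 0 < m) (c : ι → ℤ) (z : ι → ℝ) :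
    idx m (fun i => z i + c i / m) = fun i => idx m z i + 2 * c i := by
  have hm' : (m : ℝ) ≠ 0 := by positivity
  funext i
  unfold idx
  have e : (m : ℝ) * (z i + c i / m) = m * z i + c i := by field_simp
  rw [e, Int.floor_add_intCast]
  ring

theorem avg_shift {m : ℕ} (hm : 0 < m) (c : ι → ℤ) (v : ι → ℤ) (G : (ι → ℝ) → ℝ) :
    avg m G (fun i => v i + 2 * c i) = avg m (fun z => G (fun i => z i + c i / m)) v := by
  unfold avg
  congr 1
  rw [← integral_indicator (measurableSet_cell _ _), ← integral_indicator (measurableSet_cell _ _),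
    ← integral_add_right_eq_self _ (fun i => (c i : ℝ) / m)]
  congr 1
  funext z
  have e : z + (fun i => (c i : ℝ) / m) = fun i => z i + c i / m := rfl
  have h : (fun i => z i + (c i : ℝ) / m) ∈ cell m (fun i => v i + 2 * c i) ↔ z ∈ cell m v := by
    show idx m _ = _ ↔ idx m z = v
    rw [idx_add hm]
    constructor
    · intro h
      funext i
      have h2 : idx m z i + 2 * c i = v i + 2 * c i := congrFun h i
      omega
    · intro h
      rw [h]
  rw [e]
  by_cases hz : z ∈ cell m v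
  · rw [Set.indicator_of_mem (h.2 hz), Set.indicator_of_mem hz]
  · rw [Set.indicator_of_notMem (fun h' => hz (h.1 h')), Set.indicator_of_notMem hz]

theorem avg_sub {m : ℕ} (hm : 0 < m) {v : ι → ℤ} (hv : ∀ i, v i % 2 = 1)
    {G H : (ι → ℝ) → ℝ} (hG : Continuous G) (hH : Continuous H) :
    avg m (fun z => G z - H z) v = avg m G v - avg m H v := by
  unfold avg
  rw [integral_sub (integrableOn_cell hm hv hG) (integrableOn_cell hm hv hH)]
  ring

/-- Sum over cells. -/
theorem sum_cells {m : ℕ} (S : Finset (ι → ℤ)) {Φ : (ι → ℝ) → ℝ}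
    (hΦ : ∀ v ∈ S, IntegrableOn Φ (cell m v)) :
    ∑ v ∈ S, ∫ z in cell m v, Φ z = ∫ z in {z | idx m z ∈ S}, Φ z := by
  have e : {z : ι → ℝ | idx m z ∈ S} = ⋃ v ∈ S, cell m v := by
    ext z
    simp [cell]
  rw [e, integral_biUnion_finset S (fun v _ => measurableSet_cell m v) ?_ hΦ]
  intro v _ w _ hvw
  rw [Function.onFun, Set.disjoint_left]
  intro z hz hw
  exact hvw (hz.symm.trans hw)

end Pool.Agent.Lib.MP_8d00da_gt
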