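import Mathlib

/-!
# Reflections on odd integers

`tau p q` exchanges the values `p` and `q`, and `-p` and `-q`.
-/

namespace Pool.Agent.Lib.MP_8d00da_gt

/-- The reflection exchanging the values `p` and `q`, and `-p` and `-q`. -/
def tau (p q v : ℤ) : ℤ :=
  if v = p then q else if v = q then p else if v = -p then -q else if v = -q then -p else v

/-- The sites: odd integers of absolute value less than `2 m`. -/
def Site (m : ℕ) (v : ℤ) : Prop := v % 2 = 1 ∧ -(2 * (m : ℤ)) < v ∧ v < 2 * (m : ℤ)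

theorem Site.ne_zero {m : ℕ} {v : ℤ} (h : Site m v) : v ≠ 0 := by
  obtain ⟨h1, -, -⟩ := h
  omega

theorem Site.neg {m : ℕ} {v : ℤ} (h : Site m v) : Site m (-v) := by
  obtain ⟨h1, h2, h3⟩ := h
  refine ⟨?_, ?_, ?_⟩ <;> omega

theorem tau_neg {p q : ℤ} (hp : p ≠ 0) (hq : q ≠ 0) (v : ℤ) : tau p q (-v) = - tau p q v := by
  unfold tau
  split_ifs <;> omega

theorem tau_tau {p q : ℤ} (hp : p ≠ 0) (hq : q ≠ 0) (v : ℤ) : tau p q (tau p q v) = v := by
  unfold tau
  split_ifs <;> omega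

theorem tau_injective {p q : ℤ} (hp : p ≠ 0) (hq : q ≠ 0) : Function.Injective (tau p q) :=
  Function.LeftInverse.injective (tau_tau hp hq)

theorem tau_site {m : ℕ} {p q v : ℤ} (hp : Site m p) (hq : Site m q) (hv : Site m v) :
    Site m (tau p q v) := by
  unfold tau
  split_ifs
  · exact hq
  · exact hp
  · exact hq.neg
  · exact hp.neg
  · exact hv

/-- Conjugation of a reflection by an odd injective map. -/
theorem map_tau {g : ℤ → ℤ} (hg : Function.Injective g) (hodd : ∀ v, g (-v) = - g v)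
    (p q v : ℤ) : g (tau p q v) = tau (g p) (g q) (g v) := by
  have h1 : g v = g p ↔ v = p := hg.eq_iff
  have h2 : g v = g q ↔ v = q := hg.eq_iff
  have h3 : g v = - g p ↔ v = -p := by rw [← hodd, hg.eq_iff]
  have h4 : g v = - g q ↔ v = -q := by rw [← hodd, hg.eq_iff]
  unfold tau
  simp only [h1, h2, h3, h4]
  split_ifs
  · rfl
  · rfl
  · exact hodd q
  · exact hodd p
  · rfl

theorem tau_cases (p q v : ℤ) :
    (v = p ∧ tau p q v = q) ∨ (v = q ∧ tau p q v = p) ∨ (v = -p ∧ tau p q v = -q) ∨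
    (v = -q ∧ tau p q v = -p) ∨ (v ≠ p ∧ v ≠ q ∧ v ≠ -p ∧ v ≠ -q ∧ tau p q v = v) := by
  unfold tau
  split_ifs <;> omega

/-- The elementary moves. -/
abbrev mv (k : ℕ) (v : ℤ) : ℤ := tau (2 * (k : ℤ) - 1) (2 * (k : ℤ) + 1) v

theorem mv_neg (k : ℕ) (v : ℤ) : mv k (-v) = - mv k v :=
  tau_neg (by omega) (by omega) v

theorem mv_mv (k : ℕ) (v : ℤ) : mv k (mv k v) = v :=
  tau_tau (by omega) (by omega) v

theorem mv_injective (k : ℕ) : Function.Injective (mv k) :=
  tau_injective (by omega) (by omega)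

theorem site_two_mul_add_one {m k : ℕ} (hk : k < m) : Site m (2 * (k : ℤ) + 1) := by
  refine ⟨?_, ?_, ?_⟩ <;> omega

theorem site_two_mul_sub_one {m k : ℕ} (hk : k < m) : Site m (2 * (k : ℤ) - 1) := by
  refine ⟨?_, ?_, ?_⟩ <;> omega

theorem mv_site {m k : ℕ} (hk : k < m) {v : ℤ} (hv : Site m v) : Site m (mv k v) :=
  tau_site (site_two_mul_sub_one hk) (site_two_mul_add_one hk) hv

/-- An elementary move moves a value by `-2`, `0` or `2`; here is the list of cases. -/
theorem mv_cases (k : ℕ) (v : ℤ) :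
    (v = 2 * (k : ℤ) - 1 ∧ mv k v = v + 2) ∨ (v = -(2 * (k : ℤ)) - 1 ∧ mv k v = v + 2) ∨
    (v = 2 * (k : ℤ) + 1 ∧ mv k v = v - 2) ∨ (v = -(2 * (k : ℤ)) + 1 ∧ mv k v = v - 2) ∨
    (v ≠ 2 * (k : ℤ) - 1 ∧ v ≠ -(2 * (k : ℤ)) - 1 ∧ v ≠ 2 * (k : ℤ) + 1 ∧
      v ≠ -(2 * (k : ℤ)) + 1 ∧ mv k v = v) := by
  unfold mv tau
  split_ifs <;> omega

/-- An elementary move reverses the order of an adjacent pair only. -/
theorem mv_order {k : ℕ} {u v : ℤ} (hu : u % 2 = 1) (hv : v % 2 = 1) (huv : u ≤ v)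
    (h : mv k v < mv k u) :
    (u = 2 * (k : ℤ) - 1 ∧ v = 2 * (k : ℤ) + 1) ∨
    (u = -(2 * (k : ℤ)) - 1 ∧ v = -(2 * (k : ℤ)) + 1) := by
  rcases mv_cases k u with h1 | h1 | h1 | h1 | h1 <;>
  rcases mv_cases k v with h2 | h2 | h2 | h2 | h2 <;> omega

/-- The key combinatorial fact, first half: a move that brings the two exchanged values closer
to each other is never blocked. -/
theorem not_blocked {m k : ℕ} {p q u v : ℤ} (hp : Site m p) (hq : Site m q) (hpq : p < q)
    (hsw : mv k p ≠ q) (hnet : mv k q - mv k p < q - p)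
    (hu : u % 2 = 1) (hv : v % 2 = 1) (huv : u ≤ v) (htau : tau p q u ≤ tau p q v) :
    mv k u ≤ mv k v := by
  by_contra hcon
  push Not at hcon
  have h0 := mv_order hu hv huv hcon
  obtain ⟨hp1, -, -⟩ := hp
  obtain ⟨hq1, -, -⟩ := hq
  have hcp := mv_cases k p
  have hcq := mv_cases k q
  have h3 := tau_cases p q u
  have h4 := tau_cases p q v
  rcases h0 with ⟨rfl, rfl⟩ | ⟨rfl, rfl⟩ <;>
  · rcases hcp with h1 | h1 | h1 | h1 | h1 <;>
    rcases hcq with h2 | h2 | h2 | h2 | h2 <;> omega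

/-- The key combinatorial fact, second half: a move that does not change the distance of the
two exchanged values is blocked before the exchange iff it is blocked after the exchange. -/
theorem blocked_iff {m k : ℕ} {p q u v : ℤ} (hp : Site m p) (hq : Site m q) (hpq : p < q)
    (hnet : mv k q - mv k p = q - p)
    (hu : u % 2 = 1) (hv : v % 2 = 1) (huv : u ≤ v) (htau : tau p q u ≤ tau p q v)
    (h : mv k u ≤ mv k v) :
    mv k (tau p q u) ≤ mv k (tau p q v) := by
  by_contra hcon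
  push Not at hcon
  have hpar : ∀ w : ℤ, w % 2 = 1 → tau p q w % 2 = 1 := by
    intro w hw
    obtain ⟨hp1, -, -⟩ := hp
    obtain ⟨hq1, -, -⟩ := hq
    unfold tau
    split_ifs <;> omega
  have h0 := mv_order (hpar u hu) (hpar v hv) htau hcon
  have hu' : u = tau p q (tau p q u) := (tau_tau hp.ne_zero hq.ne_zero u).symm
  have hv' : v = tau p q (tau p q v) := (tau_tau hp.ne_zero hq.ne_zero v).symm
  obtain ⟨hp1, -, -⟩ := hp
  obtain ⟨hq1, -, -⟩ := hq
  generalize tau p q u = u' at *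
  generalize tau p q v = v' at *
  subst hu' hv'
  have hcp := mv_cases k p
  have hcq := mv_cases k q
  have hcu := mv_cases k (tau p q u')
  have hcv := mv_cases k (tau p q v')
  have h3 : tau p q u' = if u' = p then q else if u' = q then p else if u' = -p then -q
    else if u' = -q then -p else u' := rfl
  have h4 : tau p q v' = if v' = p then q else if v' = q then p else if v' = -p then -q
    else if v' = -q then -p else v' := rfl
  generalize tau p q u' = u at *
  generalize tau p q v' = v at *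
  rcases h0 with ⟨rfl, rfl⟩ | ⟨rfl, rfl⟩ <;>
  · rcases hcp with h1 | h1 | h1 | h1 | h1 <;>
    rcases hcq with h2 | h2 | h2 | h2 | h2 <;> omega

end Pool.Agent.Lib.MP_8d00da_gt
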