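import Pool.Agent.Lib.MP_8d00da_gt.Gap
import Pool.Agent.Lib.MP_8d00da_gt.Refl

/-!
# The discrete model

States are signed placements of labelled particles on the odd integers of absolute value less than
`2 m`, subject to order constraints between literals. The chain exchanges the contents of adjacent
sites (symmetrically with respect to the origin). The Lipschitz seminorm with respect to the
reflections `tau p q`, with weights `W q - W p`, is contracted.
-/

open Finset

namespace Pool.Agent.Lib.MP_8d00da_gt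

variable {ι : Type*}

/-- The value of a literal: `(i, true)` stands for `x i` and `(i, false)` for `- x i`. -/
def lv (x : ι → ℤ) (a : ι × Bool) : ℤ := if a.2 then x a.1 else - x a.1

/-- The opposite literal. -/
def nl (a : ι × Bool) : ι × Bool := (a.1, !a.2)

theorem lv_nl (x : ι → ℤ) (a : ι × Bool) : lv x (nl a) = - lv x a := by
  unfold lv nl
  rcases a with ⟨i, b⟩
  cases b <;> simp

/-- Valid states. -/
structure Valid (m : ℕ) (E : Set ((ι × Bool) × (ι × Bool))) (x : ι → ℤ) : Prop where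
  site : ∀ i, Site m (x i)
  inj : ∀ i j, i ≠ j → x i ≠ x j ∧ x i ≠ - x j
  order : ∀ e ∈ E, lv x e.1 ≤ lv x e.2

theorem lv_comp {g : ℤ → ℤ} (hodd : ∀ v, g (-v) = - g v) (x : ι → ℤ) (a : ι × Bool) :
    lv (fun i => g (x i)) a = g (lv x a) := by
  unfold lv
  split_ifs
  · rfl
  · rw [hodd]

theorem Valid.lv_site {m : ℕ} {E : Set ((ι × Bool) × (ι × Bool))} {x : ι → ℤ} (hx : Valid m E x)
    (a : ι × Bool) : Site m (lv x a) := by
  unfold lv
  split_ifs
  · exact hx.site _
  · exact (hx.site _).neg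

theorem Valid.lv_inj {m : ℕ} {E : Set ((ι × Bool) × (ι × Bool))} {x : ι → ℤ} (hx : Valid m E x)
    {a b : ι × Bool} (h : lv x a = lv x b) : a = b := by
  rcases a with ⟨i, s⟩
  rcases b with ⟨j, t⟩
  by_cases hij : i = j
  · subst hij
    have h0 := (hx.site i).ne_zero
    have : s = t := by
      unfold lv at h
      cases s <;> cases t <;> simp at h ⊢ <;> omega
    rw [this]
  · exfalso
    obtain ⟨h1, h2⟩ := hx.inj i j hij
    unfold lv at h
    cases s <;> cases t <;> simp at h
    · exact h1 (by omega)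
    · exact h2 (by omega)
    · exact h2 (by omega)
    · exact h1 (by omega)

/-- Applying a reflection to a state. -/
def tauS (p q : ℤ) (x : ι → ℤ) : ι → ℤ := fun i => tau p q (x i)

/-- Applying an elementary move to a state. -/
def mvS (k : ℕ) (x : ι → ℤ) : ι → ℤ := fun i => mv k (x i)

theorem mvS_mvS (k : ℕ) (x : ι → ℤ) : mvS k (mvS k x) = x := by
  funext i
  exact mv_mv k (x i)

theorem tauS_tauS {p q : ℤ} (hp : p ≠ 0) (hq : q ≠ 0) (x : ι → ℤ) :
    tauS p q (tauS p q x) = x := by
  funext i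
  exact tau_tau hp hq (x i)

theorem lv_mvS (k : ℕ) (x : ι → ℤ) (a : ι × Bool) : lv (mvS k x) a = mv k (lv x a) :=
  lv_comp (mv_neg k) x a

theorem lv_tauS {p q : ℤ} (hp : p ≠ 0) (hq : q ≠ 0) (x : ι → ℤ) (a : ι × Bool) :
    lv (tauS p q x) a = tau p q (lv x a) :=
  lv_comp (tau_neg hp hq) x a

/-- A state moved by an elementary move is valid iff the order constraints hold. -/
theorem Valid.mvS_of_order {m k : ℕ} (hk : k < m) {E : Set ((ι × Bool) × (ι × Bool))} {x : ι → ℤ}
    (hx : Valid m E x) (h : ∀ e ∈ E, mv k (lv x e.1) ≤ mv k (lv x e.2)) : Valid m E (mvS k x) where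
  site := fun i => mv_site hk (hx.site i)
  inj := fun i j hij => by
    obtain ⟨h1, h2⟩ := hx.inj i j hij
    refine ⟨fun h3 => h1 (mv_injective k h3), fun h3 => h2 ?_⟩
    unfold mvS at h3
    rw [← mv_neg] at h3
    exact mv_injective k h3
  order := fun e he => by
    rw [lv_mvS, lv_mvS]
    exact h e he

theorem valid_of_net_neg {m k : ℕ} (hk : k < m) {E : Set ((ι × Bool) × (ι × Bool))} {x : ι → ℤ}
    {p q : ℤ} (hp : Site m p) (hq : Site m q) (hpq : p < q)
    (hnet : mv k q - mv k p < q - p) (hsw : mv k p ≠ q)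
    (hx : Valid m E x) (hy : Valid m E (tauS p q x)) : Valid m E (mvS k x) := by
  refine hx.mvS_of_order hk fun e he => ?_
  have h1 := hx.order e he
  have h2 := hy.order e he
  rw [lv_tauS hp.ne_zero hq.ne_zero, lv_tauS hp.ne_zero hq.ne_zero] at h2
  exact not_blocked hp hq hpq hsw hnet (hx.lv_site _).1 (hx.lv_site _).1 h1 h2

theorem valid_of_net_zero {m k : ℕ} (hk : k < m) {E : Set ((ι × Bool) × (ι × Bool))} {x : ι → ℤ}
    {p q : ℤ} (hp : Site m p) (hq : Site m q) (hpq : p < q)
    (hnet : mv k q - mv k p = q - p)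
    (hx : Valid m E x) (hy : Valid m E (tauS p q x)) (hv : Valid m E (mvS k x)) :
    Valid m E (mvS k (tauS p q x)) := by
  refine hy.mvS_of_order hk fun e he => ?_
  have h1 := hx.order e he
  have h2 := hy.order e he
  have h3 := hv.order e he
  rw [lv_tauS hp.ne_zero hq.ne_zero, lv_tauS hp.ne_zero hq.ne_zero] at h2 ⊢
  rw [lv_mvS, lv_mvS] at h3
  exact blocked_iff hp hq hpq hnet (hx.lv_site _).1 (hx.lv_site _).1 h1 h2 h3

open Classical in
/-- One step of the chain: move if allowed. -/
noncomputable def stp (m : ℕ) (E : Set ((ι × Bool) × (ι × Bool))) (k : ℕ) (x : ι → ℤ) : ι → ℤ :=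
  if Valid m E (mvS k x) then mvS k x else x

theorem stp_of_valid {m : ℕ} {E : Set ((ι × Bool) × (ι × Bool))} {k : ℕ} {x : ι → ℤ}
    (h : Valid m E (mvS k x)) : stp m E k x = mvS k x := by
  unfold stp
  rw [if_pos h]

theorem stp_of_not_valid {m : ℕ} {E : Set ((ι × Bool) × (ι × Bool))} {k : ℕ} {x : ι → ℤ}
    (h : ¬ Valid m E (mvS k x)) : stp m E k x = x := by
  unfold stp
  rw [if_neg h]

theorem stp_valid {m : ℕ} {E : Set ((ι × Bool) × (ι × Bool))} {k : ℕ} {x : ι → ℤ}
    (hx : Valid m E x) : Valid m E (stp m E k x) := by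
  by_cases h : Valid m E (mvS k x)
  · rw [stp_of_valid h]
    exact h
  · rw [stp_of_not_valid h]
    exact hx

theorem stp_stp {m : ℕ} {E : Set ((ι × Bool) × (ι × Bool))} {k : ℕ} {x : ι → ℤ}
    (hx : Valid m E x) : stp m E k (stp m E k x) = x := by
  by_cases h : Valid m E (mvS k x)
  · rw [stp_of_valid h]
    have h2 : Valid m E (mvS k (mvS k x)) := by
      rw [mvS_mvS]
      exact hx
    rw [stp_of_valid h2, mvS_mvS]
  · rw [stp_of_not_valid h, stp_of_not_valid h]

/-- The Lipschitz seminorm is at most `M`. If `b` is true only pairs of positive sites are used. -/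
def Lp (b : Bool) (m : ℕ) (E : Set ((ι × Bool) × (ι × Bool))) (W : ℤ → ℝ) (g : (ι → ℤ) → ℝ)
    (M : ℝ) : Prop :=
  ∀ x, Valid m E x → ∀ p q, Site m p → Site m q → p < q → (b = true → 0 < p) →
    Valid m E (tauS p q x) → g (tauS p q x) - g x ≤ M * (W q - W p)

/-- Weight of an elementary move. -/
def wt (W : ℤ → ℝ) (k : ℕ) : ℝ := W (2 * (k : ℤ) + 1) - W (2 * (k : ℤ) - 1)

theorem W_mv {W : ℤ → ℝ} (hW : ∀ v, W (-v) = - W v) (k : ℕ) (v : ℤ) :
    W (mv k v) - W v = ((mv k v - v : ℤ) : ℝ) / 2 * wt W k := by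
  unfold wt
  rcases mv_cases k v with ⟨h1, h2⟩ | ⟨h1, h2⟩ | ⟨h1, h2⟩ | ⟨h1, h2⟩ | ⟨-, -, -, -, h2⟩
  · rw [h2, h1]
    have e : (2 * (k : ℤ) - 1 + 2) = 2 * (k : ℤ) + 1 := by ring
    rw [e]
    push_cast
    ring
  · have e1 : v + 2 = -(2 * (k : ℤ) - 1) := by rw [h1]; ring
    have e2 : v = -(2 * (k : ℤ) + 1) := by rw [h1]; ring
    rw [h2]
    have e3 : ((v + 2 - v : ℤ) : ℝ) = 2 := by push_cast; ring
    rw [e3, e1, hW]
    nth_rewrite 1 [e2]
    rw [hW]
    ring
  · have e1 : v - 2 = 2 * (k : ℤ) - 1 := by rw [h1]; ring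
    rw [h2]
    have e3 : ((v - 2 - v : ℤ) : ℝ) = -2 := by push_cast; ring
    rw [e3, e1, h1]
    ring
  · have e1 : v - 2 = -(2 * (k : ℤ) + 1) := by rw [h1]; ring
    have e2 : v = -(2 * (k : ℤ) - 1) := by rw [h1]; ring
    rw [h2]
    have e3 : ((v - 2 - v : ℤ) : ℝ) = -2 := by push_cast; ring
    rw [e3, e1, hW]
    nth_rewrite 1 [e2]
    rw [hW]
    ring
  · rw [h2]
    simp

theorem mv_lt {k : ℕ} {p q : ℤ} (hp : p % 2 = 1) (hq : q % 2 = 1) (hpq : p < q)
    (hsw : mv k p ≠ q) : mv k p < mv k q := by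
  rcases mv_cases k p with h1 | h1 | h1 | h1 | h1 <;>
  rcases mv_cases k q with h2 | h2 | h2 | h2 | h2 <;> omega

/-- A pair of sites exchanged by an elementary move. -/
theorem tau_eq_mv {k : ℕ} {p q : ℤ} (hpq : p < q) (hsw : mv k p = q) (v : ℤ) :
    tau p q v = mv k v := by
  have h := mv_cases k p
  have hp : (p = 2 * (k : ℤ) - 1 ∧ q = 2 * (k : ℤ) + 1) ∨
      (p = -(2 * (k : ℤ)) - 1 ∧ q = -(2 * (k : ℤ)) + 1) := by omega
  rcases hp with ⟨rfl, rfl⟩ | ⟨rfl, rfl⟩
  · rfl
  · unfold mv tau
    split_ifs <;> omega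

theorem mv_pos {k : ℕ} {p : ℤ} (hk : 1 ≤ k) (hp : 0 < p) : 0 < mv k p := by
  rcases mv_cases k p with h | h | h | h | h <;> omega

/-- The increment estimate for a single move. -/
theorem increment_le {b : Bool} {m k : ℕ} (hk : k < m) (hkb : b = true → 1 ≤ k)
    {E : Set ((ι × Bool) × (ι × Bool))} {W : ℤ → ℝ}
    (hW : ∀ v, W (-v) = - W v) (hwt : 0 ≤ wt W k) {g : (ι → ℤ) → ℝ} {M : ℝ} (hM : 0 ≤ M)
    (hL : Lp b m E W g M) {x : ι → ℤ} {p q : ℤ} (hx : Valid m E x) (hp : Site m p) (hq : Site m q)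
    (hpq : p < q) (hpb : b = true → 0 < p) (hy : Valid m E (tauS p q x)) :
    (g (stp m E k (tauS p q x)) - g (stp m E k x)) - (g (tauS p q x) - g x) ≤
      M * ((W (mv k q) - W (mv k p)) - (W q - W p)) +
        2 * (M * (W q - W p) - (g (tauS p q x) - g x)) := by
  have hd : g (tauS p q x) - g x ≤ M * (W q - W p) := hL x hx p q hp hq hpq hpb hy
  have hkk : b = true → 0 < 2 * (k : ℤ) - 1 := fun h => by have := hkb h; omega
  by_cases hsw : mv k p = q
  · have hy' : tauS p q x = mvS k x := by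
      funext i
      exact tau_eq_mv hpq hsw (x i)
    have hqp : mv k q = p := by rw [← hsw, mv_mv]
    rw [hy'] at hy ⊢
    have h2 : Valid m E (mvS k (mvS k x)) := by
      rw [mvS_mvS]
      exact hx
    rw [stp_of_valid hy, stp_of_valid h2, mvS_mvS, hsw, hqp]
    nlinarith
  · have key : g (stp m E k (tauS p q x)) - g (stp m E k x) ≤ M * (W (mv k q) - W (mv k p)) := by
      have hqW := W_mv hW k q
      have hpW := W_mv hW k p
      have hconj : mvS k (tauS p q x) = tauS (mv k p) (mv k q) (mvS k x) := by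
        funext i
        exact map_tau (mv_injective k) (mv_neg k) p q (x i)
      have hx' : tauS p q (tauS p q x) = x := tauS_tauS hp.ne_zero hq.ne_zero x
      -- the net displacement
      have hnetR : (W (mv k q) - W (mv k p)) - (W q - W p) =
          (((mv k q - mv k p) - (q - p) : ℤ) : ℝ) / 2 * wt W k := by
        have : (((mv k q - mv k p) - (q - p) : ℤ) : ℝ) =
            ((mv k q - q : ℤ) : ℝ) - ((mv k p - p : ℤ) : ℝ) := by
          push_cast
          ring
        rw [this]
        linarith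
      have hpar : ∀ v : ℤ, (mv k v - v) % 2 = 0 := by
        intro v
        rcases mv_cases k v with h | h | h | h | h <;> omega
      have hparq := hpar q
      have hparp := hpar p
      by_cases hVx : Valid m E (mvS k x) <;> by_cases hVy : Valid m E (mvS k (tauS p q x))
      · rw [stp_of_valid hVx, stp_of_valid hVy, hconj]
        exact hL _ hVx _ _ (mv_site hk hp) (mv_site hk hq) (mv_lt hp.1 hq.1 hpq hsw)
          (fun h => mv_pos (hkb h) (hpb h)) (by rw [← hconj]; exact hVy)
      · -- only `x` can move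
        have hnet : 2 ≤ (mv k q - mv k p) - (q - p) := by
          have h1 : ¬ (mv k q - mv k p < q - p) := fun hneg => hVy
            (valid_of_net_neg hk hp hq hpq hneg hsw hy (by rw [hx']; exact hx))
          have h2 : ¬ (mv k q - mv k p = q - p) := fun hz => hVy
            (valid_of_net_zero hk hp hq hpq hz hx hy hVx)
          omega
        have h3 : (1 : ℝ) ≤ (((mv k q - mv k p) - (q - p) : ℤ) : ℝ) / 2 := by
          have : (2 : ℝ) ≤ (((mv k q - mv k p) - (q - p) : ℤ) : ℝ) := by exact_mod_cast hnet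
          linarith
        have h4 : wt W k ≤ (W (mv k q) - W (mv k p)) - (W q - W p) := by
          rw [hnetR]
          nlinarith
        rw [stp_of_valid hVx, stp_of_not_valid hVy]
        have h5 : g x - g (mvS k x) ≤ M * wt W k := by
          have h6 := hL (mvS k x) hVx (2 * (k : ℤ) - 1) (2 * (k : ℤ) + 1)
            (site_two_mul_sub_one hk) (site_two_mul_add_one hk) (by omega) hkk
          have h7 : tauS (2 * (k : ℤ) - 1) (2 * (k : ℤ) + 1) (mvS k x) = x := mvS_mvS k x
          rw [h7] at h6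
          exact h6 hx
        nlinarith
      · -- only `y` can move
        have hnet : 2 ≤ (mv k q - mv k p) - (q - p) := by
          have h1 : ¬ (mv k q - mv k p < q - p) := fun hneg => hVx
            (valid_of_net_neg hk hp hq hpq hneg hsw hx hy)
          have h2 : ¬ (mv k q - mv k p = q - p) := fun hz => hVx (by
            have := valid_of_net_zero hk hp hq hpq hz hy (by rw [hx']; exact hx) hVy
            rwa [hx'] at this)
          omega
        have h3 : (1 : ℝ) ≤ (((mv k q - mv k p) - (q - p) : ℤ) : ℝ) / 2 := by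
          have : (2 : ℝ) ≤ (((mv k q - mv k p) - (q - p) : ℤ) : ℝ) := by exact_mod_cast hnet
          linarith
        have h4 : wt W k ≤ (W (mv k q) - W (mv k p)) - (W q - W p) := by
          rw [hnetR]
          nlinarith
        rw [stp_of_not_valid hVx, stp_of_valid hVy]
        have h5 : g (mvS k (tauS p q x)) - g (tauS p q x) ≤ M * wt W k :=
          hL (tauS p q x) hy (2 * (k : ℤ) - 1) (2 * (k : ℤ) + 1)
            (site_two_mul_sub_one hk) (site_two_mul_add_one hk) (by omega) hkk hVy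
        nlinarith
      · -- nothing moves
        have hnet : 0 ≤ (mv k q - mv k p) - (q - p) := by
          have h1 : ¬ (mv k q - mv k p < q - p) := fun hneg => hVx
            (valid_of_net_neg hk hp hq hpq hneg hsw hx hy)
          omega
        have h3 : (0 : ℝ) ≤ (((mv k q - mv k p) - (q - p) : ℤ) : ℝ) / 2 := by
          have : (0 : ℝ) ≤ (((mv k q - mv k p) - (q - p) : ℤ) : ℝ) := by exact_mod_cast hnet
          linarith
        have h4 : 0 ≤ (W (mv k q) - W (mv k p)) - (W q - W p) := by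
          rw [hnetR]
          positivity
        rw [stp_of_not_valid hVx, stp_of_not_valid hVy]
        nlinarith
    nlinarith

end Pool.Agent.Lib.MP_8d00da_gt
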