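import Mathlib

/-!
# From bounded `C¹` functions to Lipschitz functions
-/

open Finset MeasureTheory Filter Topology

namespace Pool.Agent.Lib.MP_8d00da_gt

variable {ι : Type*} [Fintype ι] [DecidableEq ι]

/-- The Poincaré inequality for one function, on a set `K`, without normalization. -/
def PIneq (κ : ℝ) (π : Measure (ι → ℝ)) (K : Set (ι → ℝ)) (F : (ι → ℝ) → ℝ) : Prop :=
  κ * (π.real K * (∫ x in K, F x ^ 2 ∂π) - (∫ x in K, F x ∂π) ^ 2) ≤
      π.real K * ∫ x in K, ∑ i, (fderiv ℝ F x (Pi.single i 1)) ^ 2 ∂π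

theorem norm_single_le (i : ι) : ‖(Pi.single i 1 : ι → ℝ)‖ ≤ 1 := by
  rw [pi_norm_le_iff_of_nonneg zero_le_one]
  intro j
  by_cases hj : j = i
  · subst hj; simp
  · simp [Pi.single_eq_of_ne hj]

theorem abs_fderiv_le {F : (ι → ℝ) → ℝ} {L : NNReal} (hF : LipschitzWith L F) (x : ι → ℝ) (i : ι) :
    |fderiv ℝ F x (Pi.single i 1)| ≤ L := by
  have h1 := norm_fderiv_le_of_lipschitz ℝ hF (x₀ := x)
  have h2 := (fderiv ℝ F x).le_opNorm (Pi.single i 1)
  rw [Real.norm_eq_abs] at h2
  have h3 := mul_le_mul h1 (norm_single_le i) (norm_nonneg _) L.coe_nonneg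
  rw [mul_one] at h3
  exact h2.trans h3

theorem sq_fderiv_le {F : (ι → ℝ) → ℝ} {L : NNReal} (hF : LipschitzWith L F) (x : ι → ℝ) (i : ι) :
    (fderiv ℝ F x (Pi.single i 1)) ^ 2 ≤ (L : ℝ) ^ 2 := by
  rw [← sq_abs]
  exact pow_le_pow_left₀ (abs_nonneg _) (abs_fderiv_le hF x i) 2

theorem measurable_grad (F : (ι → ℝ) → ℝ) :
    Measurable fun x => ∑ i, (fderiv ℝ F x (Pi.single i 1)) ^ 2 :=
  Finset.measurable_sum _ fun i _ => (measurable_fderiv_apply_const ℝ F (Pi.single i 1)).pow_const 2

theorem grad_bound {F : (ι → ℝ) → ℝ} {L : NNReal} (hF : LipschitzWith L F) (x : ι → ℝ) :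
    ‖∑ i, (fderiv ℝ F x (Pi.single i 1)) ^ 2‖ ≤ Fintype.card ι * (L : ℝ) ^ 2 := by
  rw [Real.norm_eq_abs, abs_of_nonneg (Finset.sum_nonneg fun i _ => sq_nonneg _)]
  calc ∑ i, (fderiv ℝ F x (Pi.single i 1)) ^ 2 ≤ ∑ _i : ι, (L : ℝ) ^ 2 :=
        Finset.sum_le_sum fun i _ => sq_fderiv_le hF x i
    _ = _ := by rw [Finset.sum_const, Finset.card_univ, nsmul_eq_mul]

theorem integrable_grad {π : Measure (ι → ℝ)} [IsFiniteMeasure π] {F : (ι → ℝ) → ℝ} {L : NNReal}
    (hF : LipschitzWith L F) :
    Integrable (fun x => ∑ i, (fderiv ℝ F x (Pi.single i 1)) ^ 2) π :=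
  Integrable.of_bound (measurable_grad F).aestronglyMeasurable _
    (Eventually.of_forall fun x => grad_bound hF x)

/-- the growth bound -/
theorem lip_growth {F : (ι → ℝ) → ℝ} {L : NNReal} (hF : LipschitzWith L F) (x : ι → ℝ) :
    |F x| ≤ |F 0| + L * ‖x‖ := by
  have h := hF.dist_le_mul x 0
  rw [Real.dist_eq, dist_zero_right] at h
  have := abs_sub_abs_le_abs_sub (F x) (F 0)
  linarith

theorem integrable_dom {π : Measure (ι → ℝ)} [IsFiniteMeasure π]
    (hmom : Integrable (fun x => ‖x‖ ^ 2) π) (a b : ℝ) :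
    Integrable (fun x : ι → ℝ => (a + b * ‖x‖) ^ 2) π := by
  have h1 : Integrable (fun x : ι → ℝ => 2 * a ^ 2 + 2 * b ^ 2 * ‖x‖ ^ 2) π :=
    (integrable_const _).add (hmom.const_mul _)
  refine h1.mono' (by fun_prop) (Eventually.of_forall fun x => ?_)
  rw [Real.norm_eq_abs, abs_of_nonneg (sq_nonneg _)]
  nlinarith [sq_nonneg (a - b * ‖x‖)]

theorem integrable_dom1 {π : Measure (ι → ℝ)} [IsFiniteMeasure π]
    (hmom : Integrable (fun x => ‖x‖ ^ 2) π) (a b : ℝ) :
    Integrable (fun x : ι → ℝ => a + b * ‖x‖) π := by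
  have h0 : Integrable (fun x : ι → ℝ => ‖x‖) π := by
    have h1 : Integrable (fun x : ι → ℝ => 1 + ‖x‖ ^ 2) π := (integrable_const _).add hmom
    refine h1.mono' (by fun_prop) (Eventually.of_forall fun x => ?_)
    rw [norm_norm]
    nlinarith [sq_nonneg (‖x‖ - 1), norm_nonneg x]
  exact (integrable_const _).add (h0.const_mul _)

theorem lipschitz_arctan : LipschitzWith 1 Real.arctan := by
  apply lipschitzWith_of_nnnorm_deriv_le Real.differentiable_arctan
  intro x
  rw [← NNReal.coe_le_coe, coe_nnnorm, Real.deriv_arctan, Real.norm_eq_abs, NNReal.coe_one,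
    abs_of_nonneg (by positivity), div_le_one (by positivity)]
  nlinarith [sq_nonneg x]

/-- First step: unbounded `C¹` Lipschitz functions. -/
theorem PIneq_C1_of_bounded {κ : ℝ} {π : Measure (ι → ℝ)} [IsFiniteMeasure π]
    (hmom : Integrable (fun x => ‖x‖ ^ 2) π) {K : Set (ι → ℝ)}
    (h : ∀ (F : (ι → ℝ) → ℝ) (L : NNReal) (C : ℝ), LipschitzWith L F → ContDiff ℝ 1 F →
      (∀ x, |F x| ≤ C) → PIneq κ π K F)
    {F : (ι → ℝ) → ℝ} {L : NNReal} (hF : LipschitzWith L F) (hF1 : ContDiff ℝ 1 F) :
    PIneq κ π K F := by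
  let G : ℕ → (ι → ℝ) → ℝ := fun n x => ((n : ℝ) + 1) * Real.arctan (F x / ((n : ℝ) + 1))
  have hn : ∀ n : ℕ, (0 : ℝ) < (n : ℝ) + 1 := fun n => by positivity
  have hGlip : ∀ n, LipschitzWith L (G n) := by
    intro n
    refine LipschitzWith.of_dist_le_mul fun x y => ?_
    have h1 := lipschitz_arctan.dist_le_mul (F x / ((n : ℝ) + 1)) (F y / ((n : ℝ) + 1))
    rw [NNReal.coe_one, one_mul, Real.dist_eq, Real.dist_eq, ← sub_div, abs_div,
      abs_of_pos (hn n)] at h1
    have h2 := hF.dist_le_mul x y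
    rw [Real.dist_eq] at h2
    rw [Real.dist_eq]
    simp only [G]
    rw [← mul_sub, abs_mul, abs_of_pos (hn n)]
    calc ((n : ℝ) + 1) * |Real.arctan (F x / (n + 1)) - Real.arctan (F y / (n + 1))|
        ≤ ((n : ℝ) + 1) * (|F x - F y| / (n + 1)) := mul_le_mul_of_nonneg_left h1 (hn n).le
      _ = |F x - F y| := by field_simp
      _ ≤ _ := h2
  have hGC1 : ∀ n, ContDiff ℝ 1 (G n) := fun n =>
    contDiff_const.mul (Real.contDiff_arctan.comp (hF1.div_const _))
  have hGb : ∀ n x, |G n x| ≤ ((n : ℝ) + 1) * (Real.pi / 2) := by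
    intro n x
    simp only [G]
    rw [abs_mul, abs_of_pos (hn n)]
    apply mul_le_mul_of_nonneg_left _ (hn n).le
    rw [abs_le]
    exact ⟨(Real.neg_pi_div_two_lt_arctan _).le, (Real.arctan_lt_pi_div_two _).le⟩
  have hGle : ∀ n x, |G n x| ≤ |F x| := by
    intro n x
    have h1 := lipschitz_arctan.dist_le_mul (F x / ((n : ℝ) + 1)) 0
    rw [NNReal.coe_one, one_mul, Real.dist_eq, Real.dist_eq, Real.arctan_zero, sub_zero, sub_zero,
      abs_div, abs_of_pos (hn n)] at h1
    simp only [G]
    rw [abs_mul, abs_of_pos (hn n)]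
    calc ((n : ℝ) + 1) * |Real.arctan (F x / (n + 1))|
        ≤ ((n : ℝ) + 1) * (|F x| / (n + 1)) := mul_le_mul_of_nonneg_left h1 (hn n).le
      _ = |F x| := by field_simp
  have hGlim : ∀ x, Tendsto (fun n => G n x) atTop (𝓝 (F x)) := by
    intro x
    by_cases h0 : F x = 0
    · simp [G, h0]
    have h1 : Tendsto (fun t : ℝ => t⁻¹ • (Real.arctan (0 + t) - Real.arctan 0)) (𝓝[≠] 0)
        (𝓝 (1 / (1 + (0 : ℝ) ^ 2))) := (Real.hasDerivAt_arctan 0).tendsto_slope_zero
    have h2 : Tendsto (fun n : ℕ => F x / ((n : ℝ) + 1)) atTop (𝓝[≠] 0) := by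
      rw [tendsto_nhdsWithin_iff]
      constructor
      · exact tendsto_const_nhds.div_atTop
          (tendsto_natCast_atTop_atTop.atTop_add tendsto_const_nhds)
      · exact Eventually.of_forall fun n => div_ne_zero h0 (hn n).ne'
    have h3 := (h1.comp h2).const_mul (F x)
    simp only [Function.comp, zero_add, Real.arctan_zero, sub_zero, smul_eq_mul] at h3
    rw [show F x * (1 / (1 + (0 : ℝ) ^ 2)) = F x by ring] at h3
    refine h3.congr fun n => ?_
    simp only [G]
    have := hn n
    field_simp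
  have hGd : ∀ n x i, (fderiv ℝ (G n) x (Pi.single i 1)) ^ 2 ≤ (fderiv ℝ F x (Pi.single i 1)) ^ 2 := by
    intro n x i
    have hd : HasFDerivAt F (fderiv ℝ F x) x := (hF1.differentiable one_ne_zero x).hasFDerivAt
    have h1 : HasFDerivAt (G n) (((n : ℝ) + 1) • ((1 / (1 + (F x * ((n : ℝ) + 1)⁻¹) ^ 2)) •
        (((n : ℝ) + 1)⁻¹ • fderiv ℝ F x))) x := by
      have h2 := ((hd.mul_const (((n : ℝ) + 1)⁻¹)).arctan).const_mul ((n : ℝ) + 1)
      exact h2
    rw [h1.fderiv]
    simp only [ContinuousLinearMap.smul_apply, smul_eq_mul]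
    set d := fderiv ℝ F x (Pi.single i 1)
    have e : ((n : ℝ) + 1) * (1 / (1 + (F x * ((n : ℝ) + 1)⁻¹) ^ 2) * (((n : ℝ) + 1)⁻¹ * d)) =
        (1 / (1 + (F x * ((n : ℝ) + 1)⁻¹) ^ 2)) * d := by
      have := (hn n).ne'
      field_simp
    rw [e, mul_pow]
    have h3 : (1 / (1 + (F x * ((n : ℝ) + 1)⁻¹) ^ 2)) ^ 2 ≤ 1 := by
      apply pow_le_one₀ (by positivity)
      rw [div_le_one (by positivity)]
      nlinarith [sq_nonneg (F x * ((n : ℝ) + 1)⁻¹)]
    nlinarith [sq_nonneg d]
  have hA : Tendsto (fun n => ∫ x in K, G n x ^ 2 ∂π) atTop (𝓝 (∫ x in K, F x ^ 2 ∂π)) := by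
    refine tendsto_integral_of_dominated_convergence (fun x => (|F 0| + L * ‖x‖) ^ 2)
      (fun n => ((hGC1 n).continuous.pow 2).aestronglyMeasurable)
      (integrable_dom hmom _ _).integrableOn ?_ ?_
    · intro n
      filter_upwards with x
      rw [Real.norm_eq_abs, abs_pow]
      exact pow_le_pow_left₀ (abs_nonneg _) ((hGle n x).trans (lip_growth hF x)) 2
    · filter_upwards with x
      exact (hGlim x).pow 2
  have hA1 : Tendsto (fun n => ∫ x in K, G n x ∂π) atTop (𝓝 (∫ x in K, F x ∂π)) := by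
    refine tendsto_integral_of_dominated_convergence (fun x => |F 0| + L * ‖x‖)
      (fun n => (hGC1 n).continuous.aestronglyMeasurable)
      (integrable_dom1 hmom _ _).integrableOn ?_ ?_
    · intro n
      filter_upwards with x
      exact (hGle n x).trans (lip_growth hF x)
    · filter_upwards with x
      exact hGlim x
  have hl := ((tendsto_const_nhds (x := π.real K)).mul hA |>.sub (hA1.pow 2)).const_mul κ
  refine le_of_tendsto' hl fun n => ?_
  refine (h (G n) L _ (hGlip n) (hGC1 n) (hGb n)).trans ?_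
  apply mul_le_mul_of_nonneg_left _ measureReal_nonneg
  exact integral_mono (integrable_grad (hGlip n)).integrableOn (integrable_grad hF).integrableOn
    fun x => Finset.sum_le_sum fun i _ => hGd n x i

open scoped Convolution in
/-- Mollification of Lipschitz functions. -/
theorem exists_mollify {F : (ι → ℝ) → ℝ} {L : NNReal} (hF : LipschitzWith L F) :
    ∃ G : ℕ → (ι → ℝ) → ℝ, (∀ n, LipschitzWith L (G n)) ∧ (∀ n, ContDiff ℝ 1 (G n)) ∧
      (∀ n x, |G n x - F x| ≤ L * (1 / ((n : ℝ) + 1))) ∧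
      ∀ᵐ x : ι → ℝ, ∀ i, Tendsto (fun n => fderiv ℝ (G n) x (Pi.single i 1)) atTop
        (𝓝 (fderiv ℝ F x (Pi.single i 1))) := by
  have hn : ∀ n : ℕ, (0 : ℝ) < 1 / ((n : ℝ) + 1) := fun n => by positivity
  let φ : ℕ → ContDiffBump (0 : ι → ℝ) := fun n =>
    ⟨1 / ((n : ℝ) + 1) / 2, 1 / ((n : ℝ) + 1), half_pos (hn n), half_lt_self (hn n)⟩
  have hloc : LocallyIntegrable F volume := hF.continuous.locallyIntegrable
  let G : ℕ → (ι → ℝ) → ℝ := fun n =>
    ((φ n).normed volume) ⋆[ContinuousLinearMap.lsmul ℝ ℝ, volume] F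
  have hGdef : ∀ n x, G n x = ∫ t, (φ n).normed volume t * F (x - t) := fun n x => rfl
  have hconv : ∀ n x, Integrable (fun t => (φ n).normed volume t * F (x - t)) := by
    intro n x
    have hc : Continuous fun t => (φ n).normed volume t * F (x - t) :=
      ((φ n).continuous_normed).mul (hF.continuous.comp (continuous_const.sub continuous_id))
    exact hc.integrable_of_hasCompactSupport
      ((φ n).hasCompactSupport_normed.mul_right)
  have hC1 : ∀ n, ContDiff ℝ 1 (G n) := fun n =>
    (φ n).hasCompactSupport_normed.contDiff_convolution_left _ (φ n).contDiff_normed hloc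
  have hGlip : ∀ n, LipschitzWith L (G n) := by
    intro n
    refine LipschitzWith.of_dist_le_mul fun x y => ?_
    rw [Real.dist_eq, hGdef, hGdef, ← integral_sub (hconv n x) (hconv n y)]
    have h1 : ∀ t, ‖(φ n).normed volume t * F (x - t) - (φ n).normed volume t * F (y - t)‖ ≤
        (φ n).normed volume t * (L * dist x y) := by
      intro t
      rw [← mul_sub, norm_mul, Real.norm_eq_abs, Real.norm_eq_abs,
        abs_of_nonneg ((φ n).nonneg_normed t)]
      apply mul_le_mul_of_nonneg_left _ ((φ n).nonneg_normed t)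
      have := hF.dist_le_mul (x - t) (y - t)
      rw [Real.dist_eq] at this
      simpa using this
    have h2 := norm_integral_le_of_norm_le ((φ n).integrable_normed.mul_const (L * dist x y))
      (Eventually.of_forall h1)
    rw [integral_mul_const, (φ n).integral_normed, one_mul] at h2
    exact h2
  refine ⟨G, hGlip, hC1, ?_, ?_⟩
  · intro n x
    have h := (φ n).dist_normed_convolution_le (x₀ := x) (μ := volume)
      hF.continuous.aestronglyMeasurable (ε := L * (1 / ((n : ℝ) + 1))) (fun y hy => by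
        refine (hF.dist_le_mul y x).trans (mul_le_mul_of_nonneg_left ?_ L.coe_nonneg)
        exact (Metric.mem_ball.1 hy).le)
    exact h
  · -- derivatives
    have hderiv : ∀ n x i, fderiv ℝ (G n) x (Pi.single i 1) =
        (((φ n).normed volume) ⋆[ContinuousLinearMap.lsmul ℝ ℝ, volume]
          (fun y => fderiv ℝ F y (Pi.single i 1))) x := by
      intro n x i
      set e : ι → ℝ := Pi.single i 1 with he
      have h1 : HasLineDerivAt ℝ (G n) (fderiv ℝ (G n) x e) x e :=
        ((hC1 n).differentiable one_ne_zero x).hasFDerivAt.hasLineDerivAt _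
      have h2 := HasDerivAt.tendsto_slope_zero h1
      simp only [zero_add, zero_smul, add_zero] at h2
      have hs : Tendsto (fun k : ℕ => 1 / ((k : ℝ) + 1)) atTop (𝓝[≠] 0) := by
        rw [tendsto_nhdsWithin_iff]
        exact ⟨tendsto_one_div_add_atTop_nhds_zero_nat, Eventually.of_forall fun k => (hn k).ne'⟩
      have h3 := h2.comp hs
      refine tendsto_nhds_unique h3 ?_
      have h4 : ∀ k : ℕ, (fun t : ℝ => t⁻¹ • (G n (x + t • e) - G n x)) (1 / ((k : ℝ) + 1)) =
          ∫ t, (φ n).normed volume t *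
            ((1 / ((k : ℝ) + 1))⁻¹ * (F (x - t + (1 / ((k : ℝ) + 1)) • e) - F (x - t))) := by
        intro k
        simp only
        rw [hGdef, hGdef, ← integral_sub (hconv n _) (hconv n x), smul_eq_mul,
          ← integral_const_mul]
        congr 1
        funext t
        rw [show x + (1 / ((k : ℝ) + 1)) • e - t = x - t + (1 / ((k : ℝ) + 1)) • e by abel]
        ring
      have h5 : Tendsto (fun k : ℕ => ∫ t, (φ n).normed volume t *
            ((1 / ((k : ℝ) + 1))⁻¹ * (F (x - t + (1 / ((k : ℝ) + 1)) • e) - F (x - t)))) atTop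
          (𝓝 (∫ t, (φ n).normed volume t * fderiv ℝ F (x - t) e)) := by
        refine tendsto_integral_of_dominated_convergence (fun t => (φ n).normed volume t * L)
          ?_ ((φ n).integrable_normed.mul_const _) ?_ ?_
        · intro k
          refine Continuous.aestronglyMeasurable ?_
          refine ((φ n).continuous_normed).mul (continuous_const.mul ?_)
          exact (hF.continuous.comp (by fun_prop)).sub (hF.continuous.comp (by fun_prop))
        · intro k
          filter_upwards with t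
          rw [norm_mul, Real.norm_eq_abs, abs_of_nonneg ((φ n).nonneg_normed t)]
          apply mul_le_mul_of_nonneg_left _ ((φ n).nonneg_normed t)
          have h6 := hF.dist_le_mul (x - t + (1 / ((k : ℝ) + 1)) • e) (x - t)
          rw [dist_self_add_left, Real.dist_eq, norm_smul, Real.norm_eq_abs,
            abs_of_pos (hn k)] at h6
          have h7 := norm_single_le i
          rw [Real.norm_eq_abs, abs_mul, abs_of_pos (inv_pos.2 (hn k))]
          calc (1 / ((k : ℝ) + 1))⁻¹ * |F (x - t + (1 / ((k : ℝ) + 1)) • e) - F (x - t)|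
              ≤ (1 / ((k : ℝ) + 1))⁻¹ * (L * (1 / ((k : ℝ) + 1) * 1)) := by
                apply mul_le_mul_of_nonneg_left _ (inv_pos.2 (hn k)).le
                refine h6.trans (mul_le_mul_of_nonneg_left ?_ L.coe_nonneg)
                exact mul_le_mul_of_nonneg_left h7 (hn k).le
            _ = L := by
                have := (hn k).ne'
                field_simp
        · have hae : ∀ᵐ t : ι → ℝ, DifferentiableAt ℝ F (x - t) := by
            have h8 : MeasurePreserving (fun t : ι → ℝ => x - t) volume volume :=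
              Measure.measurePreserving_sub_left volume x
            exact h8.quasiMeasurePreserving.ae (hF.ae_differentiableAt (μ := volume))
          filter_upwards [hae] with t ht
          apply Tendsto.const_mul
          have h9 : HasLineDerivAt ℝ F (fderiv ℝ F (x - t) e) (x - t) e :=
            ht.hasFDerivAt.hasLineDerivAt _
          have h10 := HasDerivAt.tendsto_slope_zero h9
          simp only [zero_add, zero_smul, add_zero] at h10
          exact h10.comp hs
      refine (h5.congr fun k => (h4 k).symm)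
    have hloc' : ∀ i : ι, LocallyIntegrable (fun y => fderiv ℝ F y (Pi.single i 1)) volume := by
      intro i
      refine (locallyIntegrable_const (L : ℝ)).mono
        (measurable_fderiv_apply_const ℝ F (Pi.single i 1)).aestronglyMeasurable ?_
      filter_upwards with y
      rw [Real.norm_eq_abs, Real.norm_eq_abs, abs_of_nonneg L.coe_nonneg]
      exact abs_fderiv_le hF y i
    rw [ae_all_iff]
    intro i
    have h := ContDiffBump.ae_convolution_tendsto_right_of_locallyIntegrable (μ := volume)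
      (φ := φ) (l := atTop) (K := 2) (tendsto_one_div_add_atTop_nhds_zero_nat)
      (Eventually.of_forall fun n => by
        show 1 / ((n : ℝ) + 1) ≤ 2 * (1 / ((n : ℝ) + 1) / 2)
        linarith) (hloc' i)
    filter_upwards [h] with x hx
    exact hx.congr fun n => (hderiv n x i).symm

/-- **From bounded `C¹` functions to all Lipschitz functions.** -/
theorem PIneq_of_bounded_C1 {κ : ℝ} {π : Measure (ι → ℝ)} [IsFiniteMeasure π]
    (hπ : π ≪ volume) (hmom : Integrable (fun x => ‖x‖ ^ 2) π) {K : Set (ι → ℝ)}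
    (h : ∀ (F : (ι → ℝ) → ℝ) (L : NNReal) (C : ℝ), LipschitzWith L F → ContDiff ℝ 1 F →
      (∀ x, |F x| ≤ C) → PIneq κ π K F)
    {F : (ι → ℝ) → ℝ} {L : NNReal} (hF : LipschitzWith L F) :
    PIneq κ π K F := by
  obtain ⟨G, hGlip, hG1, hGd, hGder⟩ := exists_mollify hF
  have hn : ∀ n : ℕ, 1 / ((n : ℝ) + 1) ≤ 1 := fun n => by
    rw [div_le_one (by positivity)]
    have : (0 : ℝ) ≤ n := Nat.cast_nonneg n
    linarith
  have hGb : ∀ n x, |G n x| ≤ (|F 0| + L) + L * ‖x‖ := by
    intro n x
    have h1 := hGd n x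
    have h2 := lip_growth hF x
    have h3 := abs_sub_abs_le_abs_sub (G n x) (F x)
    have h4 := mul_le_mul_of_nonneg_left (hn n) L.coe_nonneg
    linarith
  have hGlim : ∀ x, Tendsto (fun n => G n x) atTop (𝓝 (F x)) := by
    intro x
    rw [tendsto_iff_dist_tendsto_zero]
    have h1 : Tendsto (fun n : ℕ => (L : ℝ) * (1 / ((n : ℝ) + 1))) atTop (𝓝 0) := by
      simpa using tendsto_one_div_add_atTop_nhds_zero_nat.const_mul (L : ℝ)
    exact squeeze_zero (fun n => dist_nonneg) (fun n => hGd n x) h1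
  have hA : Tendsto (fun n => ∫ x in K, G n x ^ 2 ∂π) atTop (𝓝 (∫ x in K, F x ^ 2 ∂π)) := by
    refine tendsto_integral_of_dominated_convergence (fun x => ((|F 0| + L) + L * ‖x‖) ^ 2)
      (fun n => ((hG1 n).continuous.pow 2).aestronglyMeasurable)
      (integrable_dom hmom _ _).integrableOn ?_ ?_
    · intro n
      filter_upwards with x
      rw [Real.norm_eq_abs, abs_pow]
      exact pow_le_pow_left₀ (abs_nonneg _) (hGb n x) 2
    · filter_upwards with x
      exact (hGlim x).pow 2
  have hA1 : Tendsto (fun n => ∫ x in K, G n x ∂π) atTop (𝓝 (∫ x in K, F x ∂π)) := by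
    refine tendsto_integral_of_dominated_convergence (fun x => (|F 0| + L) + L * ‖x‖)
      (fun n => (hG1 n).continuous.aestronglyMeasurable)
      (integrable_dom1 hmom _ _).integrableOn ?_ ?_
    · intro n
      filter_upwards with x
      exact hGb n x
    · filter_upwards with x
      exact hGlim x
  have hQ : Tendsto (fun n => ∫ x in K, ∑ i, (fderiv ℝ (G n) x (Pi.single i 1)) ^ 2 ∂π) atTop
      (𝓝 (∫ x in K, ∑ i, (fderiv ℝ F x (Pi.single i 1)) ^ 2 ∂π)) := by
    refine tendsto_integral_of_dominated_convergence (fun _ => Fintype.card ι * (L : ℝ) ^ 2)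
      (fun n => (measurable_grad (G n)).aestronglyMeasurable)
      (integrable_const _).integrableOn ?_ ?_
    · intro n
      filter_upwards with x
      exact grad_bound (hGlip n) x
    · have h1 : ∀ᵐ x ∂(π.restrict K), ∀ i, Tendsto (fun n => fderiv ℝ (G n) x (Pi.single i 1)) atTop
          (𝓝 (fderiv ℝ F x (Pi.single i 1))) :=
        ae_restrict_of_ae (hπ.ae_le hGder)
      filter_upwards [h1] with x hx
      exact tendsto_finsetSum _ fun i _ => (hx i).pow 2
  have hl := ((tendsto_const_nhds (x := π.real K)).mul hA |>.sub (hA1.pow 2)).const_mul κ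
  have hr := (tendsto_const_nhds (x := π.real K)).mul hQ
  exact le_of_tendsto_of_tendsto' hl hr fun n => PIneq_C1_of_bounded hmom h (hGlip n) (hG1 n)

end Pool.Agent.Lib.MP_8d00da_gt
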