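import Pool.Agent.Lib.MP_8d00da_gt.MkScheme
import Pool.Agent.Lib.MP_8d00da_gt.Mollify

/-!
# Cones of order constraints, for compactly supported measures
-/

open MeasureTheory Filter Topology Finset

namespace Pool.Agent.Lib.MP_8d00da_gt

variable {ι : Type*}

/-- The cone of a set of inequalities between literals. -/
def litCone (E : Set ((ι × Bool) × (ι × Bool))) : Set (ι → ℝ) :=
  {x | ∀ e ∈ E, lr x e.1 ≤ lr x e.2}

/-- The cone of a set of inequalities between coordinates. -/
def ordCone (E : Set (ι × ι)) : Set (ι → ℝ) := {x | ∀ e ∈ E, x e.1 ≤ x e.2}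

/-- Literal constraints of an order, with positivity of all coordinates. -/
def posLit (E : Set (ι × ι)) : Set ((ι × Bool) × (ι × Bool)) :=
  {e | (∃ p ∈ E, e = ((p.1, true), (p.2, true))) ∨ ∃ i, e = ((i, false), (i, true))}

theorem measurable_lr (a : ι × Bool) : Measurable fun z : ι → ℝ => lr z a := by
  unfold lr
  split_ifs
  · exact measurable_pi_apply _
  · exact (measurable_pi_apply _).neg

theorem continuous_lr (a : ι × Bool) : Continuous fun z : ι → ℝ => lr z a := by
  unfold lr
  split_ifs
  · exact continuous_apply _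
  · exact (continuous_apply _).neg

theorem isClosed_litCone (E : Set ((ι × Bool) × (ι × Bool))) : IsClosed (litCone E) := by
  have e : litCone E = ⋂ e ∈ E, {z : ι → ℝ | lr z e.1 ≤ lr z e.2} := by
    ext z
    simp [litCone]
  rw [e]
  exact isClosed_biInter fun e _ => isClosed_le (continuous_lr _) (continuous_lr _)

theorem isClosed_ordCone (E : Set (ι × ι)) : IsClosed (ordCone E) := by
  have e : ordCone E = ⋂ e ∈ E, {z : ι → ℝ | z e.1 ≤ z e.2} := by
    ext z
    simp [ordCone]
  rw [e]
  exact isClosed_biInter fun e _ => isClosed_le (continuous_apply _) (continuous_apply _)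

variable [Fintype ι] [DecidableEq ι]

theorem measurableSet_litCone (E : Set ((ι × Bool) × (ι × Bool))) : MeasurableSet (litCone E) :=
  (isClosed_litCone E).measurableSet

theorem measurableSet_ordCone (E : Set (ι × ι)) : MeasurableSet (ordCone E) :=
  (isClosed_ordCone E).measurableSet

/-- For a generic vector the validity is eventually decided by the transformed vector. -/
theorem eventually_valid {v : ℕ → ι → ℤ} {z : ι → ℝ} (hvz : ∀ m i, |(v m i : ℝ) - 2 * m * z i| ≤ 1)
    (hodd : ∀ m i, v m i % 2 = 1) (hz1 : ∀ i, |z i| < 1) (hz0 : ∀ i, z i ≠ 0)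
    (hzne : ∀ i j, i ≠ j → |z i| ≠ |z j|) (E : Set ((ι × Bool) × (ι × Bool))) :
    ∀ᶠ m in atTop, (Valid m E (v m) ↔ z ∈ litCone E) ∧ ¬ Bad (v m) := by
  have hlv : ∀ m a, |(lv (v m) a : ℝ) - 2 * m * lr z a| ≤ 1 := by
    intro m a
    unfold lv lr
    split_ifs
    · exact hvz m a.1
    · have := hvz m a.1
      rw [← abs_neg]
      push_cast
      rw [show -(-(v m a.1 : ℝ) - 2 * m * -z a.1) = (v m a.1 : ℝ) - 2 * m * z a.1 by ring]
      exact this
  have hne : ∀ a b : ι × Bool, a ≠ b → lr z a ≠ lr z b := by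
    rintro ⟨i, s⟩ ⟨j, t⟩ hab h
    by_cases hij : i = j
    · subst hij
      apply hz0 i
      unfold lr at h
      cases s <;> cases t <;> simp at h hab ⊢ <;> linarith
    · apply hzne i j hij
      unfold lr at h
      cases s <;> cases t <;> simp at h
      · rw [h]
      · rw [← h, abs_neg]
      · rw [h, abs_neg]
      · rw [h]
  have horder : ∀ᶠ m in atTop, ∀ a b : ι × Bool, (lv (v m) a ≤ lv (v m) b ↔ lr z a ≤ lr z b) := by
    rw [eventually_all]
    intro a
    rw [eventually_all]
    intro b
    by_cases hab : a = b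
    · subst hab; simp
    · rcases lt_or_gt_of_ne (hne a b hab) with h | h
      · filter_upwards [eventually_lt h] with m hm
        have := hm _ _ (hlv m a) (hlv m b)
        constructor
        · intro _; exact h.le
        · intro _; omega
      · filter_upwards [eventually_lt h] with m hm
        have := hm _ _ (hlv m b) (hlv m a)
        constructor
        · intro _; omega
        · intro h'; exact absurd h' (not_le_of_gt h)
  have hsite : ∀ᶠ m in atTop, ∀ i, Site m (v m i) := by
    rw [eventually_all]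
    intro i
    have h1 := abs_lt.1 (hz1 i)
    have ht1 : Tendsto (fun m : ℕ => (m : ℝ) * (2 * (1 - z i))) atTop atTop :=
      tendsto_natCast_atTop_atTop.atTop_mul_const (by linarith)
    have ht2 : Tendsto (fun m : ℕ => (m : ℝ) * (2 * (1 + z i))) atTop atTop :=
      tendsto_natCast_atTop_atTop.atTop_mul_const (by linarith)
    filter_upwards [ht1.eventually_gt_atTop 1, ht2.eventually_gt_atTop 1] with m h2 h3
    have h4 := abs_le.1 (hvz m i)
    refine ⟨hodd m i, ?_, ?_⟩
    · have : -(2 * (m : ℝ)) < v m i := by linarith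
      exact_mod_cast this
    · have : (v m i : ℝ) < 2 * m := by linarith
      exact_mod_cast this
  have habs : ∀ m i, |(((|v m i|) : ℤ) : ℝ) - 2 * m * (|z i|)| ≤ 1 := by
    intro m i
    have h1 := hvz m i
    have h2 := abs_abs_sub_abs_le (v m i : ℝ) (2 * m * z i)
    rw [abs_mul, abs_of_nonneg (by positivity : (0 : ℝ) ≤ 2 * m)] at h2
    rw [Int.cast_abs]
    exact h2.trans h1
  have hbad : ∀ᶠ m in atTop, ∀ i j, i ≠ j → |v m i| ≠ |v m j| ∧ |v m i| ≠ |v m j| + 2 := by
    rw [eventually_all]
    intro i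
    rw [eventually_all]
    intro j
    by_cases hij : i = j
    · filter_upwards with m h
      exact absurd hij h
    · rcases lt_or_gt_of_ne (hzne i j hij) with h | h
      · filter_upwards [eventually_lt h] with m hm _
        have := hm _ _ (habs m i) (habs m j)
        omega
      · filter_upwards [eventually_lt h] with m hm _
        have := hm _ _ (habs m j) (habs m i)
        omega
  filter_upwards [horder, hsite, hbad] with m h1 h2 h3
  refine ⟨⟨?_, ?_⟩, ?_⟩
  · intro h e he
    exact (h1 _ _).1 (h.order e he)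
  · intro h
    refine ⟨h2, fun i j hij => ?_, fun e he => (h1 _ _).2 (h e he)⟩
    have h6 := (h3 i j hij).1
    exact ⟨fun h => h6 (by rw [h]), fun h => h6 (by rw [h, abs_neg])⟩
  · rintro ⟨i, j, h⟩
    by_cases hij : i = j
    · subst hij; omega
    · exact (h3 i j hij).2 h

theorem ix_close (σ : Measure ℝ) (b : Bool) (m : ℕ) (x : ℝ) :
    |(ixof σ b m x : ℝ) - 2 * m * hatf σ b x| ≤ 1 := by
  have h1 := Int.le_ceil ((m : ℝ) * hatf σ b x)
  have h2 := Int.ceil_lt_add_one ((m : ℝ) * hatf σ b x)
  unfold ixof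
  push_cast
  rw [abs_le]
  constructor <;> linarith

theorem ix_odd (σ : Measure ℝ) (b : Bool) (m : ℕ) (x : ℝ) : ixof σ b m x % 2 = 1 := by
  unfold ixof
  omega

/-- Pairs of coordinates under a product measure. -/
theorem ae_pair {ρ : Measure ℝ} [IsProbabilityMeasure ρ] {i j : ι} (hij : i ≠ j)
    {f g : ℝ → ℝ} (hf : Measurable f) (hg : Measurable g) (hnull : ∀ u, ρ {y | g y = u} = 0) :
    ∀ᵐ x ∂(prodM ι ρ), f (x i) ≠ g (x j) := by
  have hind : ProbabilityTheory.IndepFun (fun x : ι → ℝ => x i) (fun x : ι → ℝ => x j)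
      (prodM ι ρ) :=
    (ProbabilityTheory.iIndepFun_pi (μ := fun _ : ι => ρ) (X := fun _ => id)
      (fun _ => aemeasurable_id)).indepFun hij
  have hmap := (ProbabilityTheory.indepFun_iff_map_prod_eq_prod_map_map
    (measurable_pi_apply i).aemeasurable (measurable_pi_apply j).aemeasurable).1 hind
  have e1 : (prodM ι ρ).map (fun x : ι → ℝ => x i) = ρ :=
    (measurePreserving_eval (fun _ : ι => ρ) i).map_eq
  have e2 : (prodM ι ρ).map (fun x : ι → ℝ => x j) = ρ :=
    (measurePreserving_eval (fun _ : ι => ρ) j).map_eq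
  rw [e1, e2] at hmap
  have hS : MeasurableSet {p : ℝ × ℝ | f p.1 = g p.2} :=
    measurableSet_eq_fun (hf.comp measurable_fst) (hg.comp measurable_snd)
  have h0 : (ρ.prod ρ) {p : ℝ × ℝ | f p.1 = g p.2} = 0 := by
    rw [Measure.measure_prod_null hS]
    filter_upwards with t
    have : (Prod.mk t ⁻¹' {p : ℝ × ℝ | f p.1 = g p.2}) = {y | g y = f t} := by
      ext y
      simp only [Set.mem_preimage, Set.mem_ofPred_eq]
      exact eq_comm
    rw [this]
    exact hnull (f t)
  rw [← hmap, Measure.map_apply (by fun_prop) hS] at h0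
  rw [ae_iff]
  simpa using h0

theorem ae_coord {ρ : Measure ℝ} [IsProbabilityMeasure ρ] {p : ℝ → Prop} (hp : ∀ᵐ x ∂ρ, p x) :
    ∀ᵐ x ∂(prodM ι ρ), ∀ i, p (x i) := by
  rw [ae_all_iff]
  exact fun i => (measurePreserving_eval (fun _ : ι => ρ) i).quasiMeasurePreserving.ae hp

namespace Cpt

variable {σ : Measure ℝ} {lo hi : ℝ}

theorem ae_hat (h : Cpt σ lo hi) (b : Bool) :
    ∀ᵐ x ∂(prodM ι σ), (∀ i, |hatf σ b (x i)| < 1) ∧ (∀ i, hatf σ b (x i) ≠ 0) ∧
      (∀ i j, i ≠ j → |hatf σ b (x i)| ≠ |hatf σ b (x j)|) ∧ (∀ i, x i ∈ Set.Icc lo hi) := by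
  have hprob := h.prob
  have hmeas : Measurable (hatf σ b) := by
    unfold hatf
    cases b
    · simp only [Bool.false_eq_true, if_false]
      exact (h.measurable_H.const_mul 2).sub_const 1
    · simp only [if_true]
      exact h.measurable_H
  have hlev : ∀ u, σ {y | hatf σ b y = u} = 0 := by
    intro u
    unfold hatf
    cases b
    · simp only [Bool.false_eq_true, if_false]
      have : {y | 2 * HH σ y - 1 = u} = {y | HH σ y = (u + 1) / 2} := by
        ext y
        simp only [Set.mem_ofPred_eq]
        constructor <;> intro h <;> linarith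
      rw [this]
      exact h.level_null _
    · simp only [if_true]
      exact h.level_null u
  have hpair : ∀ᵐ x ∂(prodM ι σ), ∀ i j, i ≠ j → hatf σ b (x i) ≠ hatf σ b (x j) ∧
      hatf σ b (x i) ≠ - hatf σ b (x j) := by
    rw [ae_all_iff]
    intro i
    rw [ae_all_iff]
    intro j
    by_cases hij : i = j
    · exact Eventually.of_forall fun x h => absurd hij h
    · have hlev2 : ∀ u, σ {y | (fun y => - hatf σ b y) y = u} = 0 := by
        intro u
        have : {y | (fun y => - hatf σ b y) y = u} = {y | hatf σ b y = -u} := by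
          ext y
          simp only [Set.mem_ofPred_eq]
          constructor <;> intro h <;> linarith
        rw [this]
        exact hlev _
      filter_upwards [ae_pair hij hmeas hmeas hlev, ae_pair hij hmeas hmeas.neg hlev2] with x h1 h2 _
      exact ⟨h1, h2⟩
  have hz : ∀ᵐ y ∂σ, hatf σ b y ≠ 0 := by
    rw [ae_iff]; simpa using hlev 0
  filter_upwards [ae_coord h.ae_Ioo, ae_coord hz, hpair] with x h1 h2 h3
  refine ⟨fun i => ?_, h2, fun i j hij => ?_, fun i => (h1 i).1⟩
  · obtain ⟨-, h4, h5⟩ := h1 i
    unfold hatf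
    cases b
    · simp only [Bool.false_eq_true, if_false]
      rw [abs_lt]; constructor <;> linarith
    · simp only [if_true]
      rw [abs_lt]; constructor <;> linarith
  · intro h
    rcases abs_eq_abs.1 h with h | h
    · exact (h3 i j hij).1 h
    · exact (h3 i j hij).2 h

/-- **Poincaré inequality on a cone of literal inequalities**, symmetric measure. -/
theorem litCone_PIneq (h : Cpt σ lo hi) (hsym : σ.map (fun x => -x) = σ) (hlh : lo = -hi)
    {D : ℝ} (hD : 0 < D)
    (hP : ∀ f : ℝ → ℝ, (∃ L, LipschitzWith L f) →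
      ∫ x, (f x - ∫ y, f y ∂σ) ^ 2 ∂σ ≤ D ^ 2 * ∫ x, (deriv f x) ^ 2 ∂σ)
    (hac : (prodM ι σ) ≪ volume) (E : Set ((ι × Bool) × (ι × Bool)))
    {F : (ι → ℝ) → ℝ} {L : NNReal} (hF : LipschitzWith L F) :
    PIneq (1 / D ^ 2) (prodM ι σ) (litCone E) F := by
  have hprob := h.prob
  obtain ⟨S, hS⟩ := exists_scheme h false (fun _ => ⟨hsym, hlh⟩) hD hP
  have hix : ∀ m (x : ι → ℝ), S.ixv m x = fun i => ixof σ false m (x i) := by
    intro m x
    unfold Scheme.ixv
    rw [hS]
  have hae : ∀ᵐ x ∂(prodM ι σ), (∀ᶠ m in atTop, (x ∈ S.U E m ↔ x ∈ litCone E)) ∧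
      ∀ᶠ m in atTop, x ∉ S.B m := by
    filter_upwards [h.ae_hat (ι := ι) false] with x hx
    obtain ⟨h1, h2, h3, h4⟩ := hx
    have hev := eventually_valid (v := fun m i => ixof σ false m (x i))
      (z := fun i => hatf σ false (x i)) (fun m i => ix_close σ false m (x i))
      (fun m i => ix_odd σ false m (x i)) h1 h2 h3 E
    have hiff : (fun i => hatf σ false (x i)) ∈ litCone E ↔ x ∈ litCone E := by
      have hlr : ∀ a b : ι × Bool, lr (fun i => hatf σ false (x i)) a ≤
          lr (fun i => hatf σ false (x i)) b ↔ lr x a ≤ lr x b := by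
        intro a b
        have hval : ∀ a : ι × Bool, lr (fun i => hatf σ false (x i)) a = 2 * HH σ (lr x a) - 1 ∧
            lr x a ∈ Set.Icc lo hi := by
          intro a
          have h5 := h4 a.1
          unfold lr
          split_ifs
          · exact ⟨by simp [hatf], h5⟩
          · constructor
            · rw [h.H_neg hsym]
              simp only [hatf, Bool.false_eq_true, if_false]
              ring
            · constructor
              · rw [hlh]; linarith [h5.2]
              · rw [hlh] at h5; linarith [h5.1]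
        obtain ⟨ha1, ha2⟩ := hval a
        obtain ⟨hb1, hb2⟩ := hval b
        rw [ha1, hb1]
        constructor
        · intro h6
          by_contra hcon
          push Not at hcon
          have := h.H_strict hb2.1 hcon ha2.2
          linarith
        · intro h6
          have := HH_mono σ h6
          linarith
      constructor
      · intro h5 e he; exact (hlr _ _).1 (h5 e he)
      · intro h5 e he; exact (hlr _ _).2 (h5 e he)
    constructor
    · filter_upwards [hev] with m hm
      show Valid m E (S.ixv m x) ↔ _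
      rw [hix, hm.1, hiff]
    · filter_upwards [hev] with m hm
      show ¬ Bad (S.ixv m x)
      rw [hix]
      exact hm.2
  have hmom : Integrable (fun x : ι → ℝ => ‖x‖ ^ 2) (prodM ι σ) := by
    refine Integrable.of_bound (by fun_prop) ((max |lo| |hi|) ^ 2) ?_
    filter_upwards [ae_coord (ι := ι) h.ae_mem] with x hx
    rw [norm_pow, norm_norm]
    apply pow_le_pow_left₀ (norm_nonneg _)
    rw [pi_norm_le_iff_of_nonneg (by positivity)]
    intro i
    rw [Real.norm_eq_abs]
    exact abs_le_max_abs_abs (hx i).1 (hx i).2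
  refine PIneq_of_bounded_C1 hac hmom ?_ hF
  intro G L' C hG hG1 hC
  exact S.poincare_C1 E (fun h => absurd h (by simp)) (measurableSet_litCone E)
    (hae.mono fun x hx => hx.1) (hae.mono fun x hx => hx.2) hG hG1 hC

/-- **Poincaré inequality on a cone of order inequalities**. -/
theorem ordCone_PIneq (h : Cpt σ lo hi)
    {D : ℝ} (hD : 0 < D)
    (hP : ∀ f : ℝ → ℝ, (∃ L, LipschitzWith L f) →
      ∫ x, (f x - ∫ y, f y ∂σ) ^ 2 ∂σ ≤ D ^ 2 * ∫ x, (deriv f x) ^ 2 ∂σ)
    (hac : (prodM ι σ) ≪ volume) (E : Set (ι × ι))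
    {F : (ι → ℝ) → ℝ} {L : NNReal} (hF : LipschitzWith L F) :
    PIneq (1 / D ^ 2) (prodM ι σ) (ordCone E) F := by
  have hprob := h.prob
  obtain ⟨S, hS⟩ := exists_scheme h true (fun h => absurd h (by simp)) hD hP
  have hix : ∀ m (x : ι → ℝ), S.ixv m x = fun i => ixof σ true m (x i) := by
    intro m x
    unfold Scheme.ixv
    rw [hS]
  have hpos : true = true → ∀ m, ∀ x : ι → ℤ, Valid m (posLit E) x → ∀ i, 0 < x i := by
    intro _ m x hx i
    have h1 := hx.order ((i, false), (i, true)) (Or.inr ⟨i, rfl⟩)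
    have h2 := (hx.site i).ne_zero
    unfold lv at h1
    simp at h1
    omega
  have hae : ∀ᵐ x ∂(prodM ι σ), (∀ᶠ m in atTop, (x ∈ S.U (posLit E) m ↔ x ∈ ordCone E)) ∧
      ∀ᶠ m in atTop, x ∉ S.B m := by
    filter_upwards [h.ae_hat (ι := ι) true, ae_coord (ι := ι) h.ae_Ioo] with x hx hx'
    obtain ⟨h1, h2, h3, h4⟩ := hx
    have hev := eventually_valid (v := fun m i => ixof σ true m (x i))
      (z := fun i => hatf σ true (x i)) (fun m i => ix_close σ true m (x i))
      (fun m i => ix_odd σ true m (x i)) h1 h2 h3 (posLit E)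
    have hiff : (fun i => hatf σ true (x i)) ∈ litCone (posLit E) ↔ x ∈ ordCone E := by
      constructor
      · intro h5 e he
        have h6 := h5 ((e.1, true), (e.2, true)) (Or.inl ⟨e, he, rfl⟩)
        simp only [lr, hatf, if_true] at h6
        by_contra hcon
        push Not at hcon
        have := h.H_strict (h4 e.2).1 hcon (h4 e.1).2
        linarith
      · rintro h5 e (⟨p, hp, rfl⟩ | ⟨i, rfl⟩)
        · simp only [lr, hatf, if_true]
          exact HH_mono σ (h5 p hp)
        · simp only [lr, hatf, if_true, Bool.false_eq_true, if_false]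
          have := (hx' i).2.1
          linarith
    constructor
    · filter_upwards [hev] with m hm
      show Valid m (posLit E) (S.ixv m x) ↔ _
      rw [hix, hm.1, hiff]
    · filter_upwards [hev] with m hm
      show ¬ Bad (S.ixv m x)
      rw [hix]
      exact hm.2
  have hmom : Integrable (fun x : ι → ℝ => ‖x‖ ^ 2) (prodM ι σ) := by
    refine Integrable.of_bound (by fun_prop) ((max |lo| |hi|) ^ 2) ?_
    filter_upwards [ae_coord (ι := ι) h.ae_mem] with x hx
    rw [norm_pow, norm_norm]
    apply pow_le_pow_left₀ (norm_nonneg _)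
    rw [pi_norm_le_iff_of_nonneg (by positivity)]
    intro i
    rw [Real.norm_eq_abs]
    exact abs_le_max_abs_abs (hx i).1 (hx i).2
  refine PIneq_of_bounded_C1 hac hmom ?_ hF
  intro G L' C hG hG1 hC
  exact S.poincare_C1 (posLit E) hpos (measurableSet_ordCone E)
    (hae.mono fun x hx => hx.1) (hae.mono fun x hx => hx.2) hG hG1 hC

end Cpt

end Pool.Agent.Lib.MP_8d00da_gt
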