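import Pool.Agent.Lib.MP_8d00da_gt.Chain

/-!
# The discrete Poincaré inequality
-/

open Finset

namespace Pool.Agent.Lib.MP_8d00da_gt

variable {ι : Type*}

/-- The generator of the chain with rates `r`. -/
noncomputable def gen (m : ℕ) (E : Set ((ι × Bool) × (ι × Bool))) (r : ℕ → ℝ)
    (g : (ι → ℤ) → ℝ) (x : ι → ℤ) : ℝ := ∑ k ∈ range m, r k * (g (stp m E k x) - g x)

/-- The generator of the one-particle chain, applied to `W`. -/
def genW (m : ℕ) (r : ℕ → ℝ) (W : ℤ → ℝ) (v : ℤ) : ℝ :=
  ∑ k ∈ range m, r k * (W (mv k v) - W v)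

theorem contraction {b : Bool} {m : ℕ} {E : Set ((ι × Bool) × (ι × Bool))} {r : ℕ → ℝ}
    {W : ℤ → ℝ} {κ : ℝ}
    (hr : ∀ k, 0 ≤ r k) (hr0 : b = true → r 0 = 0) (hW : ∀ v, W (-v) = - W v)
    (hwt : ∀ k < m, (b = true → 1 ≤ k) → 0 ≤ wt W k)
    (hG : ∀ p q, Site m p → Site m q → p < q → (b = true → 0 < p) →
      genW m r W q - genW m r W p ≤ -κ * (W q - W p))
    {ε : ℝ} (hε : 0 ≤ ε) (hε' : 2 * ε * ∑ k ∈ range m, r k ≤ 1) {g : (ι → ℤ) → ℝ} {M : ℝ}
    (hM : 0 ≤ M) (hL : Lp b m E W g M) :
    Lp b m E W (fun x => g x + ε * gen m E r g x) (M * (1 - ε * κ)) := by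
  intro x hx p q hp hq hpq hpb hy
  have hd : g (tauS p q x) - g x ≤ M * (W q - W p) := hL x hx p q hp hq hpq hpb hy
  set d := g (tauS p q x) - g x with hdd
  set c := W q - W p with hc
  have h1 : gen m E r g (tauS p q x) - gen m E r g x ≤
      M * (genW m r W q - genW m r W p) + 2 * (∑ k ∈ range m, r k) * (M * c - d) := by
    unfold gen genW
    rw [← Finset.sum_sub_distrib, ← Finset.sum_sub_distrib, Finset.mul_sum, Finset.mul_sum,
      Finset.sum_mul, ← Finset.sum_add_distrib]
    apply Finset.sum_le_sum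
    intro k hk
    have hk' := Finset.mem_range.1 hk
    by_cases hkb : b = true → 1 ≤ k
    swap
    · push Not at hkb
      obtain ⟨hb, hk0⟩ := hkb
      have hk0' : k = 0 := by omega
      rw [hk0', hr0 hb]
      simp
    have h2 := increment_le hk' hkb hW (hwt k hk' hkb) hM hL hx hp hq hpq hpb hy
    have h3 := mul_le_mul_of_nonneg_left h2 (hr k)
    calc r k * (g (stp m E k (tauS p q x)) - g (tauS p q x)) - r k * (g (stp m E k x) - g x)
        = r k * ((g (stp m E k (tauS p q x)) - g (stp m E k x)) - (g (tauS p q x) - g x)) := by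
          ring
      _ ≤ _ := h3
      _ = _ := by rw [← hdd, ← hc]; ring
  have h4 := hG p q hp hq hpq hpb
  have h5 : ε * (M * (genW m r W q - genW m r W p)) ≤ ε * (M * (-κ * c)) := by
    apply mul_le_mul_of_nonneg_left _ hε
    exact mul_le_mul_of_nonneg_left h4 hM
  have h6 := mul_le_mul_of_nonneg_left h1 hε
  have h7 : ε * (2 * (∑ k ∈ range m, r k) * (M * c - d)) ≤ M * c - d := by
    have h8 : 0 ≤ M * c - d := by linarith
    calc ε * (2 * (∑ k ∈ range m, r k) * (M * c - d))
        = (2 * ε * ∑ k ∈ range m, r k) * (M * c - d) := by ring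
      _ ≤ 1 * (M * c - d) := mul_le_mul_of_nonneg_right hε' h8
      _ = _ := one_mul _
  show (g (tauS p q x) + ε * gen m E r g (tauS p q x)) - (g x + ε * gen m E r g x) ≤ _
  nlinarith

/-- Descent: from a valid state `x ≠ y` some elementary move brings us closer to `y`. -/
theorem exists_descent [Fintype ι] {m : ℕ} {E : Set ((ι × Bool) × (ι × Bool))} {x y : ι → ℤ}
    (hx : Valid m E x) (hy : Valid m E y) (hxy : x ≠ y) :
    ∃ k < m, Valid m E (mvS k x) ∧
      ∑ i, (mvS k x i - y i) ^ 2 < ∑ i, (x i - y i) ^ 2 := by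
  classical
  -- the literal
  let T : Finset (ι × Bool) := Finset.univ.filter fun a => lv x a < lv y a
  have hT : T.Nonempty := by
    obtain ⟨i, hi⟩ := Function.ne_iff.1 hxy
    rcases lt_or_gt_of_ne hi with h | h
    · exact ⟨(i, true), Finset.mem_filter.2 ⟨Finset.mem_univ _, by simpa [lv] using h⟩⟩
    · exact ⟨(i, false), Finset.mem_filter.2 ⟨Finset.mem_univ _, by simpa [lv] using h⟩⟩
  obtain ⟨a, haT, hamax⟩ := Finset.exists_max_image T (lv x) hT
  have ha : lv x a < lv y a := (Finset.mem_filter.1 haT).2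
  have hmax : ∀ b, lv x a < lv x b → lv y b ≤ lv x b := by
    intro b hb
    by_contra hcon
    push Not at hcon
    have := hamax b (Finset.mem_filter.2 ⟨Finset.mem_univ _, hcon⟩)
    omega
  set u := lv x a with hu
  set Y := lv y a with hY
  have hus := hx.lv_site a
  have hYs := hy.lv_site a
  rw [← hu] at hus
  rw [← hY] at hYs
  have huY : u + 2 ≤ Y := by
    obtain ⟨h1, -, -⟩ := hus
    obtain ⟨h2, -, -⟩ := hYs
    omega
  -- the move
  obtain ⟨k, hk, hku, hku2, hkcase⟩ : ∃ k : ℕ, k < m ∧ mv k u = u + 2 ∧ mv k (u + 2) = u ∧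
      (u = 2 * (k : ℤ) - 1 ∨ u = -(2 * (k : ℤ)) - 1) := by
    obtain ⟨h1, h2, h3⟩ := hus
    obtain ⟨h4, h5, h6⟩ := hYs
    rcases le_or_gt (-1) u with h | h
    · refine ⟨((u + 1) / 2).toNat, by omega, ?_, ?_, by omega⟩
      · unfold mv tau
        split_ifs <;> omega
      · unfold mv tau
        split_ifs <;> omega
    · refine ⟨((-u - 1) / 2).toNat, by omega, ?_, ?_, by omega⟩
      · unfold mv tau
        split_ifs <;> omega
      · unfold mv tau
        split_ifs <;> omega
  -- no order constraint between `a` and the literal at `u + 2`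
  have hno : ∀ b, lv x b = u + 2 → lv y b < Y := by
    intro b hb
    have h1 := hmax b (by omega)
    rcases (show lv y b ≤ Y by omega).lt_or_eq with h | h
    · exact h
    · exfalso
      have := hy.lv_inj (h.trans hY)
      rw [this, ← hu] at hb
      omega
  have hvalid : Valid m E (mvS k x) := by
    refine hx.mvS_of_order hk fun e he => ?_
    by_contra hcon
    push Not at hcon
    have h1 := hx.order e he
    have h2 := hy.order e he
    have h0 := mv_order (hx.lv_site _).1 (hx.lv_site _).1 h1 hcon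
    have h3 : (lv x e.1 = u ∧ lv x e.2 = u + 2) ∨ (lv x e.1 = -(u + 2) ∧ lv x e.2 = -u) := by
      rcases hkcase with h | h <;> rcases h0 with h4 | h4 <;> omega
    rcases h3 with ⟨h4, h5⟩ | ⟨h4, h5⟩
    · have h6 : e.1 = a := hx.lv_inj (h4.trans hu)
      have h7 := hno _ h5
      rw [h6, ← hY] at h2
      omega
    · have h6 : nl e.2 = a := hx.lv_inj (by rw [lv_nl, h5, ← hu]; ring)
      have h7 := hno (nl e.1) (by rw [lv_nl, h4]; ring)
      rw [lv_nl] at h7
      have h8 : lv y e.2 = -Y := by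
        rw [hY, ← h6, lv_nl]
        ring
      omega
  refine ⟨k, hk, hvalid, ?_⟩
  -- the change of the potential
  let D : ι → ℤ := fun i => (mvS k x i - y i) ^ 2 - (x i - y i) ^ 2
  suffices hD : ∑ i, D i < 0 by
    simp only [D, Finset.sum_sub_distrib] at hD
    omega
  have hlit : ∀ b : ι × Bool, D b.1 = (mv k (lv x b) - lv y b) ^ 2 - (lv x b - lv y b) ^ 2 := by
    intro b
    rw [← lv_mvS]
    simp only [D]
    unfold lv
    split_ifs
    · rfl
    · ring
  have hDa : D a.1 = 4 * (u + 1 - Y) := by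
    rw [hlit a, ← hu, hku, ← hY]
    ring
  by_cases hex : ∃ b : ι × Bool, lv x b = u + 2 ∧ b.1 ≠ a.1
  · obtain ⟨b, hb, hba⟩ := hex
    have hDb : D b.1 = 4 * (lv y b - u - 1) := by
      rw [hlit b, hb, hku2]
      ring
    have hrest : ∀ i ∈ (Finset.univ : Finset ι), i ∉ ({a.1, b.1} : Finset ι) → D i = 0 := by
      intro i _ hi
      simp only [Finset.mem_insert, Finset.mem_singleton, not_or] at hi
      have h1 := hx.inj i a.1 hi.1
      have h2 := hx.inj i b.1 hi.2
      have h3 : x i ≠ u ∧ x i ≠ -u := by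
        rw [hu]
        unfold lv
        split_ifs
        · exact h1
        · constructor
          · intro h; exact h1.2 h
          · intro h; exact h1.1 (by omega)
      have h4 : x i ≠ u + 2 ∧ x i ≠ -(u + 2) := by
        rw [← hb]
        unfold lv
        split_ifs
        · exact h2
        · constructor
          · intro h; exact h2.2 h
          · intro h; exact h2.1 (by omega)
      have h5 : mv k (x i) = x i := by
        rcases mv_cases k (x i) with h | h | h | h | h <;> omega
      simp only [D, mvS, h5, sub_self]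
    rw [← Finset.sum_subset (Finset.subset_univ ({a.1, b.1} : Finset ι)) hrest,
      Finset.sum_pair hba.symm, hDa, hDb]
    have := hno b hb
    omega
  · push Not at hex
    have hrest : ∀ i ∈ (Finset.univ : Finset ι), i ∉ ({a.1} : Finset ι) → D i = 0 := by
      intro i _ hi
      simp only [Finset.mem_singleton] at hi
      have h1 := hx.inj i a.1 hi
      have h3 : x i ≠ u ∧ x i ≠ -u := by
        rw [hu]
        unfold lv
        split_ifs
        · exact h1
        · constructor
          · intro h; exact h1.2 h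
          · intro h; exact h1.1 (by omega)
      have h4 : x i ≠ u + 2 := fun h => hi (hex (i, true) (by simp [lv, h]))
      have h4' : x i ≠ -(u + 2) := fun h => hi (hex (i, false) (by simp [lv, h]))
      have h5 : mv k (x i) = x i := by
        rcases mv_cases k (x i) with h | h | h | h | h <;> omega
      simp only [D, mvS, h5, sub_self]
    rw [← Finset.sum_subset (Finset.subset_univ ({a.1} : Finset ι)) hrest,
      Finset.sum_singleton, hDa]
    omega

/-- Bound of the oscillation between two states by the seminorm. -/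
theorem exists_bound [Fintype ι] {b : Bool} {m : ℕ} {E : Set ((ι × Bool) × (ι × Bool))}
    {W : ℤ → ℝ} (hpos : b = true → ∀ x : ι → ℤ, Valid m E x → ∀ i, 0 < x i)
    (hwt : ∀ k < m, (b = true → 1 ≤ k) → 0 ≤ wt W k) (y : ι → ℤ) (hy : Valid m E y) (n : ℕ) :
    ∀ x : ι → ℤ, Valid m E x → (∑ i, (x i - y i) ^ 2).toNat ≤ n →
      ∃ B : ℝ, 0 ≤ B ∧ ∀ g M, 0 ≤ M → Lp b m E W g M → g y - g x ≤ B * M := by
  induction n with
  | zero =>
    intro x hx hn
    have hxy : x = y := by
      by_contra hne
      obtain ⟨k, -, -, hlt⟩ := exists_descent hx hy hne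
      have : 0 ≤ ∑ i, (mvS k x i - y i) ^ 2 := Finset.sum_nonneg fun i _ => sq_nonneg _
      omega
    exact ⟨0, le_rfl, fun g M _ _ => by rw [hxy]; simp⟩
  | succ n ih =>
    intro x hx hn
    by_cases hxy : x = y
    · exact ⟨0, le_rfl, fun g M _ _ => by rw [hxy]; simp⟩
    · obtain ⟨k, hk, hv, hlt⟩ := exists_descent hx hy hxy
      have h0 : 0 ≤ ∑ i, (mvS k x i - y i) ^ 2 := Finset.sum_nonneg fun i _ => sq_nonneg _
      obtain ⟨B, hB, hB'⟩ := ih (mvS k x) hv (by omega)
      have hkb : b = true → 1 ≤ k := by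
        intro hb
        by_contra hk1
        have hk0 : k = 0 := by omega
        subst hk0
        have hmv : mvS 0 x = x := by
          funext i
          have h1 := hpos hb x hx i
          have h2 := hpos hb _ hv i
          unfold mvS at h2 ⊢
          rcases mv_cases 0 (x i) with h | h | h | h | h
          · simp at h; omega
          · simp at h; omega
          · simp at h; omega
          · simp at h; omega
          · exact h.2.2.2.2
        rw [hmv] at hlt
        exact lt_irrefl _ hlt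
      refine ⟨B + wt W k, add_nonneg hB (hwt k hk hkb), fun g M hM hL => ?_⟩
      have h1 := hB' g M hM hL
      have h2 : g (mvS k x) - g x ≤ M * wt W k :=
        hL x hx (2 * (k : ℤ) - 1) (2 * (k : ℤ) + 1) (site_two_mul_sub_one hk)
          (site_two_mul_add_one hk) (by omega) (fun h => by have := hkb h; omega) hv
      nlinarith

/-- The finite set of valid states. -/
noncomputable def states [Fintype ι] [DecidableEq ι] (m : ℕ) (E : Set ((ι × Bool) × (ι × Bool))) :
    Finset (ι → ℤ) := by
  classical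
  exact (Fintype.piFinset fun _ : ι => Finset.Ioo (-(2 * (m : ℤ))) (2 * (m : ℤ))).filter
    (Valid m E)

theorem mem_states [Fintype ι] [DecidableEq ι] {m : ℕ} {E : Set ((ι × Bool) × (ι × Bool))}
    {x : ι → ℤ} : x ∈ states m E ↔ Valid m E x := by
  classical
  unfold states
  rw [Finset.mem_filter]
  constructor
  · exact fun h => h.2
  · refine fun h => ⟨?_, h⟩
    rw [Fintype.mem_piFinset]
    intro i
    obtain ⟨-, h1, h2⟩ := h.site i
    exact Finset.mem_Ioo.2 ⟨h1, h2⟩

theorem sum_stp [Fintype ι] [DecidableEq ι] {m : ℕ} {E : Set ((ι × Bool) × (ι × Bool))} (k : ℕ)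
    (F : (ι → ℤ) → (ι → ℤ) → ℝ) :
    ∑ x ∈ states m E, F (stp m E k x) x = ∑ x ∈ states m E, F x (stp m E k x) := by
  refine Finset.sum_bij' (fun x _ => stp m E k x) (fun x _ => stp m E k x) ?_ ?_ ?_ ?_ ?_
  · intro x hx
    exact mem_states.2 (stp_valid (mem_states.1 hx))
  · intro x hx
    exact mem_states.2 (stp_valid (mem_states.1 hx))
  · intro x hx
    exact stp_stp (mem_states.1 hx)
  · intro x hx
    exact stp_stp (mem_states.1 hx)
  · intro x hx
    rw [stp_stp (mem_states.1 hx)]

theorem sum_mul_gen [Fintype ι] [DecidableEq ι] {m : ℕ} {E : Set ((ι × Bool) × (ι × Bool))}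
    (r : ℕ → ℝ) (f g : (ι → ℤ) → ℝ) :
    ∑ x ∈ states m E, f x * gen m E r g x =
      - (∑ k ∈ range m, r k * ∑ x ∈ states m E,
        (f (stp m E k x) - f x) * (g (stp m E k x) - g x)) / 2 := by
  have h1 : ∑ x ∈ states m E, f x * gen m E r g x =
      ∑ k ∈ range m, r k * ∑ x ∈ states m E, f x * (g (stp m E k x) - g x) := by
    unfold gen
    simp only [Finset.mul_sum]
    rw [Finset.sum_comm]
    exact Finset.sum_congr rfl fun k _ => Finset.sum_congr rfl fun x _ => by ring
  rw [h1, eq_div_iff (by norm_num : (2 : ℝ) ≠ 0), Finset.sum_mul, ← Finset.sum_neg_distrib]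
  refine Finset.sum_congr rfl fun k _ => ?_
  have h2 : ∑ x ∈ states m E, f (stp m E k x) * (g x - g (stp m E k x)) =
      ∑ x ∈ states m E, f x * (g (stp m E k x) - g x) :=
    sum_stp k fun a b => f a * (g b - g a)
  have h3 : ∑ x ∈ states m E, (f (stp m E k x) - f x) * (g (stp m E k x) - g x) =
      - (∑ x ∈ states m E, f (stp m E k x) * (g x - g (stp m E k x))) -
      ∑ x ∈ states m E, f x * (g (stp m E k x) - g x) := by
    rw [← Finset.sum_neg_distrib, ← Finset.sum_sub_distrib]
    exact Finset.sum_congr rfl fun x _ => by ring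
  rw [h3, h2]
  ring

/-- **Discrete Poincaré inequality.** -/
theorem discrete_poincare [Fintype ι] [DecidableEq ι] (b : Bool) {m : ℕ}
    {E : Set ((ι × Bool) × (ι × Bool))} {r : ℕ → ℝ} {W : ℤ → ℝ} {κ : ℝ} (hκ : 0 ≤ κ)
    (hpos : b = true → ∀ x : ι → ℤ, Valid m E x → ∀ i, 0 < x i)
    (hr : ∀ k, 0 ≤ r k) (hr0 : b = true → r 0 = 0) (hW : ∀ v, W (-v) = - W v)
    (hwt : ∀ k < m, (b = true → 1 ≤ k) → 0 < wt W k)
    (hG : ∀ p q, Site m p → Site m q → p < q → (b = true → 0 < p) →
      genW m r W q - genW m r W p ≤ -κ * (W q - W p))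
    (f : (ι → ℤ) → ℝ) (hf : ∑ x ∈ states m E, f x = 0) :
    κ * ∑ x ∈ states m E, f x ^ 2 ≤
      (∑ k ∈ range m, r k * ∑ x ∈ states m E, (f (stp m E k x) - f x) ^ 2) / 2 := by
  classical
  set S := states m E with hS
  -- strict monotonicity of `W` on sites
  have hWmono : ∀ p q, Site m p → Site m q → p < q → (b = true → 0 < p) → 0 < W q - W p := by
    have hstep : ∀ v, Site m v → Site m (v + 2) → (b = true → 0 < v) → 0 < W (v + 2) - W v := by
      intro v hv hv2 hvb
      obtain ⟨h1, h2, h3⟩ := hv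
      obtain ⟨h4, h5, h6⟩ := hv2
      rcases le_or_gt (-1) v with h | h
      · have := hwt ((v + 1) / 2).toNat (by omega) (fun hb => by have := hvb hb; omega)
        unfold wt at this
        have e1 : 2 * ((((v + 1) / 2).toNat : ℕ) : ℤ) + 1 = v + 2 := by omega
        have e2 : 2 * ((((v + 1) / 2).toNat : ℕ) : ℤ) - 1 = v := by omega
        rwa [e1, e2] at this
      · have := hwt ((-v - 1) / 2).toNat (by omega) (fun hb => by have := hvb hb; omega)
        unfold wt at this
        have e1 : 2 * ((((-v - 1) / 2).toNat : ℕ) : ℤ) + 1 = -v := by omega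
        have e2 : 2 * ((((-v - 1) / 2).toNat : ℕ) : ℤ) - 1 = -(v + 2) := by omega
        rw [e1, e2, hW, hW] at this
        linarith
    have hind : ∀ n : ℕ, ∀ p, Site m p → Site m (p + 2 * (n + 1 : ℕ)) → (b = true → 0 < p) →
        0 < W (p + 2 * (n + 1 : ℕ)) - W p := by
      intro n
      induction n with
      | zero =>
        intro p hp hq hpb
        simpa using hstep p hp (by simpa using hq) hpb
      | succ n ih =>
        intro p hp hq hpb
        have hmid : Site m (p + 2 * (n + 1 : ℕ)) := by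
          obtain ⟨h1, h2, h3⟩ := hp
          obtain ⟨h4, h5, h6⟩ := hq
          refine ⟨?_, ?_, ?_⟩ <;> push_cast at * <;> omega
        have h1 := ih p hp hmid hpb
        have h2 : p + 2 * ((n + 1 + 1 : ℕ) : ℤ) = (p + 2 * (n + 1 : ℕ)) + 2 := by
          push_cast
          ring
        rw [h2] at hq ⊢
        have h3 := hstep _ hmid hq (fun hb => by have := hpb hb; positivity)
        linarith
    intro p q hp hq hpq hpb
    obtain ⟨n, hn⟩ : ∃ n : ℕ, q = p + 2 * (n + 1 : ℕ) := by
      obtain ⟨h1, -, -⟩ := hp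
      obtain ⟨h4, -, -⟩ := hq
      refine ⟨((q - p) / 2 - 1).toNat, ?_⟩
      push_cast
      omega
    rw [hn] at hq ⊢
    exact hind n p hp hq hpb
  -- the bound of the sup norm
  have hbd : ∀ x ∈ S, ∀ y ∈ S, ∃ B : ℝ, 0 ≤ B ∧ ∀ g M, 0 ≤ M → Lp b m E W g M →
      g y - g x ≤ B * M := by
    intro x hx y hy
    exact exists_bound hpos (fun k hk hkb => (hwt k hk hkb).le) y (mem_states.1 hy) _ x
      (mem_states.1 hx) le_rfl
  choose! Bf hBf0 hBf using hbd
  set B := ∑ x ∈ S, ∑ y ∈ S, (Bf x y) with hBdef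
  have hBle : ∀ x ∈ S, ∀ y ∈ S, Bf x y ≤ B := by
    intro x hx y hy
    calc Bf x y ≤ ∑ y ∈ S, Bf x y :=
          Finset.single_le_sum (f := fun y => Bf x y) (fun y hy => hBf0 x hx y hy) hy
      _ ≤ B := Finset.single_le_sum (f := fun x => ∑ y ∈ S, Bf x y)
          (fun x hx => Finset.sum_nonneg fun y hy => hBf0 x hx y hy) hx
  have hsum : ∀ g h : (ι → ℤ) → ℝ, ∑ x ∈ S, g x * gen m E r h x =
      - (∑ k ∈ range m, r k * ∑ x ∈ S, (g (stp m E k x) - g x) * (h (stp m E k x) - h x)) / 2 :=
    fun g h => sum_mul_gen r g h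
  have hRnn : 0 ≤ ∑ k ∈ range m, r k := Finset.sum_nonneg fun k _ => hr k
  -- conclusion
  have hmain := gap_of_contraction S (gen m E r) ?_ ?_ (Lp b m E W) (B := B) ?_ ?_ (κ := κ)
    (ε₀ := 1 / (2 * (∑ k ∈ range m, r k) + κ + 1)) hκ (by positivity) ?_ ?_ f hf
  · rw [hsum] at hmain
    refine hmain.trans (le_of_eq ?_)
    rw [neg_div, neg_neg]
    congr 1
    refine Finset.sum_congr rfl fun k _ => ?_
    congr 1
    exact Finset.sum_congr rfl fun x _ => by ring
  · intro g h
    rw [hsum, show ∑ x ∈ S, gen m E r g x * h x = ∑ x ∈ S, h x * gen m E r g x from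
      Finset.sum_congr rfl fun x _ => mul_comm _ _, hsum]
    congr 2
    refine Finset.sum_congr rfl fun k _ => ?_
    congr 1
    exact Finset.sum_congr rfl fun x _ => mul_comm _ _
  · intro g
    have := hsum (fun _ => 1) g
    simpa using this
  · intro g M hM hL hg x hx
    have hcard : 0 < (S.card : ℝ) := by
      exact_mod_cast Finset.card_pos.2 ⟨x, hx⟩
    have h1 : ∀ y ∈ S, |g y - g x| ≤ B * M := by
      intro y hy
      rw [abs_le]
      constructor
      · have := hBf y hy x hx g M hM hL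
        have h2 := mul_le_mul_of_nonneg_right (hBle y hy x hx) hM
        linarith
      · have := hBf x hx y hy g M hM hL
        have h2 := mul_le_mul_of_nonneg_right (hBle x hx y hy) hM
        linarith
    have h2 : (S.card : ℝ) * g x = - ∑ y ∈ S, (g y - g x) := by
      rw [Finset.sum_sub_distrib, hg, Finset.sum_const, nsmul_eq_mul]
      ring
    have h3 : (S.card : ℝ) * |g x| ≤ S.card * (B * M) := by
      calc (S.card : ℝ) * |g x| = |(S.card : ℝ) * g x| := by
            rw [abs_mul, abs_of_pos hcard]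
        _ = |∑ y ∈ S, (g y - g x)| := by rw [h2, abs_neg]
        _ ≤ ∑ y ∈ S, |g y - g x| := Finset.abs_sum_le_sum_abs _ _
        _ ≤ ∑ y ∈ S, (B * M) := Finset.sum_le_sum h1
        _ = S.card * (B * M) := by rw [Finset.sum_const, nsmul_eq_mul]
    exact le_of_mul_le_mul_left h3 hcard
  · -- every function has a finite seminorm
    intro g
    let I : Finset ℤ := Finset.Ioo (-(2 * (m : ℤ))) (2 * (m : ℤ))
    let Q : (ι → ℤ) → ℤ → ℤ → ℝ := fun x p q => |g (tauS p q x) - g x| / |W q - W p|
    have hQ : ∀ x p q, 0 ≤ Q x p q := fun x p q => by positivity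
    refine ⟨∑ x ∈ S, ∑ p ∈ I, ∑ q ∈ I, Q x p q, ?_, ?_⟩
    · exact Finset.sum_nonneg fun x _ => Finset.sum_nonneg fun p _ =>
        Finset.sum_nonneg fun q _ => hQ x p q
    · intro x hx p q hp hq hpq hpb _
      have hpos := hWmono p q hp hq hpq hpb
      have h1 : Q x p q ≤ ∑ x ∈ S, ∑ p ∈ I, ∑ q ∈ I, Q x p q := by
        calc Q x p q ≤ ∑ q ∈ I, Q x p q :=
              Finset.single_le_sum (f := fun q => Q x p q) (fun q _ => hQ x p q)
                (Finset.mem_Ioo.2 ⟨hq.2.1, hq.2.2⟩)
          _ ≤ ∑ p ∈ I, ∑ q ∈ I, Q x p q :=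
              Finset.single_le_sum (f := fun p => ∑ q ∈ I, Q x p q)
                (fun p _ => Finset.sum_nonneg fun q _ => hQ x p q)
                (Finset.mem_Ioo.2 ⟨hp.2.1, hp.2.2⟩)
          _ ≤ _ := Finset.single_le_sum (f := fun x => ∑ p ∈ I, ∑ q ∈ I, Q x p q)
                (fun x _ => Finset.sum_nonneg fun p _ => Finset.sum_nonneg fun q _ => hQ x p q)
                (mem_states.2 hx)
      have h2 : Q x p q * (W q - W p) = |g (tauS p q x) - g x| := by
        simp only [Q]
        rw [abs_of_pos hpos]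
        field_simp
      calc g (tauS p q x) - g x ≤ |g (tauS p q x) - g x| := le_abs_self _
        _ = Q x p q * (W q - W p) := h2.symm
        _ ≤ _ := mul_le_mul_of_nonneg_right h1 hpos.le
  · rw [div_mul_eq_mul_div, one_mul, div_le_one (by positivity)]
    linarith
  · intro ε hε1 hε2 g M hM hL
    refine contraction hr hr0 hW (fun k hk hkb => (hwt k hk hkb).le) hG hε1.le ?_ hM hL
    have h1 : ε * (2 * (∑ k ∈ range m, r k) + κ + 1) ≤ 1 := by
      rwa [le_div_iff₀ (by positivity)] at hε2
    nlinarith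

end Pool.Agent.Lib.MP_8d00da_gt
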