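import Pool.Agent.Lib.MP_8d00da_gt.Cells

/-!
# The inequality at a finite scale
-/

open Finset MeasureTheory

namespace Pool.Agent.Lib.MP_8d00da_gt

theorem sum_mv_le (m : ℕ) {u : ℤ} (hu : u % 2 = 1) (φ : ℤ → ℝ) (hφ : ∀ w, 0 ≤ φ w) :
    ∑ k ∈ range m, (if mv k u ≠ u then φ (mv k u) else 0) ≤ φ (u + 2) + φ (u - 2) := by
  rcases lt_or_gt_of_ne (show u ≠ 0 by omega) with h | h
  · obtain ⟨j, hj⟩ : ∃ j : ℕ, u = -(2 * (j : ℤ) + 1) := ⟨((-u - 1) / 2).toNat, by omega⟩
    have hterm : ∀ k : ℕ, (if mv k u ≠ u then φ (mv k u) else 0) =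
        (if k = j then φ (u + 2) else 0) + (if k = j + 1 then φ (u - 2) else 0) := by
      intro k
      rcases mv_cases k u with ⟨h4, h5⟩ | ⟨h4, h5⟩ | ⟨h4, h5⟩ | ⟨h4, h5⟩ | ⟨h4, h6, h7, h8, h5⟩
      · rw [if_pos (by omega), if_pos (by omega), if_neg (by omega), h5, add_zero]
      · rw [if_pos (by omega), if_pos (by omega), if_neg (by omega), h5, add_zero]
      · omega
      · rw [if_pos (by omega), if_neg (by omega), if_pos (by omega), h5, zero_add]
      · rw [if_neg (by simpa using h5), if_neg (by omega), if_neg (by omega), add_zero]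
    rw [Finset.sum_congr rfl fun k _ => hterm k, Finset.sum_add_distrib, Finset.sum_ite_eq',
      Finset.sum_ite_eq']
    apply add_le_add
    · split_ifs
      · exact le_rfl
      · exact hφ _
    · split_ifs
      · exact le_rfl
      · exact hφ _
  · obtain ⟨j, hj⟩ : ∃ j : ℕ, u = 2 * (j : ℤ) + 1 := ⟨((u - 1) / 2).toNat, by omega⟩
    have hterm : ∀ k : ℕ, (if mv k u ≠ u then φ (mv k u) else 0) =
        (if k = j + 1 then φ (u + 2) else 0) + (if k = j then φ (u - 2) else 0) := by
      intro k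
      rcases mv_cases k u with ⟨h4, h5⟩ | ⟨h4, h5⟩ | ⟨h4, h5⟩ | ⟨h4, h5⟩ | ⟨h4, h6, h7, h8, h5⟩
      · rw [if_pos (by omega), if_pos (by omega), if_neg (by omega), h5, add_zero]
      · omega
      · rw [if_pos (by omega), if_neg (by omega), if_pos (by omega), h5, zero_add]
      · rw [if_pos (by omega), if_neg (by omega), if_pos (by omega), h5, zero_add]
      · rw [if_neg (by simpa using h5), if_neg (by omega), if_neg (by omega), add_zero]
    rw [Finset.sum_congr rfl fun k _ => hterm k, Finset.sum_add_distrib, Finset.sum_ite_eq',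
      Finset.sum_ite_eq']
    apply add_le_add
    · split_ifs
      · exact le_rfl
      · exact hφ _
    · split_ifs
      · exact le_rfl
      · exact hφ _

variable {ι : Type*}

/-- Two particles at adjacent distances from the origin. -/
def Bad (v : ι → ℤ) : Prop := ∃ i j, |v i| = |v j| + 2

theorem mv_ne_abs {k : ℕ} {u : ℤ} (h : mv k u ≠ u) : |u| = 2 * (k : ℤ) + 1 ∨ |u| = |2 * (k : ℤ) - 1| := by
  rcases mv_cases k u with ⟨h4, h5⟩ | ⟨h4, h5⟩ | ⟨h4, h5⟩ | ⟨h4, h5⟩ | ⟨h4, h6, h7, h8, h5⟩
  · right; rw [h4]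
  · left; rw [h4, show -(2 * (k : ℤ)) - 1 = -(2 * (k : ℤ) + 1) by ring, abs_neg, abs_of_nonneg (by omega)]
  · left; rw [h4, abs_of_nonneg (by omega)]
  · right; rw [h4, show -(2 * (k : ℤ)) + 1 = -(2 * (k : ℤ) - 1) by ring, abs_neg]
  · exact absurd h5 h

variable [Fintype ι] [DecidableEq ι]

open Classical in
theorem energy_le {m : ℕ} {E : Set ((ι × Bool) × (ι × Bool))} {v : ι → ℤ} (hv : Valid m E v)
    (f : (ι → ℤ) → ℝ) {B : ℝ} (hB0 : 0 ≤ B) (hB : ∀ k < m, (f (mvS k v) - f v) ^ 2 ≤ B) :
    ∑ k ∈ range m, (f (stp m E k v) - f v) ^ 2 ≤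
      ∑ i, ((f (Function.update v i (v i + 2)) - f v) ^ 2 +
        (f (Function.update v i (v i - 2)) - f v) ^ 2) +
      (if Bad v then 2 * Fintype.card ι * B else 0) := by
  set b : ℝ := if Bad v then B else 0 with hb
  have hb0 : 0 ≤ b := by
    rw [hb]; split_ifs
    · exact hB0
    · exact le_rfl
  let φ : ι → ℤ → ℝ := fun i w => (f (Function.update v i w) - f v) ^ 2 + b
  have hφ : ∀ i w, 0 ≤ φ i w := fun i w => add_nonneg (sq_nonneg _) hb0
  have hk : ∀ k ∈ range m, (f (stp m E k v) - f v) ^ 2 ≤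
      ∑ i, (if mv k (v i) ≠ v i then φ i (mv k (v i)) else 0) := by
    intro k hk
    have hk' := Finset.mem_range.1 hk
    have hnn : ∀ i ∈ (Finset.univ : Finset ι),
        0 ≤ (if mv k (v i) ≠ v i then φ i (mv k (v i)) else 0) := by
      intro i _
      split_ifs
      · exact hφ _ _
      · exact le_rfl
    by_cases hs : stp m E k v = v
    · rw [hs, sub_self, zero_pow two_ne_zero]
      exact Finset.sum_nonneg hnn
    · have hs' : stp m E k v = mvS k v := by
        by_cases h : Valid m E (mvS k v)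
        · exact stp_of_valid h
        · exact absurd (stp_of_not_valid h) hs
      rw [hs'] at hs ⊢
      obtain ⟨i, hi⟩ := Function.ne_iff.1 hs
      have hi' : mv k (v i) ≠ v i := hi
      refine le_trans ?_ (Finset.single_le_sum hnn (Finset.mem_univ i))
      rw [if_pos hi']
      by_cases hbad : Bad v
      · have : b = B := by rw [hb, if_pos hbad]
        simp only [φ, this]
        have := hB k hk'
        have := sq_nonneg (f (Function.update v i (mv k (v i))) - f v)
        linarith
      · have huniq : ∀ j, j ≠ i → mv k (v j) = v j := by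
          intro j hj
          by_contra hcon
          apply hbad
          obtain ⟨h1, h2⟩ := hv.inj j i hj
          have h3 : |v j| ≠ |v i| := by
            intro h
            rcases abs_eq_abs.1 h with h | h
            · exact h1 h
            · exact h2 h
          have h4 := mv_ne_abs hcon
          have h5 := mv_ne_abs hi'
          rcases Nat.eq_zero_or_pos k with hk0 | hkpos
          · subst hk0
            exfalso
            simp at h4 h5
            omega
          · have h6 : |2 * (k : ℤ) - 1| = 2 * (k : ℤ) - 1 := abs_of_nonneg (by omega)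
            rw [h6] at h4 h5
            rcases h4 with h4 | h4 <;> rcases h5 with h5 | h5
            · omega
            · exact ⟨j, i, by omega⟩
            · exact ⟨i, j, by omega⟩
            · omega
        have : mvS k v = Function.update v i (mv k (v i)) := by
          funext j
          by_cases hj : j = i
          · subst hj
            simp [mvS]
          · rw [Function.update_of_ne hj]
            exact huniq j hj
        rw [this]
        simp only [φ]
        linarith
  refine (Finset.sum_le_sum hk).trans ?_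
  rw [Finset.sum_comm]
  have h2 : ∀ i ∈ (Finset.univ : Finset ι), ∑ k ∈ range m, (if mv k (v i) ≠ v i then φ i (mv k (v i)) else 0) ≤
      ((f (Function.update v i (v i + 2)) - f v) ^ 2 +
        (f (Function.update v i (v i - 2)) - f v) ^ 2) + 2 * b := by
    intro i _
    refine (sum_mv_le m (hv.site i).1 (φ i) (hφ i)).trans (le_of_eq ?_)
    simp only [φ]
    ring
  refine (Finset.sum_le_sum h2).trans (le_of_eq ?_)
  rw [Finset.sum_add_distrib, Finset.sum_const, Finset.card_univ, nsmul_eq_mul]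
  congr 1
  rw [hb]
  split_ifs
  · ring
  · ring

/-- Shift of one coordinate. -/
noncomputable def sh (m : ℕ) (i : ι) (s : ℤ) (z : ι → ℝ) : ι → ℝ :=
  fun j => z j + ((Pi.single i s : ι → ℤ) j : ℝ) / m

theorem continuous_sh (m : ℕ) (i : ι) (s : ℤ) : Continuous (sh m i s : (ι → ℝ) → ι → ℝ) := by
  unfold sh
  fun_prop

theorem avg_update {m : ℕ} (hm : 0 < m) (v : ι → ℤ) (i : ι) (s : ℤ) (G : (ι → ℝ) → ℝ) :
    avg m G (Function.update v i (v i + 2 * s)) = avg m (fun z => G (sh m i s z)) v := by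
  have e : Function.update v i (v i + 2 * s) = fun j => v j + 2 * (Pi.single i s : ι → ℤ) j := by
    funext j
    by_cases hj : j = i
    · subst hj; simp
    · rw [Function.update_of_ne hj, Pi.single_eq_of_ne hj]; ring
  rw [e, avg_shift hm]
  rfl

theorem avg_bound {m : ℕ} (hm : 0 < m) {v : ι → ℤ} (hv : ∀ i, v i % 2 = 1)
    {H : (ι → ℝ) → ℝ} (hH : Continuous H) {B : ℝ} (hB : ∀ z, |H z| ≤ B) :
    avg m H v ^ 2 ≤ B ^ 2 := by
  have hm' : (0 : ℝ) < m := by exact_mod_cast hm
  have h1 := avg_sq_le hm hv hH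
  have h2 : ∫ z in cell m v, H z ^ 2 ≤ B ^ 2 * volume.real (cell m v) := by
    have h3 : ‖∫ z in cell m v, H z ^ 2‖ ≤ B ^ 2 * volume.real (cell m v) := by
      apply norm_setIntegral_le_of_norm_le_const (volume_cell_lt_top hm hv)
      intro z _
      rw [Real.norm_eq_abs, abs_of_nonneg (sq_nonneg _), ← sq_abs]
      exact pow_le_pow_left₀ (abs_nonneg _) (hB z) 2
    exact (le_abs_self _).trans h3
  rw [volume_cell hm hv, mul_comm (B ^ 2)] at h2
  exact le_of_mul_le_mul_left (h1.trans h2) (by positivity)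

theorem avg_mvS {m : ℕ} (hm : 0 < m) {v : ι → ℤ} (hv : ∀ i, v i % 2 = 1)
    {G : (ι → ℝ) → ℝ} {L : NNReal} (hG : LipschitzWith L G) (k : ℕ) :
    (avg m G (mvS k v) - avg m G v) ^ 2 ≤ (L / m) ^ 2 := by
  have hm' : (0 : ℝ) < m := by exact_mod_cast hm
  let c : ι → ℤ := fun i => (mv k (v i) - v i) / 2
  have hc : ∀ i, 2 * c i = mv k (v i) - v i ∧ |c i| ≤ 1 := by
    intro i
    simp only [c]
    rcases mv_cases k (v i) with h | h | h | h | h
    · rw [h.2]; constructor
      · omega
      · rw [abs_le]; omega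
    · rw [h.2]; constructor
      · omega
      · rw [abs_le]; omega
    · rw [h.2]; constructor
      · omega
      · rw [abs_le]; omega
    · rw [h.2]; constructor
      · omega
      · rw [abs_le]; omega
    · rw [h.2.2.2.2]; simp
  have e : mvS k v = fun i => v i + 2 * c i := by
    funext i
    have := (hc i).1
    unfold mvS
    omega
  have hcont : Continuous fun z : ι → ℝ => G (fun i => z i + c i / m) := by
    have := hG.continuous
    fun_prop
  rw [e, avg_shift hm, ← avg_sub hm hv hcont hG.continuous]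
  apply avg_bound hm hv (H := fun z => G (fun i => z i + c i / m) - G z) (hcont.sub hG.continuous)
  intro z
  rw [← Real.norm_eq_abs, ← dist_eq_norm]
  refine (hG.dist_le_mul _ _).trans ?_
  rw [div_eq_mul_one_div]
  apply mul_le_mul_of_nonneg_left _ L.coe_nonneg
  rw [dist_pi_le_iff (by positivity)]
  intro i
  rw [Real.dist_eq, add_sub_cancel_left, abs_div, Nat.abs_cast]
  apply div_le_div_of_nonneg_right _ hm'.le
  exact_mod_cast (hc i).2

/-- The squared increments of `G` in all coordinate directions. -/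
noncomputable def Qm (m : ℕ) (G : (ι → ℝ) → ℝ) (z : ι → ℝ) : ℝ :=
  ∑ i, ((G (sh m i 1 z) - G z) ^ 2 + (G (sh m i (-1) z) - G z) ^ 2)

theorem continuous_Qm (m : ℕ) {G : (ι → ℝ) → ℝ} (hG : Continuous G) : Continuous (Qm m G) := by
  unfold Qm
  refine continuous_finsetSum _ fun i _ => ?_
  have h1 := hG.comp (continuous_sh m i 1)
  have h2 := hG.comp (continuous_sh m i (-1))
  exact ((h1.sub hG).pow 2).add ((h2.sub hG).pow 2)

open Classical in
theorem energy_avg {m : ℕ} (hm : 0 < m) {E : Set ((ι × Bool) × (ι × Bool))} {v : ι → ℤ}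
    (hv : Valid m E v) {G : (ι → ℝ) → ℝ} {L : NNReal} (hG : LipschitzWith L G) :
    (1 / (m : ℝ)) ^ Fintype.card ι * ∑ k ∈ range m, (avg m G (stp m E k v) - avg m G v) ^ 2 ≤
      (∫ z in cell m v, Qm m G z) + (1 / (m : ℝ)) ^ Fintype.card ι *
        (if Bad v then 2 * Fintype.card ι * (L / m : ℝ) ^ 2 else 0) := by
  have hm' : (0 : ℝ) < m := by exact_mod_cast hm
  have hodd : ∀ i, v i % 2 = 1 := fun i => (hv.site i).1
  have h1 := energy_le hv (avg m G) (sq_nonneg (L / m : ℝ)) fun k _ => avg_mvS hm hodd hG k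
  have h2 := mul_le_mul_of_nonneg_left h1 (show 0 ≤ (1 / (m : ℝ)) ^ Fintype.card ι by positivity)
  refine h2.trans ?_
  rw [mul_add]
  apply add_le_add _ le_rfl
  have hc := hG.continuous
  have h3 : ∀ (i : ι) (s : ℤ), (1 / (m : ℝ)) ^ Fintype.card ι *
      (avg m G (Function.update v i (v i + 2 * s)) - avg m G v) ^ 2 ≤
        ∫ z in cell m v, (G (sh m i s z) - G z) ^ 2 := by
    intro i s
    have hcs : Continuous fun z => G (sh m i s z) := hc.comp (continuous_sh m i s)
    rw [avg_update hm, ← avg_sub hm hodd hcs hc]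
    exact avg_sq_le hm hodd (hcs.sub hc)
  unfold Qm
  have hint : ∀ (i : ι) (s : ℤ), IntegrableOn (fun z => (G (sh m i s z) - G z) ^ 2) (cell m v) :=
    fun i s => integrableOn_cell hm hodd (((hc.comp (continuous_sh m i s)).sub hc).pow 2)
  have hint2 : ∀ i ∈ (Finset.univ : Finset ι), IntegrableOn
      (fun z => (G (sh m i 1 z) - G z) ^ 2 + (G (sh m i (-1) z) - G z) ^ 2) (cell m v) :=
    fun i _ => (hint i 1).add (hint i (-1))
  rw [integral_finsetSum _ hint2, Finset.mul_sum]
  apply Finset.sum_le_sum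
  intro i _
  rw [integral_add (hint i 1) (hint i (-1)), mul_add]
  have h4 := h3 i 1
  have h5 := h3 i (-1)
  rw [show v i + 2 * (1 : ℤ) = v i + 2 by ring] at h4
  rw [show v i + 2 * (-1 : ℤ) = v i - 2 by ring] at h5
  exact add_le_add h4 h5

/-- The union of the cells of the valid states. -/
def Um (m : ℕ) (E : Set ((ι × Bool) × (ι × Bool))) : Set (ι → ℝ) := {z | Valid m E (idx m z)}

/-- The part of the box with two coordinates close to each other. -/
def Bm (m : ℕ) : Set (ι → ℝ) := {z | Bad (idx m z)}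

theorem Um_eq (m : ℕ) (E : Set ((ι × Bool) × (ι × Bool))) :
    (Um m E : Set (ι → ℝ)) = {z | idx m z ∈ states m E} := by
  ext z
  exact mem_states.symm

theorem measurableSet_Um (m : ℕ) (E : Set ((ι × Bool) × (ι × Bool))) :
    MeasurableSet (Um m E : Set (ι → ℝ)) :=
  measurable_idx m (show MeasurableSet {v : ι → ℤ | Valid m E v} from
    (Set.to_countable _).measurableSet)

theorem measurableSet_Bm (m : ℕ) : MeasurableSet (Bm m : Set (ι → ℝ)) :=
  measurable_idx m (show MeasurableSet {v : ι → ℤ | Bad v} from (Set.to_countable _).measurableSet)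

open Classical in
theorem finite_ineq {m : ℕ} (hm : 0 < m) (E : Set ((ι × Bool) × (ι × Bool)))
    {G : (ι → ℝ) → ℝ} {L : NNReal} (hG : LipschitzWith L G) :
    kap m * (volume.real (Um m E) * ((∫ z in Um m E, G z ^ 2) -
        volume.real (Um m E) * (L / m : ℝ) ^ 2) - (∫ z in Um m E, G z) ^ 2) ≤
      volume.real (Um m E) * ((∫ z in Um m E, Qm m G z) / 2 +
        Fintype.card ι * (L / m : ℝ) ^ 2 * volume.real (Um m E ∩ Bm m)) := by
  have hm' : (0 : ℝ) < m := by exact_mod_cast hm
  set S := states m E with hS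
  set c : ℝ := (1 / (m : ℝ)) ^ Fintype.card ι with hc
  have hcpos : 0 < c := by positivity
  have hG' := hG.continuous
  have hodd : ∀ v ∈ S, ∀ i, v i % 2 = 1 := fun v hv i => ((mem_states.1 hv).site i).1
  have hsum : ∀ Φ : (ι → ℝ) → ℝ, Continuous Φ →
      ∫ z in Um m E, Φ z = ∑ v ∈ S, ∫ z in cell m v, Φ z := by
    intro Φ hΦ
    rw [Um_eq, sum_cells S fun v hv => integrableOn_cell hm (hodd v hv) hΦ]
  have hvol : volume.real (Um m E) = c * S.card := by
    have h1 := hsum (fun _ => 1) continuous_const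
    rw [setIntegral_const, smul_eq_mul, mul_one] at h1
    rw [h1]
    have h2 : ∀ v ∈ S, ∫ z in cell m v, (1 : ℝ) = c := by
      intro v hv
      rw [setIntegral_const, smul_eq_mul, mul_one, volume_cell hm (hodd v hv)]
    rw [Finset.sum_congr rfl h2, Finset.sum_const, nsmul_eq_mul, mul_comm]
  have hG1 : ∫ z in Um m E, G z = c * ∑ v ∈ S, avg m G v := by
    rw [hsum G hG', Finset.mul_sum]
    refine Finset.sum_congr rfl fun v _ => ?_
    rw [avg, ← mul_assoc, hc, ← mul_pow, one_div_mul_cancel hm'.ne', one_pow, one_mul]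
  have hG2 : ∫ z in Um m E, G z ^ 2 ≤ c * ∑ v ∈ S, avg m G v ^ 2 + volume.real (Um m E) * (L / m : ℝ) ^ 2 := by
    rw [hsum (fun z => G z ^ 2) (hG'.pow 2), hvol]
    have h1 : ∀ v ∈ S, ∫ z in cell m v, G z ^ 2 ≤ c * avg m G v ^ 2 + c * (L / m : ℝ) ^ 2 := by
      intro v hv
      have := sq_int_le hm (hodd v hv) hG
      linarith
    refine (Finset.sum_le_sum h1).trans (le_of_eq ?_)
    rw [Finset.sum_add_distrib, Finset.sum_const, nsmul_eq_mul, Finset.mul_sum]
    ring
  have hbad : c * ∑ v ∈ S, (if Bad v then 2 * (Fintype.card ι : ℝ) * (L / m : ℝ) ^ 2 else 0) =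
      2 * (Fintype.card ι * (L / m : ℝ) ^ 2 * volume.real (Um m E ∩ Bm m)) := by
    have h1 : (Um m E ∩ Bm m : Set (ι → ℝ)) = {z | idx m z ∈ S.filter Bad} := by
      ext z
      show (Valid m E (idx m z) ∧ Bad (idx m z)) ↔ _
      rw [Set.mem_ofPred_eq, Finset.mem_filter, mem_states]
    have h2 : volume.real (Um m E ∩ Bm m : Set (ι → ℝ)) = c * (S.filter Bad).card := by
      have h3 : ∀ v ∈ S.filter Bad, ∀ i, v i % 2 = 1 := fun v hv =>
        hodd v (Finset.mem_filter.1 hv).1
      have h4 := sum_cells (m := m) (S.filter Bad) (Φ := fun _ => (1 : ℝ))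
        fun v hv => integrableOn_cell hm (h3 v hv) continuous_const
      rw [setIntegral_const, smul_eq_mul, mul_one] at h4
      rw [h1, ← h4]
      have h2 : ∀ v ∈ S.filter Bad, ∫ z in cell m v, (1 : ℝ) = c := by
        intro v hv
        rw [setIntegral_const, smul_eq_mul, mul_one, volume_cell hm (h3 v hv)]
      rw [Finset.sum_congr rfl h2, Finset.sum_const, nsmul_eq_mul, mul_comm]
    rw [h2, ← Finset.sum_filter, Finset.sum_const, nsmul_eq_mul]
    ring
  have henergy : c * ∑ v ∈ S, ∑ k ∈ range m, (avg m G (stp m E k v) - avg m G v) ^ 2 ≤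
      (∫ z in Um m E, Qm m G z) + 2 * (Fintype.card ι * (L / m : ℝ) ^ 2 * volume.real (Um m E ∩ Bm m)) := by
    rw [← hbad, hsum _ (continuous_Qm m hG'), Finset.mul_sum, Finset.mul_sum,
      ← Finset.sum_add_distrib]
    exact Finset.sum_le_sum fun v hv => energy_avg hm (mem_states.1 hv) hG
  have hmain := discrete_var m E (avg m G)
  rw [← hS] at hmain
  have hk := kap_nonneg m
  have hcc : 0 < c ^ 2 := by positivity
  have h1 := mul_le_mul_of_nonneg_left hmain hcc.le
  have h2 : kap m * (volume.real (Um m E) * ((∫ z in Um m E, G z ^ 2) -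
        volume.real (Um m E) * (L / m : ℝ) ^ 2) - (∫ z in Um m E, G z) ^ 2) ≤
      c ^ 2 * (kap m * (S.card * ∑ x ∈ S, avg m G x ^ 2 - (∑ x ∈ S, avg m G x) ^ 2)) := by
    have e : c ^ 2 * (kap m * (S.card * ∑ x ∈ S, avg m G x ^ 2 - (∑ x ∈ S, avg m G x) ^ 2)) =
      kap m * (volume.real (Um m E) * (c * ∑ x ∈ S, avg m G x ^ 2) -
        (c * ∑ x ∈ S, avg m G x) ^ 2) := by
      rw [hvol]; ring
    rw [e, hG1]
    apply mul_le_mul_of_nonneg_left _ hk
    apply sub_le_sub_right
    apply mul_le_mul_of_nonneg_left _ measureReal_nonneg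
    linarith
  refine h2.trans (h1.trans ?_)
  have e : c ^ 2 * (S.card * ((∑ x ∈ S, ∑ k ∈ range m,
      (avg m G (stp m E k x) - avg m G x) ^ 2) / 2)) =
      volume.real (Um m E) * ((c * ∑ x ∈ S, ∑ k ∈ range m,
      (avg m G (stp m E k x) - avg m G x) ^ 2) / 2) := by
    rw [hvol]; ring
  rw [e]
  apply mul_le_mul_of_nonneg_left _ measureReal_nonneg
  linarith

end Pool.Agent.Lib.MP_8d00da_gt
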