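import Pool.Agent.Lib.MP_8d00da_gt.Trunc

/-!
# One-dimensional log-concave densities
-/

open MeasureTheory Filter Topology Set

namespace Pool.Agent.Lib.MP_8d00da_gt

/-- `h` is a log-concave function on the line (measurable and nonnegative). -/
structure LCD (h : ℝ → ℝ) : Prop where
  meas : Measurable h
  nonneg : ∀ x, 0 ≤ h x
  lc : ∀ x y a b : ℝ, 0 ≤ a → 0 ≤ b → a + b = 1 → h x ^ a * h y ^ b ≤ h (a * x + b * y)

/-- The measure with density `h`. -/
noncomputable def dens (h : ℝ → ℝ) : Measure ℝ := volume.withDensity fun x => ENNReal.ofReal (h x)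

theorem dens_ac (h : ℝ → ℝ) : dens h ≪ volume := withDensity_absolutelyContinuous _ _

namespace LCD

variable {h : ℝ → ℝ}

theorem neg (H : LCD h) : LCD fun x => h (-x) where
  meas := H.meas.comp measurable_neg
  nonneg x := H.nonneg _
  lc x y a b ha hb hab := by
    have := H.lc (-x) (-y) a b ha hb hab
    have e : a * -x + b * -y = -(a * x + b * y) := by ring
    rwa [e] at this

theorem cross (H : LCD h) {x y t : ℝ} (hxy : x ≤ y) (ht : 0 ≤ t) :
    h x * h (y + t) ≤ h y * h (x + t) := by
  rcases (H.nonneg x).eq_or_lt with hx | hx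
  · rw [← hx, zero_mul]
    exact mul_nonneg (H.nonneg _) (H.nonneg _)
  rcases (H.nonneg (y + t)).eq_or_lt with hy | hy
  · rw [← hy, mul_zero]
    exact mul_nonneg (H.nonneg _) (H.nonneg _)
  rcases (show x ≤ y + t by linarith).eq_or_lt with hd | hd
  · have h1 : x = y := by linarith
    have h2 : t = 0 := by linarith
    subst h1 h2
    simp
  have hd' : 0 < y + t - x := by linarith
  set l := (y - x) / (y + t - x) with hl
  have hl0 : 0 ≤ l := div_nonneg (by linarith) hd'.le
  have hl1 : l ≤ 1 := by rw [hl, div_le_one hd']; linarith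
  have hl2 : l * (y + t - x) = y - x := by rw [hl]; field_simp
  have h1 := H.lc x (y + t) (1 - l) l (by linarith) hl0 (by ring)
  have h2 := H.lc x (y + t) l (1 - l) hl0 (by linarith) (by ring)
  have e1 : (1 - l) * x + l * (y + t) = y := by linarith
  have e2 : l * x + (1 - l) * (y + t) = x + t := by linarith
  rw [e1] at h1
  rw [e2] at h2
  have h3 := mul_le_mul h1 h2 (by positivity) (H.nonneg _)
  refine le_trans (le_of_eq ?_) h3
  have e3 : h x ^ (1 - l) * h (y + t) ^ l * (h x ^ l * h (y + t) ^ (1 - l)) =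
      (h x ^ (1 - l) * h x ^ l) * (h (y + t) ^ l * h (y + t) ^ (1 - l)) := by ring
  rw [e3, ← Real.rpow_add hx, ← Real.rpow_add hy]
  simp

theorem tail (H : LCD h) {x y : ℝ} (hxy : x ≤ y) :
    ENNReal.ofReal (h x) * dens h (Ici y) ≤ ENNReal.ofReal (h y) * dens h (Ici x) := by
  have hm : Measurable fun x => ENNReal.ofReal (h x) := H.meas.ennreal_ofReal
  have key : ∀ z : ℝ, dens h (Ici z) = ∫⁻ t in Ici 0, ENNReal.ofReal (h (z + t)) := by
    intro z
    unfold dens
    rw [withDensity_apply _ measurableSet_Ici]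
    have := (measurePreserving_add_left volume z).setLIntegral_comp_preimage (s := Ici z)
      measurableSet_Ici hm
    rw [← this]
    congr 2
    ext t
    simp
  have hmy : Measurable fun t => ENNReal.ofReal (h (y + t)) := hm.comp (measurable_const_add y)
  have hmx : Measurable fun t => ENNReal.ofReal (h (x + t)) := hm.comp (measurable_const_add x)
  rw [key, key, ← lintegral_const_mul _ hmy, ← lintegral_const_mul _ hmx]
  refine lintegral_mono_ae ((ae_restrict_iff' measurableSet_Ici).2 (Eventually.of_forall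
    fun t ht => ?_))
  rw [← ENNReal.ofReal_mul (H.nonneg _), ← ENNReal.ofReal_mul (H.nonneg _)]
  exact ENNReal.ofReal_le_ofReal (H.cross hxy ht)

end LCD

theorem dens_neg {h : ℝ → ℝ} (hm : Measurable h) :
    dens (fun x => h (-x)) = (dens h).map fun x => -x := by
  ext s hs
  unfold dens
  rw [Measure.map_apply measurable_neg hs, withDensity_apply _ hs,
    withDensity_apply _ (measurable_neg hs)]
  have := (Measure.measurePreserving_neg (volume : Measure ℝ)).setLIntegral_comp_preimage (s := s)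
    (f := fun x => ENNReal.ofReal (h (-x))) hs (by fun_prop)
  rw [← this]
  simp

theorem dens_neg_Ici {h : ℝ → ℝ} (hm : Measurable h) (x : ℝ) :
    dens (fun x => h (-x)) (Ici (-x)) = dens h (Iic x) := by
  rw [dens_neg hm, Measure.map_apply measurable_neg measurableSet_Ici]
  congr 1
  ext y
  simp

theorem LCD.tail' {h : ℝ → ℝ} (H : LCD h) {x y : ℝ} (hxy : x ≤ y) :
    ENNReal.ofReal (h y) * dens h (Iic x) ≤ ENNReal.ofReal (h x) * dens h (Iic y) := by
  have := H.neg.tail (x := -y) (y := -x) (by linarith)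
  simp only [neg_neg, dens_neg_Ici H.meas] at this
  exact this

/-- the square of a Lipschitz function as an integral -/
theorem sq_le_integral {f : ℝ → ℝ} {L : NNReal} (hf : LipschitzWith L f) (M : ℝ) {T : ℝ}
    (hT : 0 ≤ T) :
    (f (M + T) - f M) ^ 2 ≤ ∫ t in (0 : ℝ)..T, 2 * |f (M + t) - f M| * |deriv f (M + t)| := by
  set u : ℝ → ℝ := fun t => f (M + t) - f M with hu
  have hul : LipschitzWith L u := by
    refine LipschitzWith.of_dist_le_mul fun x y => ?_
    have := hf.dist_le_mul (M + x) (M + y)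
    rw [Real.dist_eq, Real.dist_eq] at *
    have e1 : u x - u y = f (M + x) - f (M + y) := by simp [hu]
    have e2 : M + x - (M + y) = x - y := by ring
    rw [e1]
    rwa [e2] at this
  have hac : AbsolutelyContinuousOnInterval u 0 T :=
    (hul.lipschitzOnWith (s := uIcc 0 T)).absolutelyContinuousOnInterval
  have h1 := AbsolutelyContinuousOnInterval.integral_deriv_mul_eq_sub hac hac
  have hu0 : u 0 = 0 := by simp [hu]
  have hder : ∀ t, deriv u t = deriv f (M + t) := by
    intro t
    rw [hu, deriv_sub_const]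
    exact deriv_comp_const_add f M t
  have hint : IntervalIntegrable (deriv u) volume 0 T := hac.intervalIntegrable_deriv
  have hc : ContinuousOn u (uIcc 0 T) := hul.continuous.continuousOn
  have hi1 : IntervalIntegrable (fun x => deriv u x * u x + u x * deriv u x) volume 0 T :=
    (hint.mul_continuousOn hc).add (hint.continuousOn_mul hc)
  have hi2 : IntervalIntegrable (fun t => 2 * |f (M + t) - f M| * |deriv f (M + t)|) volume 0 T := by
    have : IntervalIntegrable (fun t => (2 * |u t|) * |deriv u t|) volume 0 T :=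
      hint.abs.continuousOn_mul (by fun_prop)
    refine this.congr ?_
    intro t _
    simp only [hder]
    rfl
  have e : (f (M + T) - f M) ^ 2 = ∫ x in (0 : ℝ)..T, deriv u x * u x + u x * deriv u x := by
    rw [h1, hu0]
    simp only [hu]
    ring
  rw [e]
  refine intervalIntegral.integral_mono_on hT hi1 hi2 fun t _ => ?_
  rw [hder]
  have e1 : deriv f (M + t) * u t + u t * deriv f (M + t) = 2 * (u t * deriv f (M + t)) := by ring
  rw [e1, mul_assoc, ← abs_mul]
  exact mul_le_mul_of_nonneg_left (le_abs_self _) zero_le_two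

/-- Hardy-type inequality to the right of `M`. -/
theorem right_part {h : ℝ → ℝ} (hm : Measurable h) {M c : ℝ} (hc : 0 < c)
    (hhaz : ∀ x, M ≤ x → ENNReal.ofReal (2 * c) * dens h (Ici x) ≤ ENNReal.ofReal (h x))
    {f : ℝ → ℝ} {L : NNReal} (hf : LipschitzWith L f) :
    ∫⁻ x in Ioi M, ENNReal.ofReal ((f x - f M) ^ 2) ∂(dens h) ≤
      ENNReal.ofReal (1 / c) *
        ∫⁻ x in Ioi M, ENNReal.ofReal (|f x - f M| * |deriv f x|) ∂(dens h) := by
  set w : ℝ → ℝ := fun t => 2 * |f (M + t) - f M| * |deriv f (M + t)| with hw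
  have hwm : Measurable w := by
    have h1 : Measurable f := hf.continuous.measurable
    have h2 : Measurable (deriv f) := measurable_deriv f
    have h3 : Measurable fun t => f (M + t) := h1.comp (measurable_const_add M)
    have h4 : Measurable fun t => deriv f (M + t) := h2.comp (measurable_const_add M)
    fun_prop
  have hwi : ∀ t > 0, IntervalIntegrable w volume 0 t := by
    intro T _
    have hul : LipschitzWith L fun t => f (M + t) - f M := by
      refine LipschitzWith.of_dist_le_mul fun x y => ?_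
      have := hf.dist_le_mul (M + x) (M + y)
      rw [Real.dist_eq, Real.dist_eq] at *
      have e1 : f (M + x) - f M - (f (M + y) - f M) = f (M + x) - f (M + y) := by ring
      have e2 : M + x - (M + y) = x - y := by ring
      rw [e1]
      rwa [e2] at this
    have hb : ∀ t, |deriv f (M + t)| ≤ L := fun t => by
      have := norm_deriv_le_of_lipschitz hf (x₀ := M + t)
      rwa [Real.norm_eq_abs] at this
    have h2 : Measurable (deriv f) := measurable_deriv f
    have hint : IntervalIntegrable (fun t => |deriv f (M + t)|) volume 0 T := by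
      have : Measurable fun t => |deriv f (M + t)| := (h2.comp (measurable_const_add M)).abs
      refine (intervalIntegrable_const (c := (L : ℝ))).mono_fun this.aestronglyMeasurable
        (Eventually.of_forall fun t => ?_)
      simp only [Real.norm_eq_abs, abs_abs]
      rw [abs_of_nonneg L.coe_nonneg]
      exact hb t
    have hcont : Continuous f := hf.continuous
    exact hint.continuousOn_mul (by fun_prop)
  have hw0 : ∀ t, 0 ≤ w t := fun t => by positivity
  have hlay := lintegral_comp_eq_lintegral_meas_le_mul ((dens h).restrict (Ioi M))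
    (f := fun x => x - M) (g := w) ((ae_restrict_iff' measurableSet_Ioi).2
      (Eventually.of_forall fun x hx => by
        show (0 : ℝ) ≤ x - M
        linarith [show M < x from hx])) (by fun_prop) hwi (Eventually.of_forall hw0)
  have h1 : ∫⁻ x in Ioi M, ENNReal.ofReal ((f x - f M) ^ 2) ∂(dens h) ≤
      ∫⁻ x in Ioi M, ENNReal.ofReal (∫ t in (0 : ℝ)..(x - M), w t) ∂(dens h) := by
    refine lintegral_mono_ae ((ae_restrict_iff' measurableSet_Ioi).2
      (Eventually.of_forall fun x hx => ENNReal.ofReal_le_ofReal ?_))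
    have := sq_le_integral hf M (T := x - M) (by linarith [show M < x from hx])
    rwa [add_sub_cancel] at this
  refine h1.trans ?_
  rw [hlay]
  have h2 : ∀ t ∈ Ioi (0 : ℝ), ((dens h).restrict (Ioi M)) {a | t ≤ a - M} * ENNReal.ofReal (w t) ≤
      ENNReal.ofReal (1 / c) * (ENNReal.ofReal (h (M + t)) *
        ENNReal.ofReal (|f (M + t) - f M| * |deriv f (M + t)|)) := by
    intro t ht
    have ht' : 0 < t := ht
    have e1 : {a : ℝ | t ≤ a - M} = Ici (M + t) := by
      ext a
      simp only [mem_ofPred_eq, mem_Ici]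
      constructor <;> intro _ <;> linarith
    have e2 : ((dens h).restrict (Ioi M)) {a | t ≤ a - M} ≤ dens h (Ici (M + t)) := by
      rw [e1]
      exact Measure.restrict_le_self _
    have e3 : dens h (Ici (M + t)) ≤ ENNReal.ofReal (1 / (2 * c)) * ENNReal.ofReal (h (M + t)) := by
      have := mul_le_mul_right (hhaz (M + t) (by linarith)) (ENNReal.ofReal (1 / (2 * c)))
      rw [← mul_assoc, ← ENNReal.ofReal_mul (by positivity)] at this
      have e : 1 / (2 * c) * (2 * c) = 1 := by field_simp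
      rw [e, ENNReal.ofReal_one, one_mul] at this
      exact this
    have e4 : ENNReal.ofReal (w t) = ENNReal.ofReal 2 *
        ENNReal.ofReal (|f (M + t) - f M| * |deriv f (M + t)|) := by
      rw [← ENNReal.ofReal_mul (by norm_num), hw]
      congr 1
      ring
    calc _ ≤ (ENNReal.ofReal (1 / (2 * c)) * ENNReal.ofReal (h (M + t))) *
          (ENNReal.ofReal 2 * ENNReal.ofReal (|f (M + t) - f M| * |deriv f (M + t)|)) := by
          rw [e4]
          exact mul_le_mul' (e2.trans e3) le_rfl
      _ = (ENNReal.ofReal (1 / (2 * c)) * ENNReal.ofReal 2) * (ENNReal.ofReal (h (M + t)) *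
          ENNReal.ofReal (|f (M + t) - f M| * |deriv f (M + t)|)) := by ring
      _ = _ := by
          rw [← ENNReal.ofReal_mul (by positivity)]
          congr 2
          field_simp
  refine (lintegral_mono_ae ((ae_restrict_iff' measurableSet_Ioi).2
    (Eventually.of_forall h2))).trans (le_of_eq ?_)
  have hF : Measurable fun x => ENNReal.ofReal (h x) *
      ENNReal.ofReal (|f x - f M| * |deriv f x|) := by
    have h1 : Measurable f := hf.continuous.measurable
    have h2 : Measurable (deriv f) := measurable_deriv f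
    fun_prop
  have hF' : Measurable fun t => ENNReal.ofReal (h (M + t)) *
      ENNReal.ofReal (|f (M + t) - f M| * |deriv f (M + t)|) := hF.comp (measurable_const_add M)
  rw [lintegral_const_mul _ hF']
  congr 1
  have e5 := (measurePreserving_add_left volume M).setLIntegral_comp_preimage (s := Ioi M)
      measurableSet_Ioi hF
  have e6 : (fun x => M + x) ⁻¹' (Ioi M) = Ioi 0 := by
    ext t
    simp
  rw [e6] at e5
  rw [e5]
  unfold dens
  rw [setLIntegral_withDensity_eq_setLIntegral_mul _ hm.ennreal_ofReal _ measurableSet_Ioi]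
  · rfl
  · have h1 : Measurable f := hf.continuous.measurable
    have h2 : Measurable (deriv f) := measurable_deriv f
    fun_prop


/-- The two-sided inequality, for bounded Lipschitz functions. -/
theorem two_sided {h : ℝ → ℝ} (hm : Measurable h) [IsProbabilityMeasure (dens h)] {M c : ℝ}
    (hc : 0 < c)
    (hr : ∀ x, M ≤ x → ENNReal.ofReal (2 * c) * dens h (Ici x) ≤ ENNReal.ofReal (h x))
    (hl : ∀ x, x ≤ M → ENNReal.ofReal (2 * c) * dens h (Iic x) ≤ ENNReal.ofReal (h x))
    {f : ℝ → ℝ} {L : NNReal} (hf : LipschitzWith L f) {B : ℝ} (hB : ∀ x, |f x| ≤ B) :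
    ∫ x, (f x - f M) ^ 2 ∂(dens h) ≤ (1 / c) ^ 2 * ∫ x, (deriv f x) ^ 2 ∂(dens h) := by
  have hfm : Measurable f := hf.continuous.measurable
  have hdm : Measurable (deriv f) := measurable_deriv f
  have hdb : ∀ x, |deriv f x| ≤ L := fun x => by
    have := norm_deriv_le_of_lipschitz hf (x₀ := x)
    rwa [Real.norm_eq_abs] at this
  have hgb : ∀ x, |f x - f M| ≤ 2 * B := fun x => by
    have := abs_sub (f x) (f M)
    linarith [hB x, hB M]
  -- right
  have h1 := right_part hm hc hr hf
  -- left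
  have h2 : ∫⁻ x in Iio M, ENNReal.ofReal ((f x - f M) ^ 2) ∂(dens h) ≤
      ENNReal.ofReal (1 / c) *
        ∫⁻ x in Iio M, ENNReal.ofReal (|f x - f M| * |deriv f x|) ∂(dens h) := by
    have hf' : LipschitzWith L fun x => f (-x) := by
      refine LipschitzWith.of_dist_le_mul fun x y => ?_
      have := hf.dist_le_mul (-x) (-y)
      rwa [dist_neg_neg] at this
    have h3 := right_part (h := fun x => h (-x)) (M := -M) (hm.comp measurable_neg) hc (by
      intro x hx
      have := hl (-x) (by linarith)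
      rw [← dens_neg_Ici hm, neg_neg] at this
      exact this) hf'
    have hd : ∀ x, deriv (fun x => f (-x)) x = - deriv f (-x) := fun x => deriv_comp_neg f x
    simp only [hd, neg_neg, abs_neg] at h3
    rw [dens_neg hm] at h3
    have key : ∀ Φ : ℝ → ENNReal, Measurable Φ →
        ∫⁻ x in Ioi (-M), Φ (-x) ∂((dens h).map fun x => -x) = ∫⁻ x in Iio M, Φ x ∂(dens h) := by
      intro Φ hΦ
      have h0 : Measurable fun x : ℝ => Φ (-x) := hΦ.comp measurable_neg
      rw [setLIntegral_map (f := fun x : ℝ => Φ (-x)) (g := fun x : ℝ => -x)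
        measurableSet_Ioi h0 measurable_neg]
      have : (fun x : ℝ => -x) ⁻¹' Ioi (-M) = Iio M := by
        ext x; simp
      rw [this]
      simp
    rw [key (fun x => ENNReal.ofReal ((f x - f M) ^ 2)) (by fun_prop),
      key (fun x => ENNReal.ofReal (|f x - f M| * |deriv f x|)) (by fun_prop)] at h3
    exact h3
  -- combine
  have hM0 : dens h {M} = 0 := dens_ac h Real.volume_singleton
  have hsplit : ∀ Φ : ℝ → ENNReal, Measurable Φ →
      ∫⁻ x, Φ x ∂(dens h) = ∫⁻ x in Iio M, Φ x ∂(dens h) + ∫⁻ x in Ioi M, Φ x ∂(dens h) := by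
    intro Φ hΦ
    rw [← lintegral_add_compl Φ (measurableSet_Iic (a := M)), compl_Iic]
    congr 1
    apply setLIntegral_congr
    exact (Iio_ae_eq_Iic' hM0).symm
  have h4 : ∫⁻ x, ENNReal.ofReal ((f x - f M) ^ 2) ∂(dens h) ≤
      ENNReal.ofReal (1 / c) * ∫⁻ x, ENNReal.ofReal (|f x - f M| * |deriv f x|) ∂(dens h) := by
    rw [hsplit _ (by fun_prop), hsplit _ (by fun_prop), mul_add]
    exact add_le_add h2 h1
  have i1 : Integrable (fun x => (f x - f M) ^ 2) (dens h) := by
    refine Integrable.of_bound (by fun_prop) ((2 * B) ^ 2) (Eventually.of_forall fun x => ?_)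
    rw [Real.norm_eq_abs, abs_pow]
    exact pow_le_pow_left₀ (abs_nonneg _) (hgb x) 2
  have i2 : Integrable (fun x => |f x - f M| * |deriv f x|) (dens h) := by
    refine Integrable.of_bound (by fun_prop) (2 * B * L) (Eventually.of_forall fun x => ?_)
    rw [Real.norm_eq_abs, abs_mul, abs_abs, abs_abs]
    exact mul_le_mul (hgb x) (hdb x) (abs_nonneg _) ((abs_nonneg _).trans (hgb x))
  have i3 : Integrable (fun x => (deriv f x) ^ 2) (dens h) := by
    refine Integrable.of_bound (by fun_prop) ((L : ℝ) ^ 2) (Eventually.of_forall fun x => ?_)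
    rw [Real.norm_eq_abs, abs_pow]
    exact pow_le_pow_left₀ (abs_nonneg _) (hdb x) 2
  rw [← ofReal_integral_eq_lintegral_ofReal i1 (Eventually.of_forall fun x => sq_nonneg _),
    ← ofReal_integral_eq_lintegral_ofReal i2 (Eventually.of_forall fun x => by positivity),
    ← ENNReal.ofReal_mul (by positivity)] at h4
  have h5 : ∫ x, (f x - f M) ^ 2 ∂(dens h) ≤ 1 / c * ∫ x, |f x - f M| * |deriv f x| ∂(dens h) :=
    (ENNReal.ofReal_le_ofReal_iff (mul_nonneg (by positivity)
      (integral_nonneg fun x => by positivity))).1 h4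
  have h6 : 1 / c * ∫ x, |f x - f M| * |deriv f x| ∂(dens h) ≤
      ∫ x, ((1 / 2) * (f x - f M) ^ 2 + (1 / 2 * (1 / c) ^ 2) * (deriv f x) ^ 2) ∂(dens h) := by
    rw [← integral_const_mul]
    refine integral_mono (i2.const_mul _) ((i1.const_mul _).add (i3.const_mul _)) fun x => ?_
    simp only
    nlinarith [sq_nonneg (|f x - f M| - 1 / c * |deriv f x|), sq_abs (f x - f M),
      sq_abs (deriv f x)]
  rw [integral_add (i1.const_mul _) (i3.const_mul _), integral_const_mul, integral_const_mul] at h6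
  linarith

/-- the one-dimensional Poincaré inequality -/
theorem P1_of_hazard {h : ℝ → ℝ} (hm : Measurable h) [IsProbabilityMeasure (dens h)] {M c : ℝ}
    (hc : 0 < c)
    (hr : ∀ x, M ≤ x → ENNReal.ofReal (2 * c) * dens h (Ici x) ≤ ENNReal.ofReal (h x))
    (hl : ∀ x, x ≤ M → ENNReal.ofReal (2 * c) * dens h (Iic x) ≤ ENNReal.ofReal (h x)) :
    P1 (dens h) (1 / c) := by
  rintro f ⟨L, hf⟩ ⟨B, hB⟩
  have hfc := hf.continuous
  refine (var_le (bdd_integrable hfc hB) (bdd_integrable (hfc.pow 2) (C := B ^ 2) fun x => ?_)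
    (f M)).trans (two_sided hm hc hr hl hf hB)
  rw [abs_pow]
  exact pow_le_pow_left₀ (abs_nonneg _) (hB x) 2

/-- the clamp function -/
noncomputable def cut (M k x : ℝ) : ℝ := max (min (x - M) k) (-k)

theorem cut_lip (M k : ℝ) : LipschitzWith 1 (cut M k) := by
  unfold cut
  have h1 : LipschitzWith 1 fun x : ℝ => x - M := by
    refine LipschitzWith.of_dist_le_mul fun x y => ?_
    rw [NNReal.coe_one, one_mul, Real.dist_eq, Real.dist_eq]
    exact le_of_eq (by congr 1; ring)
  exact (h1.min_const k).max_const (-k)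

theorem cut_abs {M k : ℝ} (hk : 0 ≤ k) (x : ℝ) : |cut M k x| ≤ k := by
  unfold cut
  rw [abs_le]
  constructor
  · exact le_max_right _ _
  · exact max_le (min_le_right _ _) (by linarith)

theorem cut_self {M k : ℝ} (hk : 0 ≤ k) : cut M k M = 0 := by
  unfold cut
  rw [sub_self, min_eq_left hk, max_eq_left (by linarith)]

theorem cut_eq {M k x : ℝ} (hk : |x - M| ≤ k) : cut M k x = x - M := by
  unfold cut
  rw [abs_le] at hk
  rw [min_eq_left hk.2, max_eq_left hk.1]

/-- The second moment around the median. -/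
theorem second_moment {h : ℝ → ℝ} (hm : Measurable h) [IsProbabilityMeasure (dens h)] {M c : ℝ}
    (hc : 0 < c)
    (hr : ∀ x, M ≤ x → ENNReal.ofReal (2 * c) * dens h (Ici x) ≤ ENNReal.ofReal (h x))
    (hl : ∀ x, x ≤ M → ENNReal.ofReal (2 * c) * dens h (Iic x) ≤ ENNReal.ofReal (h x)) :
    ∫⁻ x, ENNReal.ofReal ((x - M) ^ 2) ∂(dens h) ≤ ENNReal.ofReal ((1 / c) ^ 2) := by
  have h1 : ∀ k : ℕ, ∫⁻ x, ENNReal.ofReal (cut M k x ^ 2) ∂(dens h) ≤ ENNReal.ofReal ((1 / c) ^ 2) := by
    intro k
    have hk : (0 : ℝ) ≤ k := Nat.cast_nonneg k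
    have h2 := two_sided hm hc hr hl (cut_lip M k) (cut_abs hk)
    simp only [cut_self hk, sub_zero] at h2
    have h3 : ∫ x, (deriv (cut M k) x) ^ 2 ∂(dens h) ≤ 1 := by
      have : ∫ x, (deriv (cut M k) x) ^ 2 ∂(dens h) ≤ ∫ _x, (1 : ℝ) ∂(dens h) := by
        refine integral_mono ?_ (integrable_const _) fun x => ?_
        · refine Integrable.of_bound (by
            have := measurable_deriv (cut M k)
            fun_prop) (1 : ℝ) (Eventually.of_forall fun x => ?_)
          have := norm_deriv_le_of_lipschitz (cut_lip M k) (x₀ := x)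
          rw [Real.norm_eq_abs] at this ⊢
          rw [abs_pow]
          exact (pow_le_pow_left₀ (abs_nonneg _) this 2).trans (by simp)
        · have := norm_deriv_le_of_lipschitz (cut_lip M k) (x₀ := x)
          rw [Real.norm_eq_abs] at this
          simp only
          rw [← sq_abs]
          exact (pow_le_pow_left₀ (abs_nonneg _) this 2).trans (by simp)
      simpa using this
    have h4 : ∫ x, cut M k x ^ 2 ∂(dens h) ≤ (1 / c) ^ 2 :=
      h2.trans (mul_le_of_le_one_right (by positivity) h3)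
    rw [← ofReal_integral_eq_lintegral_ofReal]
    · exact ENNReal.ofReal_le_ofReal h4
    · refine Integrable.of_bound (by
        have := (cut_lip M k).continuous.measurable
        fun_prop) ((k : ℝ) ^ 2) (Eventually.of_forall fun x => ?_)
      rw [Real.norm_eq_abs, abs_pow]
      exact pow_le_pow_left₀ (abs_nonneg _) (cut_abs hk x) 2
    · exact Eventually.of_forall fun x => sq_nonneg _
  have h2 : ∀ x : ℝ, ENNReal.ofReal ((x - M) ^ 2) =
      liminf (fun k : ℕ => ENNReal.ofReal (cut M k x ^ 2)) atTop := by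
    intro x
    refine (Tendsto.liminf_eq ?_).symm
    apply tendsto_const_nhds.congr'
    obtain ⟨k0, hk0⟩ := exists_nat_ge |x - M|
    filter_upwards [eventually_ge_atTop k0] with k hk
    rw [cut_eq (hk0.trans (by exact_mod_cast hk))]
  calc ∫⁻ x, ENNReal.ofReal ((x - M) ^ 2) ∂(dens h)
      = ∫⁻ x, liminf (fun k : ℕ => ENNReal.ofReal (cut M k x ^ 2)) atTop ∂(dens h) :=
        lintegral_congr h2
    _ ≤ liminf (fun k : ℕ => ∫⁻ x, ENNReal.ofReal (cut M k x ^ 2) ∂(dens h)) atTop := by
        refine lintegral_liminf_le fun k => ?_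
        have := (cut_lip M (k : ℝ)).continuous.measurable
        fun_prop
    _ ≤ liminf (fun _ : ℕ => ENNReal.ofReal ((1 / c) ^ 2)) atTop :=
        liminf_le_liminf (Eventually.of_forall h1)
    _ = _ := by simp

/-- The median of a log-concave density. -/
theorem LCD.median_of {h : ℝ → ℝ} (H : LCD h) [IsProbabilityMeasure (dens h)] {M : ℝ}
    (h1 : dens h (Iic M) = ENNReal.ofReal (1 / 2)) :
    0 < h M ∧
      (∀ x, M ≤ x → ENNReal.ofReal (2 * h M) * dens h (Ici x) ≤ ENNReal.ofReal (h x)) ∧
      (∀ x, x ≤ M → ENNReal.ofReal (2 * h M) * dens h (Iic x) ≤ ENNReal.ofReal (h x)) ∧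
      ∀ x, h x ≤ 2 * h M := by
  have hat : ∀ x, dens h {x} = 0 := noatom_of_ac (dens_ac h)
  have h2 : dens h (Ici M) = ENNReal.ofReal (1 / 2) := by
    have h3 : dens h (Ici M) = dens h (Ioi M) := by
      apply measure_congr
      exact (Ioi_ae_eq_Ici' (hat M)).symm
    rw [h3, ← compl_Iic, prob_compl_eq_one_sub measurableSet_Iic, h1,
      ← ENNReal.ofReal_one, ← ENNReal.ofReal_sub _ (by norm_num)]
    norm_num
  have e2 : ENNReal.ofReal 2 * ENNReal.ofReal (1 / 2) = 1 := by
    rw [← ENNReal.ofReal_mul (by norm_num)]; norm_num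
  have hr : ∀ x, M ≤ x → ENNReal.ofReal (2 * h M) * dens h (Ici x) ≤ ENNReal.ofReal (h x) := by
    intro x hx
    have := mul_le_mul_right (H.tail hx) (ENNReal.ofReal 2)
    rw [h2, ← mul_assoc, ← ENNReal.ofReal_mul (by norm_num)] at this
    refine this.trans (le_of_eq ?_)
    rw [mul_comm (ENNReal.ofReal (h x)), ← mul_assoc, e2, one_mul]
  have hl : ∀ x, x ≤ M → ENNReal.ofReal (2 * h M) * dens h (Iic x) ≤ ENNReal.ofReal (h x) := by
    intro x hx
    have := mul_le_mul_right (H.tail' hx) (ENNReal.ofReal 2)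
    rw [h1, ← mul_assoc, ← ENNReal.ofReal_mul (by norm_num)] at this
    refine this.trans (le_of_eq ?_)
    rw [mul_comm (ENNReal.ofReal (h x)), ← mul_assoc, e2, one_mul]
  have hsup : ∀ x, h x ≤ 2 * h M := by
    intro x
    have key : ENNReal.ofReal (h x) * ENNReal.ofReal (1 / 2) ≤ ENNReal.ofReal (h M) := by
      rcases le_total x M with hx | hx
      · have := H.tail hx
        rw [h2] at this
        exact this.trans (mul_le_of_le_one_right zero_le prob_le_one)
      · have := H.tail' hx
        rw [h1] at this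
        exact this.trans (mul_le_of_le_one_right zero_le prob_le_one)
    rw [← ENNReal.ofReal_mul (H.nonneg x)] at key
    have := (ENNReal.ofReal_le_ofReal_iff (H.nonneg M)).1 key
    linarith
  refine ⟨?_, hr, hl, hsup⟩
  rcases (H.nonneg M).eq_or_lt with h0 | h0
  · exfalso
    have h4 : ∀ x, h x = 0 := fun x => le_antisymm (by have := hsup x; rw [← h0] at this; linarith)
      (H.nonneg x)
    have h5 : dens h univ = 0 := by
      unfold dens
      rw [withDensity_apply _ MeasurableSet.univ]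
      simp [h4]
    rw [measure_univ] at h5
    exact one_ne_zero h5
  · exact h0

/-- The median of a log-concave density. -/
theorem LCD.median {h : ℝ → ℝ} (H : LCD h) [IsProbabilityMeasure (dens h)] :
    ∃ M, 0 < h M ∧
      (∀ x, M ≤ x → ENNReal.ofReal (2 * h M) * dens h (Ici x) ≤ ENNReal.ofReal (h x)) ∧
      (∀ x, x ≤ M → ENNReal.ofReal (2 * h M) * dens h (Iic x) ≤ ENNReal.ofReal (h x)) ∧
      ∀ x, h x ≤ 2 * h M := by
  have hat : ∀ x, dens h {x} = 0 := noatom_of_ac (dens_ac h)
  obtain ⟨M, hM⟩ := exists_level hat (u := 1 / 2) (by norm_num) (by norm_num)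
  refine ⟨M, H.median_of ?_⟩
  rw [← hM]
  unfold HH
  rw [Measure.real, ENNReal.ofReal_toReal (measure_ne_top _ _)]

theorem dens_symm {h : ℝ → ℝ} (hm : Measurable h) (he : ∀ x, h (-x) = h x) :
    (dens h).map (fun x => -x) = dens h := by
  rw [← dens_neg hm]
  congr 1
  funext x
  exact he x

/-- The even case. -/
theorem LCD.even {h : ℝ → ℝ} (H : LCD h) [IsProbabilityMeasure (dens h)] (he : ∀ x, h (-x) = h x) :
    0 < h 0 ∧
      (∀ x, 0 ≤ x → ENNReal.ofReal (2 * h 0) * dens h (Ici x) ≤ ENNReal.ofReal (h x)) ∧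
      (∀ x, x ≤ 0 → ENNReal.ofReal (2 * h 0) * dens h (Iic x) ≤ ENNReal.ofReal (h x)) ∧
      ∀ x, h x ≤ h 0 := by
  have hat : ∀ x, dens h {x} = 0 := noatom_of_ac (dens_ac h)
  have h1 : HH (dens h) 0 = 1 / 2 := by
    have := H_neg_of_symm hat (dens_symm H.meas he) 0
    rw [neg_zero] at this
    linarith
  have h2 : dens h (Iic 0) = ENNReal.ofReal (1 / 2) := by
    rw [← h1]
    unfold HH
    rw [Measure.real, ENNReal.ofReal_toReal (measure_ne_top _ _)]
  obtain ⟨h3, h4, h5, -⟩ := H.median_of h2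
  refine ⟨h3, h4, h5, fun x => ?_⟩
  have h6 := H.lc x (-x) (1 / 2) (1 / 2) (by norm_num) (by norm_num) (by norm_num)
  have e : 1 / 2 * x + 1 / 2 * -x = 0 := by ring
  rw [he, e] at h6
  rcases (H.nonneg x).eq_or_lt with h7 | h7
  · rw [← h7]; exact h3.le
  · rw [← Real.rpow_add h7] at h6
    norm_num at h6
    exact h6

/-- The bathtub principle. -/
theorem bathtub {h : ℝ → ℝ} (hm : Measurable h) [IsProbabilityMeasure (dens h)] {S : ℝ}
    (hS : ∀ x, h x ≤ S) {g : ℝ → ℝ} (hg : Measurable g) (κ : ℝ) :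
    ENNReal.ofReal κ ≤ ∫⁻ x, ENNReal.ofReal (g x) ∂(dens h) +
      ENNReal.ofReal S * ∫⁻ x, ENNReal.ofReal (κ - g x) := by
  have h1 : ∫⁻ x, ENNReal.ofReal (κ - g x) ∂(dens h) ≤
      ENNReal.ofReal S * ∫⁻ x, ENNReal.ofReal (κ - g x) := by
    unfold dens
    rw [lintegral_withDensity_eq_lintegral_mul _ hm.ennreal_ofReal (by fun_prop),
      ← lintegral_const_mul _ (by fun_prop)]
    refine lintegral_mono fun x => ?_
    simp only [Pi.mul_apply]
    exact mul_le_mul' (ENNReal.ofReal_le_ofReal (hS x)) le_rfl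
  calc ENNReal.ofReal κ = ∫⁻ _x, ENNReal.ofReal κ ∂(dens h) := by simp
    _ ≤ ∫⁻ x, (ENNReal.ofReal (g x) + ENNReal.ofReal (κ - g x)) ∂(dens h) := by
        refine lintegral_mono fun x => ?_
        simp only
        refine le_trans (ENNReal.ofReal_le_ofReal (le_of_eq (?_ : κ = g x + (κ - g x))))
          ENNReal.ofReal_add_le
        ring
    _ = ∫⁻ x, ENNReal.ofReal (g x) ∂(dens h) + ∫⁻ x, ENNReal.ofReal (κ - g x) ∂(dens h) :=
        lintegral_add_left (by fun_prop) _
    _ ≤ _ := add_le_add le_rfl h1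

theorem bump_int {r m : ℝ} (hr : 0 ≤ r) {k : ℕ} (hk : Even k) :
    ∫⁻ x : ℝ, ENNReal.ofReal (r ^ k - (x - m) ^ k) ≤
      ENNReal.ofReal (2 * r ^ (k + 1) - 2 * r ^ (k + 1) / (k + 1)) := by
  have e1 : ∫⁻ x : ℝ, ENNReal.ofReal (r ^ k - (x - m) ^ k) =
      ∫⁻ x : ℝ, ENNReal.ofReal (r ^ k - x ^ k) :=
    lintegral_sub_right_eq_self (fun x : ℝ => ENNReal.ofReal (r ^ k - x ^ k)) m
  rw [e1]
  have e2 : ∫⁻ x : ℝ, ENNReal.ofReal (r ^ k - x ^ k) ≤
      ∫⁻ x in Icc (-r) r, ENNReal.ofReal (r ^ k - x ^ k) := by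
    rw [← lintegral_indicator measurableSet_Icc]
    refine lintegral_mono fun x => ?_
    by_cases hx : x ∈ Icc (-r) r
    · rw [indicator_of_mem hx]
    · rw [indicator_of_notMem hx]
      simp only [nonpos_iff_eq_zero]
      apply ENNReal.ofReal_of_nonpos
      have h2 : r ≤ |x| := by
        by_contra hcon
        push Not at hcon
        rw [abs_lt] at hcon
        exact hx ⟨hcon.1.le, hcon.2.le⟩
      have h3 := pow_le_pow_left₀ hr h2 k
      rw [hk.pow_abs] at h3
      linarith
  refine e2.trans ?_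
  have hc : Continuous fun x : ℝ => r ^ k - x ^ k := by fun_prop
  rw [← ofReal_integral_eq_lintegral_ofReal]
  · apply ENNReal.ofReal_le_ofReal
    rw [integral_Icc_eq_integral_Ioc, ← intervalIntegral.integral_of_le (by linarith),
      intervalIntegral.integral_sub (intervalIntegrable_const) (by
        exact (continuous_pow k).intervalIntegrable _ _), integral_pow,
      intervalIntegral.integral_const, smul_eq_mul]
    have : (-r) ^ (k + 1) = - r ^ (k + 1) := (hk.add_one).neg_pow r
    rw [this]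
    apply le_of_eq
    ring
  · exact hc.integrableOn_Icc
  · refine (ae_restrict_iff' measurableSet_Icc).2 (Eventually.of_forall fun x hx => ?_)
    have h2 : |x| ≤ r := abs_le.2 hx
    have h3 := pow_le_pow_left₀ (abs_nonneg _) h2 k
    rw [hk.pow_abs] at h3
    show 0 ≤ r ^ k - x ^ k
    linarith

/-- Lower bound for the variance. -/
theorem var_lower {h : ℝ → ℝ} (hm : Measurable h) [IsProbabilityMeasure (dens h)] {S : ℝ}
    (hS0 : 0 < S) (hS : ∀ x, h x ≤ S) (m : ℝ) :
    ENNReal.ofReal (1 / (12 * S ^ 2)) ≤ ∫⁻ x, ENNReal.ofReal ((x - m) ^ 2) ∂(dens h) := by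
  have h1 := bathtub hm hS (g := fun x => (x - m) ^ 2) (by fun_prop)
    ((1 / (2 * S)) ^ 2)
  have h2 := bump_int (r := 1 / (2 * S)) (m := m) (by positivity) (k := 2) even_two
  have h3 : ENNReal.ofReal S * ∫⁻ x : ℝ, ENNReal.ofReal ((1 / (2 * S)) ^ 2 - (x - m) ^ 2) ≤
      ENNReal.ofReal (1 / (6 * S ^ 2)) := by
    refine (mul_le_mul_right h2 _).trans ?_
    rw [← ENNReal.ofReal_mul hS0.le]
    apply ENNReal.ofReal_le_ofReal
    apply le_of_eq
    push_cast
    field_simp
    norm_num
  have h4 := h1.trans (add_le_add le_rfl h3)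
  have h5 : ENNReal.ofReal ((1 / (2 * S)) ^ 2) =
      ENNReal.ofReal (1 / (12 * S ^ 2)) + ENNReal.ofReal (1 / (6 * S ^ 2)) := by
    rw [← ENNReal.ofReal_add (by positivity) (by positivity)]
    congr 1
    field_simp
    norm_num
  rw [h5] at h4
  exact (ENNReal.add_le_add_iff_right ENNReal.ofReal_ne_top).1 h4

/-- Lower bound for the variance of the square. -/
theorem sq_var_lower {h : ℝ → ℝ} (hm : Measurable h) [IsProbabilityMeasure (dens h)] {S : ℝ}
    (hS0 : 0 < S) (hS : ∀ x, h x ≤ S) {a : ℝ} (ha : 0 ≤ a) :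
    ENNReal.ofReal (1 / (1280 * S ^ 4)) ≤ ∫⁻ x, ENNReal.ofReal ((x ^ 2 - a) ^ 2) ∂(dens h) := by
  set α := Real.sqrt a with hα
  have hα0 : 0 ≤ α := Real.sqrt_nonneg a
  have haα : a = α ^ 2 := (Real.sq_sqrt ha).symm
  have h1 := bathtub hm hS (g := fun x => (x ^ 2 - a) ^ 2) (by fun_prop)
    ((1 / (4 * S)) ^ 4)
  have h2 := bump_int (r := 1 / (4 * S)) (m := α) (by positivity) (k := 4) (by decide)
  have h2' := bump_int (r := 1 / (4 * S)) (m := -α) (by positivity) (k := 4) (by decide)
  have h3 : ∫⁻ x : ℝ, ENNReal.ofReal ((1 / (4 * S)) ^ 4 - (x ^ 2 - a) ^ 2) ≤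
      (∫⁻ x : ℝ, ENNReal.ofReal ((1 / (4 * S)) ^ 4 - (x - α) ^ 4)) +
      ∫⁻ x : ℝ, ENNReal.ofReal ((1 / (4 * S)) ^ 4 - (x - -α) ^ 4) := by
    rw [← lintegral_add_left (by fun_prop)]
    refine lintegral_mono fun x => ?_
    simp only
    rw [haα]
    rcases le_total 0 x with hx | hx
    · refine le_trans (ENNReal.ofReal_le_ofReal ?_) le_self_add
      have e : (x ^ 2 - α ^ 2) ^ 2 = (x - α) ^ 2 * (x + α) ^ 2 := by ring
      have e' : (x - α) ^ 4 = (x - α) ^ 2 * (x - α) ^ 2 := by ring
      rw [e, e']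
      have : (x - α) ^ 2 ≤ (x + α) ^ 2 := by nlinarith
      have := mul_le_mul_of_nonneg_left this (sq_nonneg (x - α))
      linarith
    · refine le_trans (ENNReal.ofReal_le_ofReal ?_) le_add_self
      have e : (x ^ 2 - α ^ 2) ^ 2 = (x - -α) ^ 2 * (x - α) ^ 2 := by ring
      have e' : (x - -α) ^ 4 = (x - -α) ^ 2 * (x - -α) ^ 2 := by ring
      rw [e, e']
      have : (x - -α) ^ 2 ≤ (x - α) ^ 2 := by nlinarith
      have := mul_le_mul_of_nonneg_left this (sq_nonneg (x - -α))
      linarith
  have h4 : ENNReal.ofReal S * ∫⁻ x : ℝ, ENNReal.ofReal ((1 / (4 * S)) ^ 4 - (x ^ 2 - a) ^ 2) ≤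
      ENNReal.ofReal (1 / (320 * S ^ 4)) := by
    refine (mul_le_mul_right (h3.trans (add_le_add h2 h2')) _).trans ?_
    rw [← ENNReal.ofReal_add (by
      push_cast
      have : (0 : ℝ) ≤ (1 / (4 * S)) ^ (4 + 1) := by positivity
      linarith) (by
      push_cast
      have : (0 : ℝ) ≤ (1 / (4 * S)) ^ (4 + 1) := by positivity
      linarith), ← ENNReal.ofReal_mul hS0.le]
    apply ENNReal.ofReal_le_ofReal
    apply le_of_eq
    push_cast
    field_simp
    norm_num
  have h5 := h1.trans (add_le_add le_rfl h4)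
  have h6 : ENNReal.ofReal ((1 / (4 * S)) ^ 4) =
      ENNReal.ofReal (1 / (1280 * S ^ 4)) + ENNReal.ofReal (1 / (320 * S ^ 4)) := by
    rw [← ENNReal.ofReal_add (by positivity) (by positivity)]
    congr 1
    field_simp
    norm_num
  rw [h6] at h5
  exact (ENNReal.add_le_add_iff_right ENNReal.ofReal_ne_top).1 h5

end Pool.Agent.Lib.MP_8d00da_gt
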