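import Pool.Agent.Lib.MP_8d00da_gt.Sym
import Pool.Agent.Lib.MP_8d00da_gt.LogConc

/-!
# The Poincaré inequality in `L²` form, and the transfer to Euclidean space
-/

open MeasureTheory Filter Topology

set_option linter.unusedSectionVars false

namespace Pool.Agent.Lib.MP_8d00da_gt

/-- `PoincareWith μ D` says that `‖f - ∫ f dμ‖_{L²(μ)} ≤ D · ‖|∇f|‖_{L²(μ)}` for every Lipschitz
function `f`. The Poincaré constant `D_Poin(μ)` is the least such `D`. -/
def PoincareWith {V : Type*} [NormedAddCommGroup V] [NormedSpace ℝ V] [MeasurableSpace V]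
    (μ : Measure V) (D : ℝ) : Prop :=
  ∀ f : V → ℝ, (∃ L : NNReal, LipschitzWith L f) →
    eLpNorm (fun x => f x - ∫ y, f y ∂μ) 2 μ ≤
      ENNReal.ofReal D * eLpNorm (fun x => ‖fderiv ℝ f x‖) 2 μ

/-- The same inequality, tested on linear functions only (for a probability measure `μ`, the norm
in `L²(μ)` of `|∇θ|` is `‖θ‖`). `D^Lin_Poin(μ)` is the least such `D`. -/
def LinPoincareWith {V : Type*} [NormedAddCommGroup V] [NormedSpace ℝ V] [MeasurableSpace V]
    (μ : Measure V) (D : ℝ) : Prop :=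
  ∀ θ : V →L[ℝ] ℝ, eLpNorm (fun x => θ x - ∫ y, θ y ∂μ) 2 μ ≤ ENNReal.ofReal (D * ‖θ‖)

/-- The law on Euclidean space of a vector with i.i.d. coordinates of law `ρ`, conditioned to
lie in `K`. -/
noncomputable def iidCond (n : ℕ) (ρ : Measure ℝ) (K : Set (Fin n → ℝ)) :
    Measure (EuclideanSpace ℝ (Fin n)) :=
  (ProbabilityTheory.cond (Measure.pi fun _ : Fin n => ρ) K).map (WithLp.toLp 2)

theorem eLp_two {α : Type*} [MeasurableSpace α] {μ : Measure α} {g : α → ℝ} (hg : MemLp g 2 μ) :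
    eLpNorm g 2 μ = ENNReal.ofReal (Real.sqrt (∫ x, g x ^ 2 ∂μ)) := by
  rw [hg.eLpNorm_eq_integral_rpow_norm two_ne_zero ENNReal.ofNat_ne_top, Real.sqrt_eq_rpow]
  congr 1
  simp

theorem eLp_le_iff {α : Type*} [MeasurableSpace α] {μ : Measure α} {g k : α → ℝ}
    (hg : MemLp g 2 μ) (hk : MemLp k 2 μ) {D : ℝ} (hD : 0 ≤ D) :
    eLpNorm g 2 μ ≤ ENNReal.ofReal D * eLpNorm k 2 μ ↔
      ∫ x, g x ^ 2 ∂μ ≤ D ^ 2 * ∫ x, k x ^ 2 ∂μ := by
  rw [eLp_two hg, eLp_two hk, ← ENNReal.ofReal_mul hD,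
    ENNReal.ofReal_le_ofReal_iff (mul_nonneg hD (Real.sqrt_nonneg _)), Real.sqrt_le_iff,
    mul_pow, Real.sq_sqrt (integral_nonneg fun x => sq_nonneg _)]
  constructor
  · exact fun h => h.2
  · exact fun h => ⟨mul_nonneg hD (Real.sqrt_nonneg _), h⟩

section general

variable {V : Type*} [NormedAddCommGroup V] [NormedSpace ℝ V] [MeasurableSpace V]
  [OpensMeasurableSpace V] {μ : Measure V} {D : ℝ}

theorem memLp_fderiv [IsProbabilityMeasure μ] {f : V → ℝ} {L : NNReal} (hf : LipschitzWith L f) :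
    MemLp (fun x => ‖fderiv ℝ f x‖) 2 μ := by
  refine MemLp.of_bound (measurable_fderiv ℝ f).norm.aestronglyMeasurable (L : ℝ)
    (Eventually.of_forall fun x => ?_)
  rw [norm_norm]
  exact norm_fderiv_le_of_lipschitz ℝ hf

theorem memLp_lip [IsProbabilityMeasure μ] (hmom : MemLp (fun x : V => ‖x‖) 2 μ) {f : V → ℝ}
    {L : NNReal} (hf : LipschitzWith L f) : MemLp f 2 μ := by
  have h0 : MemLp (fun x : V => (L : ℝ) * ‖x‖) 2 μ := hmom.const_mul (L : ℝ)
  have h1 : MemLp (fun x : V => |f 0| + (L : ℝ) * ‖x‖) 2 μ := (memLp_const |f 0|).add h0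
  refine h1.mono' (hf.continuous.measurable.aestronglyMeasurable) (Eventually.of_forall fun x => ?_)
  have h := hf.dist_le_mul x 0
  rw [Real.dist_eq, dist_zero_right] at h
  have := abs_sub_abs_le_abs_sub (f x) (f 0)
  rw [Real.norm_eq_abs]
  linarith

theorem poin_iff [IsProbabilityMeasure μ] (hmom : MemLp (fun x : V => ‖x‖) 2 μ) (hD : 0 ≤ D) :
    PoincareWith μ D ↔ ∀ f : V → ℝ, (∃ L : NNReal, LipschitzWith L f) →
      ∫ x, (f x - ∫ y, f y ∂μ) ^ 2 ∂μ ≤ D ^ 2 * ∫ x, ‖fderiv ℝ f x‖ ^ 2 ∂μ := by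
  unfold PoincareWith
  refine forall₂_congr fun f hf => ?_
  obtain ⟨L, hf⟩ := hf
  exact eLp_le_iff ((memLp_lip hmom hf).sub (memLp_const _)) (memLp_fderiv hf) hD

theorem PoincareWith.memLp [IsProbabilityMeasure μ] (h : PoincareWith μ D) :
    MemLp (fun x : V => ‖x‖) 2 μ := by
  have h1 := h (fun x => ‖x‖) ⟨1, lipschitzWith_one_norm⟩
  have h2 : MemLp (fun x : V => ‖x‖ - ∫ y, ‖y‖ ∂μ) 2 μ := by
    refine ⟨(continuous_norm.sub continuous_const).measurable.aestronglyMeasurable, ?_⟩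
    exact h1.trans_lt (ENNReal.mul_lt_top ENNReal.ofReal_lt_top
      (memLp_fderiv lipschitzWith_one_norm).eLpNorm_lt_top)
  have h3 := h2.add (memLp_const (∫ y, ‖y‖ ∂μ))
  refine h3.ae_eq (Eventually.of_forall fun x => ?_)
  simp

omit [OpensMeasurableSpace V] in
theorem PoincareWith.max_iff : PoincareWith μ D ↔ PoincareWith μ (max D 0) := by
  have : ENNReal.ofReal D = ENNReal.ofReal (max D 0) := by
    rcases le_total 0 D with h | h
    · rw [max_eq_left h]
    · rw [max_eq_right h, ENNReal.ofReal_of_nonpos h, ENNReal.ofReal_zero]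
  unfold PoincareWith
  rw [this]

omit [OpensMeasurableSpace V] in
theorem PoincareWith.mono {D' : ℝ} (h : PoincareWith μ D) (hD : D ≤ D') : PoincareWith μ D' :=
  fun f hf => (h f hf).trans (mul_le_mul_left (ENNReal.ofReal_le_ofReal hD) _)

end general

section line

variable {ρ : Measure ℝ} [IsProbabilityMeasure ρ] {D : ℝ}

theorem integrable_sq_of_memLp (hmom : MemLp (fun x : ℝ => ‖x‖) 2 ρ) :
    Integrable (fun x : ℝ => x ^ 2) ρ := by
  have := hmom.integrable_sq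
  simpa using this

theorem memLp_of_integrable_sq (hmom : Integrable (fun x : ℝ => x ^ 2) ρ) :
    MemLp (fun x : ℝ => ‖x‖) 2 ρ := by
  rw [memLp_two_iff_integrable_sq (by fun_prop)]
  simpa using hmom

theorem PoincareWith.pos (hat : ∀ x, ρ {x} = 0) (h : PoincareWith ρ D) : 0 < D := by
  by_contra hD
  push Not at hD
  have h1 := h (fun x => x) ⟨1, LipschitzWith.id⟩
  rw [ENNReal.ofReal_of_nonpos hD, zero_mul, nonpos_iff_eq_zero] at h1
  rw [eLpNorm_eq_zero_iff (by fun_prop) two_ne_zero] at h1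
  have h2 : ∀ᵐ x ∂ρ, x = ∫ y, y ∂ρ := by
    filter_upwards [h1] with x hx
    simp only [Pi.zero_apply] at hx
    linarith
  have h3 : ∀ᵐ x ∂ρ, x ≠ ∫ y, y ∂ρ := by
    rw [ae_iff]
    simpa using hat _
  obtain ⟨x, hx1, hx2⟩ := (h2.and h3).exists
  exact hx2 hx1

theorem norm_fderiv_line (f : ℝ → ℝ) (x : ℝ) : ‖fderiv ℝ f x‖ = |deriv f x| := by
  rw [← norm_deriv_eq_norm_fderiv, Real.norm_eq_abs]

/-- reformulation on the line -/
theorem poin_line_iff (hmom : Integrable (fun x : ℝ => x ^ 2) ρ) (hD : 0 ≤ D) :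
    PoincareWith ρ D ↔ ∀ f : ℝ → ℝ, (∃ L : NNReal, LipschitzWith L f) →
      ∫ x, (f x - ∫ y, f y ∂ρ) ^ 2 ∂ρ ≤ D ^ 2 * ∫ x, (deriv f x) ^ 2 ∂ρ := by
  rw [poin_iff (memLp_of_integrable_sq hmom) hD]
  simp only [norm_fderiv_line, sq_abs]

theorem PoincareWith.P1 (h : PoincareWith ρ D) (hD : 0 ≤ D) : P1 ρ D := by
  intro f hf _
  exact (poin_line_iff (integrable_sq_of_memLp h.memLp) hD).1 h f hf

end line

section euclid

variable {n : ℕ}

/-- The norm of a linear form. -/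
theorem dual_norm_sq (θ : EuclideanSpace ℝ (Fin n) →L[ℝ] ℝ) :
    ‖θ‖ ^ 2 = ∑ i, (θ (EuclideanSpace.single i 1)) ^ 2 := by
  set v := (InnerProductSpace.toDual ℝ (EuclideanSpace ℝ (Fin n))).symm θ with hv
  have h1 : ‖v‖ = ‖θ‖ := LinearIsometryEquiv.norm_map _ _
  have h2 : ∀ x, θ x = inner ℝ v x := by
    intro x
    rw [hv, InnerProductSpace.toDual_symm_apply]
  rw [← h1, EuclideanSpace.norm_sq_eq]
  refine Finset.sum_congr rfl fun i _ => ?_
  rw [h2, EuclideanSpace.inner_single_right]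
  simp

/-- The identification as a continuous linear equivalence. -/
noncomputable def toE (n : ℕ) : (Fin n → ℝ) ≃L[ℝ] EuclideanSpace ℝ (Fin n) :=
  (PiLp.continuousLinearEquiv 2 ℝ (fun _ : Fin n => ℝ)).symm

theorem toE_apply (x : Fin n → ℝ) : toE n x = WithLp.toLp 2 x := rfl

theorem toE_single (i : Fin n) : toE n (Pi.single i 1) = EuclideanSpace.single i (1 : ℝ) := rfl

theorem grad_eq (F : EuclideanSpace ℝ (Fin n) → ℝ) (x : Fin n → ℝ) :
    ∑ i, (fderiv ℝ (fun y => F (toE n y)) x (Pi.single i 1)) ^ 2 =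
      ‖fderiv ℝ F (toE n x)‖ ^ 2 := by
  rw [dual_norm_sq]
  refine Finset.sum_congr rfl fun i _ => ?_
  have h : fderiv ℝ (fun y => F (toE n y)) x = (fderiv ℝ F (toE n x)).comp
      (toE n : (Fin n → ℝ) →L[ℝ] EuclideanSpace ℝ (Fin n)) :=
    (toE n).comp_right_fderiv (f := F) (x := x)
  rw [h]
  rfl

theorem lip_toE {F : EuclideanSpace ℝ (Fin n) → ℝ} {L : NNReal} (hF : LipschitzWith L F) :
    ∃ L' : NNReal, LipschitzWith L' fun y => F (toE n y) :=
  ⟨_, hF.comp (toE n).lipschitz⟩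

variable {ρ : Measure ℝ} [IsProbabilityMeasure ρ]

theorem measurable_toE : Measurable (toE n) := (toE n).continuous.measurable

theorem iidCond_eq (K : Set (Fin n → ℝ)) :
    iidCond n ρ K = (ProbabilityTheory.cond (prodM (Fin n) ρ) K).map (toE n) := rfl

theorem prob_cond {K : Set (Fin n → ℝ)} (hK : prodM (Fin n) ρ K ≠ 0) :
    IsProbabilityMeasure (ProbabilityTheory.cond (prodM (Fin n) ρ) K) :=
  ProbabilityTheory.cond_isProbabilityMeasure hK

theorem prob_iidCond {K : Set (Fin n → ℝ)} (hK : prodM (Fin n) ρ K ≠ 0) :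
    IsProbabilityMeasure (iidCond n ρ K) := by
  have := prob_cond hK
  rw [iidCond_eq]
  exact Measure.isProbabilityMeasure_map measurable_toE.aemeasurable

theorem integral_iidCond (K : Set (Fin n → ℝ)) (g : EuclideanSpace ℝ (Fin n) → ℝ) :
    ∫ x, g x ∂(iidCond n ρ K) = ∫ x, g (toE n x) ∂(ProbabilityTheory.cond (prodM (Fin n) ρ) K) := by
  rw [iidCond_eq]
  exact integral_map_equiv (toE n).toHomeomorph.toMeasurableEquiv g

theorem memLp_iidCond {K : Set (Fin n → ℝ)} {g : EuclideanSpace ℝ (Fin n) → ℝ} (hg : Measurable g)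
    {p : ENNReal} :
    MemLp g p (iidCond n ρ K) ↔
      MemLp (fun x => g (toE n x)) p (ProbabilityTheory.cond (prodM (Fin n) ρ) K) := by
  rw [iidCond_eq]
  exact memLp_map_measure_iff hg.aestronglyMeasurable measurable_toE.aemeasurable

theorem integral_cond (K : Set (Fin n → ℝ)) (g : (Fin n → ℝ) → ℝ) :
    ∫ x, g x ∂(ProbabilityTheory.cond (prodM (Fin n) ρ) K) =
      ((prodM (Fin n) ρ).real K)⁻¹ * ∫ x in K, g x ∂(prodM (Fin n) ρ) := by
  unfold ProbabilityTheory.cond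
  rw [integral_smul_measure, ENNReal.toReal_inv]
  rfl

theorem cond_le {K : Set (Fin n → ℝ)} (hK : prodM (Fin n) ρ K ≠ 0) {g : (Fin n → ℝ) → ℝ}
    {p : ENNReal} (hg : MemLp g p (prodM (Fin n) ρ)) :
    MemLp g p (ProbabilityTheory.cond (prodM (Fin n) ρ) K) := by
  unfold ProbabilityTheory.cond
  exact (hg.restrict K).smul_measure (ENNReal.inv_ne_top.2 hK)

theorem memLp_norm_pi (hmom : Integrable (fun x : ℝ => x ^ 2) ρ) :
    MemLp (fun x : Fin n → ℝ => ‖toE n x‖) 2 (prodM (Fin n) ρ) := by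
  have hm : AEStronglyMeasurable (fun x : Fin n → ℝ => ‖toE n x‖) (prodM (Fin n) ρ) :=
    (measurable_toE.norm).aestronglyMeasurable
  rw [memLp_two_iff_integrable_sq hm]
  have h1 : Integrable (fun x : Fin n → ℝ => ∑ i, x i ^ 2) (prodM (Fin n) ρ) := by
    refine integrable_finsetSum _ fun i _ => ?_
    exact (measurePreserving_eval (fun _ : Fin n => ρ) i).integrable_comp_of_integrable hmom
  refine h1.congr (Eventually.of_forall fun x => ?_)
  simp only
  rw [EuclideanSpace.norm_sq_eq]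
  refine Finset.sum_congr rfl fun i _ => ?_
  rw [Real.norm_eq_abs, sq_abs]
  rfl

theorem memLp_norm_iid {K : Set (Fin n → ℝ)} (hK : prodM (Fin n) ρ K ≠ 0)
    (hmom : Integrable (fun x : ℝ => x ^ 2) ρ) :
    MemLp (fun x : EuclideanSpace ℝ (Fin n) => ‖x‖) 2 (iidCond n ρ K) := by
  rw [memLp_iidCond measurable_norm]
  exact cond_le hK (memLp_norm_pi hmom)

/-- From the unnormalized inequality to the normalized one. -/
theorem poin_of_PIneq {K : Set (Fin n → ℝ)} (hK : prodM (Fin n) ρ K ≠ 0)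
    (hmom : Integrable (fun x : ℝ => x ^ 2) ρ) {D : ℝ} (hD : 0 < D)
    (h : ∀ (F : (Fin n → ℝ) → ℝ) (L : NNReal), LipschitzWith L F →
      PIneq (1 / D ^ 2) (prodM (Fin n) ρ) K F) :
    PoincareWith (iidCond n ρ K) D := by
  have hp := prob_cond hK
  have hp' := prob_iidCond hK
  have hn := memLp_norm_iid hK hmom
  rw [poin_iff hn hD.le]
  rintro F ⟨L, hF⟩
  obtain ⟨L', hG⟩ := lip_toE hF
  have h1 := h _ L' hG
  set G : (Fin n → ℝ) → ℝ := fun y => F (toE n y) with hGdef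
  set ν := ProbabilityTheory.cond (prodM (Fin n) ρ) K with hν
  have hG2 : MemLp G 2 ν := by
    have := (memLp_iidCond (ρ := ρ) (K := K) hF.continuous.measurable (p := 2)).1 (memLp_lip hn hF)
    exact this
  rw [integral_iidCond, integral_iidCond, integral_iidCond]
  have e1 : ∫ x, (G x - ∫ y, G y ∂ν) ^ 2 ∂ν = ∫ x, G x ^ 2 ∂ν - (∫ y, G y ∂ν) ^ 2 := by
    have := ProbabilityTheory.variance_eq_sub hG2
    rw [ProbabilityTheory.variance_eq_integral hG2.aemeasurable] at this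
    exact this
  have e2 : ∫ x, ‖fderiv ℝ F (toE n x)‖ ^ 2 ∂ν =
      ∫ x, ∑ i, (fderiv ℝ G x (Pi.single i 1)) ^ 2 ∂ν :=
    integral_congr_ae (Eventually.of_forall fun x => (grad_eq F x).symm)
  show ∫ x, (G x - ∫ y, G y ∂ν) ^ 2 ∂ν ≤ D ^ 2 * ∫ x, ‖fderiv ℝ F (toE n x)‖ ^ 2 ∂ν
  rw [e1, e2, hν, integral_cond, integral_cond, integral_cond]
  unfold PIneq at h1
  set p := (prodM (Fin n) ρ).real K with hpdef
  have hp0 : 0 < p := by
    rw [hpdef, Measure.real]
    exact ENNReal.toReal_pos hK (measure_ne_top _ _)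
  set A := ∫ x in K, G x ^ 2 ∂(prodM (Fin n) ρ)
  set B := ∫ x in K, G x ∂(prodM (Fin n) ρ)
  set C := ∫ x in K, ∑ i, (fderiv ℝ G x (Pi.single i 1)) ^ 2 ∂(prodM (Fin n) ρ)
  have h2 : p * A - B ^ 2 ≤ D ^ 2 * (p * C) := by
    have := mul_le_mul_of_nonneg_left h1 (sq_nonneg D)
    rw [← mul_assoc] at this
    have e : D ^ 2 * (1 / D ^ 2) = 1 := by field_simp
    rwa [e, one_mul] at this
  have h3 := mul_le_mul_of_nonneg_left h2 (sq_nonneg p⁻¹)
  have e3 : p⁻¹ ^ 2 * (p * A - B ^ 2) = p⁻¹ * A - (p⁻¹ * B) ^ 2 := by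
    field_simp
  have e4 : p⁻¹ ^ 2 * (D ^ 2 * (p * C)) = D ^ 2 * (p⁻¹ * C) := by
    field_simp
  rw [e3, e4] at h3
  exact h3

end euclid

end Pool.Agent.Lib.MP_8d00da_gt
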