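import Pool.Agent.Lib.MP_8d00da_gt.Euc

/-!
# The Poincaré constant of an i.i.d. vector conditioned on order relations
-/

open MeasureTheory Filter Topology

set_option linter.unusedSectionVars false

namespace Pool.Agent.Lib.MP_8d00da_gt

variable {n : ℕ} {ρ : Measure ℝ} [IsProbabilityMeasure ρ] {D : ℝ}

theorem ord_forward (hac : ρ ≪ volume) {E : Set (Fin n × Fin n)}
    (hK : prodM (Fin n) ρ (ordCone E) ≠ 0) (h : PoincareWith ρ D) :
    PoincareWith (iidCond n ρ (ordCone E)) D := by
  have hD := h.pos (noatom_of_ac hac)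
  have hm := integrable_sq_of_memLp h.memLp
  exact poin_of_PIneq hK hm hD fun F L hF => ordCone_main hac hD (h.P1 hD.le) hm E hF

theorem lit_forward (hac : ρ ≪ volume) (hsym : ρ.map (fun x => -x) = ρ)
    {E : Set ((Fin n × Bool) × (Fin n × Bool))}
    (hK : prodM (Fin n) ρ (litCone E) ≠ 0) (h : PoincareWith ρ D) :
    PoincareWith (iidCond n ρ (litCone E)) D := by
  have hD := h.pos (noatom_of_ac hac)
  have hm := integrable_sq_of_memLp h.memLp
  exact poin_of_PIneq hK hm hD fun F L hF => litCone_main hac hsym hD (h.P1 hD.le) hm E hF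

section transfer

variable {X : Type*} [MeasurableSpace X] {ν π : Measure X} {f : X → ℝ}

theorem memLp_of_map_eq (hf : Measurable f) (h : ν.map f = π.map f) {p : ENNReal} :
    MemLp f p ν ↔ MemLp f p π := by
  have h1 := memLp_map_measure_iff (μ := ν) (f := f) (g := fun y : ℝ => y) (p := p)
    measurable_id.aestronglyMeasurable hf.aemeasurable
  have h2 := memLp_map_measure_iff (μ := π) (f := f) (g := fun y : ℝ => y) (p := p)
    measurable_id.aestronglyMeasurable hf.aemeasurable
  rw [h] at h1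
  exact h1.symm.trans h2

theorem integral_of_map_eq (hf : Measurable f) (h : ν.map f = π.map f) {g : ℝ → ℝ}
    (hg : Measurable g) : ∫ x, g (f x) ∂ν = ∫ x, g (f x) ∂π := by
  rw [← integral_map hf.aemeasurable hg.aestronglyMeasurable, h,
    integral_map hf.aemeasurable hg.aestronglyMeasurable]

theorem variance_of_map_eq (hf : Measurable f) (h : ν.map f = π.map f) :
    ProbabilityTheory.variance f ν = ProbabilityTheory.variance f π := by
  rw [← ProbabilityTheory.variance_id_map hf.aemeasurable, h,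
    ProbabilityTheory.variance_id_map hf.aemeasurable]

end transfer

/-- Variance of a sum under the product measure. -/
theorem var_sum (g : ℝ → ℝ) (hg : MemLp g 2 ρ) :
    ProbabilityTheory.variance (fun x : Fin n → ℝ => ∑ i, g (x i)) (prodM (Fin n) ρ) =
      n * ProbabilityTheory.variance g ρ := by
  have h := ProbabilityTheory.variance_sum_pi (ι := Fin n) (μ := fun _ => ρ) (X := fun _ => g)
    (fun _ => hg)
  have e : (∑ i : Fin n, fun ω : Fin n → ℝ => g (ω i)) = fun x : Fin n → ℝ => ∑ i, g (x i) := by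
    funext x
    simp
  rw [e] at h
  rw [h]
  simp

/-- Integral of a sum under the product measure. -/
theorem int_sum (g : ℝ → ℝ) (hg : Integrable g ρ) :
    ∫ x : Fin n → ℝ, ∑ i, g (x i) ∂(prodM (Fin n) ρ) = n * ∫ y, g y ∂ρ := by
  rw [integral_finsetSum]
  · have : ∀ i : Fin n, ∫ x : Fin n → ℝ, g (x i) ∂(prodM (Fin n) ρ) = ∫ y, g y ∂ρ := by
      intro i
      have hmp := measurePreserving_eval (fun _ : Fin n => ρ) i
      have h1 : AEStronglyMeasurable g ((prodM (Fin n) ρ).map (fun x : Fin n → ℝ => x i)) := by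
        rw [hmp.map_eq]; exact hg.aestronglyMeasurable
      have h2 := integral_map (μ := prodM (Fin n) ρ) (φ := fun x : Fin n → ℝ => x i)
        (measurable_pi_apply i).aemeasurable h1
      rw [← h2, hmp.map_eq]
    rw [Finset.sum_congr rfl fun i _ => this i]
    simp
  · intro i _
    exact (measurePreserving_eval (fun _ : Fin n => ρ) i).integrable_comp_of_integrable hg

theorem sum_sym (g : ℝ → ℝ) (σ : Equiv.Perm (Fin n)) (x : Fin n → ℝ) :
    ∑ i, g (x (σ i)) = ∑ i, g (x i) := Equiv.sum_comp σ fun i => g (x i)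

theorem measurable_sumf {g : ℝ → ℝ} (hg : Measurable g) :
    Measurable fun x : Fin n → ℝ => ∑ i, g (x i) :=
  Finset.measurable_sum _ fun i _ => hg.comp (measurable_pi_apply i)

/-- the law of `∑ g(x_i)` does not see the conditioning -/
theorem map_sumf (hac : ρ ≪ volume) {E : Set (Fin n × Fin n)}
    (hK : prodM (Fin n) ρ (ordCone E) ≠ 0) {g : ℝ → ℝ} (hg : Measurable g) :
    (ProbabilityTheory.cond (prodM (Fin n) ρ) (ordCone E)).map
        (fun x : Fin n → ℝ => ∑ i, g (x i)) =
      (prodM (Fin n) ρ).map (fun x : Fin n → ℝ => ∑ i, g (x i)) :=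
  map_sym_perm (noatom_of_ac hac) E hK (measurable_sumf hg) fun σ x => sum_sym g σ x

/-- the same in the signed case -/
theorem map_sumf_signed (hac : ρ ≪ volume) (hsym : ρ.map (fun x => -x) = ρ)
    {E : Set ((Fin n × Bool) × (Fin n × Bool))}
    (hK : prodM (Fin n) ρ (litCone E) ≠ 0) {g : ℝ → ℝ} (hg : Measurable g)
    (he : ∀ x, g (-x) = g x) :
    (ProbabilityTheory.cond (prodM (Fin n) ρ) (litCone E)).map
        (fun x : Fin n → ℝ => ∑ i, g (x i)) =
      (prodM (Fin n) ρ).map (fun x : Fin n → ℝ => ∑ i, g (x i)) := by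
  refine map_sym_signed (noatom_of_ac hac) hsym E hK (measurable_sumf hg) fun s x => ?_
  have h1 : ∀ i, g (sg (s.2 i) * x (s.1 i)) = g (x (s.1 i)) := by
    intro i
    cases s.2 i
    · simp [sg, he]
    · simp [sg]
  simp only [h1]
  exact sum_sym g s.1 x

theorem norm_toE_sq (x : Fin n → ℝ) : ‖toE n x‖ ^ 2 = ∑ i, x i ^ 2 := by
  rw [EuclideanSpace.norm_sq_eq]
  refine Finset.sum_congr rfl fun i _ => ?_
  rw [Real.norm_eq_abs, sq_abs]
  rfl

/-- second moments of `ρ` from those of the conditioned measure -/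
theorem moment_of_cond (hac : ρ ≪ volume) (hn : 0 < n) {E : Set (Fin n × Fin n)}
    (hK : prodM (Fin n) ρ (ordCone E) ≠ 0)
    (h : MemLp (fun x : EuclideanSpace ℝ (Fin n) => ‖x‖) 2 (iidCond n ρ (ordCone E))) :
    Integrable (fun x : ℝ => x ^ 2) ρ := by
  rw [memLp_iidCond measurable_norm] at h
  have hp := prob_cond hK
  have h1 := h.integrable_sq
  simp only [norm_toE_sq] at h1
  have h2 : MemLp (fun x : Fin n → ℝ => ∑ i, x i ^ 2) 1
      (ProbabilityTheory.cond (prodM (Fin n) ρ) (ordCone E)) := memLp_one_iff_integrable.2 h1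
  rw [memLp_of_map_eq (measurable_sumf (g := fun y => y ^ 2) (by fun_prop))
    (map_sumf hac hK (g := fun y => y ^ 2) (by fun_prop))] at h2
  have h3 := memLp_one_iff_integrable.1 h2
  have i0 : Fin n := ⟨0, hn⟩
  have h4 : Integrable (fun x : Fin n → ℝ => x i0 ^ 2) (prodM (Fin n) ρ) := by
    refine h3.mono' ((measurable_pi_apply i0).pow_const 2).aestronglyMeasurable
      (Eventually.of_forall fun x => ?_)
    rw [Real.norm_eq_abs, abs_of_nonneg (sq_nonneg _)]
    exact Finset.single_le_sum (f := fun i => x i ^ 2) (fun j _ => sq_nonneg _) (Finset.mem_univ i0)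
  have hmp := measurePreserving_eval (fun _ : Fin n => ρ) i0
  exact (hmp.integrable_comp (g := fun y : ℝ => y ^ 2) (by fun_prop)).1 h4

/-- The sum function is Lipschitz. -/
theorem lip_sum {f : ℝ → ℝ} {L : NNReal} (hf : LipschitzWith L f) :
    LipschitzWith (n * L) fun x : EuclideanSpace ℝ (Fin n) => ∑ i, f (x i) := by
  refine LipschitzWith.of_dist_le_mul fun x y => ?_
  rw [Real.dist_eq, ← Finset.sum_sub_distrib]
  refine (Finset.abs_sum_le_sum_abs _ _).trans ?_
  have h1 : ∀ i : Fin n, |f (x i) - f (y i)| ≤ L * dist x y := by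
    intro i
    have h2 := hf.dist_le_mul (x i) (y i)
    rw [Real.dist_eq] at h2
    refine h2.trans (mul_le_mul_of_nonneg_left ?_ L.coe_nonneg)
    rw [dist_eq_norm, dist_eq_norm]
    exact PiLp.norm_apply_le (x - y) i
  refine (Finset.sum_le_sum fun i _ => h1 i).trans (le_of_eq ?_)
  rw [Finset.sum_const, Finset.card_univ, Fintype.card_fin, nsmul_eq_mul]
  push_cast
  ring

theorem fderiv_sumf {f : ℝ → ℝ} {x : Fin n → ℝ} (hf : ∀ i, DifferentiableAt ℝ f (x i)) (i : Fin n) :
    fderiv ℝ (fun y : Fin n → ℝ => ∑ j, f (y j)) x (Pi.single i 1) = deriv f (x i) := by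
  have h1 : HasFDerivAt (fun y : Fin n → ℝ => ∑ j, f (y j))
      (∑ j, (deriv f (x j)) • (ContinuousLinearMap.proj (R := ℝ) (φ := fun _ : Fin n => ℝ) j)) x := by
    refine HasFDerivAt.fun_sum fun j _ => ?_
    have h2 : HasFDerivAt (fun y : Fin n → ℝ => y j)
        (ContinuousLinearMap.proj (R := ℝ) (φ := fun _ : Fin n => ℝ) j) x :=
      (ContinuousLinearMap.proj (R := ℝ) (φ := fun _ : Fin n => ℝ) j).hasFDerivAt
    exact (hf j).hasDerivAt.comp_hasFDerivAt x h2
  rw [h1.fderiv]
  simp only [sum_apply, smul_apply,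
    ContinuousLinearMap.proj_apply, smul_eq_mul]
  rw [Finset.sum_eq_single i]
  · simp
  · intro j _ hj
    rw [Pi.single_eq_of_ne hj, mul_zero]
  · intro h; exact absurd (Finset.mem_univ i) h

theorem ae_diff (hac : ρ ≪ volume) {f : ℝ → ℝ} {L : NNReal} (hf : LipschitzWith L f)
    (K : Set (Fin n → ℝ)) :
    ∀ᵐ x ∂(ProbabilityTheory.cond (prodM (Fin n) ρ) K), ∀ i, DifferentiableAt ℝ f (x i) := by
  have h1 : ∀ᵐ x ∂ρ, DifferentiableAt ℝ f x := hac.ae_le hf.ae_differentiableAt
  have h2 := ae_coord (ι := Fin n) h1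
  exact ProbabilityTheory.cond_absolutelyContinuous.ae_le h2

theorem ord_backward (hac : ρ ≪ volume) (hn : 0 < n) {E : Set (Fin n × Fin n)}
    (hK : prodM (Fin n) ρ (ordCone E) ≠ 0) (h : PoincareWith (iidCond n ρ (ordCone E)) D) :
    PoincareWith ρ D := by
  have hp := prob_cond hK
  have hp' := prob_iidCond hK
  have hmom := moment_of_cond hac hn hK h.memLp
  rw [PoincareWith.max_iff] at h ⊢
  have hD : 0 ≤ max D 0 := le_max_right _ _
  set D' := max D 0
  rw [poin_line_iff hmom hD]
  rw [poin_iff (memLp_norm_iid hK hmom) hD] at h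
  rintro f ⟨L, hf⟩
  have hfm : Measurable f := hf.continuous.measurable
  have hdm : Measurable (deriv f) := measurable_deriv f
  have h1 := h _ ⟨_, lip_sum (n := n) hf⟩
  rw [integral_iidCond, integral_iidCond, integral_iidCond] at h1
  set ν := ProbabilityTheory.cond (prodM (Fin n) ρ) (ordCone E) with hν
  have e0 : ∀ x : Fin n → ℝ, (∑ i, f ((toE n x) i)) = ∑ i, f (x i) := fun x => rfl
  simp only [e0] at h1
  have hGm : Measurable fun x : Fin n → ℝ => ∑ i, f (x i) := measurable_sumf hfm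
  have hmap := map_sumf hac hK hfm
  have hf2 : MemLp f 2 ρ := memLp_lip (memLp_of_integrable_sq hmom) hf
  -- the variance
  have e1 : ∫ x, (∑ i, f (x i) - ∫ y : Fin n → ℝ, ∑ i, f (y i) ∂ν) ^ 2 ∂ν =
      n * ∫ x, (f x - ∫ y, f y ∂ρ) ^ 2 ∂ρ := by
    have h2 := variance_of_map_eq hGm hmap
    rw [var_sum f hf2, ProbabilityTheory.variance_eq_integral hGm.aemeasurable,
      ProbabilityTheory.variance_eq_integral hfm.aemeasurable] at h2
    exact h2
  -- the gradient
  have e2 : ∫ x, ‖fderiv ℝ (fun y : EuclideanSpace ℝ (Fin n) => ∑ i, f (y i)) (toE n x)‖ ^ 2 ∂ν =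
      n * ∫ x, (deriv f x) ^ 2 ∂ρ := by
    have h3 : ∀ᵐ x ∂ν, ‖fderiv ℝ (fun y : EuclideanSpace ℝ (Fin n) => ∑ i, f (y i)) (toE n x)‖ ^ 2 =
        ∑ i, (deriv f (x i)) ^ 2 := by
      filter_upwards [ae_diff hac hf (ordCone E)] with x hx
      rw [← grad_eq]
      refine Finset.sum_congr rfl fun i _ => ?_
      have := fderiv_sumf hx i
      rw [← this]
      rfl
    rw [integral_congr_ae h3]
    have hgm : Measurable fun y => (deriv f y) ^ 2 := by fun_prop
    have h4 := integral_of_map_eq (measurable_sumf hgm) (map_sumf hac hK hgm) (g := fun y => y)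
      measurable_id
    have h5 := int_sum (n := n) (ρ := ρ) (fun y => (deriv f y) ^ 2) (by
      have := (memLp_fderiv (μ := ρ) hf).integrable_sq
      simpa only [norm_fderiv_line, sq_abs] using this)
    exact h4.trans h5
  rw [e1, e2] at h1
  have hn' : (0 : ℝ) < n := by exact_mod_cast hn
  have e3 : D' ^ 2 * (n * ∫ x, (deriv f x) ^ 2 ∂ρ) = n * (D' ^ 2 * ∫ x, (deriv f x) ^ 2 ∂ρ) := by
    ring
  rw [e3] at h1
  exact le_of_mul_le_mul_left h1 hn'

/-- **The exact Poincaré constant.** -/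
theorem ord_iff (hac : ρ ≪ volume) (hn : 0 < n) {E : Set (Fin n × Fin n)}
    (hK : prodM (Fin n) ρ (ordCone E) ≠ 0) :
    PoincareWith (iidCond n ρ (ordCone E)) D ↔ PoincareWith ρ D :=
  ⟨ord_backward hac hn hK, ord_forward hac hK⟩

end Pool.Agent.Lib.MP_8d00da_gt
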