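import Mathlib

/-!
# Spectral gap from a contracted seminorm

An abstract finite statement: a symmetric operator `A` on functions on a finite set, such that
`1 + ε A` contracts some seminorm by the factor `1 - ε κ` for all small `ε`, has spectral gap at
least `κ` on functions of mean zero.
-/

open Finset

namespace Pool.Agent.Lib.MP_8d00da_gt

variable {α : Type*}

/-- Log-convexity and exponential decay imply decay at the first step. -/
theorem first_step_le {b : ℕ → ℝ} (hb : ∀ i, 0 ≤ b i)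
    (hconv : ∀ i, b (i + 1) ^ 2 ≤ b i * b (i + 2)) {C ρ : ℝ} (hρ : 0 ≤ ρ)
    (hdec : ∀ i, b i ≤ C * ρ ^ i) : b 1 ≤ ρ * b 0 := by
  by_contra hcon
  push Not at hcon
  have hb1 : 0 < b 1 := lt_of_le_of_lt (mul_nonneg hρ (hb 0)) hcon
  have hb0 : 0 < b 0 := by
    rcases (hb 0).eq_or_lt with h | h
    · have := hconv 0
      rw [← h] at this
      simp only [zero_add, zero_mul] at this
      nlinarith
    · exact h
  set t : ℝ := b 1 / b 0 with ht
  have htρ : ρ < t := by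
    rw [ht, lt_div_iff₀ hb0]
    exact hcon
  have htpos : 0 < t := by positivity
  have key : ∀ i, 0 < b i ∧ t * b i ≤ b (i + 1) := by
    intro i
    induction i with
    | zero =>
      refine ⟨hb0, ?_⟩
      rw [ht]
      field_simp
      simp
    | succ i ih =>
      obtain ⟨h1, h2⟩ := ih
      have hpos : 0 < b (i + 1) := lt_of_lt_of_le (by positivity) h2
      refine ⟨hpos, ?_⟩
      have h3 := hconv i
      have h4 : t * b i * b (i + 1) ≤ b i * b (i + 2) := by
        calc t * b i * b (i + 1) ≤ b (i + 1) * b (i + 1) := by nlinarith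
          _ = b (i + 1) ^ 2 := by ring
          _ ≤ _ := h3
      have h5 : b i * (t * b (i + 1)) ≤ b i * b (i + 2) := by linarith
      exact le_of_mul_le_mul_left h5 h1
  have hlow : ∀ i, t ^ i * b 0 ≤ b i := by
    intro i
    induction i with
    | zero => simp
    | succ i ih =>
      calc t ^ (i + 1) * b 0 = t * (t ^ i * b 0) := by ring
        _ ≤ t * b i := by
          apply mul_le_mul_of_nonneg_left ih htpos.le
        _ ≤ b (i + 1) := (key i).2
  have hCpos : 0 < C := by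
    have := hdec 0
    simp at this
    linarith
  have hratio : ∀ i, (ρ / t) ^ i ≥ b 0 / C := by
    intro i
    have h1 := (hlow i).trans (hdec i)
    rw [ge_iff_le, div_pow, div_le_div_iff₀ hCpos (by positivity)]
    linarith
  have hlt : ρ / t < 1 := by
    rw [div_lt_one htpos]
    exact htρ
  have htend := tendsto_pow_atTop_nhds_zero_of_lt_one (div_nonneg hρ htpos.le) hlt
  have h0 : (0 : ℝ) < b 0 / C := by positivity
  have hle := ge_of_tendsto' htend hratio
  linarith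

/-- Spectral gap from contraction of a seminorm. -/
theorem gap_of_contraction (S : Finset α) (A : (α → ℝ) → (α → ℝ))
    (hsymm : ∀ f g : α → ℝ, ∑ x ∈ S, f x * A g x = ∑ x ∈ S, A f x * g x)
    (hmean : ∀ f : α → ℝ, ∑ x ∈ S, A f x = 0)
    (Lp : (α → ℝ) → ℝ → Prop) {B : ℝ}
    (hB : ∀ g M, 0 ≤ M → Lp g M → ∑ x ∈ S, g x = 0 → ∀ x ∈ S, |g x| ≤ B * M)
    (hex : ∀ g, ∃ M, 0 ≤ M ∧ Lp g M) {κ ε₀ : ℝ} (hκ : 0 ≤ κ) (hε₀ : 0 < ε₀) (hεκ : ε₀ * κ ≤ 1)
    (hcontr : ∀ ε, 0 < ε → ε ≤ ε₀ → ∀ g M, 0 ≤ M → Lp g M →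
      Lp (fun x => g x + ε * A g x) (M * (1 - ε * κ)))
    (f : α → ℝ) (hf : ∑ x ∈ S, f x = 0) :
    κ * ∑ x ∈ S, f x ^ 2 ≤ - ∑ x ∈ S, f x * A f x := by
  -- one step inequality for every small `ε`
  have step : ∀ ε, 0 < ε → ε ≤ ε₀ →
      ∑ x ∈ S, (f x + ε * A f x) ^ 2 ≤ (1 - ε * κ) ^ 2 * ∑ x ∈ S, f x ^ 2 := by
    intro ε hε hε'
    have hq : 0 ≤ 1 - ε * κ := by nlinarith
    let T : (α → ℝ) → (α → ℝ) := fun g x => g x + ε * A g x
    have hTs : ∀ g h : α → ℝ, ∑ x ∈ S, g x * T h x = ∑ x ∈ S, T g x * h x := by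
      intro g h
      have e1 : ∑ x ∈ S, g x * T h x = ∑ x ∈ S, g x * h x + ε * ∑ x ∈ S, g x * A h x := by
        rw [Finset.mul_sum, ← Finset.sum_add_distrib]
        exact Finset.sum_congr rfl fun x _ => by simp only [T]; ring
      have e2 : ∑ x ∈ S, T g x * h x = ∑ x ∈ S, g x * h x + ε * ∑ x ∈ S, A g x * h x := by
        rw [Finset.mul_sum, ← Finset.sum_add_distrib]
        exact Finset.sum_congr rfl fun x _ => by simp only [T]; ring
      rw [e1, e2, hsymm]
    have hTm : ∀ g : α → ℝ, ∑ x ∈ S, g x = 0 → ∑ x ∈ S, T g x = 0 := by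
      intro g hg
      simp only [T, Finset.sum_add_distrib, ← Finset.mul_sum, hg, hmean, mul_zero, add_zero]
    obtain ⟨M, hM, hfM⟩ := hex f
    let g : ℕ → α → ℝ := fun i => T^[i] f
    have hgsucc : ∀ i, g (i + 1) = T (g i) := fun i => Function.iterate_succ_apply' T i f
    have hg0 : g 0 = f := rfl
    have hgm : ∀ i, ∑ x ∈ S, g i x = 0 := by
      intro i
      induction i with
      | zero => exact hf
      | succ i ih => rw [hgsucc]; exact hTm _ ih
    have hgL : ∀ i, Lp (g i) (M * (1 - ε * κ) ^ i) := by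
      intro i
      induction i with
      | zero => rw [pow_zero, mul_one]; exact hfM
      | succ i ih =>
        rw [hgsucc, pow_succ, ← mul_assoc]
        exact hcontr ε hε hε' _ _ (by positivity) ih
    have hmain := first_step_le (b := fun i => ∑ x ∈ S, g i x ^ 2)
      (fun i => Finset.sum_nonneg fun x _ => sq_nonneg _)
      (C := S.card * (B * M) ^ 2) (ρ := (1 - ε * κ) ^ 2) ?_ (sq_nonneg _) ?_
    · have h1 : g 1 = fun x => f x + ε * A f x := by
        rw [show (1 : ℕ) = 0 + 1 from rfl, hgsucc, hg0]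
      simp only [h1, hg0] at hmain
      exact hmain
    · intro i
      have e : ∑ x ∈ S, g (i + 1) x ^ 2 = ∑ x ∈ S, g i x * g (i + 2) x := by
        rw [hgsucc (i + 1), hTs, ← hgsucc i]
        exact Finset.sum_congr rfl fun x _ => by ring
      show (∑ x ∈ S, g (i + 1) x ^ 2) ^ 2 ≤ _
      rw [e]
      exact Finset.sum_mul_sq_le_sq_mul_sq S (g i) (g (i + 2))
    · intro i
      have hb : ∀ x ∈ S, g i x ^ 2 ≤ (B * M) ^ 2 * ((1 - ε * κ) ^ 2) ^ i := by
        intro x hx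
        have h1 := hB (g i) _ (by positivity) (hgL i) (hgm i) x hx
        calc g i x ^ 2 = |g i x| ^ 2 := (sq_abs _).symm
          _ ≤ (B * (M * (1 - ε * κ) ^ i)) ^ 2 := by
            apply pow_le_pow_left₀ (abs_nonneg _) h1
          _ = _ := by
            have h2 : ((1 - ε * κ) ^ 2) ^ i = ((1 - ε * κ) ^ i) ^ 2 := by
              rw [← pow_mul, ← pow_mul, mul_comm 2 i]
            rw [h2]
            ring
      calc ∑ x ∈ S, g i x ^ 2 ≤ ∑ x ∈ S, (B * M) ^ 2 * ((1 - ε * κ) ^ 2) ^ i :=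
            Finset.sum_le_sum hb
        _ = _ := by
          rw [Finset.sum_const, nsmul_eq_mul]
          ring
  -- let `ε → 0`
  set b0 := ∑ x ∈ S, f x ^ 2 with hb0
  have hb0' : 0 ≤ b0 := Finset.sum_nonneg fun x _ => sq_nonneg _
  have hε : ∀ ε, 0 < ε → ε ≤ ε₀ → (κ - ε * κ ^ 2 / 2) * b0 ≤ - ∑ x ∈ S, f x * A f x := by
    intro ε h1 h2
    have h3 := step ε h1 h2
    have h4 : ∑ x ∈ S, (f x + ε * A f x) ^ 2 =
        b0 + 2 * ε * ∑ x ∈ S, f x * A f x + ε ^ 2 * ∑ x ∈ S, A f x ^ 2 := by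
      rw [hb0, Finset.mul_sum, Finset.mul_sum, ← Finset.sum_add_distrib, ← Finset.sum_add_distrib]
      exact Finset.sum_congr rfl fun x _ => by ring
    rw [h4] at h3
    have h5 : 0 ≤ ε ^ 2 * ∑ x ∈ S, A f x ^ 2 :=
      mul_nonneg (sq_nonneg _) (Finset.sum_nonneg fun x _ => sq_nonneg _)
    have h6 : 2 * ε * ((κ - ε * κ ^ 2 / 2) * b0) ≤ 2 * ε * (- ∑ x ∈ S, f x * A f x) := by
      nlinarith
    exact le_of_mul_le_mul_left h6 (by linarith)
  by_contra hcon
  push Not at hcon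
  set q := - ∑ x ∈ S, f x * A f x with hq
  have hgap : 0 < κ * b0 - q := by linarith
  have hpos : 0 < κ ^ 2 * b0 / 2 + 1 := by positivity
  obtain ⟨ε, hε1, hε2⟩ : ∃ ε, 0 < ε ∧ ε ≤ ε₀ ∧ ε * (κ ^ 2 * b0 / 2 + 1) < κ * b0 - q := by
    refine ⟨min ε₀ ((κ * b0 - q) / (2 * (κ ^ 2 * b0 / 2 + 1))), by positivity, min_le_left _ _, ?_⟩
    calc min ε₀ ((κ * b0 - q) / (2 * (κ ^ 2 * b0 / 2 + 1))) * (κ ^ 2 * b0 / 2 + 1)
        ≤ ((κ * b0 - q) / (2 * (κ ^ 2 * b0 / 2 + 1))) * (κ ^ 2 * b0 / 2 + 1) := by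
          apply mul_le_mul_of_nonneg_right (min_le_right _ _) hpos.le
      _ = (κ * b0 - q) / 2 := by field_simp
      _ < κ * b0 - q := by linarith
  have := hε ε hε1 hε2.1
  nlinarith [hε2.2]

end Pool.Agent.Lib.MP_8d00da_gt
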