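import Pool.Agent.Lib.MP_8d00da_gt.Quantile

/-!
# The discrete gap of a discretized measure on the line
-/

open MeasureTheory Filter Topology Finset

namespace Pool.Agent.Lib.MP_8d00da_gt

/-- clamp to `[0, 1]` -/
noncomputable def clamp01 (t : ℝ) : ℝ := max 0 (min 1 t)

theorem clamp01_of_le {t : ℝ} (h : t ≤ 0) : clamp01 t = 0 := by
  unfold clamp01
  rw [min_eq_right (by linarith), max_eq_left h]

theorem clamp01_of_ge {t : ℝ} (h : 1 ≤ t) : clamp01 t = 1 := by
  unfold clamp01
  rw [min_eq_left h, max_eq_right zero_le_one]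

theorem clamp01_of_mem {t : ℝ} (h0 : 0 ≤ t) (h1 : t ≤ 1) : clamp01 t = t := by
  unfold clamp01
  rw [min_eq_right h1, max_eq_right h0]

theorem clamp01_lip : LipschitzWith 1 clamp01 := by
  unfold clamp01
  exact (LipschitzWith.id.const_min 1).const_max 0

theorem clamp01_abs (t : ℝ) : |clamp01 t| ≤ 1 := by
  unfold clamp01
  rw [abs_of_nonneg (le_max_left _ _)]
  exact max_le zero_le_one (min_le_left _ _)

/-- interpolation of the values `w` at the points `p` -/
noncomputable def interp (n : ℕ) (p w : ℕ → ℝ) (x : ℝ) : ℝ :=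
  w 0 + ∑ i ∈ range n, (w (i + 1) - w i) * clamp01 ((x - p i) / (p (i + 1) - p i))

theorem interp_lip (n : ℕ) (p w : ℕ → ℝ) : ∃ L, LipschitzWith L (interp n p w) := by
  unfold interp
  have : ∀ i, ∃ L, LipschitzWith L fun x : ℝ =>
      (w (i + 1) - w i) * clamp01 ((x - p i) / (p (i + 1) - p i)) := by
    intro i
    have h1 : LipschitzWith (Real.nnabs ((w (i + 1) - w i) * (1 / (p (i + 1) - p i))))
        fun x : ℝ => (w (i + 1) - w i) * clamp01 ((x - p i) / (p (i + 1) - p i)) := by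
      refine LipschitzWith.of_dist_le_mul fun x y => ?_
      rw [Real.dist_eq, ← mul_sub, abs_mul]
      have h2 := clamp01_lip.dist_le_mul ((x - p i) / (p (i + 1) - p i))
        ((y - p i) / (p (i + 1) - p i))
      rw [NNReal.coe_one, one_mul, Real.dist_eq, Real.dist_eq] at h2
      rw [Real.coe_nnabs, abs_mul, mul_assoc]
      apply mul_le_mul_of_nonneg_left _ (abs_nonneg _)
      refine h2.trans (le_of_eq ?_)
      rw [Real.dist_eq, ← sub_div, ← abs_mul]
      congr 1
      ring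
    exact ⟨_, h1⟩
  choose L hL using this
  refine ⟨0 + ∑ i ∈ range n, L i, (LipschitzWith.const (w 0)).add ?_⟩
  induction n with
  | zero => simpa using LipschitzWith.const (0 : ℝ)
  | succ n ih =>
    simp only [Finset.sum_range_succ]
    exact ih.add (hL n)

theorem interp_bound (n : ℕ) (p w : ℕ → ℝ) (x : ℝ) :
    |interp n p w x| ≤ |w 0| + ∑ i ∈ range n, |w (i + 1) - w i| := by
  unfold interp
  refine (abs_add_le _ _).trans (add_le_add le_rfl ?_)
  refine (Finset.abs_sum_le_sum_abs _ _).trans (Finset.sum_le_sum fun i _ => ?_)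
  rw [abs_mul]
  have := mul_le_mul_of_nonneg_left (clamp01_abs ((x - p i) / (p (i + 1) - p i)))
    (abs_nonneg (w (i + 1) - w i))
  linarith

theorem interp_left {n : ℕ} {p : ℕ → ℝ} (hp : ∀ i j, i < j → j ≤ n → p i < p j) (w : ℕ → ℝ) {x : ℝ}
    (hx : x ≤ p 0) : interp n p w x = w 0 := by
  unfold interp
  rw [Finset.sum_eq_zero, add_zero]
  intro i hi
  rw [Finset.mem_range] at hi
  rw [clamp01_of_le, mul_zero]
  apply div_nonpos_of_nonpos_of_nonneg
  · rcases Nat.eq_zero_or_pos i with h | h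
    · subst h; linarith
    · have := hp 0 i h hi.le
      linarith
  · have := hp i (i + 1) (by omega) hi
    linarith

theorem interp_mid {n : ℕ} {p : ℕ → ℝ} (hp : ∀ i j, i < j → j ≤ n → p i < p j) (w : ℕ → ℝ) {x : ℝ}
    {j : ℕ} (hj : j < n) (h1 : p j ≤ x) (h2 : x ≤ p (j + 1)) :
    interp n p w x = w j + (w (j + 1) - w j) * ((x - p j) / (p (j + 1) - p j)) := by
  unfold interp
  have hpos : ∀ i, i < n → 0 < p (i + 1) - p i := fun i hi => by
    have := hp i (i + 1) (by omega) hi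
    linarith
  have e : ∀ i ∈ range n, (w (i + 1) - w i) * clamp01 ((x - p i) / (p (i + 1) - p i)) =
      (if i < j then w (i + 1) - w i else 0) +
        (if i = j then (w (j + 1) - w j) * ((x - p j) / (p (j + 1) - p j)) else 0) := by
    intro i hi
    rw [Finset.mem_range] at hi
    have hpi := hpos i hi
    rcases lt_trichotomy i j with h | h | h
    · rw [if_pos h, if_neg h.ne, clamp01_of_ge]
      · ring
      · rw [one_le_div hpi]
        rcases Nat.eq_or_lt_of_le (show i + 1 ≤ j from h) with h3 | h3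
        · rw [h3]; linarith
        · have := hp (i + 1) j h3 hj.le
          linarith
    · subst h
      rw [if_neg (lt_irrefl _), if_pos rfl, clamp01_of_mem]
      · ring
      · apply div_nonneg <;> linarith
      · rw [div_le_one hpi]; linarith
    · rw [if_neg (by omega), if_neg h.ne', clamp01_of_le]
      · ring
      · apply div_nonpos_of_nonpos_of_nonneg _ hpi.le
        rcases Nat.eq_or_lt_of_le (show j + 1 ≤ i from h) with h3 | h3
        · rw [← h3]; linarith
        · have := hp (j + 1) i h3 hi.le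
          linarith
  rw [Finset.sum_congr rfl e, Finset.sum_add_distrib, Finset.sum_ite_eq' (range n) j,
    if_pos (Finset.mem_range.2 hj), ← Finset.sum_filter]
  have e2 : (range n).filter (fun i => i < j) = range j := by
    ext i
    simp only [Finset.mem_filter, Finset.mem_range]
    omega
  rw [e2, Finset.sum_range_sub]
  ring

theorem interp_right {n : ℕ} {p : ℕ → ℝ} (hp : ∀ i j, i < j → j ≤ n → p i < p j) (w : ℕ → ℝ) {x : ℝ}
    (hx : p n ≤ x) : interp n p w x = w n := by
  unfold interp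
  have e : ∀ i ∈ range n, (w (i + 1) - w i) * clamp01 ((x - p i) / (p (i + 1) - p i)) =
      w (i + 1) - w i := by
    intro i hi
    rw [Finset.mem_range] at hi
    have hpi : 0 < p (i + 1) - p i := by
      have := hp i (i + 1) (by omega) hi
      linarith
    rw [clamp01_of_ge, mul_one]
    rw [one_le_div hpi]
    rcases Nat.eq_or_lt_of_le (show i + 1 ≤ n from hi) with h3 | h3
    · rw [h3]; linarith
    · have := hp (i + 1) n h3 le_rfl
      linarith
  rw [Finset.sum_congr rfl e, Finset.sum_range_sub]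
  ring

/-- squared slope as a function of the point -/
noncomputable def gsl (n : ℕ) (p w : ℕ → ℝ) (x : ℝ) : ℝ :=
  ∑ i ∈ range n, (Set.Ioo (p i) (p (i + 1))).indicator
    (fun _ => ((w (i + 1) - w i) / (p (i + 1) - p i)) ^ 2) x

theorem gsl_nonneg (n : ℕ) (p w : ℕ → ℝ) (x : ℝ) : 0 ≤ gsl n p w x :=
  Finset.sum_nonneg fun _ _ => Set.indicator_nonneg (fun _ _ => sq_nonneg _) _

theorem gsl_mid {n : ℕ} {p : ℕ → ℝ} (hp : ∀ i j, i < j → j ≤ n → p i < p j) (w : ℕ → ℝ) {x : ℝ}
    {j : ℕ} (hj : j < n) (h1 : p j < x) (h2 : x < p (j + 1)) :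
    gsl n p w x = ((w (j + 1) - w j) / (p (j + 1) - p j)) ^ 2 := by
  unfold gsl
  rw [Finset.sum_eq_single j, Set.indicator_of_mem (show x ∈ Set.Ioo _ _ from ⟨h1, h2⟩)]
  · intro i hi hij
    rw [Finset.mem_range] at hi
    rw [Set.indicator_of_notMem]
    rintro ⟨h3, h4⟩
    rcases lt_or_gt_of_ne hij with h | h
    · rcases Nat.eq_or_lt_of_le (show i + 1 ≤ j from h) with h5 | h5
      · rw [h5] at h4; linarith
      · have := hp (i + 1) j h5 hj.le
        linarith
    · rcases Nat.eq_or_lt_of_le (show j + 1 ≤ i from h) with h5 | h5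
      · rw [← h5] at h3; linarith
      · have := hp (j + 1) i h5 hi.le
        linarith
  · intro h; exact absurd (Finset.mem_range.2 hj) h

theorem gsl_left {n : ℕ} {p : ℕ → ℝ} (hp : ∀ i j, i < j → j ≤ n → p i < p j) (w : ℕ → ℝ) {x : ℝ}
    (hx : x ≤ p 0) : gsl n p w x = 0 := by
  unfold gsl
  apply Finset.sum_eq_zero
  intro i hi
  rw [Finset.mem_range] at hi
  rw [Set.indicator_of_notMem]
  rintro ⟨h3, -⟩
  rcases Nat.eq_zero_or_pos i with h | h
  · subst h; linarith
  · have := hp 0 i h hi.le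
    linarith

theorem gsl_right {n : ℕ} {p : ℕ → ℝ} (hp : ∀ i j, i < j → j ≤ n → p i < p j) (w : ℕ → ℝ) {x : ℝ}
    (hx : p n ≤ x) : gsl n p w x = 0 := by
  unfold gsl
  apply Finset.sum_eq_zero
  intro i hi
  rw [Finset.mem_range] at hi
  rw [Set.indicator_of_notMem]
  rintro ⟨-, h4⟩
  rcases Nat.eq_or_lt_of_le (show i + 1 ≤ n from hi) with h3 | h3
  · rw [h3] at h4; linarith
  · have := hp (i + 1) n h3 le_rfl
    linarith

theorem deriv_interp_left {n : ℕ} {p : ℕ → ℝ} (hp : ∀ i j, i < j → j ≤ n → p i < p j) (w : ℕ → ℝ)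
    {x : ℝ} (hx : x < p 0) : deriv (interp n p w) x = 0 := by
  have h : interp n p w =ᶠ[𝓝 x] fun _ => w 0 := by
    filter_upwards [Iio_mem_nhds hx] with y hy
    exact interp_left hp w (le_of_lt hy)
  rw [h.deriv_eq, deriv_const]

theorem deriv_interp_right {n : ℕ} {p : ℕ → ℝ} (hp : ∀ i j, i < j → j ≤ n → p i < p j) (w : ℕ → ℝ)
    {x : ℝ} (hx : p n < x) : deriv (interp n p w) x = 0 := by
  have h : interp n p w =ᶠ[𝓝 x] fun _ => w n := by
    filter_upwards [Ioi_mem_nhds hx] with y hy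
    exact interp_right hp w (le_of_lt hy)
  rw [h.deriv_eq, deriv_const]

theorem deriv_interp_mid {n : ℕ} {p : ℕ → ℝ} (hp : ∀ i j, i < j → j ≤ n → p i < p j) (w : ℕ → ℝ)
    {x : ℝ} {j : ℕ} (hj : j < n) (h1 : p j < x) (h2 : x < p (j + 1)) :
    deriv (interp n p w) x = (w (j + 1) - w j) / (p (j + 1) - p j) := by
  have h : interp n p w =ᶠ[𝓝 x] fun y => w j + (w (j + 1) - w j) * ((y - p j) / (p (j + 1) - p j)) := by
    filter_upwards [Ioo_mem_nhds h1 h2] with y hy
    exact interp_mid hp w hj (le_of_lt hy.1) (le_of_lt hy.2)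
  rw [h.deriv_eq]
  have hd : HasDerivAt (fun y => w j + (w (j + 1) - w j) * ((y - p j) / (p (j + 1) - p j)))
      ((w (j + 1) - w j) * (1 / (p (j + 1) - p j))) x :=
    ((((hasDerivAt_id x).sub_const (p j)).div_const (p (j + 1) - p j)).const_mul
      (w (j + 1) - w j)).const_add (w j)
  rw [hd.deriv]
  ring

/-- cells of the distribution function -/
def hcell (σ : Measure ℝ) (N i : ℕ) : Set ℝ := {x | (i : ℝ) / N < HH σ x ∧ HH σ x ≤ ((i : ℝ) + 1) / N}

/-- step function -/
noncomputable def stepf (σ : Measure ℝ) (N : ℕ) (w : ℕ → ℝ) (x : ℝ) : ℝ :=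
  ∑ i ∈ range N, (hcell σ N i).indicator (fun _ => w i) x

theorem hcell_disjoint {σ : Measure ℝ} {N i j : ℕ} {x : ℝ} (hi : x ∈ hcell σ N i)
    (hj : x ∈ hcell σ N j) : i = j := by
  obtain ⟨h1, h2⟩ := hi
  obtain ⟨h3, h4⟩ := hj
  rcases Nat.eq_zero_or_pos N with hN | hN
  · subst hN
    simp at h1 h2
    linarith
  have hN' : (0 : ℝ) < N := by exact_mod_cast hN
  rcases lt_trichotomy i j with h | h | h
  · have h5 : (i : ℝ) + 1 ≤ j := by exact_mod_cast h
    have := div_le_div_of_nonneg_right h5 hN'.le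
    linarith
  · exact h
  · have h5 : (j : ℝ) + 1 ≤ i := by exact_mod_cast h
    have := div_le_div_of_nonneg_right h5 hN'.le
    linarith

theorem stepf_eq {σ : Measure ℝ} {N i : ℕ} (hi : i < N) {w : ℕ → ℝ} {x : ℝ}
    (hx : x ∈ hcell σ N i) : stepf σ N w x = w i := by
  unfold stepf
  rw [Finset.sum_eq_single i, Set.indicator_of_mem hx]
  · intro j _ hji
    rw [Set.indicator_of_notMem]
    intro hj
    exact hji (hcell_disjoint hj hx)
  · intro h; exact absurd (Finset.mem_range.2 hi) h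

theorem exists_hcell {σ : Measure ℝ} [IsProbabilityMeasure σ] {N : ℕ} (hN : 0 < N) {x : ℝ}
    (hx : 0 < HH σ x) : ∃ i < N, x ∈ hcell σ N i := by
  have hN' : (0 : ℝ) < N := by exact_mod_cast hN
  have h1 : 0 < ⌈(N : ℝ) * HH σ x⌉₊ := Nat.ceil_pos.2 (by positivity)
  have h2 : ⌈(N : ℝ) * HH σ x⌉₊ ≤ N := by
    rw [Nat.ceil_le]
    have := HH_le_one σ x
    nlinarith
  have h3 := Nat.le_ceil ((N : ℝ) * HH σ x)
  have h4 := Nat.ceil_lt_add_one (show 0 ≤ (N : ℝ) * HH σ x by positivity)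
  refine ⟨⌈(N : ℝ) * HH σ x⌉₊ - 1, by omega, ?_, ?_⟩
  · rw [Nat.cast_sub (by omega), div_lt_iff₀ hN']
    push_cast
    linarith
  · rw [Nat.cast_sub (by omega), le_div_iff₀ hN']
    push_cast
    linarith

namespace Cpt

variable {σ : Measure ℝ} {a b : ℝ}

theorem measurable_H (h : Cpt σ a b) : Measurable (HH σ) := by
  have := h.prob
  exact (HH_mono σ).measurable

theorem measurableSet_hcell (h : Cpt σ a b) (N i : ℕ) : MeasurableSet (hcell σ N i) :=
  (measurableSet_lt measurable_const h.measurable_H).inter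
    (measurableSet_le h.measurable_H measurable_const)

theorem hcell_mass (h : Cpt σ a b) {N i : ℕ} (hi : i < N) : σ.real (hcell σ N i) = 1 / N := by
  have hN' : (0 : ℝ) < N := by
    have : 0 < N := by omega
    exact_mod_cast this
  have hi' : (i : ℝ) + 1 ≤ N := by exact_mod_cast hi
  have := h.law (u := (i : ℝ) / N) (v := ((i : ℝ) + 1) / N) (by positivity)
    (by apply div_le_div_of_nonneg_right _ hN'.le; linarith) (by rwa [div_le_one hN'])
  unfold hcell
  rw [this]
  field_simp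
  ring

theorem integrable_bdd (h : Cpt σ a b) {f : ℝ → ℝ} (hf : AEStronglyMeasurable f σ) {C : ℝ}
    (hC : ∀ x, |f x| ≤ C) : Integrable f σ := by
  have := h.prob
  exact Integrable.of_bound hf C (Eventually.of_forall hC)

theorem integral_stepf (h : Cpt σ a b) (N : ℕ) (w : ℕ → ℝ) :
    ∫ x, stepf σ N w x ∂σ = (∑ i ∈ range N, w i) / N := by
  have := h.prob
  unfold stepf
  rw [integral_finsetSum]
  · rw [Finset.sum_div]
    refine Finset.sum_congr rfl fun i hi => ?_
    rw [integral_indicator (h.measurableSet_hcell N i), setIntegral_const, smul_eq_mul,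
      h.hcell_mass (Finset.mem_range.1 hi)]
    ring
  · intro i _
    exact (integrable_const _).indicator (h.measurableSet_hcell N i)

theorem stepf_sq (σ : Measure ℝ) (N : ℕ) (w : ℕ → ℝ) (x : ℝ) :
    stepf σ N w x ^ 2 = stepf σ N (fun i => w i ^ 2) x := by
  by_cases hx : ∃ i < N, x ∈ hcell σ N i
  · obtain ⟨i, hi, hx⟩ := hx
    rw [stepf_eq hi hx, stepf_eq hi hx]
  · push Not at hx
    have h0 : ∀ w : ℕ → ℝ, stepf σ N w x = 0 := by
      intro w
      unfold stepf
      apply Finset.sum_eq_zero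
      intro i hi
      rw [Set.indicator_of_notMem (hx i (Finset.mem_range.1 hi))]
    rw [h0, h0]
    ring

theorem measurable_stepf (h : Cpt σ a b) (N : ℕ) (w : ℕ → ℝ) : Measurable (stepf σ N w) := by
  unfold stepf
  exact Finset.measurable_sum _ fun i _ => measurable_const.indicator (h.measurableSet_hcell N i)

theorem stepf_bound (σ : Measure ℝ) (N : ℕ) (w : ℕ → ℝ) (x : ℝ) :
    |stepf σ N w x| ≤ ∑ i ∈ range N, |w i| := by
  unfold stepf
  refine (Finset.abs_sum_le_sum_abs _ _).trans (Finset.sum_le_sum fun i _ => ?_)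
  rw [Set.indicator]
  split_ifs
  · exact le_rfl
  · rw [abs_zero]; exact abs_nonneg _

/-- the sample points -/
noncomputable def pts (σ : Measure ℝ) (a b : ℝ) (N i : ℕ) : ℝ :=
  qf σ a b ((2 * (i : ℝ) + 1) / (2 * N))

theorem pts_u {N i : ℕ} (hi : i < N) :
    0 < (2 * (i : ℝ) + 1) / (2 * N) ∧ (2 * (i : ℝ) + 1) / (2 * N) < 1 := by
  have hN' : (0 : ℝ) < N := by
    have : 0 < N := by omega
    exact_mod_cast this
  have hi' : (i : ℝ) + 1 ≤ N := by exact_mod_cast hi
  constructor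
  · positivity
  · rw [div_lt_one (by positivity)]
    linarith

theorem pts_strict (h : Cpt σ a b) {N i j : ℕ} (hij : i < j) (hj : j < N) :
    pts σ a b N i < pts σ a b N j := by
  have hN' : (0 : ℝ) < N := by
    have : 0 < N := by omega
    exact_mod_cast this
  unfold pts
  apply h.q_strict (pts_u (hij.trans hj)).1.le _ (pts_u hj).2.le
  apply div_lt_div_of_pos_right _ (by positivity)
  have : (i : ℝ) < j := by exact_mod_cast hij
  linarith

theorem H_pts (h : Cpt σ a b) {N i : ℕ} (hi : i < N) :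
    HH σ (pts σ a b N i) = (2 * (i : ℝ) + 1) / (2 * N) :=
  h.H_q (pts_u hi).1.le (pts_u hi).2.le

/-- The pointwise comparison. -/
theorem pointwise (h : Cpt σ a b) {n : ℕ} {M : ℝ} (hM0 : 0 ≤ M)
    (hM : ∀ u v, 0 ≤ u → u ≤ 1 → 0 ≤ v → v ≤ 1 → |u - v| ≤ 1 / ((n + 1 : ℕ) : ℝ) →
      |qf σ a b u - qf σ a b v| ≤ M) (w : ℕ → ℝ) {x : ℝ} (hx : x ∈ Set.Icc a b)
    (hx0 : 0 < HH σ x) (hxp : ∀ i < n + 1, HH σ x ≠ (2 * (i : ℝ) + 1) / (2 * ((n + 1 : ℕ) : ℝ))) :
    (deriv (interp n (pts σ a b (n + 1)) w) x) ^ 2 = gsl n (pts σ a b (n + 1)) w x ∧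
      (interp n (pts σ a b (n + 1)) w x - stepf σ (n + 1) w x) ^ 2 ≤
        M ^ 2 * gsl n (pts σ a b (n + 1)) w x := by
  have hprob := h.prob
  set N := n + 1 with hN
  set p := pts σ a b N with hp
  have hpm : ∀ i j, i < j → j ≤ n → p i < p j := fun i j hij hj =>
    h.pts_strict hij (by omega)
  have hN' : (0 : ℝ) < N := by rw [hN]; positivity
  obtain ⟨i, hi, hxi⟩ := exists_hcell (σ := σ) (N := N) (by omega) hx0
  rw [stepf_eq hi hxi]
  obtain ⟨h1, h2⟩ := hxi
  have hHle := HH_le_one σ x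
  have hclose : |x - p i| ≤ M := by
    have h3 := hM (HH σ x) ((2 * (i : ℝ) + 1) / (2 * N)) hx0.le hHle (pts_u hi).1.le (pts_u hi).2.le
      (by
        have e1 : (2 * (i : ℝ) + 1) / (2 * N) = (i : ℝ) / N + (1 / N) / 2 := by
          field_simp
        have e2 : ((i : ℝ) + 1) / N = (i : ℝ) / N + 1 / N := by
          field_simp
        have e3 : (0 : ℝ) < 1 / N := by positivity
        rw [e1, abs_le]
        rw [e2] at h2
        constructor <;> linarith)
    rwa [h.q_H hx] at h3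
  have hsq : (x - p i) ^ 2 ≤ M ^ 2 := by
    rw [← sq_abs]
    exact pow_le_pow_left₀ (abs_nonneg _) hclose 2
  have hpi : p i ∈ Set.Icc a b := h.q_mem _
  rcases lt_or_gt_of_ne (hxp i hi) with h3 | h3
  · -- left half of the cell
    have hxlt : x < p i := (h.lt_q_iff hx (pts_u hi).1.le (pts_u hi).2.le).2 h3
    rcases Nat.eq_zero_or_pos i with h0 | h0
    · subst h0
      rw [deriv_interp_left hpm w hxlt, interp_left hpm w hxlt.le, gsl_left hpm w hxlt.le]
      constructor <;> simp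
    · obtain ⟨j, rfl⟩ : ∃ j, i = j + 1 := ⟨i - 1, by omega⟩
      have hjn : j < n := by omega
      have hxgt : p j < x := by
        rw [hp]
        unfold pts
        rw [h.q_lt_iff hx (pts_u (show j < N by omega)).1.le (pts_u (show j < N by omega)).2.le]
        refine lt_of_lt_of_le ?_ h1.le
        rw [div_lt_div_iff₀ (by positivity) hN']
        push_cast
        nlinarith
      rw [deriv_interp_mid hpm w hjn hxgt hxlt, interp_mid hpm w hjn hxgt.le hxlt.le,
        gsl_mid hpm w hjn hxgt hxlt]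
      refine ⟨rfl, ?_⟩
      have hd : 0 < p (j + 1) - p j := by linarith
      have e : w j + (w (j + 1) - w j) * ((x - p j) / (p (j + 1) - p j)) - w (j + 1) =
          ((w (j + 1) - w j) / (p (j + 1) - p j)) * (x - p (j + 1)) := by
        field_simp
        ring
      rw [e, mul_pow, mul_comm]
      exact mul_le_mul_of_nonneg_right hsq (sq_nonneg _)
  · -- right half of the cell
    have hxgt : p i < x := (h.q_lt_iff hx (pts_u hi).1.le (pts_u hi).2.le).2 h3
    rcases Nat.eq_or_lt_of_le (show i ≤ n by omega) with h0 | h0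
    · subst h0
      rw [deriv_interp_right hpm w hxgt, interp_right hpm w hxgt.le, gsl_right hpm w hxgt.le]
      constructor <;> simp
    · have hxlt : x < p (i + 1) := by
        rw [hp]
        unfold pts
        rw [h.lt_q_iff hx (pts_u (show i + 1 < N by omega)).1.le
          (pts_u (show i + 1 < N by omega)).2.le]
        refine lt_of_le_of_lt h2 ?_
        rw [div_lt_div_iff₀ hN' (by positivity)]
        push_cast
        nlinarith
      rw [deriv_interp_mid hpm w h0 hxgt hxlt, interp_mid hpm w h0 hxgt.le hxlt.le,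
        gsl_mid hpm w h0 hxgt hxlt]
      refine ⟨rfl, ?_⟩
      have hd : 0 < p (i + 1) - p i := by linarith
      have e : w i + (w (i + 1) - w i) * ((x - p i) / (p (i + 1) - p i)) - w i =
          ((w (i + 1) - w i) / (p (i + 1) - p i)) * (x - p i) := by
        field_simp
        ring
      rw [e, mul_pow, mul_comm]
      exact mul_le_mul_of_nonneg_right hsq (sq_nonneg _)

theorem integral_gsl (h : Cpt σ a b) (n : ℕ) (w : ℕ → ℝ) :
    ∫ x, gsl n (pts σ a b (n + 1)) w x ∂σ =
      (∑ i ∈ range n, 1 / (pts σ a b (n + 1) (i + 1) - pts σ a b (n + 1) i) ^ 2 *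
        (w (i + 1) - w i) ^ 2) / ((n + 1 : ℕ) : ℝ) := by
  have hprob := h.prob
  unfold gsl
  rw [integral_finsetSum]
  · rw [Finset.sum_div]
    refine Finset.sum_congr rfl fun i hi => ?_
    rw [Finset.mem_range] at hi
    rw [integral_indicator measurableSet_Ioo, setIntegral_const, smul_eq_mul]
    have h1 : pts σ a b (n + 1) i < pts σ a b (n + 1) (i + 1) :=
      h.pts_strict (by omega) (by omega)
    have h2 : σ.real (Set.Ioo (pts σ a b (n + 1) i) (pts σ a b (n + 1) (i + 1))) =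
        1 / ((n + 1 : ℕ) : ℝ) := by
      have h3 : σ.real (Set.Ioo (pts σ a b (n + 1) i) (pts σ a b (n + 1) (i + 1))) =
          σ.real (Set.Ioc (pts σ a b (n + 1) i) (pts σ a b (n + 1) (i + 1))) := by
        apply measureReal_congr
        have h4 : ∀ᵐ y ∂σ, y ≠ pts σ a b (n + 1) (i + 1) := by
          rw [ae_iff]
          simpa using h.noatom _
        filter_upwards [h4] with y hy
        rw [eq_iff_iff]
        exact ⟨fun h => ⟨h.1, h.2.le⟩, fun h => ⟨h.1, lt_of_le_of_ne h.2 hy⟩⟩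
      rw [h3, ← HH_sub σ h1.le, h.H_pts (by omega), h.H_pts (by omega)]
      push_cast
      field_simp
      ring
    rw [h2]
    have : pts σ a b (n + 1) (i + 1) - pts σ a b (n + 1) i ≠ 0 := by linarith
    field_simp
  · intro i _
    exact (integrable_const _).indicator measurableSet_Ioo

/-- **The discrete gap.** -/
theorem discrete_gap (h : Cpt σ a b) {D : ℝ} (hD : 0 < D)
    (hP : ∀ f : ℝ → ℝ, (∃ L, LipschitzWith L f) →
      ∫ x, (f x - ∫ y, f y ∂σ) ^ 2 ∂σ ≤ D ^ 2 * ∫ x, (deriv f x) ^ 2 ∂σ)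
    {n : ℕ} {M : ℝ} (hM0 : 0 < M)
    (hM : ∀ u v, 0 ≤ u → u ≤ 1 → 0 ≤ v → v ≤ 1 → |u - v| ≤ 1 / ((n + 1 : ℕ) : ℝ) →
      |qf σ a b u - qf σ a b v| ≤ M) (w : ℕ → ℝ) (hw : ∑ i ∈ range (n + 1), w i = 0) :
    ∑ i ∈ range (n + 1), w i ^ 2 ≤ (D + M) ^ 2 *
      ∑ i ∈ range n, 1 / (pts σ a b (n + 1) (i + 1) - pts σ a b (n + 1) i) ^ 2 *
        (w (i + 1) - w i) ^ 2 := by
  have hprob := h.prob
  set f := interp n (pts σ a b (n + 1)) w with hf
  set g := gsl n (pts σ a b (n + 1)) w with hg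
  set W := stepf σ (n + 1) w with hW
  obtain ⟨L, hL⟩ := interp_lip n (pts σ a b (n + 1)) w
  rw [← hf] at hL
  have hP' := hP f ⟨L, hL⟩
  set c := ∫ y, f y ∂σ with hc
  have hae : ∀ᵐ x ∂σ, x ∈ Set.Icc a b ∧ 0 < HH σ x ∧
      ∀ i < n + 1, HH σ x ≠ (2 * (i : ℝ) + 1) / (2 * ((n + 1 : ℕ) : ℝ)) := by
    have h1 : ∀ᵐ x ∂σ, HH σ x ≠ 0 := by
      rw [ae_iff]; simpa using h.level_null 0
    have h2 : ∀ᵐ x ∂σ, ∀ i : ℕ, HH σ x ≠ (2 * (i : ℝ) + 1) / (2 * ((n + 1 : ℕ) : ℝ)) := by
      rw [ae_all_iff]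
      intro i
      rw [ae_iff]; simpa using h.level_null ((2 * (i : ℝ) + 1) / (2 * ((n + 1 : ℕ) : ℝ)))
    filter_upwards [h.ae_mem, h1, h2] with x hx1 hx2 hx3
    exact ⟨hx1, lt_of_le_of_ne (HH_nonneg σ x) hx2.symm, fun i _ => hx3 i⟩
  have hderiv : ∫ x, (deriv f x) ^ 2 ∂σ = ∫ x, g x ∂σ := by
    apply integral_congr_ae
    filter_upwards [hae] with x hx
    exact (h.pointwise hM0.le hM w hx.1 hx.2.1 hx.2.2).1
  rw [hderiv] at hP'
  have hfc : Continuous f := hL.continuous
  have hfb : ∀ x, |f x| ≤ |w 0| + ∑ i ∈ range n, |w (i + 1) - w i| := interp_bound n _ w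
  have hgm : Measurable g := by
    rw [hg]; unfold gsl
    exact Finset.measurable_sum _ fun i _ => measurable_const.indicator measurableSet_Ioo
  have hgi : Integrable g σ := by
    rw [hg]; unfold gsl
    exact integrable_finsetSum _ fun i _ => (integrable_const _).indicator measurableSet_Ioo
  have hWm := h.measurable_stepf (n + 1) w
  have hWb := stepf_bound σ (n + 1) w
  have hWi : Integrable W σ := h.integrable_bdd hWm.aestronglyMeasurable hWb
  have hW2i : Integrable (fun x => W x ^ 2) σ := by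
    refine h.integrable_bdd (C := (∑ i ∈ range (n + 1), |w i|) ^ 2)
      (hWm.pow_const 2).aestronglyMeasurable fun x => ?_
    rw [abs_pow]
    exact pow_le_pow_left₀ (abs_nonneg _) (hWb x) 2
  have hfc2 : Integrable (fun x => (f x - c) ^ 2) σ := by
    refine h.integrable_bdd (C := (|w 0| + ∑ i ∈ range n, |w (i + 1) - w i| + |c|) ^ 2)
      ((hfc.sub continuous_const).pow 2).aestronglyMeasurable fun x => ?_
    rw [abs_pow]
    apply pow_le_pow_left₀ (abs_nonneg _)
    exact (abs_sub _ _).trans (add_le_add (hfb x) le_rfl)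
  have hfW2 : Integrable (fun x => (f x - W x) ^ 2) σ := by
    refine h.integrable_bdd (C := (|w 0| + ∑ i ∈ range n, |w (i + 1) - w i| +
      ∑ i ∈ range (n + 1), |w i|) ^ 2)
      ((hfc.measurable.sub hWm).pow_const 2).aestronglyMeasurable fun x => ?_
    rw [abs_pow]
    apply pow_le_pow_left₀ (abs_nonneg _)
    exact (abs_sub _ _).trans (add_le_add (hfb x) (hWb x))
  -- lower bound
  have hlow : (∑ i ∈ range (n + 1), w i ^ 2) / ((n + 1 : ℕ) : ℝ) ≤ ∫ x, (W x - c) ^ 2 ∂σ := by
    have e : ∀ x, (W x - c) ^ 2 = (W x ^ 2 - 2 * c * W x) + c ^ 2 := fun x => by ring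
    simp only [e]
    have hWc : Integrable (fun x => 2 * c * W x) σ := hWi.const_mul _
    have hWs : Integrable (fun x => W x ^ 2 - 2 * c * W x) σ := hW2i.sub hWc
    rw [integral_add hWs (integrable_const _),
      integral_sub hW2i hWc, integral_const_mul, hW, h.integral_stepf, hw]
    have e2 : ∫ x, stepf σ (n + 1) w x ^ 2 ∂σ = (∑ i ∈ range (n + 1), w i ^ 2) / ((n + 1 : ℕ) : ℝ) := by
      simp only [stepf_sq]
      exact h.integral_stepf (n + 1) fun i => w i ^ 2
    rw [e2]
    simp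
    positivity
  -- upper bound
  have hup : ∫ x, (W x - c) ^ 2 ∂σ ≤ (1 + M / D) * (∫ x, (f x - c) ^ 2 ∂σ) +
      (1 + D / M) * ∫ x, (f x - W x) ^ 2 ∂σ := by
    rw [← integral_const_mul, ← integral_const_mul, ← integral_add (hfc2.const_mul _)
      (hfW2.const_mul _)]
    refine integral_mono_of_nonneg (Eventually.of_forall fun x => sq_nonneg _)
      ((hfc2.const_mul _).add (hfW2.const_mul _)) (Eventually.of_forall fun x => ?_)
    simp only
    have h1 : 0 ≤ M / D * (f x - c) ^ 2 + D / M * (f x - W x) ^ 2 + 2 * (f x - c) * (f x - W x) := by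
      have h2 : M / D * (f x - c) ^ 2 + D / M * (f x - W x) ^ 2 + 2 * (f x - c) * (f x - W x) =
          M / D * ((f x - c) + D / M * (f x - W x)) ^ 2 := by
        field_simp
        ring
      rw [h2]
      positivity
    nlinarith
  have hfW : ∫ x, (f x - W x) ^ 2 ∂σ ≤ M ^ 2 * ∫ x, g x ∂σ := by
    rw [← integral_const_mul]
    refine integral_mono_ae hfW2 (hgi.const_mul _) ?_
    filter_upwards [hae] with x hx
    exact (h.pointwise hM0.le hM w hx.1 hx.2.1 hx.2.2).2
  have hfinal : (∑ i ∈ range (n + 1), w i ^ 2) / ((n + 1 : ℕ) : ℝ) ≤ (D + M) ^ 2 * ∫ x, g x ∂σ := by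
    have h1 : (1 + M / D) * (∫ x, (f x - c) ^ 2 ∂σ) ≤ (1 + M / D) * (D ^ 2 * ∫ x, g x ∂σ) :=
      mul_le_mul_of_nonneg_left hP' (by positivity)
    have h2 : (1 + D / M) * ∫ x, (f x - W x) ^ 2 ∂σ ≤ (1 + D / M) * (M ^ 2 * ∫ x, g x ∂σ) :=
      mul_le_mul_of_nonneg_left hfW (by positivity)
    have e : (1 + M / D) * (D ^ 2 * ∫ x, g x ∂σ) + (1 + D / M) * (M ^ 2 * ∫ x, g x ∂σ) =
        (D + M) ^ 2 * ∫ x, g x ∂σ := by
      field_simp
      ring
    linarith
  rw [hg, h.integral_gsl, ← mul_div_assoc] at hfinal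
  have hNpos : (0 : ℝ) < ((n + 1 : ℕ) : ℝ) := by positivity
  rwa [div_le_div_iff_of_pos_right hNpos] at hfinal

end Cpt

end Pool.Agent.Lib.MP_8d00da_gt
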