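import Pool.Agent.Lib.MP_8d00da_gt.Exact

/-!
# The KLS inequality: comparison with linear functions
-/

open MeasureTheory Filter Topology

set_option linter.unusedSectionVars false

namespace Pool.Agent.Lib.MP_8d00da_gt

section sqf

variable {V : Type*} [NormedAddCommGroup V] [NormedSpace ℝ V] [MeasurableSpace V]
  [OpensMeasurableSpace V] {μ : Measure V} {D : ℝ}

/-- truncated square of the distance -/
noncomputable def tsq (a : V) (k : ℕ) (x : V) : ℝ := (min ‖x - a‖ k) ^ 2

theorem tsq_diff (a : V) (k : ℕ) (x y : V) :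
    |tsq a k x - tsq a k y| ≤ (min ‖x - a‖ k + min ‖y - a‖ k) * ‖x - y‖ := by
  unfold tsq
  have hk : (0 : ℝ) ≤ k := Nat.cast_nonneg k
  have h1 : |min ‖x - a‖ (k : ℝ) - min ‖y - a‖ k| ≤ ‖x - y‖ := by
    have h2 : |‖x - a‖ - ‖y - a‖| ≤ ‖x - y‖ := by
      have := abs_norm_sub_norm_le (x - a) (y - a)
      rwa [sub_sub_sub_cancel_right] at this
    have h3 := abs_min_sub_min_le_max ‖x - a‖ (k : ℝ) ‖y - a‖ k
    rw [sub_self, abs_zero, max_eq_left (abs_nonneg _)] at h3
    exact h3.trans h2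
  have h4 : (0 : ℝ) ≤ min ‖x - a‖ (k : ℝ) := le_min (norm_nonneg _) hk
  have h5 : (0 : ℝ) ≤ min ‖y - a‖ (k : ℝ) := le_min (norm_nonneg _) hk
  rw [sq_sub_sq, abs_mul, abs_of_nonneg (add_nonneg h4 h5)]
  exact mul_le_mul_of_nonneg_left h1 (add_nonneg h4 h5)

theorem tsq_lip (a : V) (k : ℕ) : LipschitzWith (2 * k) (tsq a k) := by
  refine LipschitzWith.of_dist_le_mul fun x y => ?_
  rw [Real.dist_eq, dist_eq_norm]
  refine (tsq_diff a k x y).trans (mul_le_mul_of_nonneg_right ?_ (norm_nonneg _))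
  push_cast
  linarith [min_le_right ‖x - a‖ (k : ℝ), min_le_right ‖y - a‖ (k : ℝ)]

theorem tsq_fderiv (a : V) (k : ℕ) (x : V) : ‖fderiv ℝ (tsq a k) x‖ ≤ 2 * ‖x - a‖ := by
  apply le_of_forall_pos_le_add
  intro ε hε
  apply norm_fderiv_le_of_lip' ℝ (by positivity)
  have : ∀ᶠ y in 𝓝 x, ‖y - x‖ < ε := by
    have := Metric.ball_mem_nhds x hε
    filter_upwards [this] with y hy
    rwa [Metric.mem_ball, dist_eq_norm] at hy
  filter_upwards [this] with y hy
  rw [Real.norm_eq_abs]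
  refine (tsq_diff a k y x).trans (mul_le_mul_of_nonneg_right ?_ (norm_nonneg _))
  have h1 : ‖y - a‖ ≤ ‖y - x‖ + ‖x - a‖ := by
    have := norm_add_le (y - x) (x - a)
    rwa [sub_add_sub_cancel] at this
  linarith [min_le_left ‖y - a‖ (k : ℝ), min_le_left ‖x - a‖ (k : ℝ)]

theorem tsq_nonneg (a : V) (k : ℕ) (x : V) : 0 ≤ tsq a k x := sq_nonneg _

theorem tsq_le (a : V) (k : ℕ) (x : V) : tsq a k x ≤ ‖x - a‖ ^ 2 := by
  unfold tsq
  exact pow_le_pow_left₀ (le_min (norm_nonneg _) (Nat.cast_nonneg k)) (min_le_left _ _) 2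

theorem tsq_tendsto (a x : V) : Tendsto (fun k : ℕ => tsq a k x) atTop (𝓝 (‖x - a‖ ^ 2)) := by
  apply tendsto_const_nhds.congr'
  obtain ⟨k0, hk0⟩ := exists_nat_ge ‖x - a‖
  filter_upwards [eventually_ge_atTop k0] with k hk
  unfold tsq
  rw [min_eq_left (hk0.trans (by exact_mod_cast hk))]

theorem memLp_dist [IsProbabilityMeasure μ] (hmom : MemLp (fun x : V => ‖x‖) 2 μ) (a : V) :
    MemLp (fun x : V => ‖x - a‖) 2 μ := by
  refine memLp_lip hmom (L := 1) (LipschitzWith.of_dist_le_mul fun x y => ?_)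
  rw [NNReal.coe_one, one_mul, Real.dist_eq, dist_eq_norm]
  have := abs_norm_sub_norm_le (x - a) (y - a)
  rwa [sub_sub_sub_cancel_right] at this

/-- the variance of the truncated square -/
theorem tsq_var [IsProbabilityMeasure μ] (h : PoincareWith μ D) (hD : 0 ≤ D) (a : V) (k : ℕ) :
    ∫ x, tsq a k x ^ 2 ∂μ - (∫ x, tsq a k x ∂μ) ^ 2 ≤ 4 * D ^ 2 * ∫ x, ‖x - a‖ ^ 2 ∂μ := by
  have hmom := h.memLp
  have h1 := (poin_iff hmom hD).1 h (tsq a k) ⟨_, tsq_lip a k⟩
  have hm : MemLp (tsq a k) 2 μ := memLp_lip hmom (tsq_lip a k)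
  have e1 := ProbabilityTheory.variance_eq_sub hm
  rw [ProbabilityTheory.variance_eq_integral hm.aemeasurable] at e1
  have e2 : ∫ x, (tsq a k x - ∫ y, tsq a k y ∂μ) ^ 2 ∂μ =
      ∫ x, tsq a k x ^ 2 ∂μ - (∫ x, tsq a k x ∂μ) ^ 2 := e1
  rw [e2] at h1
  refine h1.trans ?_
  have h2 : ∫ x, ‖fderiv ℝ (tsq a k) x‖ ^ 2 ∂μ ≤ ∫ x, 4 * ‖x - a‖ ^ 2 ∂μ := by
    refine integral_mono (memLp_fderiv (tsq_lip a k)).integrable_sq
      ((memLp_dist hmom a).integrable_sq.const_mul 4) fun x => ?_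
    have := pow_le_pow_left₀ (norm_nonneg _) (tsq_fderiv a k x) 2
    simp only
    refine this.trans (le_of_eq ?_)
    ring
  rw [integral_const_mul] at h2
  have := mul_le_mul_of_nonneg_left h2 (sq_nonneg D)
  linarith

/-- the fourth moment is finite -/
theorem PoincareWith.memLp_sq [IsProbabilityMeasure μ] (h : PoincareWith μ D) (a : V) :
    MemLp (fun x : V => ‖x - a‖ ^ 2) 2 μ := by
  rw [PoincareWith.max_iff] at h
  have hD : 0 ≤ max D 0 := le_max_right _ _
  set D' := max D 0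
  have hmom := h.memLp
  have hd := memLp_dist hmom a
  have hmeas : Measurable fun x : V => ‖x - a‖ :=
    (continuous_norm.comp (continuous_id.sub continuous_const)).measurable
  set I := ∫ x, ‖x - a‖ ^ 2 ∂μ with hI
  have hI0 : 0 ≤ I := integral_nonneg fun x => sq_nonneg _
  have h1 : ∀ k : ℕ, ∫⁻ x, ENNReal.ofReal (tsq a k x ^ 2) ∂μ ≤
      ENNReal.ofReal (4 * D' ^ 2 * I + I ^ 2) := by
    intro k
    have hm : MemLp (tsq a k) 2 μ := memLp_lip hmom (tsq_lip a k)
    have h2 := tsq_var h hD a k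
    have h3 : ∫ x, tsq a k x ∂μ ≤ I :=
      integral_mono (hm.integrable one_le_two) hd.integrable_sq fun x => tsq_le a k x
    have h4 : 0 ≤ ∫ x, tsq a k x ∂μ := integral_nonneg fun x => tsq_nonneg a k x
    have h5 := pow_le_pow_left₀ h4 h3 2
    rw [← ofReal_integral_eq_lintegral_ofReal hm.integrable_sq
      (Eventually.of_forall fun x => sq_nonneg _)]
    exact ENNReal.ofReal_le_ofReal (by linarith)
  have h2 : ∫⁻ x, ENNReal.ofReal ((‖x - a‖ ^ 2) ^ 2) ∂μ ≤ ENNReal.ofReal (4 * D' ^ 2 * I + I ^ 2) := by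
    have h3 : ∀ x : V, ENNReal.ofReal ((‖x - a‖ ^ 2) ^ 2) =
        liminf (fun k : ℕ => ENNReal.ofReal (tsq a k x ^ 2)) atTop := by
      intro x
      refine (Tendsto.liminf_eq ?_).symm
      exact ENNReal.tendsto_ofReal ((tsq_tendsto a x).pow 2)
    calc ∫⁻ x, ENNReal.ofReal ((‖x - a‖ ^ 2) ^ 2) ∂μ
        = ∫⁻ x, liminf (fun k : ℕ => ENNReal.ofReal (tsq a k x ^ 2)) atTop ∂μ :=
          lintegral_congr h3
      _ ≤ liminf (fun k : ℕ => ∫⁻ x, ENNReal.ofReal (tsq a k x ^ 2) ∂μ) atTop := by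
          refine lintegral_liminf_le fun k => ?_
          exact ((tsq_lip a k).continuous.measurable.pow_const 2).ennreal_ofReal
      _ ≤ liminf (fun _ : ℕ => ENNReal.ofReal (4 * D' ^ 2 * I + I ^ 2)) atTop :=
          liminf_le_liminf (Eventually.of_forall h1)
      _ = _ := by simp
  have hmeas2 : Measurable fun x : V => ‖x - a‖ ^ 2 := hmeas.pow_const 2
  rw [memLp_two_iff_integrable_sq hmeas2.aestronglyMeasurable]
  refine ⟨(hmeas2.pow_const 2).aestronglyMeasurable, ?_⟩
  rw [hasFiniteIntegral_iff_ofReal (Eventually.of_forall fun x => sq_nonneg _)]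
  exact h2.trans_lt ENNReal.ofReal_lt_top

/-- The Poincaré inequality for the square of the distance. -/
theorem PoincareWith.sq_dist [IsProbabilityMeasure μ] (h : PoincareWith μ D) (hD : 0 ≤ D) (a : V) :
    ProbabilityTheory.variance (fun x : V => ‖x - a‖ ^ 2) μ ≤
      4 * D ^ 2 * ∫ x, ‖x - a‖ ^ 2 ∂μ := by
  have hmom := h.memLp
  have hs := h.memLp_sq a
  have e1 := ProbabilityTheory.variance_eq_sub hs
  rw [e1]
  have h1 : Tendsto (fun k : ℕ => ∫ x, tsq a k x ^ 2 ∂μ) atTop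
      (𝓝 (∫ x, (‖x - a‖ ^ 2) ^ 2 ∂μ)) := by
    refine tendsto_integral_of_dominated_convergence (fun x => (‖x - a‖ ^ 2) ^ 2) (fun k =>
      ((tsq_lip a k).continuous.measurable.pow_const 2).aestronglyMeasurable) hs.integrable_sq
      (fun k => Eventually.of_forall fun x => ?_) (Eventually.of_forall fun x =>
        (tsq_tendsto a x).pow 2)
    rw [Real.norm_eq_abs, abs_of_nonneg (sq_nonneg _)]
    exact pow_le_pow_left₀ (tsq_nonneg a k x) (tsq_le a k x) 2
  have h2 : Tendsto (fun k : ℕ => ∫ x, tsq a k x ∂μ) atTop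
      (𝓝 (∫ x, ‖x - a‖ ^ 2 ∂μ)) := by
    refine tendsto_integral_of_dominated_convergence (fun x => ‖x - a‖ ^ 2) (fun k =>
      (tsq_lip a k).continuous.measurable.aestronglyMeasurable) (hs.integrable one_le_two)
      (fun k => Eventually.of_forall fun x => ?_) (Eventually.of_forall fun x =>
        tsq_tendsto a x)
    rw [Real.norm_eq_abs, abs_of_nonneg (tsq_nonneg a k x)]
    exact tsq_le a k x
  have h3 := h1.sub (h2.pow 2)
  exact le_of_tendsto h3 (Eventually.of_forall fun k => tsq_var h hD a k)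

/-- bound for linear functions -/
theorem lin_bound [IsProbabilityMeasure μ] {lam : ℝ} (h : LinPoincareWith μ lam)
    (hmom : MemLp (fun x : V => ‖x‖) 2 μ) (θ : V →L[ℝ] ℝ) :
    ProbabilityTheory.variance (fun x => θ x) μ ≤ (max (lam * ‖θ‖) 0) ^ 2 := by
  have hm : MemLp (fun x => θ x) 2 μ := memLp_lip hmom θ.lipschitz
  have h1 := h θ
  have hms : MemLp (fun x => θ x - ∫ y, θ y ∂μ) 2 μ := hm.sub (memLp_const _)
  rw [eLp_two hms] at h1
  have h2 : Real.sqrt (∫ x, (θ x - ∫ y, θ y ∂μ) ^ 2 ∂μ) ≤ max (lam * ‖θ‖) 0 := by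
    rw [ENNReal.ofReal_le_ofReal_iff'] at h1
    rcases h1 with h1 | h1
    · exact h1.trans (le_max_left _ _)
    · exact h1.trans (le_max_right _ _)
  rw [ProbabilityTheory.variance_eq_integral hm.aemeasurable]
  have h3 := pow_le_pow_left₀ (Real.sqrt_nonneg _) h2 2
  rwa [Real.sq_sqrt (integral_nonneg fun x => sq_nonneg _)] at h3

end sqf

section main

variable {n : ℕ} {ρ : Measure ℝ} [IsProbabilityMeasure ρ] {D lam : ℝ}

/-- the linear form attached to a vector -/
noncomputable def lf (m : Fin n → ℝ) : EuclideanSpace ℝ (Fin n) →L[ℝ] ℝ := innerSL ℝ (toE n m)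

theorem lf_apply (m x : Fin n → ℝ) : lf m (toE n x) = ∑ i, m i * x i := by
  show inner ℝ (toE n m) (toE n x) = _
  rw [toE_apply, toE_apply, EuclideanSpace.inner_eq_star_dotProduct]
  simp [dotProduct, mul_comm]

theorem lf_norm_sq (m : Fin n → ℝ) : ‖lf m‖ ^ 2 = ∑ i, m i ^ 2 := by
  have : ‖lf m‖ = ‖toE n m‖ := innerSL_apply_norm ℝ (toE n m)
  rw [this, norm_toE_sq]

theorem variance_iidCond {K : Set (Fin n → ℝ)} {g : EuclideanSpace ℝ (Fin n) → ℝ}
    (hg : Measurable g) :
    ProbabilityTheory.variance g (iidCond n ρ K) = ProbabilityTheory.variance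
      (fun x => g (toE n x)) (ProbabilityTheory.cond (prodM (Fin n) ρ) K) := by
  rw [iidCond_eq]
  exact ProbabilityTheory.variance_map hg.aemeasurable measurable_toE.aemeasurable

/-- linear functions: the variance of one coordinate -/
theorem lin_ord (hac : ρ ≪ volume) (hn : 0 < n) {E : Set (Fin n × Fin n)}
    (hK : prodM (Fin n) ρ (ordCone E) ≠ 0) (hmom : Integrable (fun x : ℝ => x ^ 2) ρ)
    (h : LinPoincareWith (iidCond n ρ (ordCone E)) lam) :
    ProbabilityTheory.variance (fun x : ℝ => x) ρ ≤ (max lam 0) ^ 2 := by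
  have hp := prob_cond hK
  have hp' := prob_iidCond hK
  have h1 := lin_bound h (memLp_norm_iid hK hmom) (lf fun _ => 1)
  rw [variance_iidCond (lf fun _ => 1).continuous.measurable] at h1
  have e1 : ∀ x : Fin n → ℝ, lf (fun _ => (1 : ℝ)) (toE n x) = ∑ i, x i := by
    intro x
    rw [lf_apply]
    simp
  have hid : MemLp (fun x : ℝ => x) 2 ρ := by
    rw [memLp_two_iff_integrable_sq (by fun_prop)]
    exact hmom
  have e2 := variance_of_map_eq (measurable_sumf (n := n) (g := fun y => y) measurable_id)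
    (map_sumf hac hK (g := fun y => y) measurable_id)
  rw [var_sum _ hid] at e2
  simp only [e1] at h1
  rw [e2] at h1
  have hn' : (0 : ℝ) < n := by exact_mod_cast hn
  have e3 : ‖lf (fun _ : Fin n => (1 : ℝ))‖ ^ 2 = n := by
    rw [lf_norm_sq]
    simp
  have e4 : (max (lam * ‖lf (fun _ : Fin n => (1 : ℝ))‖) 0) ^ 2 = n * (max lam 0) ^ 2 := by
    have : max (lam * ‖lf (fun _ : Fin n => (1 : ℝ))‖) 0 =
        max lam 0 * ‖lf (fun _ : Fin n => (1 : ℝ))‖ := by
      rw [max_mul_of_nonneg _ _ (norm_nonneg _), zero_mul]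
    rw [this, mul_pow, e3]
    ring
  rw [e4] at h1
  exact le_of_mul_le_mul_left h1 hn'

theorem var_add_le {α : Type*} [MeasurableSpace α] {ν : Measure α} [IsProbabilityMeasure ν]
    {X Y : α → ℝ} (hX : MemLp X 2 ν) (hY : MemLp Y 2 ν) :
    ProbabilityTheory.variance (fun a => X a + Y a) ν ≤
      2 * ProbabilityTheory.variance X ν + 2 * ProbabilityTheory.variance Y ν := by
  have h1 := ProbabilityTheory.variance_fun_add hX hY
  have h2 := ProbabilityTheory.variance_fun_sub hX hY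
  have h3 := ProbabilityTheory.variance_nonneg (fun a => X a - Y a) ν
  linarith

/-- The comparison with linear functions in the signed case. -/
theorem lin_lit (hac : ρ ≪ volume) (hsym : ρ.map (fun x => -x) = ρ) (hn : 0 < n)
    {E : Set ((Fin n × Bool) × (Fin n × Bool))}
    (hK : prodM (Fin n) ρ (litCone E) ≠ 0) (hρ : PoincareWith ρ D)
    (h : LinPoincareWith (iidCond n ρ (litCone E)) lam) :
    ProbabilityTheory.variance (fun x : ℝ => x ^ 2) ρ ≤
      8 * (∫ x, x ^ 2 ∂ρ + D ^ 2) * (max lam 0) ^ 2 := by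
  have hp := prob_cond hK
  have hp' := prob_iidCond hK
  have hD := hρ.pos (noatom_of_ac hac)
  have hmom := integrable_sq_of_memLp hρ.memLp
  have hP := lit_forward hac hsym hK hρ
  have hmomE := hP.memLp
  set ν := ProbabilityTheory.cond (prodM (Fin n) ρ) (litCone E) with hν
  set l := max lam 0 with hl
  have hl0 : 0 ≤ l := le_max_right _ _
  have hlin : ∀ θ : EuclideanSpace ℝ (Fin n) →L[ℝ] ℝ,
      ProbabilityTheory.variance (fun x => θ (toE n x)) ν ≤ l ^ 2 * ‖θ‖ ^ 2 := by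
    intro θ
    have h1 := lin_bound h hmomE θ
    rw [variance_iidCond θ.continuous.measurable] at h1
    refine h1.trans (le_of_eq ?_)
    have : max (lam * ‖θ‖) 0 = l * ‖θ‖ := by
      rw [hl, max_mul_of_nonneg _ _ (norm_nonneg _), zero_mul]
    rw [this, mul_pow]
  -- the mean
  set m : Fin n → ℝ := fun i => ∫ x, x i ∂ν with hm
  have hcoord : ∀ i, MemLp (fun x : Fin n → ℝ => x i) 2 ν := by
    intro i
    have h0 : MemLp (fun x : ℝ => x) 2 ρ := by
      rw [memLp_two_iff_integrable_sq (by fun_prop)]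
      exact hmom
    have h1 : MemLp (fun x : Fin n → ℝ => x i) 2 (prodM (Fin n) ρ) :=
      h0.comp_measurePreserving (measurePreserving_eval (fun _ : Fin n => ρ) i)
    exact cond_le hK h1
  have hvi : ∀ i, ProbabilityTheory.variance (fun x : Fin n → ℝ => x i) ν ≤ l ^ 2 := by
    intro i
    have h1 := hlin (lf (Pi.single i 1))
    have e1 : ∀ x : Fin n → ℝ, lf (Pi.single i (1 : ℝ)) (toE n x) = x i := by
      intro x
      rw [lf_apply, Finset.sum_eq_single i]
      · simp
      · intro j _ hj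
        rw [Pi.single_eq_of_ne hj, zero_mul]
      · intro h; exact absurd (Finset.mem_univ i) h
    simp only [e1] at h1
    rw [lf_norm_sq] at h1
    have e2 : ∑ j, (Pi.single i (1 : ℝ) : Fin n → ℝ) j ^ 2 = 1 := by
      rw [Finset.sum_eq_single i]
      · simp
      · intro j _ hj
        rw [Pi.single_eq_of_ne hj]; simp
      · intro h; exact absurd (Finset.mem_univ i) h
    rwa [e2, mul_one] at h1
  -- the square function
  have hQ : MemLp (fun x : Fin n → ℝ => ∑ i, x i ^ 2) 2 ν := by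
    have h1 := hP.memLp_sq 0
    simp only [sub_zero] at h1
    rw [memLp_iidCond (by fun_prop)] at h1
    simpa only [norm_toE_sq] using h1
  have hR : MemLp (fun x : Fin n → ℝ => ‖toE n x - toE n m‖ ^ 2) 2 ν := by
    have h1 := hP.memLp_sq (toE n m)
    rw [memLp_iidCond (by fun_prop)] at h1
    exact h1
  have hRe : ∀ x : Fin n → ℝ, ‖toE n x - toE n m‖ ^ 2 = ∑ i, (x i - m i) ^ 2 := by
    intro x
    rw [← map_sub, norm_toE_sq]
    rfl
  have hL : MemLp (fun x : Fin n → ℝ => ∑ i, m i * x i) 2 ν :=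
    memLp_finsetSum _ fun i _ => (hcoord i).const_mul (m i)
  -- expectations
  have hσ : ∫ x : Fin n → ℝ, ∑ i, x i ^ 2 ∂ν = n * ∫ x, x ^ 2 ∂ρ := by
    have h1 := integral_of_map_eq (measurable_sumf (n := n) (g := fun y => y ^ 2) (by fun_prop))
      (map_sumf_signed hac hsym hK (g := fun y => y ^ 2) (by fun_prop) (by intro x; ring))
      (g := fun y => y) measurable_id
    exact h1.trans (int_sum (fun y => y ^ 2) hmom)
  have hm2 : ∑ i, m i ^ 2 ≤ n * ∫ x, x ^ 2 ∂ρ := by
    rw [← hσ, integral_finsetSum _ fun i _ => (hcoord i).integrable_sq]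
    refine Finset.sum_le_sum fun i _ => ?_
    have h1 := ProbabilityTheory.variance_eq_sub (hcoord i)
    have h2 := ProbabilityTheory.variance_nonneg (fun x : Fin n → ℝ => x i) ν
    rw [h1] at h2
    have e : (∫ x, ((fun x : Fin n → ℝ => x i) ^ 2) x ∂ν) = ∫ x, x i ^ 2 ∂ν := rfl
    rw [e] at h2
    linarith
  have hER : ∫ x : Fin n → ℝ, ‖toE n x - toE n m‖ ^ 2 ∂ν ≤ n * l ^ 2 := by
    simp only [hRe]
    have hms : ∀ i : Fin n, MemLp (fun x : Fin n → ℝ => x i - m i) 2 ν :=
      fun i => (hcoord i).sub (memLp_const (m i))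
    rw [integral_finsetSum _ fun i _ => (hms i).integrable_sq]
    have h1 : ∀ i : Fin n, ∫ x, (x i - m i) ^ 2 ∂ν ≤ l ^ 2 := by
      intro i
      have := hvi i
      rw [ProbabilityTheory.variance_eq_integral (hcoord i).aemeasurable] at this
      exact this
    refine (Finset.sum_le_sum fun i _ => h1 i).trans (le_of_eq ?_)
    rw [Finset.sum_const, Finset.card_univ, Fintype.card_fin, nsmul_eq_mul]
  -- variances
  have hVR : ProbabilityTheory.variance (fun x : Fin n → ℝ => ‖toE n x - toE n m‖ ^ 2) ν ≤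
      4 * D ^ 2 * (n * l ^ 2) := by
    have h1 := hP.sq_dist hD.le (toE n m)
    rw [variance_iidCond (by fun_prop), integral_iidCond] at h1
    exact h1.trans (mul_le_mul_of_nonneg_left hER (by positivity))
  have hVL : ProbabilityTheory.variance (fun x : Fin n → ℝ => ∑ i, m i * x i) ν ≤
      l ^ 2 * (n * ∫ x, x ^ 2 ∂ρ) := by
    have h1 := hlin (lf m)
    simp only [lf_apply, lf_norm_sq] at h1
    exact h1.trans (mul_le_mul_of_nonneg_left hm2 (by positivity))
  have hVQ : ProbabilityTheory.variance (fun x : Fin n → ℝ => ∑ i, x i ^ 2) ν =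
      n * ProbabilityTheory.variance (fun x : ℝ => x ^ 2) ρ := by
    have h1 := variance_of_map_eq (measurable_sumf (n := n) (g := fun y => y ^ 2) (by fun_prop))
      (map_sumf_signed hac hsym hK (g := fun y => y ^ 2) (by fun_prop) (by intro x; ring))
    have hsq : MemLp (fun x : ℝ => x ^ 2) 2 ρ := by
      have := hρ.memLp_sq 0
      simpa using this
    rw [var_sum _ hsq] at h1
    exact h1
  -- decomposition
  have hdec : ∀ x : Fin n → ℝ, ∑ i, x i ^ 2 =
      (‖toE n x - toE n m‖ ^ 2 + 2 * ∑ i, m i * x i) + (- ∑ i, m i ^ 2) := by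
    intro x
    rw [hRe, Finset.mul_sum, ← Finset.sum_add_distrib, ← sub_eq_add_neg, ← Finset.sum_sub_distrib]
    refine Finset.sum_congr rfl fun i _ => ?_
    ring
  have h2L : MemLp (fun x : Fin n → ℝ => 2 * ∑ i, m i * x i) 2 ν := hL.const_mul 2
  have hsum : ProbabilityTheory.variance (fun x : Fin n → ℝ => ∑ i, x i ^ 2) ν ≤
      2 * ProbabilityTheory.variance (fun x : Fin n → ℝ => ‖toE n x - toE n m‖ ^ 2) ν +
      2 * (4 * ProbabilityTheory.variance (fun x : Fin n → ℝ => ∑ i, m i * x i) ν) := by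
    have e1 : ProbabilityTheory.variance (fun x : Fin n → ℝ => ∑ i, x i ^ 2) ν =
        ProbabilityTheory.variance
          (fun x : Fin n → ℝ => ‖toE n x - toE n m‖ ^ 2 + 2 * ∑ i, m i * x i) ν := by
      have : (fun x : Fin n → ℝ => ∑ i, x i ^ 2) = fun x : Fin n → ℝ =>
          (‖toE n x - toE n m‖ ^ 2 + 2 * ∑ i, m i * x i) + (- ∑ i, m i ^ 2) := funext hdec
      rw [this]
      exact ProbabilityTheory.variance_add_const (hR.add h2L).aestronglyMeasurable _
    have e2 : ProbabilityTheory.variance (fun x : Fin n → ℝ => 2 * ∑ i, m i * x i) ν =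
        4 * ProbabilityTheory.variance (fun x : Fin n → ℝ => ∑ i, m i * x i) ν := by
      rw [ProbabilityTheory.variance_const_mul]
      norm_num
    rw [e1, ← e2]
    exact var_add_le hR h2L
  rw [hVQ] at hsum
  have hn' : (0 : ℝ) < n := by exact_mod_cast hn
  have hfin : n * ProbabilityTheory.variance (fun x : ℝ => x ^ 2) ρ ≤
      n * (8 * (∫ x, x ^ 2 ∂ρ + D ^ 2) * l ^ 2) := by
    nlinarith [hsum, hVR, hVL]
  exact le_of_mul_le_mul_left hfin hn'

end main

end Pool.Agent.Lib.MP_8d00da_gt
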