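import Pool.Agent.Lib.MP_8d00da_gt.LogConc

/-!
# Log-concave functions on the line are measurable
-/

open MeasureTheory

namespace Pool.Agent.Lib.MP_8d00da_gt

/-- A log-concave function on the line is measurable. -/
theorem LCD.of_lc {h : ℝ → ℝ} (h0 : ∀ x, 0 ≤ h x)
    (hlc : ∀ x y a b : ℝ, 0 ≤ a → 0 ≤ b → a + b = 1 → h x ^ a * h y ^ b ≤ h (a * x + b * y)) :
    LCD h := by
  refine ⟨?_, h0, hlc⟩
  refine measurable_of_Ioi fun t => ?_
  rcases lt_or_ge t 0 with ht | ht
  · have : h ⁻¹' Set.Ioi t = Set.univ := by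
      ext x
      simp only [Set.mem_preimage, Set.mem_Ioi, Set.mem_univ, iff_true]
      exact ht.trans_le (h0 x)
    rw [this]
    exact MeasurableSet.univ
  · apply Set.OrdConnected.measurableSet
    refine ⟨fun x hx y hy z hz => ?_⟩
    simp only [Set.mem_preimage, Set.mem_Ioi] at hx hy ⊢
    rcases hz.1.eq_or_lt with hxz | hxz
    · rw [← hxz]; exact hx
    have hxy : 0 < y - x := by linarith [hz.2]
    have ha : 0 ≤ (y - z) / (y - x) := div_nonneg (by linarith [hz.2]) hxy.le
    have hb : 0 ≤ (z - x) / (y - x) := div_nonneg (by linarith) hxy.le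
    have hab : (y - z) / (y - x) + (z - x) / (y - x) = 1 := by
      rw [← add_div]
      rw [div_eq_one_iff_eq hxy.ne']
      ring
    have e : (y - z) / (y - x) * x + (z - x) / (y - x) * y = z := by
      field_simp
      ring
    have h1 := hlc x y _ _ ha hb hab
    rw [e] at h1
    set m := min (h x) (h y) with hm
    have hm0 : 0 < m := lt_min (ht.trans_lt hx) (ht.trans_lt hy)
    have hmt : t < m := lt_min hx hy
    have h2 : m ^ ((y - z) / (y - x)) * m ^ ((z - x) / (y - x)) ≤
        h x ^ ((y - z) / (y - x)) * h y ^ ((z - x) / (y - x)) :=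
      mul_le_mul (Real.rpow_le_rpow hm0.le (min_le_left _ _) ha)
        (Real.rpow_le_rpow hm0.le (min_le_right _ _) hb) (by positivity)
        (Real.rpow_nonneg (h0 x) _)
    rw [← Real.rpow_add hm0, hab, Real.rpow_one] at h2
    linarith

end Pool.Agent.Lib.MP_8d00da_gt
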