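import Pool.Agent.Lib.MP_8d00da_gt.Energy

/-!
# The limit of the discrete inequalities
-/

open Finset MeasureTheory Filter Topology

namespace Pool.Agent.Lib.MP_8d00da_gt

variable {ι : Type*}

/-- Value of a literal at a real vector. -/
def lr (z : ι → ℝ) (a : ι × Bool) : ℝ := if a.2 then z a.1 else - z a.1

/-- The body cut out of the cube by inequalities between literals. -/
def body (E : Set ((ι × Bool) × (ι × Bool))) : Set (ι → ℝ) :=
  {z | (∀ i, |z i| ≤ 1) ∧ ∀ e ∈ E, lr z e.1 ≤ lr z e.2}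

/-- The exceptional null set. -/
def Nul (ι : Type*) : Set (ι → ℝ) :=
  {z | (∃ i, z i = 0 ∨ z i = 1 ∨ z i = -1) ∨ ∃ i j, i ≠ j ∧ (z i = z j ∨ z i = - z j)}

theorem idx_close (m : ℕ) (z : ι → ℝ) (i : ι) : |(idx m z i : ℝ) - 2 * m * z i| ≤ 1 := by
  unfold idx
  have h2 := Int.floor_le ((m : ℝ) * z i)
  have h3 := Int.lt_floor_add_one ((m : ℝ) * z i)
  push_cast
  rw [abs_le]
  constructor <;> linarith

theorem lv_idx_close (m : ℕ) (z : ι → ℝ) (a : ι × Bool) :
    |(lv (idx m z) a : ℝ) - 2 * m * lr z a| ≤ 1 := by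
  unfold lv lr
  split_ifs
  · exact idx_close m z a.1
  · have := idx_close m z a.1
    rw [← abs_neg]
    push_cast
    rw [show -(-(idx m z a.1 : ℝ) - 2 * m * -z a.1) = (idx m z a.1 : ℝ) - 2 * m * z a.1 by ring]
    exact this

theorem lr_ne {z : ι → ℝ} (hz : z ∉ Nul ι) {a b : ι × Bool} (hab : a ≠ b) : lr z a ≠ lr z b := by
  rcases a with ⟨i, s⟩
  rcases b with ⟨j, t⟩
  intro h
  apply hz
  by_cases hij : i = j
  · subst hij
    left
    refine ⟨i, Or.inl ?_⟩
    unfold lr at h
    cases s <;> cases t <;> simp at h hab ⊢ <;> linarith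
  · right
    refine ⟨i, j, hij, ?_⟩
    unfold lr at h
    cases s <;> cases t <;> simp at h
    · left; linarith
    · right; linarith
    · right; exact h
    · left; exact h

theorem eventually_lt {x y : ℝ} (h : x < y) : ∀ᶠ m : ℕ in atTop, ∀ u v : ℤ,
    |(u : ℝ) - 2 * m * x| ≤ 1 → |(v : ℝ) - 2 * m * y| ≤ 1 → u + 2 < v := by
  have h1 : Tendsto (fun m : ℕ => (m : ℝ) * (2 * (y - x))) atTop atTop :=
    tendsto_natCast_atTop_atTop.atTop_mul_const (by linarith)
  filter_upwards [h1.eventually_gt_atTop 4] with m hm u v hu hv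
  rw [abs_le] at hu hv
  have h2 : (u : ℝ) + 2 < v := by nlinarith
  exact_mod_cast h2

theorem eventually_le_iff {z : ι → ℝ} (hz : z ∉ Nul ι) (a b : ι × Bool) :
    ∀ᶠ m : ℕ in atTop, (lv (idx m z) a ≤ lv (idx m z) b ↔ lr z a ≤ lr z b) := by
  by_cases hab : a = b
  · subst hab
    simp
  · rcases lt_or_gt_of_ne (lr_ne hz hab) with h | h
    · filter_upwards [eventually_lt h] with m hm
      have := hm _ _ (lv_idx_close m z a) (lv_idx_close m z b)
      constructor
      · intro _; exact h.le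
      · intro _; omega
    · filter_upwards [eventually_lt h] with m hm
      have := hm _ _ (lv_idx_close m z b) (lv_idx_close m z a)
      constructor
      · intro _; omega
      · intro h'; exact absurd h' (not_le_of_gt h)

theorem eventually_site_iff {z : ι → ℝ} (hz : z ∉ Nul ι) (i : ι) :
    ∀ᶠ m : ℕ in atTop, (Site m (idx m z i) ↔ |z i| ≤ 1) := by
  have h0 : z i ≠ 1 ∧ z i ≠ -1 := by
    constructor
    · intro h; exact hz (Or.inl ⟨i, Or.inr (Or.inl h)⟩)
    · intro h; exact hz (Or.inl ⟨i, Or.inr (Or.inr h)⟩)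
  filter_upwards [eventually_gt_atTop 0] with m hm
  have hm' : (0 : ℝ) < m := by exact_mod_cast hm
  unfold Site idx
  rw [abs_le]
  constructor
  · rintro ⟨-, h2, h3⟩
    have h4 : -(m : ℤ) ≤ ⌊(m : ℝ) * z i⌋ := by omega
    have h5 : ⌊(m : ℝ) * z i⌋ < (m : ℤ) := by omega
    rw [Int.le_floor] at h4
    rw [Int.floor_lt] at h5
    push_cast at h4 h5
    constructor
    · nlinarith
    · nlinarith
  · rintro ⟨h1, h2⟩
    have h3 : z i < 1 := lt_of_le_of_ne h2 h0.1
    have h4 : -(m : ℤ) ≤ ⌊(m : ℝ) * z i⌋ := by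
      rw [Int.le_floor]
      push_cast
      nlinarith
    have h5 : ⌊(m : ℝ) * z i⌋ < (m : ℤ) := by
      rw [Int.floor_lt]
      push_cast
      nlinarith
    refine ⟨?_, ?_, ?_⟩ <;> omega

theorem abs_ne {z : ι → ℝ} (hz : z ∉ Nul ι) {i j : ι} (hij : i ≠ j) : |z i| ≠ |z j| := by
  intro h
  rcases abs_eq_abs.1 h with h | h
  · exact hz (Or.inr ⟨i, j, hij, Or.inl h⟩)
  · exact hz (Or.inr ⟨i, j, hij, Or.inr h⟩)

theorem abs_idx_close (m : ℕ) (z : ι → ℝ) (i : ι) :
    |(((|idx m z i|) : ℤ) : ℝ) - 2 * m * (|z i|)| ≤ 1 := by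
  have h1 := idx_close m z i
  have h2 := abs_abs_sub_abs_le (idx m z i : ℝ) (2 * m * z i)
  rw [abs_mul, abs_of_nonneg (by positivity : (0 : ℝ) ≤ 2 * m)] at h2
  rw [Int.cast_abs]
  exact h2.trans h1

variable [Fintype ι]

theorem eventually_not_bad {z : ι → ℝ} (hz : z ∉ Nul ι) :
    ∀ᶠ m : ℕ in atTop, ∀ i j, i ≠ j →
      |idx m z i| ≠ |idx m z j| ∧ |idx m z i| ≠ |idx m z j| + 2 := by
  rw [eventually_all]
  intro i
  rw [eventually_all]
  intro j
  by_cases hij : i = j
  · filter_upwards with m h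
    exact absurd hij h
  · rcases lt_or_gt_of_ne (abs_ne hz hij) with h | h
    · filter_upwards [eventually_lt h] with m hm _
      have := hm _ _ (abs_idx_close m z i) (abs_idx_close m z j)
      omega
    · filter_upwards [eventually_lt h] with m hm _
      have := hm _ _ (abs_idx_close m z j) (abs_idx_close m z i)
      omega

theorem eventually_Bm {z : ι → ℝ} (hz : z ∉ Nul ι) : ∀ᶠ m : ℕ in atTop, z ∉ Bm m := by
  filter_upwards [eventually_not_bad hz] with m hm
  rintro ⟨i, j, h⟩
  by_cases hij : i = j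
  · subst hij; omega
  · exact (hm i j hij).2 h

theorem eventually_Um {z : ι → ℝ} (hz : z ∉ Nul ι) (E : Set ((ι × Bool) × (ι × Bool))) :
    ∀ᶠ m : ℕ in atTop, (z ∈ Um m E ↔ z ∈ body E) := by
  have h1 : ∀ᶠ m : ℕ in atTop, ∀ i, (Site m (idx m z i) ↔ |z i| ≤ 1) := by
    rw [eventually_all]
    exact fun i => eventually_site_iff hz i
  have h2 : ∀ᶠ m : ℕ in atTop, ∀ a b : ι × Bool,
      (lv (idx m z) a ≤ lv (idx m z) b ↔ lr z a ≤ lr z b) := by
    rw [eventually_all]
    intro a
    rw [eventually_all]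
    exact fun b => eventually_le_iff hz a b
  filter_upwards [h1, h2, eventually_not_bad hz] with m h1 h2 h3
  constructor
  · intro h
    exact ⟨fun i => (h1 i).1 (h.site i), fun e he => (h2 _ _).1 (h.order e he)⟩
  · rintro ⟨h4, h5⟩
    refine ⟨fun i => (h1 i).2 (h4 i), fun i j hij => ?_, fun e he => (h2 _ _).2 (h5 e he)⟩
    have h6 := (h3 i j hij).1
    exact ⟨fun h => h6 (by rw [h]), fun h => h6 (by rw [h, abs_neg])⟩

theorem volume_Nul [DecidableEq ι] : volume (Nul ι) = 0 := by
  have h1 : ∀ (i : ι) (c : ℝ), volume {z : ι → ℝ | z i = c} = 0 := fun i c => by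
    rw [volume_pi]
    exact Measure.pi_hyperplane (fun _ : ι => (volume : Measure ℝ)) i c
  have h2 : ∀ (i j : ι) (s : ℝ), i ≠ j → volume {z : ι → ℝ | z i = s * z j} = 0 := by
    intro i j s hij
    let p : Submodule ℝ (ι → ℝ) :=
      { carrier := {z | z i = s * z j}
        add_mem' := by
          intro a b ha hb
          simp only [Set.mem_ofPred_eq, Pi.add_apply] at ha hb ⊢
          rw [ha, hb]; ring
        zero_mem' := by simp
        smul_mem' := by
          intro c a ha
          simp only [Set.mem_ofPred_eq, Pi.smul_apply, smul_eq_mul] at ha ⊢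
          rw [ha]; ring }
    have h3 : p ≠ ⊤ := by
      intro h
      have : (Pi.single i 1 : ι → ℝ) ∈ p := by rw [h]; trivial
      have h4 : (Pi.single i 1 : ι → ℝ) i = s * (Pi.single i 1 : ι → ℝ) j := this
      rw [Pi.single_eq_same, Pi.single_eq_of_ne hij.symm] at h4
      norm_num at h4
    exact Measure.addHaar_submodule volume p h3
  have hsub : Nul ι ⊆ (⋃ i : ι, ({z : ι → ℝ | z i = 0} ∪ {z | z i = 1} ∪ {z | z i = -1})) ∪
      ⋃ i : ι, ⋃ j : ι, ⋃ _ : i ≠ j,
        ({z : ι → ℝ | z i = 1 * z j} ∪ {z : ι → ℝ | z i = (-1) * z j}) := by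
    rintro z (⟨i, h⟩ | ⟨i, j, hij, h⟩)
    · left
      rw [Set.mem_iUnion]
      refine ⟨i, ?_⟩
      rcases h with h | h | h
      · exact Or.inl (Or.inl h)
      · exact Or.inl (Or.inr h)
      · exact Or.inr h
    · right
      simp only [Set.mem_iUnion]
      refine ⟨i, j, hij, ?_⟩
      rcases h with h | h
      · left; show z i = 1 * z j; rw [h, one_mul]
      · right; show z i = (-1) * z j; rw [h]; ring
  refine measure_mono_null hsub (measure_union_null ?_ ?_)
  · rw [measure_iUnion_null_iff]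
    intro i
    exact measure_union_null (measure_union_null (h1 i 0) (h1 i 1)) (h1 i (-1))
  · rw [measure_iUnion_null_iff]
    intro i
    rw [measure_iUnion_null_iff]
    intro j
    rw [measure_iUnion_null_iff]
    intro hij
    exact measure_union_null (h2 i j 1 hij) (h2 i j (-1) hij)

theorem ae_not_Nul [DecidableEq ι] : ∀ᵐ z : ι → ℝ, z ∉ Nul ι := by
  rw [ae_iff]
  simpa using volume_Nul (ι := ι)

/-- the closed cube -/
abbrev cube (ι : Type*) : Set (ι → ℝ) := Set.Icc (fun _ => -1) (fun _ => 1)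

theorem body_subset (E : Set ((ι × Bool) × (ι × Bool))) : body E ⊆ cube ι := by
  intro z hz
  exact ⟨fun i => (abs_le.1 (hz.1 i)).1, fun i => (abs_le.1 (hz.1 i)).2⟩

theorem Um_subset {m : ℕ} (E : Set ((ι × Bool) × (ι × Bool))) : Um m E ⊆ cube ι := by
  intro z hz
  have h : ∀ i, -1 ≤ z i ∧ z i ≤ 1 := by
    intro i
    obtain ⟨h1, h2, h3⟩ := hz.site i
    have hm : 0 < m := by omega
    have hm' : (0 : ℝ) < m := by exact_mod_cast hm
    have h4 : -(m : ℤ) ≤ ⌊(m : ℝ) * z i⌋ := by unfold idx at h2; omega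
    have h5 : ⌊(m : ℝ) * z i⌋ < (m : ℤ) := by unfold idx at h3; omega
    rw [Int.le_floor] at h4
    rw [Int.floor_lt] at h5
    push_cast at h4 h5
    constructor <;> nlinarith
  exact ⟨fun i => (h i).1, fun i => (h i).2⟩

theorem measurableSet_body (E : Set ((ι × Bool) × (ι × Bool))) : MeasurableSet (body E) := by
  have hlr : ∀ a : ι × Bool, Continuous fun z : ι → ℝ => lr z a := by
    intro a
    unfold lr
    split_ifs
    · exact continuous_apply _
    · exact (continuous_apply _).neg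
  have : IsClosed (body E) := by
    have e : body E = (⋂ i : ι, {z : ι → ℝ | |z i| ≤ 1}) ∩
        ⋂ e ∈ E, {z : ι → ℝ | lr z e.1 ≤ lr z e.2} := by
      ext z
      simp [body]
    rw [e]
    refine IsClosed.inter (isClosed_iInter fun i => ?_) (isClosed_biInter fun e _ => ?_)
    · exact isClosed_le (continuous_apply i).abs continuous_const
    · exact isClosed_le (hlr _) (hlr _)
  exact this.measurableSet

/-- Dominated convergence over the sets `Um m E`. -/
theorem tendsto_Um [DecidableEq ι] (E : Set ((ι × Bool) × (ι × Bool))) {Φ : ℕ → (ι → ℝ) → ℝ}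
    {Ψ : (ι → ℝ) → ℝ} {C : ℝ} (hmeas : ∀ m, AEStronglyMeasurable (Φ m) volume)
    (hbd : ∀ m, ∀ z ∈ cube ι, |Φ m z| ≤ C)
    (hlim : ∀ᵐ z : ι → ℝ, z ∈ cube ι → Tendsto (fun m => Φ m z) atTop (𝓝 (Ψ z))) :
    Tendsto (fun m => ∫ z in Um m E, Φ m z) atTop (𝓝 (∫ z in body E, Ψ z)) := by
  have e1 : ∀ m, ∫ z in Um m E, Φ m z = ∫ z, (Um m E).indicator (Φ m) z := fun m =>
    (integral_indicator (measurableSet_Um m E)).symm
  simp only [e1]
  rw [← integral_indicator (measurableSet_body E)]
  refine tendsto_integral_of_dominated_convergence ((cube ι).indicator fun _ => C) ?_ ?_ ?_ ?_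
  · exact fun m => (hmeas m).indicator (measurableSet_Um m E)
  · rw [integrable_indicator_iff measurableSet_Icc]
    exact integrableOn_const isCompact_Icc.measure_lt_top.ne
  · intro m
    filter_upwards with z
    by_cases hz : z ∈ Um m E
    · rw [Set.indicator_of_mem hz, Set.indicator_of_mem (Um_subset E hz)]
      exact hbd m z (Um_subset E hz)
    · rw [Set.indicator_of_notMem hz, norm_zero]
      apply Set.indicator_nonneg
      intro w hw
      exact (abs_nonneg _).trans (hbd m w hw)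
  · filter_upwards [hlim, ae_not_Nul] with z h1 h2
    by_cases hz : z ∈ body E
    · rw [Set.indicator_of_mem hz]
      refine (h1 (body_subset E hz)).congr' ?_
      filter_upwards [eventually_Um h2 E] with m hm
      rw [Set.indicator_of_mem (hm.2 hz)]
    · rw [Set.indicator_of_notMem hz]
      refine tendsto_const_nhds.congr' ?_
      filter_upwards [eventually_Um h2 E] with m hm
      rw [Set.indicator_of_notMem (fun h => hz (hm.1 h))]

theorem tendsto_bad [DecidableEq ι] (E : Set ((ι × Bool) × (ι × Bool))) :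
    Tendsto (fun m => volume.real (Um m E ∩ Bm m : Set (ι → ℝ))) atTop (𝓝 0) := by
  have h := tendsto_Um E (Φ := fun m => (Bm m).indicator fun _ => (1 : ℝ)) (Ψ := fun _ => 0) (C := 1)
    (fun m => (measurable_const.indicator (measurableSet_Bm m)).aestronglyMeasurable) ?_ ?_
  · simp only [integral_zero] at h
    refine h.congr fun m => ?_
    rw [setIntegral_indicator (measurableSet_Bm m), setIntegral_const, smul_eq_mul, mul_one]
  · intro m z _
    rw [Set.indicator]
    split_ifs <;> simp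
  · filter_upwards [ae_not_Nul] with z hz _
    refine tendsto_const_nhds.congr' ?_
    filter_upwards [eventually_Bm hz] with m hm
    rw [Set.indicator_of_notMem hm]

theorem tendsto_kap : Tendsto (fun m : ℕ => (m : ℝ) ^ 2 * kap m) atTop (𝓝 (Real.pi ^ 2 / 4)) := by
  have h1 : Tendsto (fun t : ℝ => t⁻¹ • (Real.sin (0 + t) - Real.sin 0)) (𝓝[≠] 0) (𝓝 (Real.cos 0)) :=
    (Real.hasDerivAt_sin 0).tendsto_slope_zero
  have h2 : Tendsto (fun m : ℕ => Real.pi / (4 * m)) atTop (𝓝[≠] 0) := by
    rw [tendsto_nhdsWithin_iff]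
    constructor
    · exact tendsto_const_nhds.div_atTop
        ((tendsto_natCast_atTop_atTop).const_mul_atTop (by norm_num))
    · filter_upwards [eventually_gt_atTop 0] with m hm
      have hm' : (0 : ℝ) < m := by exact_mod_cast hm
      have : Real.pi / (4 * m) ≠ 0 := by positivity
      exact this
  have h3 := h1.comp h2
  have h4 := ((h3.pow 2).const_mul (Real.pi ^ 2 / 4))
  rw [Real.cos_zero, one_pow, mul_one] at h4
  refine h4.congr' ?_
  filter_upwards [eventually_gt_atTop 0] with m hm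
  have hm' : (0 : ℝ) < m := by exact_mod_cast hm
  simp only [Function.comp, zero_add, Real.sin_zero, sub_zero, smul_eq_mul]
  unfold kap
  have e : Real.pi / (2 * m) = 2 * (Real.pi / (4 * m)) := by field_simp; ring
  rw [e, Real.cos_two_mul, Real.cos_sq']
  have hpi := Real.pi_pos
  field_simp
  ring

/-- The limit of the squared increments. -/
theorem tendsto_Qm [DecidableEq ι] {G : (ι → ℝ) → ℝ} {z : ι → ℝ} (h : DifferentiableAt ℝ G z) :
    Tendsto (fun m : ℕ => (m : ℝ) ^ 2 * Qm m G z) atTop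
      (𝓝 (∑ i, (2 * (fderiv ℝ G z (Pi.single i 1)) ^ 2))) := by
  unfold Qm
  simp only [Finset.mul_sum]
  refine tendsto_finsetSum _ fun i _ => ?_
  have hl : HasLineDerivAt ℝ G (fderiv ℝ G z (Pi.single i 1)) z (Pi.single i 1) :=
    h.hasFDerivAt.hasLineDerivAt _
  have hs := HasDerivAt.tendsto_slope_zero hl
  simp only [zero_add, zero_smul, add_zero] at hs
  have ht : ∀ s : ℝ, s ≠ 0 → Tendsto (fun m : ℕ => s / m) atTop (𝓝[≠] 0) := by
    intro s hs
    rw [tendsto_nhdsWithin_iff]
    constructor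
    · exact tendsto_const_nhds.div_atTop tendsto_natCast_atTop_atTop
    · filter_upwards [eventually_gt_atTop 0] with m hm
      have hm' : (m : ℝ) ≠ 0 := by positivity
      exact div_ne_zero hs hm'
  have h1 := (hs.comp (ht 1 one_ne_zero)).pow 2
  have h2 := (hs.comp (ht (-1) (by norm_num))).pow 2
  have h3 := h1.add h2
  rw [← two_mul] at h3
  refine h3.congr' ?_
  filter_upwards [eventually_gt_atTop 0] with m hm
  have hm' : (m : ℝ) ≠ 0 := by positivity
  have e : ∀ s : ℤ, z + ((s : ℝ) / m) • (Pi.single i 1 : ι → ℝ) = sh m i s z := by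
    intro s
    funext j
    unfold sh
    by_cases hj : j = i
    · subst hj; simp
    · simp [Pi.single_eq_of_ne hj]
  have e1 := e 1
  have e2 := e (-1)
  push_cast at e1 e2
  simp only [Function.comp, smul_eq_mul]
  rw [e1, e2]
  field_simp

theorem Qm_bound [DecidableEq ι] {G : (ι → ℝ) → ℝ} {L : NNReal} (hG : LipschitzWith L G) (m : ℕ)
    (z : ι → ℝ) : |(m : ℝ) ^ 2 * Qm m G z| ≤ Fintype.card ι * (2 * L ^ 2) := by
  have h1 : ∀ (i : ι) (s : ℤ), |s| ≤ 1 → (m : ℝ) ^ 2 * (G (sh m i s z) - G z) ^ 2 ≤ L ^ 2 := by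
    intro i s hs
    have h2 : dist (sh m i s z) z ≤ 1 / m := by
      rw [dist_pi_le_iff (by positivity)]
      intro j
      rw [Real.dist_eq, sh, add_sub_cancel_left, abs_div, Nat.abs_cast]
      apply div_le_div_of_nonneg_right _ (Nat.cast_nonneg m)
      by_cases hj : j = i
      · subst hj; rw [Pi.single_eq_same]; exact_mod_cast hs
      · rw [Pi.single_eq_of_ne hj]; simp
    have h3 := hG.dist_le_mul (sh m i s z) z
    rw [Real.dist_eq] at h3
    rw [← mul_pow, ← sq_abs, abs_mul, Nat.abs_cast]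
    apply pow_le_pow_left₀ (by positivity)
    rcases Nat.eq_zero_or_pos m with h | h
    · subst h; simp
    · have hm' : (0 : ℝ) < m := by exact_mod_cast h
      calc (m : ℝ) * |G (sh m i s z) - G z| ≤ m * (L * (1 / m)) := by
            apply mul_le_mul_of_nonneg_left _ hm'.le
            exact h3.trans (mul_le_mul_of_nonneg_left h2 L.coe_nonneg)
        _ = L := by field_simp
  have hnn : 0 ≤ Qm m G z := Finset.sum_nonneg fun i _ => by positivity
  rw [abs_of_nonneg (by positivity)]
  unfold Qm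
  rw [Finset.mul_sum]
  calc ∑ i, (m : ℝ) ^ 2 * ((G (sh m i 1 z) - G z) ^ 2 + (G (sh m i (-1) z) - G z) ^ 2)
      ≤ ∑ _i : ι, (2 * (L : ℝ) ^ 2) := by
        apply Finset.sum_le_sum
        intro i _
        have := h1 i 1 (by simp)
        have := h1 i (-1) (by simp)
        linarith
    _ = _ := by rw [Finset.sum_const, Finset.card_univ, nsmul_eq_mul]

/-- **Poincaré inequality** on the body. -/
theorem body_poincare [DecidableEq ι] (E : Set ((ι × Bool) × (ι × Bool)))
    {G : (ι → ℝ) → ℝ} {L : NNReal} (hG : LipschitzWith L G) :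
    Real.pi ^ 2 / 4 * (volume.real (body E) * (∫ z in body E, G z ^ 2) - (∫ z in body E, G z) ^ 2) ≤
      volume.real (body E) * ∫ z in body E, ∑ i, (fderiv ℝ G z (Pi.single i 1)) ^ 2 := by
  have hG' := hG.continuous
  obtain ⟨C, hC⟩ := (isCompact_Icc (a := fun _ : ι => (-1 : ℝ)) (b := fun _ => 1)).exists_bound_of_continuousOn
    hG'.continuousOn
  have hV : Tendsto (fun m => volume.real (Um m E : Set (ι → ℝ))) atTop (𝓝 (volume.real (body E))) := by
    have h := tendsto_Um E (Φ := fun _ _ => (1 : ℝ)) (Ψ := fun _ => 1) (C := 1)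
      (fun _ => aestronglyMeasurable_const) (fun _ _ _ => by simp)
      (Filter.Eventually.of_forall fun _ _ => tendsto_const_nhds)
    simpa [setIntegral_const] using h
  have hA : Tendsto (fun m => ∫ z in Um m E, G z ^ 2) atTop (𝓝 (∫ z in body E, G z ^ 2)) :=
    tendsto_Um E (Φ := fun _ z => G z ^ 2) (C := C ^ 2)
      (fun _ => (hG'.pow 2).aestronglyMeasurable) (fun _ z hz => by
        rw [abs_pow]
        exact pow_le_pow_left₀ (abs_nonneg _) (hC z hz) 2)
      (Filter.Eventually.of_forall fun _ _ => tendsto_const_nhds)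
  have hB : Tendsto (fun m => ∫ z in Um m E, G z) atTop (𝓝 (∫ z in body E, G z)) :=
    tendsto_Um E (Φ := fun _ z => G z) (C := C)
      (fun _ => hG'.aestronglyMeasurable) (fun _ z hz => hC z hz)
      (Filter.Eventually.of_forall fun _ _ => tendsto_const_nhds)
  have hQ : Tendsto (fun m : ℕ => ∫ z in Um m E, (m : ℝ) ^ 2 * Qm m G z) atTop
      (𝓝 (∫ z in body E, ∑ i, (2 * (fderiv ℝ G z (Pi.single i 1)) ^ 2))) := by
    refine tendsto_Um E (C := Fintype.card ι * (2 * L ^ 2))
      (fun m => (continuous_const.mul (continuous_Qm m hG')).aestronglyMeasurable) (fun m z _ => Qm_bound hG m z) ?_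
    filter_upwards [hG.ae_differentiableAt (μ := volume)] with z hz _
    exact tendsto_Qm hz
  have hLm : Tendsto (fun m : ℕ => ((L : ℝ) / m) ^ 2) atTop (𝓝 0) := by
    have h1 : Tendsto (fun m : ℕ => (L : ℝ) / m) atTop (𝓝 0) :=
      tendsto_const_nhds.div_atTop tendsto_natCast_atTop_atTop
    simpa using h1.pow 2
  have hl := (tendsto_kap.mul ((hV.mul (hA.sub (hV.mul hLm))).sub (hB.pow 2)))
  have hr := hV.mul ((hQ.div_const 2).add ((tendsto_bad E).const_mul (Fintype.card ι * (L : ℝ) ^ 2)))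
  have hfin := le_of_tendsto_of_tendsto hl hr (by
    filter_upwards [eventually_gt_atTop 0] with m hm
    have hm' : (0 : ℝ) < m := by exact_mod_cast hm
    have h := mul_le_mul_of_nonneg_left (finite_ineq hm E hG) (sq_nonneg (m : ℝ))
    rw [← mul_assoc] at h
    refine h.trans (le_of_eq ?_)
    rw [integral_const_mul]
    field_simp)
  rw [mul_zero, sub_zero, mul_zero, add_zero] at hfin
  refine hfin.trans (le_of_eq ?_)
  congr 1
  have e : ∀ z : ι → ℝ, ∑ i, (2 * (fderiv ℝ G z (Pi.single i 1)) ^ 2) =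
      2 * ∑ i, (fderiv ℝ G z (Pi.single i 1)) ^ 2 := fun z => by rw [Finset.mul_sum]
  simp only [e]
  rw [integral_const_mul]
  ring

end Pool.Agent.Lib.MP_8d00da_gt
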