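import Pool.Agent.Lib.MP_8d00da_gt.Discrete

/-!
# One-dimensional chains

A positive super-solution on the edges of a path, from the spectral gap of the path, and the weight
function `W` built from it.
-/

open Finset

namespace Pool.Agent.Lib.MP_8d00da_gt

theorem sum_by_parts (U w : ℕ → ℝ) (n : ℕ) :
    ∑ i ∈ range (n + 1), (U (i + 1) - U i) * w i =
      U (n + 1) * w n - U 0 * w 0 - ∑ i ∈ range n, U (i + 1) * (w (i + 1) - w i) := by
  induction n with
  | zero => simp; ring
  | succ n ih => rw [Finset.sum_range_succ, ih, Finset.sum_range_succ]; ring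

/-- The edge form of the spectral gap. -/
theorem edge_gap {n : ℕ} {a : ℕ → ℝ} {G : ℝ} (ha : ∀ i < n, 0 < a i)
    (hgap : ∀ w : ℕ → ℝ, ∑ i ∈ range (n + 1), w i = 0 →
      ∑ i ∈ range (n + 1), w i ^ 2 ≤ G * ∑ i ∈ range n, a i * (w (i + 1) - w i) ^ 2)
    (U : ℕ → ℝ) (h0 : U 0 = 0) (hn : U (n + 1) = 0) :
    ∑ i ∈ range n, U (i + 1) ^ 2 / a i ≤ G * ∑ i ∈ range (n + 1), (U (i + 1) - U i) ^ 2 := by
  set X := ∑ i ∈ range n, U (i + 1) ^ 2 / a i with hX
  set Z := ∑ i ∈ range (n + 1), (U (i + 1) - U i) ^ 2 with hZ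
  have hX0 : 0 ≤ X := Finset.sum_nonneg fun i hi =>
    div_nonneg (sq_nonneg _) (ha i (Finset.mem_range.1 hi)).le
  have hZ0 : 0 ≤ Z := Finset.sum_nonneg fun i _ => sq_nonneg _
  let w0 : ℕ → ℝ := fun i => ∑ j ∈ range i, U (j + 1) / a j
  set c : ℝ := (∑ i ∈ range (n + 1), w0 i) / (n + 1) with hc
  let w : ℕ → ℝ := fun i => w0 i - c
  have hw : ∀ i, w (i + 1) - w i = U (i + 1) / a i := by
    intro i
    simp only [w, w0]
    rw [Finset.sum_range_succ]
    ring
  have hmean : ∑ i ∈ range (n + 1), w i = 0 := by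
    simp only [w]
    rw [Finset.sum_sub_distrib, Finset.sum_const, Finset.card_range, nsmul_eq_mul, hc]
    push_cast
    field_simp
    ring
  have h1 := hgap w hmean
  have h2 : ∑ i ∈ range n, a i * (w (i + 1) - w i) ^ 2 = X := by
    rw [hX]
    refine Finset.sum_congr rfl fun i hi => ?_
    have := (ha i (Finset.mem_range.1 hi)).ne'
    rw [hw]
    field_simp
  have h3 : X = - ∑ i ∈ range (n + 1), (U (i + 1) - U i) * w i := by
    rw [sum_by_parts, h0, hn, hX]
    have : ∑ i ∈ range n, U (i + 1) * (w (i + 1) - w i) = ∑ i ∈ range n, U (i + 1) ^ 2 / a i := by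
      refine Finset.sum_congr rfl fun i _ => ?_
      rw [hw]
      ring
    rw [this]
    ring
  rw [h2] at h1
  have h4 : X ^ 2 ≤ Z * ∑ i ∈ range (n + 1), w i ^ 2 := by
    rw [h3, neg_sq]
    exact Finset.sum_mul_sq_le_sq_mul_sq _ _ _
  have h5 : X ^ 2 ≤ Z * (G * X) := h4.trans (mul_le_mul_of_nonneg_left h1 hZ0)
  rcases hX0.eq_or_lt with h | h
  · -- X = 0
    rw [← h]
    rcases hZ0.eq_or_lt with h6 | h6
    · rw [← h6]; simp
    · -- G ≥ 0
      rw [← h] at h1
      by_contra hcon
      push Not at hcon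
      have hG : G < 0 := by
        by_contra hG
        push Not at hG
        have := mul_nonneg hG hZ0
        linarith
      -- test with a nonconstant function: `w = U (·+1) - U ·` has mean zero
      have h7 := hgap (fun i => U (i + 1) - U i) (by
        rw [Finset.sum_range_sub, h0, hn, sub_zero])
      have h8 : G * ∑ i ∈ range n, a i * ((U (i + 1 + 1) - U (i + 1)) - (U (i + 1) - U i)) ^ 2 ≤ 0 := by
        apply mul_nonpos_of_nonpos_of_nonneg hG.le
        exact Finset.sum_nonneg fun i hi =>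
          mul_nonneg (ha i (Finset.mem_range.1 hi)).le (sq_nonneg _)
      have h9 : Z ≤ 0 := h7.trans h8
      linarith
  · have h6 : X * X ≤ X * (G * Z) := by nlinarith
    exact le_of_mul_le_mul_left h6 h

/-- Positive solutions by shooting. -/
theorem path_super {n : ℕ} {a : ℕ → ℝ} {G κ : ℝ} (ha : ∀ i < n, 0 < a i)
    (hκ : G * κ < 1) (hκ0 : 0 ≤ κ) (hG : 0 ≤ G)
    (hgap : ∀ w : ℕ → ℝ, ∑ i ∈ range (n + 1), w i = 0 →
      ∑ i ∈ range (n + 1), w i ^ 2 ≤ G * ∑ i ∈ range n, a i * (w (i + 1) - w i) ^ 2) :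
    ∃ V : ℕ → ℝ, V 0 = 0 ∧ (∀ k, 1 ≤ k → k ≤ n + 1 → 0 < V k) ∧
      ∀ i < n, V (i + 2) - 2 * V (i + 1) + V i = -κ * (V (i + 1) / a i) := by
  let P : ℕ → ℝ × ℝ := fun k => Nat.rec (0, 1) (fun i p => (p.2, 2 * p.2 - p.1 - κ * (p.2 / a i))) k
  let V : ℕ → ℝ := fun k => (P k).1
  have hP : ∀ k, P (k + 1) = ((P k).2, 2 * (P k).2 - (P k).1 - κ * ((P k).2 / a k)) := fun k => rfl
  have hP2 : ∀ k, (P k).2 = V (k + 1) := fun k => by simp only [V, hP]
  have hV0 : V 0 = 0 := rfl
  have hV1 : V 1 = 1 := rfl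
  have hrec : ∀ i, V (i + 2) = 2 * V (i + 1) - V i - κ * (V (i + 1) / a i) := by
    intro i
    have h1 : V (i + 2) = (P (i + 1)).2 := (hP2 (i + 1)).symm
    rw [h1, hP]
  have hid : ∀ k, ∑ i ∈ range k, (V (i + 1) - V i) ^ 2 + V k ^ 2 =
      κ * ∑ i ∈ range k, V (i + 1) ^ 2 / a i + V k * V (k + 1) := by
    intro k
    induction k with
    | zero => simp [hV0]
    | succ k ih =>
      rw [Finset.sum_range_succ, Finset.sum_range_succ, hrec k]
      linear_combination ih
  refine ⟨V, hV0, ?_, fun i _ => by rw [hrec i]; ring⟩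
  intro k
  induction k using Nat.strong_induction_on with
  | _ k ih =>
    intro hk1 hkn
    rcases Nat.eq_or_lt_of_le hk1 with h | h
    · rw [← h, hV1]; exact one_pos
    · obtain ⟨j, rfl⟩ : ∃ j, k = j + 1 := ⟨k - 1, by omega⟩
      by_contra hcon
      push Not at hcon
      let U : ℕ → ℝ := fun i => if i ≤ j then V i else 0
      have hU0 : U 0 = 0 := by simp only [U]; rw [if_pos (Nat.zero_le _)]; exact hV0
      have hUn : U (n + 1) = 0 := by simp only [U]; rw [if_neg (by omega)]
      have h1 := edge_gap ha hgap U hU0 hUn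
      have hsum1 : ∑ i ∈ range (n + 1), (U (i + 1) - U i) ^ 2 =
          ∑ i ∈ range j, (V (i + 1) - V i) ^ 2 + V j ^ 2 := by
        have hsub : range (j + 1) ⊆ range (n + 1) := by
          intro i hi
          rw [Finset.mem_range] at hi ⊢
          omega
        rw [← Finset.sum_subset hsub, Finset.sum_range_succ]
        · congr 1
          · refine Finset.sum_congr rfl fun i hi => ?_
            rw [Finset.mem_range] at hi
            simp only [U]
            rw [if_pos (by omega), if_pos (by omega)]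
          · simp only [U]
            rw [if_neg (by omega), if_pos le_rfl]
            ring
        · intro i _ hi
          rw [Finset.mem_range] at hi
          simp only [U]
          rw [if_neg (by omega), if_neg (by omega)]
          ring
      have hsum2 : ∑ i ∈ range n, U (i + 1) ^ 2 / a i = ∑ i ∈ range j, V (i + 1) ^ 2 / a i := by
        have hsub : range j ⊆ range n := by
          intro i hi
          rw [Finset.mem_range] at hi ⊢
          omega
        rw [← Finset.sum_subset hsub]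
        · refine Finset.sum_congr rfl fun i hi => ?_
          rw [Finset.mem_range] at hi
          simp only [U]
          rw [if_pos (by omega)]
        · intro i _ hi
          rw [Finset.mem_range] at hi
          simp only [U]
          rw [if_neg (by omega)]
          simp
      rw [hsum1, hsum2, hid j] at h1
      have hVj : 0 < V j := ih j (by omega) (by omega) (by omega)
      set X := ∑ i ∈ range j, V (i + 1) ^ 2 / a i with hX
      have hXpos : 0 < X := by
        rw [hX]
        refine Finset.sum_pos' (fun i hi => ?_) ⟨0, Finset.mem_range.2 (by omega), ?_⟩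
        · rw [Finset.mem_range] at hi
          exact div_nonneg (sq_nonneg _) (ha i (by omega)).le
        · rw [zero_add, hV1]
          exact div_pos (by norm_num) (ha 0 (by omega))
      have h2 : V j * V (j + 1) ≤ 0 := mul_nonpos_of_nonneg_of_nonpos hVj.le hcon
      have h3 : G * (κ * X + V j * V (j + 1)) ≤ G * (κ * X) :=
        mul_le_mul_of_nonneg_left (by linarith) hG
      have h4 : X ≤ (G * κ) * X := by linarith
      nlinarith

/-- cut off at `m` -/
def cutV (m : ℕ) (V : ℕ → ℝ) (k : ℕ) : ℝ := if k < m then V k else 0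

/-- the positive part of the weight function -/
noncomputable def wpos (c0 : ℝ) (r V : ℕ → ℝ) (j : ℕ) : ℝ :=
  c0 + ∑ k ∈ range (j - 1), V (k + 1) / r (k + 1)

/-- the weight function -/
noncomputable def Wof (c0 : ℝ) (r V : ℕ → ℝ) (v : ℤ) : ℝ :=
  if 0 < v then wpos c0 r V ((v + 1) / 2).toNat
  else if v < 0 then - wpos c0 r V ((-v + 1) / 2).toNat else 0

theorem Wof_neg (c0 : ℝ) (r V : ℕ → ℝ) (v : ℤ) : Wof c0 r V (-v) = - Wof c0 r V v := by
  unfold Wof
  rcases lt_trichotomy v 0 with h | h | h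
  · rw [if_pos (by omega), if_neg (by omega), if_pos h, neg_neg]
  · subst h; simp
  · rw [if_neg (by omega), if_pos (by omega), if_pos h, neg_neg]

theorem Wof_pos (c0 : ℝ) (r V : ℕ → ℝ) (j : ℕ) (hj : 1 ≤ j) :
    Wof c0 r V (2 * (j : ℤ) - 1) = wpos c0 r V j := by
  unfold Wof
  rw [if_pos (by omega)]
  congr 1
  omega

theorem wpos_succ (c0 : ℝ) (r V : ℕ → ℝ) {j : ℕ} (hj : 1 ≤ j) :
    wpos c0 r V (j + 1) - wpos c0 r V j = V j / r j := by
  unfold wpos
  obtain ⟨i, rfl⟩ : ∃ i, j = i + 1 := ⟨j - 1, by omega⟩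
  rw [show i + 1 + 1 - 1 = i + 1 by omega, show i + 1 - 1 = i by omega, Finset.sum_range_succ]
  ring

theorem wt_Wof {c0 : ℝ} {r V : ℕ → ℝ} {k : ℕ} (hk : 1 ≤ k) :
    wt (Wof c0 r V) k = V k / r k := by
  unfold wt
  have h1 := Wof_pos c0 r V (k + 1) (by omega)
  have h2 := Wof_pos c0 r V k hk
  rw [show (2 * ((k + 1 : ℕ) : ℤ) - 1) = 2 * (k : ℤ) + 1 by push_cast; ring] at h1
  rw [h1, h2, wpos_succ c0 r V hk]

theorem wt_Wof_zero {c0 : ℝ} {r V : ℕ → ℝ} : wt (Wof c0 r V) 0 = 2 * c0 := by
  unfold wt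
  have h1 := Wof_pos c0 r V 1 le_rfl
  have h2 := Wof_neg c0 r V 1
  rw [show (2 * ((1 : ℕ) : ℤ) - 1) = 1 by norm_num] at h1
  rw [show (2 * ((0 : ℕ) : ℤ) + 1) = 1 by norm_num, show (2 * ((0 : ℕ) : ℤ) - 1) = -1 by norm_num, h2, h1]
  unfold wpos
  simp
  ring

/-- The generator applied to `W`. -/
theorem genW_Wof {b : Bool} {m : ℕ} {r V : ℕ → ℝ} {c0 : ℝ}
    (hr : ∀ k < m, (b = true → 1 ≤ k) → 0 < r k)
    (hA : b = true → r 0 = 0 ∧ V 0 = 0) (hB : b = false → c0 = V 0 / (2 * r 0))
    {j : ℕ} (hj1 : 1 ≤ j) (hjm : j ≤ m) :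
    genW m r (Wof c0 r V) (2 * (j : ℤ) - 1) = cutV m V j - cutV m V (j - 1) := by
  unfold genW
  set W := Wof c0 r V with hW
  set v : ℤ := 2 * (j : ℤ) - 1 with hv
  have hterm : ∀ k : ℕ, r k * (W (mv k v) - W v) =
      (if k = j then r j * (W (v + 2) - W v) else 0) +
        (if k = j - 1 then r (j - 1) * (W (v - 2) - W v) else 0) := by
    intro k
    rcases mv_cases k v with ⟨h4, h5⟩ | ⟨h4, h5⟩ | ⟨h4, h5⟩ | ⟨h4, h5⟩ | ⟨h4, h6, h7, h8, h5⟩
    · have : k = j := by omega
      subst this
      rw [if_pos rfl, if_neg (by omega), h5, add_zero]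
    · omega
    · have : k = j - 1 := by omega
      subst this
      rw [if_neg (by omega), if_pos rfl, h5, zero_add]
    · have : k = j - 1 := by omega
      subst this
      rw [if_neg (by omega), if_pos rfl, h5, zero_add]
    · rw [if_neg (by omega), if_neg (by omega), h5]
      ring
  rw [Finset.sum_congr rfl fun k _ => hterm k, Finset.sum_add_distrib, Finset.sum_ite_eq',
    Finset.sum_ite_eq', if_pos (Finset.mem_range.2 (show j - 1 < m by omega))]
  have e1 : (if j ∈ range m then r j * (W (v + 2) - W v) else 0) = cutV m V j := by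
    unfold cutV
    by_cases h : j < m
    · rw [if_pos (Finset.mem_range.2 h), if_pos h]
      have h1 : W (v + 2) - W v = V j / r j := by
        rw [← wt_Wof (c0 := c0) hj1, wt, ← hW, hv]
        congr 2
        ring
      rw [h1]
      have := (hr j h (fun _ => hj1)).ne'
      field_simp
    · rw [if_neg (by rw [Finset.mem_range]; exact h), if_neg h]
  have e2 : r (j - 1) * (W (v - 2) - W v) = - cutV m V (j - 1) := by
    unfold cutV
    rw [if_pos (show j - 1 < m by omega)]
    rcases Nat.eq_or_lt_of_le hj1 with h | h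
    · -- `j = 1`
      subst h
      rw [show (1 : ℕ) - 1 = 0 from rfl]
      cases b
      · have hr0 := hr 0 (by omega) (fun h => absurd h (by simp))
        have h2 : W (v - 2) - W v = - (2 * c0) := by
          rw [← wt_Wof_zero (r := r) (V := V), wt, ← hW, hv]
          norm_num
        rw [h2, hB rfl]
        have := hr0.ne'
        field_simp
      · rw [(hA rfl).1, (hA rfl).2]
        ring
    · have h1 : W v - W (v - 2) = V (j - 1) / r (j - 1) := by
        have hj2 : 1 ≤ j - 1 := by omega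
        rw [← wt_Wof (c0 := c0) hj2, wt, ← hW, hv]
        have e3 : ((j - 1 : ℕ) : ℤ) = (j : ℤ) - 1 := by omega
        rw [e3]
        congr 2
        · ring
        · ring
      have h3 : W (v - 2) - W v = - (V (j - 1) / r (j - 1)) := by linarith
      rw [h3]
      have := (hr (j - 1) (by omega) (fun _ => by omega)).ne'
      field_simp
  rw [e1, e2]
  ring

/-- The generator inequality for all pairs from the adjacent ones. -/
theorem gen_le_of_V {b : Bool} {m : ℕ} {r V : ℕ → ℝ} {c0 κ : ℝ}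
    (hr : ∀ k < m, (b = true → 1 ≤ k) → 0 < r k)
    (hA : b = true → r 0 = 0 ∧ V 0 = 0) (hB : b = false → c0 = V 0 / (2 * r 0))
    (hV : ∀ k, 1 ≤ k → k < m → cutV m V (k + 1) - 2 * V k + V (k - 1) ≤ -κ * (V k / r k))
    (hV0 : b = false → 0 < m → 2 * cutV m V 1 - 2 * V 0 ≤ -κ * (V 0 / r 0)) :
    ∀ p q, Site m p → Site m q → p < q → (b = true → 0 < p) →
      genW m r (Wof c0 r V) q - genW m r (Wof c0 r V) p ≤
        -κ * (Wof c0 r V q - Wof c0 r V p) := by
  set W := Wof c0 r V with hW
  -- positive adjacent pairs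
  have hadj : ∀ k : ℕ, 1 ≤ k → k < m →
      genW m r W (2 * (k : ℤ) + 1) - genW m r W (2 * (k : ℤ) - 1) ≤
        -κ * (W (2 * (k : ℤ) + 1) - W (2 * (k : ℤ) - 1)) := by
    intro k hk hkm
    have h1 := genW_Wof hr hA hB (j := k + 1) (by omega) (by omega)
    have h2 := genW_Wof hr hA hB (j := k) hk (by omega)
    rw [show (2 * ((k + 1 : ℕ) : ℤ) - 1) = 2 * (k : ℤ) + 1 by push_cast; ring] at h1
    rw [h1, h2]
    have h3 : W (2 * (k : ℤ) + 1) - W (2 * (k : ℤ) - 1) = V k / r k := wt_Wof hk
    rw [h3, show k + 1 - 1 = k by omega]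
    have h4 := hV k hk hkm
    have h5 : cutV m V k = V k := by unfold cutV; rw [if_pos hkm]
    have h6 : cutV m V (k - 1) = V (k - 1) := by unfold cutV; rw [if_pos (by omega)]
    rw [h5, h6]
    linarith
  have hodd : ∀ v, genW m r W (-v) = - genW m r W v := by
    intro v
    unfold genW
    rw [← Finset.sum_neg_distrib]
    refine Finset.sum_congr rfl fun k _ => ?_
    rw [mv_neg, hW, Wof_neg, Wof_neg]
    ring
  -- all adjacent pairs
  have hstep : ∀ v, Site m v → Site m (v + 2) → (b = true → 0 < v) →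
      genW m r W (v + 2) - genW m r W v ≤ -κ * (W (v + 2) - W v) := by
    intro v hv hv2 hvb
    obtain ⟨h1, h2, h3⟩ := hv
    obtain ⟨h4, h5, h6⟩ := hv2
    rcases lt_trichotomy v (-1) with h | h | h
    · have h7 := hadj ((-v - 1) / 2).toNat (by omega) (by omega)
      rw [show (2 * ((((-v - 1) / 2).toNat : ℕ) : ℤ) + 1) = -v by omega,
        show (2 * ((((-v - 1) / 2).toNat : ℕ) : ℤ) - 1) = -(v + 2) by omega, hodd, hodd,
        hW, Wof_neg, Wof_neg] at h7
      rw [← hW] at h7
      linarith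
    · subst h
      cases b
      · have hm : 0 < m := by omega
        have h7 := genW_Wof hr hA hB (j := 1) le_rfl (by omega)
        rw [show (2 * ((1 : ℕ) : ℤ) - 1) = 1 by norm_num, show 1 - 1 = 0 from rfl] at h7
        have h8 := hodd 1
        rw [show (-1 : ℤ) + 2 = 1 by norm_num, h8, h7]
        have h9 : cutV m V 0 = V 0 := by unfold cutV; rw [if_pos hm]
        have h10 : W 1 - W (-1) = V 0 / r 0 := by
          have h11 : wt W 0 = 2 * c0 := wt_Wof_zero
          unfold wt at h11
          norm_num at h11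
          rw [h11, hB rfl]
          have := (hr 0 hm (fun h => absurd h (by simp))).ne'
          field_simp
        rw [h10, h9]
        have h12 := hV0 rfl hm
        linarith
      · exact absurd (hvb rfl) (by norm_num)
    · have h7 := hadj ((v + 1) / 2).toNat (by omega) (by omega)
      rw [show (2 * ((((v + 1) / 2).toNat : ℕ) : ℤ) + 1) = v + 2 by omega,
        show (2 * ((((v + 1) / 2).toNat : ℕ) : ℤ) - 1) = v by omega] at h7
      exact h7
  have hind : ∀ n : ℕ, ∀ p, Site m p → Site m (p + 2 * (n + 1 : ℕ)) → (b = true → 0 < p) →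
      genW m r W (p + 2 * (n + 1 : ℕ)) - genW m r W p ≤ -κ * (W (p + 2 * (n + 1 : ℕ)) - W p) := by
    intro n
    induction n with
    | zero =>
      intro p hp hq hpb
      simpa using hstep p hp (by simpa using hq) hpb
    | succ n ih =>
      intro p hp hq hpb
      have hmid : Site m (p + 2 * (n + 1 : ℕ)) := by
        obtain ⟨h1, h2, h3⟩ := hp
        obtain ⟨h4, h5, h6⟩ := hq
        refine ⟨?_, ?_, ?_⟩ <;> push_cast at * <;> omega
      have h1 := ih p hp hmid hpb
      have h2 : p + 2 * ((n + 1 + 1 : ℕ) : ℤ) = (p + 2 * (n + 1 : ℕ)) + 2 := by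
        push_cast
        ring
      rw [h2] at hq ⊢
      have h3 := hstep _ hmid hq (fun hb => by have := hpb hb; positivity)
      linarith
  intro p q hp hq hpq hpb
  obtain ⟨n, hn⟩ : ∃ n : ℕ, q = p + 2 * (n + 1 : ℕ) := by
    obtain ⟨h1, -, -⟩ := hp
    obtain ⟨h4, -, -⟩ := hq
    refine ⟨((q - p) / 2 - 1).toNat, ?_⟩
    push_cast
    omega
  rw [hn] at hq ⊢
  exact hind n p hp hq hpb

end Pool.Agent.Lib.MP_8d00da_gt
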