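import Pool.Agent.Lib.MP_8d00da_gt.SchemeLimit
import Pool.Agent.Lib.MP_8d00da_gt.Path
import Pool.Agent.Lib.MP_8d00da_gt.Gap1D

/-!
# Construction of discretization schemes
-/

open MeasureTheory Filter Topology Finset

namespace Pool.Agent.Lib.MP_8d00da_gt

theorem Cpt.exists_mesh {σ : Measure ℝ} {lo hi : ℝ} (h : Cpt σ lo hi) :
    ∃ M : ℕ → ℝ, (∀ n, 0 < M n) ∧ Tendsto M atTop (𝓝 0) ∧
      ∀ (n : ℕ) (u v : ℝ), 0 ≤ u → u ≤ 1 → 0 ≤ v → v ≤ 1 → |u - v| ≤ 1 / ((n + 1 : ℕ) : ℝ) →
        |qf σ lo hi u - qf σ lo hi v| ≤ M n := by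
  let S : ℕ → Set ℝ := fun n => {t | ∃ u v : ℝ, 0 ≤ u ∧ u ≤ 1 ∧ 0 ≤ v ∧ v ≤ 1 ∧
    |u - v| ≤ 1 / ((n + 1 : ℕ) : ℝ) ∧ t = |qf σ lo hi u - qf σ lo hi v|}
  have hpos : ∀ n : ℕ, (0 : ℝ) < 1 / ((n + 1 : ℕ) : ℝ) := fun n => by positivity
  have hne : ∀ n, (S n).Nonempty := fun n =>
    ⟨_, 0, 0, le_rfl, zero_le_one, le_rfl, zero_le_one, by simpa using (hpos n).le, rfl⟩
  have hbdd : ∀ n, BddAbove (S n) := by
    intro n
    refine ⟨hi - lo, ?_⟩
    rintro _ ⟨u, v, -, -, -, -, -, rfl⟩
    have h1 := h.q_mem u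
    have h2 := h.q_mem v
    rw [abs_le]
    constructor <;> linarith [h1.1, h1.2, h2.1, h2.2]
  have hnn : ∀ n, 0 ≤ sSup (S n) := by
    intro n
    apply Real.sSup_nonneg
    rintro _ ⟨u, v, -, -, -, -, -, rfl⟩
    exact abs_nonneg _
  refine ⟨fun n => sSup (S n) + 1 / ((n + 1 : ℕ) : ℝ), fun n => ?_, ?_, ?_⟩
  · have := hnn n
    have := hpos n
    linarith
  · have h1 : Tendsto (fun n : ℕ => 1 / ((n + 1 : ℕ) : ℝ)) atTop (𝓝 0) := by
      have := tendsto_one_div_add_atTop_nhds_zero_nat (𝕜 := ℝ)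
      refine this.congr fun n => ?_
      push_cast
      rfl
    have h2 : Tendsto (fun n => sSup (S n)) atTop (𝓝 0) := by
      rw [Metric.tendsto_atTop]
      intro ε hε
      obtain ⟨δ, hδ, hδ'⟩ := h.q_unif (half_pos hε)
      obtain ⟨N, hN⟩ := (Metric.tendsto_atTop.1 h1) δ hδ
      refine ⟨N, fun n hn => ?_⟩
      have h3 := hN n hn
      rw [Real.dist_eq, sub_zero, abs_of_pos (hpos n)] at h3
      rw [Real.dist_eq, sub_zero, abs_of_nonneg (hnn n)]
      have h4 : sSup (S n) ≤ ε / 2 := by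
        apply csSup_le (hne n)
        rintro _ ⟨u, v, hu0, hu1, hv0, hv1, huv, rfl⟩
        exact (hδ' u v hu0 hu1 hv0 hv1 (lt_of_le_of_lt huv h3)).le
      linarith
    simpa using h2.add h1
  · intro n u v hu0 hu1 hv0 hv1 huv
    have h1 : |qf σ lo hi u - qf σ lo hi v| ≤ sSup (S n) :=
      le_csSup (hbdd n) ⟨u, v, hu0, hu1, hv0, hv1, huv, rfl⟩
    have := hpos n
    linarith

/-- The coordinate `u` of a site. -/
noncomputable def uof (b : Bool) (m : ℕ) (v : ℤ) : ℝ :=
  if b then (v : ℝ) / (2 * m) else ((v : ℝ) / (2 * m) + 1) / 2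

/-- The sample points. -/
noncomputable def Yof (σ : Measure ℝ) (lo hi : ℝ) (b : Bool) (m : ℕ) (v : ℤ) : ℝ :=
  qf σ lo hi (uof b m v)

/-- The rates. -/
noncomputable def rof (σ : Measure ℝ) (lo hi : ℝ) (b : Bool) (m k : ℕ) : ℝ :=
  if b = true ∧ k = 0 then 0 else
    1 / (Yof σ lo hi b m (2 * k + 1) - Yof σ lo hi b m (2 * k - 1)) ^ 2

theorem uof_range {b : Bool} {m : ℕ} {v : ℤ} (hv : Site m v) (hb : b = true → 0 < v) :
    0 < uof b m v ∧ uof b m v < 1 := by
  obtain ⟨-, h1, h2⟩ := hv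
  have hm : (0 : ℝ) < m := by
    have : 0 < m := by omega
    exact_mod_cast this
  have h1' : -(2 * (m : ℝ)) < v := by exact_mod_cast h1
  have h2' : (v : ℝ) < 2 * m := by exact_mod_cast h2
  unfold uof
  cases b
  · simp only [Bool.false_eq_true, if_false]
    have h3 : (v : ℝ) / (2 * m) < 1 := by rw [div_lt_one (by positivity)]; exact h2'
    have h4 : -1 < (v : ℝ) / (2 * m) := by rw [lt_div_iff₀ (by positivity)]; linarith
    constructor <;> linarith
  · simp only [if_true]
    have h3 : (0 : ℝ) < v := by exact_mod_cast hb rfl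
    constructor
    · positivity
    · rw [div_lt_one (by positivity)]; exact h2'

theorem uof_lt {b : Bool} {m : ℕ} (hm : 0 < m) {v v' : ℤ} (h : v < v') : uof b m v < uof b m v' := by
  have hm' : (0 : ℝ) < m := by exact_mod_cast hm
  have h' : (v : ℝ) < v' := by exact_mod_cast h
  have h1 : (v : ℝ) / (2 * m) < v' / (2 * m) := div_lt_div_of_pos_right h' (by positivity)
  unfold uof
  cases b
  · simp only [Bool.false_eq_true, if_false]
    linarith
  · simpa using h1

theorem rof_pos {σ : Measure ℝ} {lo hi : ℝ} (h : Cpt σ lo hi) {b : Bool} {m k : ℕ} (hk : k < m)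
    (hkb : b = true → 1 ≤ k) : 0 < rof σ lo hi b m k := by
  unfold rof
  rw [if_neg (by rintro ⟨h1, h2⟩; have := hkb h1; omega)]
  have hs1 : Site m (2 * (k : ℤ) + 1) := site_two_mul_add_one hk
  have hs2 : Site m (2 * (k : ℤ) - 1) := site_two_mul_sub_one hk
  have h1 := uof_range (b := b) hs1 (fun _ => by omega)
  have h2 := uof_range (b := b) hs2 (fun hb => by have := hkb hb; omega)
  have h3 : Yof σ lo hi b m (2 * k - 1) < Yof σ lo hi b m (2 * k + 1) :=
    h.q_strict h2.1.le (uof_lt (by omega) (by omega)) h1.2.le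
  have h4 : 0 < Yof σ lo hi b m (2 * k + 1) - Yof σ lo hi b m (2 * k - 1) := by linarith
  positivity

theorem Yof_eq_pts_A (σ : Measure ℝ) (lo hi : ℝ) (m i : ℕ) :
    Yof σ lo hi true m (2 * i + 1) = Cpt.pts σ lo hi m i := by
  unfold Yof Cpt.pts uof
  simp only [if_true]
  congr 1
  push_cast
  ring

theorem Yof_eq_pts_B (σ : Measure ℝ) (lo hi : ℝ) {m : ℕ} (hm : 0 < m) (i : ℕ) (v : ℤ)
    (hv : v = 2 * (i : ℤ) + 1 - 2 * m) :
    Yof σ lo hi false m v = Cpt.pts σ lo hi (2 * m) i := by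
  have hm' : (0 : ℝ) < m := by exact_mod_cast hm
  unfold Yof Cpt.pts uof
  simp only [Bool.false_eq_true, if_false]
  congr 1
  rw [hv]
  push_cast
  field_simp
  ring

theorem Yof_odd {σ : Measure ℝ} {lo hi : ℝ} (h : Cpt σ lo hi) (hsym : σ.map (fun x => -x) = σ)
    (hlh : lo = -hi) (m : ℕ) (v : ℤ) : Yof σ lo hi false m (-v) = - Yof σ lo hi false m v := by
  unfold Yof
  rw [← h.q_symm hsym hlh]
  congr 1
  unfold uof
  simp only [Bool.false_eq_true, if_false]
  push_cast
  ring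

/-- Existence of the weight function. -/
theorem exists_W {σ : Measure ℝ} {lo hi : ℝ} (h : Cpt σ lo hi) {b : Bool}
    (hsym : b = false → σ.map (fun x => -x) = σ ∧ lo = -hi)
    {D : ℝ} (hD : 0 < D)
    (hP : ∀ f : ℝ → ℝ, (∃ L, LipschitzWith L f) →
      ∫ x, (f x - ∫ y, f y ∂σ) ^ 2 ∂σ ≤ D ^ 2 * ∫ x, (deriv f x) ^ 2 ∂σ)
    {M : ℕ → ℝ} (hM0 : ∀ n, 0 < M n)
    (hM : ∀ (n : ℕ) (u v : ℝ), 0 ≤ u → u ≤ 1 → 0 ≤ v → v ≤ 1 → |u - v| ≤ 1 / ((n + 1 : ℕ) : ℝ) →
        |qf σ lo hi u - qf σ lo hi v| ≤ M n)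
    {m : ℕ} (hm : 0 < m) {κ : ℝ} (hκ0 : 0 ≤ κ)
    (hκ : (D + M ((if b then m else 2 * m) - 1)) ^ 2 * κ < 1) :
    ∃ W : ℤ → ℝ, (∀ v, W (-v) = - W v) ∧ (∀ k < m, (b = true → 1 ≤ k) → 0 < wt W k) ∧
      ∀ p q, Site m p → Site m q → p < q → (b = true → 0 < p) →
        genW m (rof σ lo hi b m) W q - genW m (rof σ lo hi b m) W p ≤ -κ * (W q - W p) := by
  set r := rof σ lo hi b m with hr
  have hrpos : ∀ k < m, (b = true → 1 ≤ k) → 0 < r k := fun k hk hkb => rof_pos h hk hkb
  cases b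
  · -- type B
    simp only [Bool.false_eq_true, if_false] at hκ
    obtain ⟨hs1, hs2⟩ := hsym rfl
    obtain ⟨n, hn⟩ : ∃ n, 2 * m = n + 1 := ⟨2 * m - 1, by omega⟩
    have hn1 : 2 * m - 1 = n := by omega
    rw [hn1] at hκ
    have hgap := fun w hw => h.discrete_gap hD hP (hM0 n) (hM n) w hw
    set a : ℕ → ℝ := fun i => 1 / (Cpt.pts σ lo hi (n + 1) (i + 1) - Cpt.pts σ lo hi (n + 1) i) ^ 2
      with ha
    have hapos : ∀ i < n, 0 < a i := by
      intro i hin
      have := h.pts_strict (N := n + 1) (i := i) (j := i + 1) (by omega) (by omega)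
      have h2 : 0 < Cpt.pts σ lo hi (n + 1) (i + 1) - Cpt.pts σ lo hi (n + 1) i := by linarith
      simp only [ha]
      positivity
    obtain ⟨V, hV0, hVpos, hVrec⟩ := path_super hapos hκ hκ0 (sq_nonneg _) hgap
    -- rates
    have hYp : ∀ k : ℕ, k < m → Yof σ lo hi false m (2 * k + 1) - Yof σ lo hi false m (2 * k - 1) =
        Cpt.pts σ lo hi (n + 1) (k + m) - Cpt.pts σ lo hi (n + 1) (k + m - 1) := by
      intro k hk
      rw [← hn, Yof_eq_pts_B σ lo hi hm (k + m) _ (by push_cast; ring),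
        Yof_eq_pts_B σ lo hi hm (k + m - 1) _ (by omega)]
    have hYm : ∀ k : ℕ, k < m → Yof σ lo hi false m (2 * k + 1) - Yof σ lo hi false m (2 * k - 1) =
        Cpt.pts σ lo hi (n + 1) (m - k) - Cpt.pts σ lo hi (n + 1) (m - k - 1) := by
      intro k hk
      rw [← hn, ← Yof_eq_pts_B σ lo hi hm (m - k) (-(2 * k - 1)) (by omega),
        ← Yof_eq_pts_B σ lo hi hm (m - k - 1) (-(2 * k + 1)) (by omega), Yof_odd h hs1 hs2,
        Yof_odd h hs1 hs2]
      ring
    have hra : ∀ k, k < m → r k = a (k + m - 1) ∧ r k = a (m - k - 1) := by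
      intro k hk
      rw [hr]
      unfold rof
      rw [if_neg (by simp)]
      simp only [ha]
      constructor
      · rw [hYp k hk, show k + m - 1 + 1 = k + m by omega]
      · rw [hYm k hk, show m - k - 1 + 1 = m - k by omega]
    let V' : ℕ → ℝ := fun k => V (k + m) + V (m - k)
    have hV'pos : ∀ k < m, 0 < V' k := by
      intro k hk
      simp only [V']
      have h1 := hVpos (k + m) (by omega) (by omega)
      have h2 := hVpos (m - k) (by omega) (by omega)
      linarith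
    have hV'm : 0 ≤ V' m := by
      simp only [V']
      have h1 := hVpos (m + m) (by omega) (by omega)
      rw [Nat.sub_self, hV0]
      linarith
    have hcut : ∀ k ≤ m, cutV m V' k ≤ V' k := by
      intro k hk
      unfold cutV
      split_ifs with h1
      · exact le_rfl
      · have : k = m := by omega
        rw [this]; exact hV'm
    refine ⟨Wof (V' 0 / (2 * r 0)) r V', Wof_neg _ _ _, ?_, ?_⟩
    · intro k hk _
      rcases Nat.eq_zero_or_pos k with h0 | h0
      · subst h0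
        rw [wt_Wof_zero]
        have h1 := hrpos 0 hk (fun h => absurd h (by simp))
        have h2 := hV'pos 0 hk
        positivity
      · rw [wt_Wof h0]
        exact div_pos (hV'pos k hk) (hrpos k hk (fun _ => h0))
    · refine gen_le_of_V hrpos (fun h => absurd h (by simp)) (fun _ => rfl) ?_ ?_
      · intro k hk1 hkm
        obtain ⟨h1, h2⟩ := hra k hkm
        have h3 := hVrec (k + m - 1) (by omega)
        have h4 := hVrec (m - k - 1) (by omega)
        rw [← h1, show k + m - 1 + 2 = k + 1 + m by omega, show k + m - 1 + 1 = k + m by omega] at h3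
        rw [← h2, show m - k - 1 + 2 = m - (k - 1) by omega, show m - k - 1 + 1 = m - k by omega,
          show m - k - 1 = m - (k + 1) by omega] at h4
        have h5 := hcut (k + 1) (by omega)
        have h6 : V' (k + 1) - 2 * V' k + V' (k - 1) = -κ * (V' k / r k) := by
          simp only [V']
          rw [show k - 1 + m = k + m - 1 by omega]
          rw [add_div]
          linear_combination h3 + h4
        linarith
      · intro _ _
        obtain ⟨h1, h2⟩ := hra 0 hm
        have h3 := hVrec (m - 1) (by omega)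
        rw [show 0 + m - 1 = m - 1 by omega] at h1
        rw [← h1, show m - 1 + 2 = 1 + m by omega, show m - 1 + 1 = m by omega] at h3
        have h5 := hcut 1 (by omega)
        have h6 : 2 * V' 1 - 2 * V' 0 = -κ * (V' 0 / r 0) := by
          simp only [V']
          rw [Nat.zero_add, Nat.sub_zero, ← two_mul (V m)]
          linear_combination 2 * h3
        linarith
  · -- type A
    simp only [if_true] at hκ
    obtain ⟨n, hn⟩ : ∃ n, m = n + 1 := ⟨m - 1, by omega⟩
    have hn1 : m - 1 = n := by omega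
    rw [hn1] at hκ
    have hgap := fun w hw => h.discrete_gap hD hP (hM0 n) (hM n) w hw
    set a : ℕ → ℝ := fun i => 1 / (Cpt.pts σ lo hi (n + 1) (i + 1) - Cpt.pts σ lo hi (n + 1) i) ^ 2
      with ha
    have hapos : ∀ i < n, 0 < a i := by
      intro i hin
      have := h.pts_strict (N := n + 1) (i := i) (j := i + 1) (by omega) (by omega)
      have h2 : 0 < Cpt.pts σ lo hi (n + 1) (i + 1) - Cpt.pts σ lo hi (n + 1) i := by linarith
      simp only [ha]
      positivity
    obtain ⟨V, hV0, hVpos, hVrec⟩ := path_super hapos hκ hκ0 (sq_nonneg _) hgap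
    have hra : ∀ i, i < n → r (i + 1) = a i := by
      intro i hin
      rw [hr]
      unfold rof
      rw [if_neg (by omega)]
      simp only [ha]
      have e1 : Yof σ lo hi true m (2 * ((i + 1 : ℕ) : ℤ) + 1) = Cpt.pts σ lo hi (n + 1) (i + 1) := by
        rw [← hn]; exact Yof_eq_pts_A σ lo hi m (i + 1)
      have e2 : Yof σ lo hi true m (2 * ((i + 1 : ℕ) : ℤ) - 1) = Cpt.pts σ lo hi (n + 1) i := by
        rw [← hn, ← Yof_eq_pts_A σ lo hi m i]
        congr 1
        push_cast
        ring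
      rw [e1, e2]
    refine ⟨Wof 0 r V, Wof_neg _ _ _, ?_, ?_⟩
    · intro k hk hkb
      have h0 := hkb rfl
      rw [wt_Wof h0]
      exact div_pos (hVpos k h0 (by omega)) (hrpos k hk hkb)
    · refine gen_le_of_V hrpos (fun _ => ⟨?_, hV0⟩) (fun h => absurd h (by simp)) ?_
        (fun h => absurd h (by simp))
      · rw [hr]; unfold rof; rw [if_pos ⟨rfl, rfl⟩]
      · intro k hk1 hkm
        obtain ⟨i, rfl⟩ : ∃ i, k = i + 1 := ⟨k - 1, by omega⟩
        have h3 := hVrec i (by omega)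
        rw [← hra i (by omega)] at h3
        have h5 : cutV m V (i + 1 + 1) ≤ V (i + 2) := by
          unfold cutV
          split_ifs
          · exact le_rfl
          · exact (hVpos (i + 2) (by omega) (by omega)).le
        rw [show i + 1 - 1 = i by omega]
        linarith

/-- the transformed distribution function -/
noncomputable def hatf (σ : Measure ℝ) (b : Bool) (x : ℝ) : ℝ :=
  if b then HH σ x else 2 * HH σ x - 1

/-- the index -/
noncomputable def ixof (σ : Measure ℝ) (b : Bool) (m : ℕ) (x : ℝ) : ℤ :=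
  2 * ⌈(m : ℝ) * hatf σ b x⌉ - 1

theorem uof_ix_close (σ : Measure ℝ) (b : Bool) {m : ℕ} (hm : 0 < m) (x : ℝ) (s : ℤ) :
    |uof b m (ixof σ b m x + s) - HH σ x| ≤ (1 + |(s : ℝ)|) * (1 / m) := by
  have hm' : (0 : ℝ) < m := by exact_mod_cast hm
  have h1 := Int.le_ceil ((m : ℝ) * hatf σ b x)
  have h2 := Int.ceil_lt_add_one ((m : ℝ) * hatf σ b x)
  have h3 : |(((ixof σ b m x + s : ℤ)) : ℝ) / (2 * m) - hatf σ b x| ≤ (1 + |(s : ℝ)|) * (1 / m) := by
    have e : (((ixof σ b m x + s : ℤ)) : ℝ) / (2 * m) - hatf σ b x =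
        ((2 * (⌈(m : ℝ) * hatf σ b x⌉ : ℝ) - 1 - 2 * (m * hatf σ b x)) + s) / (2 * m) := by
      unfold ixof
      push_cast
      field_simp
      ring
    rw [e, abs_div, abs_of_pos (show (0 : ℝ) < 2 * m by positivity), div_le_iff₀ (by positivity)]
    have h4 : |2 * (⌈(m : ℝ) * hatf σ b x⌉ : ℝ) - 1 - 2 * (m * hatf σ b x)| ≤ 1 := by
      rw [abs_le]; constructor <;> linarith
    have h5 := abs_add_le (2 * (⌈(m : ℝ) * hatf σ b x⌉ : ℝ) - 1 - 2 * (m * hatf σ b x)) s
    have h6 : (1 + |(s : ℝ)|) * (1 / m) * (2 * m) = 2 * (1 + |(s : ℝ)|) := by field_simp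
    rw [h6]
    have := abs_nonneg (s : ℝ)
    linarith
  unfold uof
  cases b
  · simp only [Bool.false_eq_true, if_false]
    simp only [hatf, Bool.false_eq_true, if_false] at h3
    have e : ((((ixof σ false m x + s : ℤ)) : ℝ) / (2 * m) + 1) / 2 - HH σ x =
        ((((ixof σ false m x + s : ℤ)) : ℝ) / (2 * m) - (2 * HH σ x - 1)) / 2 := by ring
    rw [e, abs_div, abs_of_pos (show (0 : ℝ) < 2 by norm_num)]
    have := abs_nonneg ((((ixof σ false m x + s : ℤ)) : ℝ) / (2 * m) - (2 * HH σ x - 1))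
    linarith
  · simp only [if_true]
    simpa [hatf] using h3

theorem tendsto_uof (σ : Measure ℝ) (b : Bool) (x : ℝ) (s : ℤ) :
    Tendsto (fun m => uof b m (ixof σ b m x + s)) atTop (𝓝 (HH σ x)) := by
  rw [tendsto_iff_dist_tendsto_zero]
  have h1 : Tendsto (fun m : ℕ => (1 + |(s : ℝ)|) * (1 / (m : ℝ))) atTop (𝓝 0) := by
    have := (tendsto_const_div_atTop_nhds_zero_nat (1 : ℝ)).const_mul (1 + |(s : ℝ)|)
    simpa using this
  refine squeeze_zero' (Eventually.of_forall fun _ => dist_nonneg) ?_ h1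
  filter_upwards [eventually_gt_atTop 0] with m hm
  exact uof_ix_close σ b hm x s

theorem Cpt.tendsto_Y {σ : Measure ℝ} {lo hi : ℝ} (h : Cpt σ lo hi) (b : Bool) {x : ℝ}
    (hx : x ∈ Set.Icc lo hi) (h0 : 0 < HH σ x) (h1 : HH σ x < 1) (s : ℤ) :
    Tendsto (fun m => Yof σ lo hi b m (ixof σ b m x + s)) atTop (𝓝 x) := by
  have ht := tendsto_uof σ b x s
  conv_rhs => rw [← h.q_H hx]
  rw [Metric.tendsto_atTop]
  intro ε hε
  obtain ⟨δ, hδ, hδ'⟩ := h.q_unif hε
  have h2 := ht.eventually (Ioo_mem_nhds h0 h1)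
  have h3 := ht.eventually (Metric.ball_mem_nhds _ hδ)
  obtain ⟨N, hN⟩ := eventually_atTop.1 (h2.and h3)
  refine ⟨N, fun m hm => ?_⟩
  obtain ⟨⟨h4, h5⟩, h6⟩ := hN m hm
  rw [Real.dist_eq]
  exact hδ' _ _ h4.le h5.le h0.le h1.le h6

theorem Cpt.Y_ne {σ : Measure ℝ} {lo hi : ℝ} (h : Cpt σ lo hi) (b : Bool) {x : ℝ}
    (h0 : 0 < HH σ x) (h1 : HH σ x < 1) {s : ℤ} (hs : s ≠ 0) :
    ∀ᶠ m in atTop, Yof σ lo hi b m (ixof σ b m x + s) ≠ Yof σ lo hi b m (ixof σ b m x) := by
  have h2 := (tendsto_uof σ b x s).eventually (Ioo_mem_nhds h0 h1)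
  have h3 := (tendsto_uof σ b x 0).eventually (Ioo_mem_nhds h0 h1)
  filter_upwards [h2, h3, eventually_gt_atTop 0] with m h2 h3 hm
  rw [add_zero] at h3
  rcases lt_or_gt_of_ne hs with h4 | h4
  · exact (h.q_strict h2.1.le (uof_lt hm (by omega)) h3.2.le).ne
  · exact (h.q_strict h3.1.le (uof_lt hm (by omega)) h2.2.le).ne'

theorem Cpt.ae_Ioo {σ : Measure ℝ} {lo hi : ℝ} (h : Cpt σ lo hi) :
    ∀ᵐ x ∂σ, x ∈ Set.Icc lo hi ∧ 0 < HH σ x ∧ HH σ x < 1 := by
  have := h.prob
  have h1 : ∀ᵐ x ∂σ, HH σ x ≠ 0 := by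
    rw [ae_iff]; simpa using h.level_null 0
  have h2 : ∀ᵐ x ∂σ, HH σ x ≠ 1 := by
    rw [ae_iff]; simpa using h.level_null 1
  filter_upwards [h.ae_mem, h1, h2] with x hx1 hx2 hx3
  exact ⟨hx1, lt_of_le_of_ne (HH_nonneg σ x) hx2.symm, lt_of_le_of_ne (HH_le_one σ x) hx3⟩

/-- **The scheme of a compactly supported measure.** -/
theorem exists_scheme {σ : Measure ℝ} {lo hi : ℝ} (h : Cpt σ lo hi) (b : Bool)
    (hsym : b = false → σ.map (fun x => -x) = σ ∧ lo = -hi)
    {D : ℝ} (hD : 0 < D)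
    (hP : ∀ f : ℝ → ℝ, (∃ L, LipschitzWith L f) →
      ∫ x, (f x - ∫ y, f y ∂σ) ^ 2 ∂σ ≤ D ^ 2 * ∫ x, (deriv f x) ^ 2 ∂σ) :
    ∃ S : Scheme b σ (1 / D ^ 2), S.ix = ixof σ b := by
  have hprob := h.prob
  obtain ⟨M, hM0, hMlim, hM⟩ := h.exists_mesh
  let Nm : ℕ → ℕ := fun m => (if b then m else 2 * m) - 1
  let κm : ℕ → ℝ := fun m => 1 / (D + M (Nm m) + 1 / ((m : ℝ) + 1)) ^ 2
  have hden : ∀ m, 0 < D + M (Nm m) + 1 / ((m : ℝ) + 1) := fun m => by
    have := hM0 (Nm m)
    positivity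
  have hκlt : ∀ m, (D + M (Nm m)) ^ 2 * κm m < 1 := by
    intro m
    simp only [κm]
    rw [mul_one_div, div_lt_one (pow_pos (hden m) 2)]
    have h1 := hM0 (Nm m)
    have h2 : (0 : ℝ) < 1 / ((m : ℝ) + 1) := by positivity
    exact pow_lt_pow_left₀ (by linarith) (by positivity) two_ne_zero
  have hWex : ∀ m, ∃ W : ℤ → ℝ, (∀ v, W (-v) = - W v) ∧
      (∀ k < m, (b = true → 1 ≤ k) → 0 < wt W k) ∧
      ∀ p q, Site m p → Site m q → p < q → (b = true → 0 < p) →
        genW m (rof σ lo hi b m) W q - genW m (rof σ lo hi b m) W p ≤ -κm m * (W q - W p) := by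
    intro m
    rcases Nat.eq_zero_or_pos m with h0 | h0
    · subst h0
      refine ⟨fun _ => 0, fun _ => by simp, fun k hk => absurd hk (by omega), ?_⟩
      intro p q hp _ _ _
      obtain ⟨-, h1, h2⟩ := hp
      push_cast at h1 h2
      omega
    · exact exists_W h hsym hD hP hM0 hM h0 (by positivity) (hκlt m)
  choose W hWodd hWpos hWgen using hWex
  have hNlim : Tendsto Nm atTop atTop := by
    rw [tendsto_atTop_atTop]
    intro B
    refine ⟨B + 1, fun m hm => ?_⟩
    simp only [Nm]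
    split_ifs <;> omega
  refine ⟨{ ix := ixof σ b
            Y := Yof σ lo hi b
            w := fun m => 1 / (if b then (m : ℝ) else 2 * m)
            r := rof σ lo hi b
            W := W
            κm := κm
            meas := ?_
            w_nonneg := ?_
            mass := ?_
            κm_nonneg := fun m => by positivity
            κm_lim := ?_
            r_nonneg := ?_
            r_zero := ?_
            W_odd := hWodd
            wt_pos := hWpos
            gen_le := hWgen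
            rY := ?_
            Y_odd := ?_
            lim0 := ?_
            limp := ?_
            limm := ?_
            nep := ?_
            nem := ?_ }, rfl⟩
  · intro m
    unfold ixof hatf
    have h1 : Measurable fun x => ⌈(m : ℝ) * (if b then HH σ x else 2 * HH σ x - 1)⌉ := by
      apply Int.measurable_ceil.comp
      apply Measurable.const_mul
      cases b
      · simp only [Bool.false_eq_true, if_false]
        exact (h.measurable_H.const_mul 2).sub_const 1
      · simp only [if_true]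
        exact h.measurable_H
    exact (measurable_from_top (f := fun k : ℤ => 2 * k - 1)).comp h1
  · intro m
    split_ifs <;> positivity
  · -- mass
    intro m v hv hvb
    have hm : 0 < m := by
      obtain ⟨-, h1, h2⟩ := hv
      omega
    have hm' : (0 : ℝ) < m := by exact_mod_cast hm
    obtain ⟨j, hj⟩ : ∃ j : ℤ, v = 2 * j - 1 := ⟨(v + 1) / 2, by have := hv.1; omega⟩
    cases b
    · simp only [Bool.false_eq_true, if_false]
      have e : ixof σ false m ⁻¹' {v} =
          {x | ((j : ℝ) - 1 + m) / (2 * m) < HH σ x ∧ HH σ x ≤ ((j : ℝ) + m) / (2 * m)} := by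
        ext x
        simp only [Set.mem_preimage, Set.mem_singleton_iff, Set.mem_ofPred_eq, ixof, hatf,
          Bool.false_eq_true, if_false]
        rw [show (2 * ⌈(m : ℝ) * (2 * HH σ x - 1)⌉ - 1 = v) ↔ ⌈(m : ℝ) * (2 * HH σ x - 1)⌉ = j by
          omega, Int.ceil_eq_iff, div_lt_iff₀ (by positivity), le_div_iff₀ (by positivity)]
        constructor
        · rintro ⟨h1, h2⟩; constructor <;> linarith
        · rintro ⟨h1, h2⟩; constructor <;> linarith
      have hj1 : (1 : ℝ) - m ≤ j := by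
        have : (1 : ℤ) - m ≤ j := by obtain ⟨-, h1, h2⟩ := hv; omega
        exact_mod_cast this
      have hj2 : (j : ℝ) ≤ m := by
        have : j ≤ m := by obtain ⟨-, h1, h2⟩ := hv; omega
        exact_mod_cast this
      rw [e, h.law]
      · field_simp
        ring
      · apply div_nonneg _ (by positivity); linarith
      · apply div_le_div_of_nonneg_right _ (by positivity); linarith
      · rw [div_le_one (by positivity)]; linarith
    · simp only [if_true]
      have e : ixof σ true m ⁻¹' {v} =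
          {x | ((j : ℝ) - 1) / m < HH σ x ∧ HH σ x ≤ (j : ℝ) / m} := by
        ext x
        simp only [Set.mem_preimage, Set.mem_singleton_iff, Set.mem_ofPred_eq, ixof, hatf, if_true]
        rw [show (2 * ⌈(m : ℝ) * HH σ x⌉ - 1 = v) ↔ ⌈(m : ℝ) * HH σ x⌉ = j by
          omega, Int.ceil_eq_iff, div_lt_iff₀ hm', le_div_iff₀ hm']
        constructor
        · rintro ⟨h1, h2⟩; constructor <;> linarith
        · rintro ⟨h1, h2⟩; constructor <;> linarith
      have hj1 : (1 : ℝ) ≤ j := by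
        have : (1 : ℤ) ≤ j := by have := hvb rfl; omega
        exact_mod_cast this
      have hj2 : (j : ℝ) ≤ m := by
        have : j ≤ m := by obtain ⟨-, h1, h2⟩ := hv; omega
        exact_mod_cast this
      rw [e, h.law]
      · field_simp
        ring
      · apply div_nonneg _ hm'.le; linarith
      · apply div_le_div_of_nonneg_right _ hm'.le; linarith
      · rw [div_le_one hm']; linarith
  · -- limit of κm
    have h1 : Tendsto (fun m : ℕ => D + M (Nm m) + 1 / ((m : ℝ) + 1)) atTop (𝓝 (D + 0 + 0)) :=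
      (tendsto_const_nhds.add (hMlim.comp hNlim)).add tendsto_one_div_add_atTop_nhds_zero_nat
    rw [add_zero, add_zero] at h1
    exact tendsto_const_nhds.div (h1.pow 2) (by positivity)
  · intro m k
    unfold rof
    split_ifs
    · exact le_rfl
    · positivity
  · intro hb m
    unfold rof
    rw [if_pos ⟨hb, rfl⟩]
  · intro m k hk hkb
    unfold rof
    rw [if_neg (by rintro ⟨h1, h2⟩; have := hkb h1; omega)]
    rw [one_div_mul_eq_div]
    exact div_self_le_one _
  · intro hb m v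
    subst hb
    exact Yof_odd h (hsym rfl).1 (hsym rfl).2 m v
  · filter_upwards [h.ae_Ioo] with x hx
    have := h.tendsto_Y b hx.1 hx.2.1 hx.2.2 0
    simpa using this
  · filter_upwards [h.ae_Ioo] with x hx
    exact h.tendsto_Y b hx.1 hx.2.1 hx.2.2 2
  · filter_upwards [h.ae_Ioo] with x hx
    exact h.tendsto_Y b hx.1 hx.2.1 hx.2.2 (-2)
  · filter_upwards [h.ae_Ioo] with x hx
    exact h.Y_ne b hx.2.1 hx.2.2 (s := 2) (by norm_num)
  · filter_upwards [h.ae_Ioo] with x hx
    exact h.Y_ne b hx.2.1 hx.2.2 (s := -2) (by norm_num)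

end Pool.Agent.Lib.MP_8d00da_gt
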