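import Pool.Agent.Lib.MP_8d00da_gt.Unif

/-!
# Order polytopes and signed order polytopes
-/

open MeasureTheory Filter Topology

set_option linter.unusedSectionVars false

namespace Pool.Agent.Lib.MP_8d00da_gt

variable {n : ℕ}

/-- The order polytope. -/
def ordPoly (E : Set (Fin n × Fin n)) : Set (EuclideanSpace ℝ (Fin n)) :=
  {x | (∀ i, 0 ≤ x i ∧ x i ≤ 1) ∧ ∀ e ∈ E, x e.1 ≤ x e.2}

/-- The signed order polytope. -/
def litPoly (E : Set ((Fin n × Bool) × (Fin n × Bool))) : Set (EuclideanSpace ℝ (Fin n)) :=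
  {x | (∀ i, -1 ≤ x i ∧ x i ≤ 1) ∧ ∀ e ∈ E, lr (fun i => x i) e.1 ≤ lr (fun i => x i) e.2}

theorem mem_ordPoly (E : Set (Fin n × Fin n)) (x : Fin n → ℝ) :
    toE n x ∈ ordPoly E ↔ x ∈ ordCone E ∧ ∀ i, x i ∈ Set.Icc (0 : ℝ) 1 :=
  ⟨fun h => ⟨h.2, h.1⟩, fun h => ⟨h.2, h.1⟩⟩

theorem mem_litPoly (E : Set ((Fin n × Bool) × (Fin n × Bool))) (x : Fin n → ℝ) :
    toE n x ∈ litPoly E ↔ x ∈ litCone E ∧ ∀ i, x i ∈ Set.Icc (-1 : ℝ) 1 :=
  ⟨fun h => ⟨h.2, h.1⟩, fun h => ⟨h.2, h.1⟩⟩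

theorem var_unit : ProbabilityTheory.variance (fun x : ℝ => x) (unifI 0 1) = 1 / 12 := by
  have hlt : (0 : ℝ) < 1 := by norm_num
  have := prob_unifI hlt
  have hid : MemLp (fun x : ℝ => x) 2 (unifI 0 1) := by
    rw [memLp_two_iff_integrable_sq (by fun_prop)]
    exact memLp_unifI hlt
  rw [ProbabilityTheory.variance_eq_sub hid]
  have e1 : ∫ x, ((fun x : ℝ => x) ^ 2) x ∂(unifI 0 1) = 1 / 3 := by
    have : ∀ x : ℝ, ((fun x : ℝ => x) ^ 2) x = x ^ 2 := fun x => rfl
    simp only [this]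
    rw [integral_unifI' hlt, integral_pow]
    norm_num
  have e2 : ∫ x, x ∂(unifI 0 1) = 1 / 2 := by
    rw [integral_unifI' hlt, integral_id]
    norm_num
  rw [e1, e2]
  norm_num

theorem moment_sym : ∫ x, x ^ 2 ∂(unifI (-1) 1) = 1 / 3 := by
  have hlt : (-1 : ℝ) < 1 := by norm_num
  rw [integral_unifI' hlt, integral_pow]
  norm_num

theorem var_sq_sym : ProbabilityTheory.variance (fun x : ℝ => x ^ 2) (unifI (-1) 1) = 4 / 45 := by
  have hlt : (-1 : ℝ) < 1 := by norm_num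
  have := prob_unifI hlt
  have hsq : MemLp (fun x : ℝ => x ^ 2) 2 (unifI (-1) 1) := by
    have := wirtinger_sym.memLp_sq 0
    simpa using this
  rw [ProbabilityTheory.variance_eq_sub hsq, moment_sym]
  have e1 : ∫ x, ((fun x : ℝ => x ^ 2) ^ 2) x ∂(unifI (-1) 1) = 1 / 5 := by
    have : ∀ x : ℝ, ((fun x : ℝ => x ^ 2) ^ 2) x = x ^ 4 := fun x => by
      simp only [Pi.pow_apply]; ring
    simp only [this]
    rw [integral_unifI' hlt, integral_pow]
    norm_num
  rw [e1]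
  norm_num

theorem unifI_sym : (unifI (-1) 1).map (fun x => -x) = unifI (-1) 1 := by
  ext s hs
  unfold unifI
  rw [Measure.map_apply measurable_neg hs, ProbabilityTheory.cond_apply measurableSet_Icc,
    ProbabilityTheory.cond_apply measurableSet_Icc]
  congr 1
  have hpre : Set.Icc (-1 : ℝ) 1 ∩ (fun x : ℝ => -x) ⁻¹' s =
      (fun x : ℝ => -x) ⁻¹' (Set.Icc (-1) 1 ∩ s) := by
    ext x
    simp only [Set.mem_inter_iff, Set.mem_Icc, Set.mem_preimage]
    constructor
    · rintro ⟨⟨h1, h2⟩, h3⟩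
      exact ⟨⟨by linarith, by linarith⟩, h3⟩
    · rintro ⟨⟨h1, h2⟩, h3⟩
      exact ⟨⟨by linarith, by linarith⟩, h3⟩
  rw [hpre]
  exact (Measure.measurePreserving_neg (volume : Measure ℝ)).measure_preimage
    (measurableSet_Icc.inter hs).nullMeasurableSet

/-- **Order polytopes: the exact constant.** -/
theorem ordPoly_iff (hn : 0 < n) {E : Set (Fin n × Fin n)} (hv : volume (ordPoly E) ≠ 0) {D : ℝ} :
    PoincareWith (ProbabilityTheory.cond volume (ordPoly E)) D ↔ 1 / Real.pi ≤ D := by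
  have hlt : (0 : ℝ) < 1 := by norm_num
  have := prob_unifI hlt
  have hK := pos_of_vol hlt (measurableSet_ordCone E) (ordPoly E) (mem_ordPoly E) hv
  rw [← iidCond_unifI hlt (measurableSet_ordCone E) (ordPoly E) (mem_ordPoly E),
    ord_iff (unifI_ac 0 1) hn hK, unit_iff]

/-- **Order polytopes: KLS.** -/
theorem ordPoly_kls (hn : 0 < n) {E : Set (Fin n × Fin n)} (hv : volume (ordPoly E) ≠ 0) {lam : ℝ}
    (hl : LinPoincareWith (ProbabilityTheory.cond volume (ordPoly E)) lam) :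
    PoincareWith (ProbabilityTheory.cond volume (ordPoly E)) (2 * Real.sqrt 3 / Real.pi * lam) := by
  have hlt : (0 : ℝ) < 1 := by norm_num
  have := prob_unifI hlt
  have hpi := Real.pi_pos
  have hK := pos_of_vol hlt (measurableSet_ordCone E) (ordPoly E) (mem_ordPoly E) hv
  rw [ordPoly_iff hn hv]
  rw [← iidCond_unifI hlt (measurableSet_ordCone E) (ordPoly E) (mem_ordPoly E)] at hl
  have h1 := lin_ord (unifI_ac 0 1) hn hK (memLp_unifI hlt) hl
  rw [var_unit] at h1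
  have hm0 : 0 ≤ max lam 0 := le_max_right _ _
  have h3 : (1 : ℝ) ≤ 2 * Real.sqrt 3 * max lam 0 := by
    have h4 : (1 : ℝ) ^ 2 ≤ (2 * Real.sqrt 3 * max lam 0) ^ 2 := by
      rw [mul_pow, mul_pow, Real.sq_sqrt (by norm_num)]
      linarith
    exact le_of_sq_le_sq h4 (by positivity)
  have hlam : 0 ≤ lam := by
    by_contra hcon
    rw [max_eq_right (not_le.1 hcon).le, mul_zero] at h3
    linarith
  rw [max_eq_left hlam] at h3
  rw [div_mul_eq_mul_div]
  exact (div_le_div_iff_of_pos_right hpi).2 h3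

/-- **Signed order polytopes: the Poincaré inequality.** -/
theorem litPoly_poincare {E : Set ((Fin n × Bool) × (Fin n × Bool))}
    (hv : volume (litPoly E) ≠ 0) :
    PoincareWith (ProbabilityTheory.cond volume (litPoly E)) (2 / Real.pi) := by
  have hlt : (-1 : ℝ) < 1 := by norm_num
  have := prob_unifI hlt
  have hK := pos_of_vol hlt (measurableSet_litCone E) (litPoly E) (mem_litPoly E) hv
  rw [← iidCond_unifI hlt (measurableSet_litCone E) (litPoly E) (mem_litPoly E)]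
  exact lit_forward (unifI_ac _ _) unifI_sym hK wirtinger_sym

/-- **Signed order polytopes: KLS.** -/
theorem litPoly_kls (hn : 0 < n) {E : Set ((Fin n × Bool) × (Fin n × Bool))}
    (hv : volume (litPoly E) ≠ 0) {lam : ℝ}
    (hl : LinPoincareWith (ProbabilityTheory.cond volume (litPoly E)) lam) :
    PoincareWith (ProbabilityTheory.cond volume (litPoly E)) (26 / 5 * lam) := by
  have hlt : (-1 : ℝ) < 1 := by norm_num
  have := prob_unifI hlt
  have hpi := Real.pi_gt_d2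
  have hpi' := Real.pi_pos
  have hK := pos_of_vol hlt (measurableSet_litCone E) (litPoly E) (mem_litPoly E) hv
  have hP := litPoly_poincare hv
  rw [← iidCond_unifI hlt (measurableSet_litCone E) (litPoly E) (mem_litPoly E)] at hl
  have h1 := lin_lit (unifI_ac _ _) unifI_sym hn hK wirtinger_sym hl
  rw [var_sq_sym, moment_sym] at h1
  have hm0 : 0 ≤ max lam 0 := le_max_right _ _
  refine hP.mono ?_
  have e : (2 / Real.pi) ^ 2 = 4 / Real.pi ^ 2 := by
    rw [div_pow]; norm_num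
  rw [e] at h1
  -- multiply out
  have hsq : (3.14 : ℝ) ^ 2 < Real.pi ^ 2 := by
    exact pow_lt_pow_left₀ hpi (by norm_num) two_ne_zero
  have h2 : (2 / Real.pi) ^ 2 ≤ (26 / 5 * max lam 0) ^ 2 := by
    rw [e, div_le_iff₀ (by positivity)]
    have h3 : 4 / Real.pi ^ 2 ≤ 4 / (3.14 : ℝ) ^ 2 :=
      div_le_div_of_nonneg_left (by norm_num) (by norm_num) hsq.le
    set y := (max lam 0) ^ 2 with hy
    have hy0 : 0 ≤ y := sq_nonneg _
    have h4 : (4 : ℝ) / 45 ≤ 8 * (1 / 3 + 4 / (3.14 : ℝ) ^ 2) * y := by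
      refine h1.trans ?_
      have : 8 * (1 / 3 + 4 / Real.pi ^ 2) ≤ 8 * (1 / 3 + 4 / (3.14 : ℝ) ^ 2) := by linarith
      exact mul_le_mul_of_nonneg_right this hy0
    have h5 : (26 / 5 * max lam 0) ^ 2 * Real.pi ^ 2 = (676 / 25) * (y * Real.pi ^ 2) := by
      rw [hy]; ring
    rw [h5]
    have h6 : y * (3.14 : ℝ) ^ 2 ≤ y * Real.pi ^ 2 := mul_le_mul_of_nonneg_left hsq.le hy0
    norm_num at h4 h6 ⊢
    linarith
  have h3 : 2 / Real.pi ≤ 26 / 5 * max lam 0 := le_of_sq_le_sq h2 (by positivity)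
  have hlam : 0 ≤ lam := by
    by_contra hcon
    rw [max_eq_right (not_le.1 hcon).le, mul_zero] at h3
    have : 0 < 2 / Real.pi := by positivity
    linarith
  rwa [max_eq_left hlam] at h3

end Pool.Agent.Lib.MP_8d00da_gt
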