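import Mathlib

/-!
# Distribution function and quantiles of a compactly supported atomless measure on the line
-/

open MeasureTheory Filter Topology

namespace Pool.Agent.Lib.MP_8d00da_gt

/-- An atomless probability measure with support the interval `[a, b]`. -/
structure Cpt (σ : Measure ℝ) (a b : ℝ) : Prop where
  prob : IsProbabilityMeasure σ
  noatom : ∀ x, σ {x} = 0
  hab : a < b
  supp : σ (Set.Icc a b)ᶜ = 0
  pos : ∀ c d, a ≤ c → c < d → d ≤ b → 0 < σ (Set.Ioc c d)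

/-- The distribution function. -/
noncomputable def HH (σ : Measure ℝ) (x : ℝ) : ℝ := σ.real (Set.Iic x)

theorem HH_mono (σ : Measure ℝ) [IsProbabilityMeasure σ] : Monotone (HH σ) := fun _ _ h =>
  measureReal_mono (Set.Iic_subset_Iic.2 h)

theorem HH_nonneg (σ : Measure ℝ) (x : ℝ) : 0 ≤ HH σ x := measureReal_nonneg

theorem HH_le_one (σ : Measure ℝ) [IsProbabilityMeasure σ] (x : ℝ) : HH σ x ≤ 1 :=
  measureReal_le_one

theorem HH_sub (σ : Measure ℝ) [IsProbabilityMeasure σ] {x y : ℝ} (h : x ≤ y) :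
    HH σ y - HH σ x = σ.real (Set.Ioc x y) := by
  unfold HH
  rw [← Set.Iic_union_Ioc_eq_Iic h, measureReal_union _ measurableSet_Ioc]
  · ring
  · exact Set.Iic_disjoint_Ioc le_rfl

theorem HH_continuous (σ : Measure ℝ) [IsProbabilityMeasure σ] (h : ∀ x, σ {x} = 0) :
    Continuous (HH σ) := by
  have e : HH σ = fun x => ProbabilityTheory.cdf σ x := by
    funext x
    exact (ProbabilityTheory.cdf_eq_real σ x).symm
  rw [e, continuous_iff_continuousAt]
  intro x
  have hm := ProbabilityTheory.monotone_cdf σ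
  rw [Monotone.continuousAt_iff_leftLim_eq_rightLim hm]
  have h1 : (ProbabilityTheory.cdf σ).measure {x} = 0 := by
    rw [ProbabilityTheory.measure_cdf]
    exact h x
  rw [StieltjesFunction.measure_singleton, ENNReal.ofReal_eq_zero] at h1
  have h2 : Function.leftLim (ProbabilityTheory.cdf σ) x ≤ ProbabilityTheory.cdf σ x :=
    hm.leftLim_le le_rfl
  rw [StieltjesFunction.rightLim_eq]
  linarith

namespace Cpt

variable {σ : Measure ℝ} {a b : ℝ}

theorem Ha (h : Cpt σ a b) : HH σ a = 0 := by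
  have := h.prob
  have h1 : σ (Set.Iic a) = 0 := by
    have h2 : Set.Iic a ⊆ (Set.Icc a b)ᶜ ∪ {a} := by
      intro x hx
      rcases (Set.mem_Iic.1 hx).lt_or_eq with h3 | h3
      · left
        intro h4
        exact absurd h4.1 (not_le_of_gt h3)
      · right; exact h3
    exact measure_mono_null h2 (measure_union_null h.supp (h.noatom a))
  unfold HH
  rw [Measure.real, h1]
  rfl

theorem Hb (h : Cpt σ a b) : HH σ b = 1 := by
  have := h.prob
  have h1 : σ (Set.Iic b)ᶜ = 0 := by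
    refine measure_mono_null ?_ h.supp
    intro x hx h4
    exact hx h4.2
  unfold HH
  have h2 := prob_compl_eq_zero_iff (μ := σ) (s := Set.Iic b) measurableSet_Iic
  rw [Measure.real, h2.1 h1]
  rfl

theorem H_strict (h : Cpt σ a b) {x y : ℝ} (hx : a ≤ x) (hxy : x < y) (hy : y ≤ b) :
    HH σ x < HH σ y := by
  have := h.prob
  have h1 := HH_sub σ hxy.le
  have h2 : 0 < σ.real (Set.Ioc x y) :=
    ENNReal.toReal_pos (h.pos x y hx hxy hy).ne' (measure_ne_top _ _)
  linarith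

theorem exists_q (h : Cpt σ a b) (u : ℝ) (h0 : 0 ≤ u) (h1 : u ≤ 1) :
    ∃ x ∈ Set.Icc a b, HH σ x = u := by
  have := h.prob
  have h2 := intermediate_value_Icc h.hab.le (HH_continuous σ h.noatom).continuousOn
  rw [h.Ha, h.Hb] at h2
  exact h2 ⟨h0, h1⟩

end Cpt

open Classical in
/-- The quantile function. -/
noncomputable def qf (σ : Measure ℝ) (a b u : ℝ) : ℝ :=
  if h : ∃ x ∈ Set.Icc a b, HH σ x = u then h.choose else if u ≤ 0 then a else b

namespace Cpt

variable {σ : Measure ℝ} {a b : ℝ}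

theorem q_spec (h : Cpt σ a b) {u : ℝ} (h0 : 0 ≤ u) (h1 : u ≤ 1) :
    qf σ a b u ∈ Set.Icc a b ∧ HH σ (qf σ a b u) = u := by
  have hex := h.exists_q u h0 h1
  unfold qf
  rw [dif_pos hex]
  exact hex.choose_spec

theorem H_q (h : Cpt σ a b) {u : ℝ} (h0 : 0 ≤ u) (h1 : u ≤ 1) : HH σ (qf σ a b u) = u :=
  (h.q_spec h0 h1).2

theorem H_inj (h : Cpt σ a b) {x y : ℝ} (hx : x ∈ Set.Icc a b) (hy : y ∈ Set.Icc a b)
    (hxy : HH σ x = HH σ y) : x = y := by
  rcases lt_trichotomy x y with h1 | h1 | h1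
  · exact absurd hxy (h.H_strict hx.1 h1 hy.2).ne
  · exact h1
  · exact absurd hxy (h.H_strict hy.1 h1 hx.2).ne'

theorem q_H (h : Cpt σ a b) {x : ℝ} (hx : x ∈ Set.Icc a b) : qf σ a b (HH σ x) = x := by
  have := h.prob
  have h1 := h.q_spec (HH_nonneg σ x) (HH_le_one σ x)
  exact h.H_inj h1.1 hx h1.2

theorem q_neg (h : Cpt σ a b) {u : ℝ} (hu : u < 0) : qf σ a b u = a := by
  have := h.prob
  unfold qf
  rw [dif_neg, if_pos hu.le]
  rintro ⟨x, -, hx⟩
  have := HH_nonneg σ x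
  linarith

theorem q_gt (h : Cpt σ a b) {u : ℝ} (hu : 1 < u) : qf σ a b u = b := by
  have := h.prob
  unfold qf
  rw [dif_neg, if_neg (by linarith)]
  rintro ⟨x, -, hx⟩
  have := HH_le_one σ x
  linarith

theorem q_mem (h : Cpt σ a b) (u : ℝ) : qf σ a b u ∈ Set.Icc a b := by
  rcases lt_or_ge u 0 with h0 | h0
  · rw [h.q_neg h0]; exact ⟨le_rfl, h.hab.le⟩
  rcases lt_or_ge 1 u with h1 | h1
  · rw [h.q_gt h1]; exact ⟨h.hab.le, le_rfl⟩
  exact (h.q_spec h0 h1).1

theorem q_strict (h : Cpt σ a b) {u v : ℝ} (h0 : 0 ≤ u) (huv : u < v) (h1 : v ≤ 1) :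
    qf σ a b u < qf σ a b v := by
  have := h.prob
  by_contra hcon
  push Not at hcon
  have h2 := HH_mono σ hcon
  rw [h.H_q h0 (huv.le.trans h1), h.H_q (h0.trans huv.le) h1] at h2
  linarith

theorem q_le (h : Cpt σ a b) {u v : ℝ} (huv : u ≤ v) : qf σ a b u ≤ qf σ a b v := by
  rcases huv.eq_or_lt with h2 | h2
  · rw [h2]
  rcases lt_or_ge u 0 with h0 | h0
  · rw [h.q_neg h0]; exact (h.q_mem v).1
  rcases lt_or_ge 1 v with h1 | h1
  · rw [h.q_gt h1]; exact (h.q_mem u).2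
  exact (h.q_strict h0 h2 h1).le

/-- comparison of a point with a quantile -/
theorem le_q_iff (h : Cpt σ a b) {x u : ℝ} (hx : x ∈ Set.Icc a b) (h0 : 0 ≤ u) (h1 : u ≤ 1) :
    x ≤ qf σ a b u ↔ HH σ x ≤ u := by
  have := h.prob
  constructor
  · intro h2
    have := HH_mono σ h2
    rwa [h.H_q h0 h1] at this
  · intro h2
    have := h.q_le h2
    rwa [h.q_H hx] at this

theorem lt_q_iff (h : Cpt σ a b) {x u : ℝ} (hx : x ∈ Set.Icc a b) (h0 : 0 ≤ u) (h1 : u ≤ 1) :
    x < qf σ a b u ↔ HH σ x < u := by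
  constructor
  · intro h2
    have h3 := h.H_strict hx.1 h2 (h.q_mem u).2
    rwa [h.H_q h0 h1] at h3
  · intro h2
    by_contra hcon
    push Not at hcon
    have := h.prob
    have h3 := HH_mono σ hcon
    rw [h.H_q h0 h1] at h3
    linarith

theorem q_le_iff (h : Cpt σ a b) {x u : ℝ} (hx : x ∈ Set.Icc a b) (h0 : 0 ≤ u) (h1 : u ≤ 1) :
    qf σ a b u ≤ x ↔ u ≤ HH σ x := by
  rw [← not_lt, h.lt_q_iff hx h0 h1, not_lt]

theorem q_lt_iff (h : Cpt σ a b) {x u : ℝ} (hx : x ∈ Set.Icc a b) (h0 : 0 ≤ u) (h1 : u ≤ 1) :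
    qf σ a b u < x ↔ u < HH σ x := by
  rw [← not_le, h.le_q_iff hx h0 h1, not_le]

/-- The law of `H`. -/
theorem law (h : Cpt σ a b) {u v : ℝ} (h0 : 0 ≤ u) (huv : u ≤ v) (h1 : v ≤ 1) :
    σ.real {x | u < HH σ x ∧ HH σ x ≤ v} = v - u := by
  have := h.prob
  have e : σ.real {x | u < HH σ x ∧ HH σ x ≤ v} = σ.real (Set.Ioc (qf σ a b u) (qf σ a b v)) := by
    apply measureReal_congr
    have hae : ∀ᵐ x ∂σ, x ∈ Set.Icc a b := by
      rw [ae_iff]
      exact h.supp
    filter_upwards [hae] with x hx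
    rw [eq_iff_iff]
    show (u < HH σ x ∧ HH σ x ≤ v) ↔ (qf σ a b u < x ∧ x ≤ qf σ a b v)
    rw [h.q_lt_iff hx h0 (huv.trans h1), h.le_q_iff hx (h0.trans huv) h1]
  rw [e, ← HH_sub σ (h.q_le huv), h.H_q (h0.trans huv) h1, h.H_q h0 (huv.trans h1)]

theorem ae_mem (h : Cpt σ a b) : ∀ᵐ x ∂σ, x ∈ Set.Icc a b := by
  rw [ae_iff]
  exact h.supp

/-- Level sets are null. -/
theorem level_null (h : Cpt σ a b) (u : ℝ) : σ {x | HH σ x = u} = 0 := by
  have := h.prob
  by_cases hu : 0 ≤ u ∧ u ≤ 1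
  · have h1 : {x | HH σ x = u} ⊆ (Set.Icc a b)ᶜ ∪ {qf σ a b u} := by
      intro x hx
      by_cases h2 : x ∈ Set.Icc a b
      · right
        have h3 := h.q_H h2
        rw [show HH σ x = u from hx] at h3
        exact h3.symm
      · left; exact h2
    exact measure_mono_null h1 (measure_union_null h.supp (h.noatom _))
  · have : {x | HH σ x = u} = ∅ := by
      ext x
      simp only [Set.mem_ofPred_eq, Set.mem_empty_iff_false, iff_false]
      intro hx
      apply hu
      rw [← hx]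
      exact ⟨HH_nonneg σ x, HH_le_one σ x⟩
    rw [this, measure_empty]

/-- Uniform continuity of the quantile function. -/
theorem q_unif (h : Cpt σ a b) {ε : ℝ} (hε : 0 < ε) :
    ∃ δ > 0, ∀ u v, 0 ≤ u → u ≤ 1 → 0 ≤ v → v ≤ 1 → |u - v| < δ →
      |qf σ a b u - qf σ a b v| < ε := by
  have := h.prob
  have hc := HH_continuous σ h.noatom
  let K : Set (ℝ × ℝ) := (Set.Icc a b ×ˢ Set.Icc a b) ∩ {p | ε ≤ |p.1 - p.2|}
  have hK : IsCompact K := by
    refine (isCompact_Icc.prod isCompact_Icc).inter_right ?_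
    exact isClosed_le continuous_const (by fun_prop)
  rcases K.eq_empty_or_nonempty with hem | hne
  · refine ⟨1, one_pos, fun u v _ _ _ _ _ => ?_⟩
    by_contra hcon
    push Not at hcon
    have : (qf σ a b u, qf σ a b v) ∈ K := ⟨⟨h.q_mem u, h.q_mem v⟩, hcon⟩
    rw [hem] at this
    exact this
  · obtain ⟨p, hp, hmin⟩ := hK.exists_isMinOn hne
      (f := fun p : ℝ × ℝ => |HH σ p.1 - HH σ p.2|) (by fun_prop)
    have hpos : 0 < |HH σ p.1 - HH σ p.2| := by
      rw [abs_pos, sub_ne_zero]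
      intro heq
      have h1 := h.H_inj hp.1.1 hp.1.2 heq
      have h2 : ε ≤ |p.1 - p.2| := hp.2
      rw [h1, sub_self, abs_zero] at h2
      linarith
    refine ⟨_, hpos, fun u v hu0 hu1 hv0 hv1 huv => ?_⟩
    by_contra hcon
    push Not at hcon
    have h1 : (qf σ a b u, qf σ a b v) ∈ K := ⟨⟨h.q_mem u, h.q_mem v⟩, hcon⟩
    have h2 := isMinOn_iff.1 hmin _ h1
    simp only [h.H_q hu0 hu1, h.H_q hv0 hv1] at h2
    linarith

/-- symmetric measures -/
theorem H_neg (h : Cpt σ a b) (hsym : σ.map (fun x => -x) = σ) (x : ℝ) :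
    HH σ (-x) = 1 - HH σ x := by
  have := h.prob
  have h1 : σ.real (Set.Iic (-x)) = σ.real (Set.Ici x) := by
    have h2 : σ (Set.Iic (-x)) = σ (Set.Ici x) := by
      conv_rhs => rw [← hsym]
      rw [Measure.map_apply measurable_neg measurableSet_Ici]
      congr 1
      ext y
      simp only [Set.mem_Iic, Set.mem_preimage, Set.mem_Ici]
      constructor <;> intro h <;> linarith
    rw [Measure.real, h2]
    rfl
  have h3 : σ.real (Set.Ici x) = σ.real (Set.Ioi x) := by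
    apply measureReal_congr
    have h4 : ∀ᵐ y ∂σ, y ≠ x := by
      rw [ae_iff]
      simpa using h.noatom x
    filter_upwards [h4] with y hy
    rw [eq_iff_iff]
    exact ⟨fun h => lt_of_le_of_ne h hy.symm, fun h => (show x < y from h).le⟩
  have h5 : σ.real (Set.Iic x) + σ.real (Set.Ioi x) = 1 := by
    rw [← Set.compl_Iic, measureReal_add_measureReal_compl measurableSet_Iic]
    simp
  unfold HH
  rw [h1, h3]
  linarith

theorem q_symm (h : Cpt σ a b) (hsym : σ.map (fun x => -x) = σ) (hab : a = -b) (u : ℝ) :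
    qf σ a b (1 - u) = - qf σ a b u := by
  rcases lt_or_ge u 0 with h0 | h0
  · rw [h.q_neg h0, h.q_gt (by linarith), hab, neg_neg]
  rcases lt_or_ge 1 u with h1 | h1
  · rw [h.q_gt h1, h.q_neg (by linarith), hab]
  have h2 := h.q_spec h0 h1
  have h3 := h.q_spec (u := 1 - u) (by linarith) (by linarith)
  apply h.H_inj h3.1
  · obtain ⟨h4, h5⟩ := h2.1
    constructor <;> linarith
  · rw [h3.2, h.H_neg hsym, h2.2]

end Cpt

end Pool.Agent.Lib.MP_8d00da_gt
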