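import Pool.Agent.Lib.MP_8d00da_gt.Limit

/-!
# Discretization schemes for product measures

`Scheme b ρ κ` is a sequence of discretizations of a probability measure `ρ` on the line by cells
of equal mass, with rates adapted to the distances of the sample points and with a discrete gap
tending to `κ`.
-/

open Finset MeasureTheory Filter Topology

namespace Pool.Agent.Lib.MP_8d00da_gt

structure Scheme (b : Bool) (ρ : Measure ℝ) (κ : ℝ) where
  ix : ℕ → ℝ → ℤ
  Y : ℕ → ℤ → ℝ
  w : ℕ → ℝ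
  r : ℕ → ℕ → ℝ
  W : ℕ → ℤ → ℝ
  κm : ℕ → ℝ
  meas : ∀ m, Measurable (ix m)
  w_nonneg : ∀ m, 0 ≤ w m
  mass : ∀ m v, Site m v → (b = true → 0 < v) → ρ.real (ix m ⁻¹' {v}) = w m
  κm_nonneg : ∀ m, 0 ≤ κm m
  κm_lim : Tendsto κm atTop (𝓝 κ)
  r_nonneg : ∀ m k, 0 ≤ r m k
  r_zero : b = true → ∀ m, r m 0 = 0
  W_odd : ∀ m v, W m (-v) = - W m v
  wt_pos : ∀ m, ∀ k < m, (b = true → 1 ≤ k) → 0 < wt (W m) k
  gen_le : ∀ m p q, Site m p → Site m q → p < q → (b = true → 0 < p) →
      genW m (r m) (W m) q - genW m (r m) (W m) p ≤ -κm m * (W m q - W m p)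
  rY : ∀ m k, k < m → (b = true → 1 ≤ k) → r m k * (Y m (2 * k + 1) - Y m (2 * k - 1)) ^ 2 ≤ 1
  Y_odd : b = false → ∀ m v, Y m (-v) = - Y m v
  lim0 : ∀ᵐ x ∂ρ, Tendsto (fun m => Y m (ix m x)) atTop (𝓝 x)
  limp : ∀ᵐ x ∂ρ, Tendsto (fun m => Y m (ix m x + 2)) atTop (𝓝 x)
  limm : ∀ᵐ x ∂ρ, Tendsto (fun m => Y m (ix m x - 2)) atTop (𝓝 x)
  nep : ∀ᵐ x ∂ρ, ∀ᶠ m in atTop, Y m (ix m x + 2) ≠ Y m (ix m x)
  nem : ∀ᵐ x ∂ρ, ∀ᶠ m in atTop, Y m (ix m x - 2) ≠ Y m (ix m x)

variable {ι : Type*}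

/-- difference quotient in the direction of a coordinate -/
noncomputable def dq [DecidableEq ι] (F : (ι → ℝ) → ℝ) (y : ι → ℝ) (i : ι) (s : ℝ) : ℝ :=
  (F (Function.update y i (y i + s)) - F y) / s

theorem abs_dq_le [Fintype ι] [DecidableEq ι] {F : (ι → ℝ) → ℝ} {L : NNReal} (hF : LipschitzWith L F)
    (y : ι → ℝ) (i : ι) (s : ℝ) : |dq F y i s| ≤ L := by
  unfold dq
  rw [abs_div]
  rcases eq_or_ne s 0 with rfl | hs
  · simp
  · have h1 := hF.dist_le_mul (Function.update y i (y i + s)) y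
    have h2 : dist (Function.update y i (y i + s)) y ≤ |s| := by
      rw [dist_pi_le_iff (abs_nonneg s)]
      intro j
      by_cases hj : j = i
      · subst hj; rw [Function.update_self, Real.dist_eq, add_sub_cancel_left]
      · rw [Function.update_of_ne hj, dist_self]; exact abs_nonneg s
    rw [Real.dist_eq] at h1
    rw [div_le_iff₀ (abs_pos.2 hs)]
    exact h1.trans (mul_le_mul_of_nonneg_left h2 L.coe_nonneg)

theorem sq_update_le [DecidableEq ι] {F : (ι → ℝ) → ℝ} {y : ι → ℝ} {i : ι} {s r : ℝ}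
    (h : r * s ^ 2 ≤ 1) : r * (F (Function.update y i (y i + s)) - F y) ^ 2 ≤ dq F y i s ^ 2 := by
  unfold dq
  rcases eq_or_ne s 0 with rfl | hs
  · simp
  · have e : r * (F (Function.update y i (y i + s)) - F y) ^ 2 =
        (r * s ^ 2) * ((F (Function.update y i (y i + s)) - F y) / s) ^ 2 := by
      field_simp
    rw [e]
    have := sq_nonneg ((F (Function.update y i (y i + s)) - F y) / s)
    nlinarith

/-- The difference quotients of a `C¹` function converge. -/
theorem tendsto_dq [Fintype ι] [DecidableEq ι] {F : (ι → ℝ) → ℝ} (hF : ContDiff ℝ 1 F) {x : ι → ℝ}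
    {y : ℕ → ι → ℝ} {s : ℕ → ℝ} (hy : Tendsto y atTop (𝓝 x)) (hs : Tendsto s atTop (𝓝 0))
    (hs0 : ∀ᶠ m in atTop, s m ≠ 0) (i : ι) :
    Tendsto (fun m => dq F (y m) i (s m)) atTop (𝓝 (fderiv ℝ F x (Pi.single i 1))) := by
  have hst : HasStrictFDerivAt F (fderiv ℝ F x) x :=
    hF.contDiffAt.hasStrictFDerivAt one_ne_zero
  rw [hasStrictFDerivAt_iff_isLittleO] at hst
  have hu : ∀ m, Function.update (y m) i (y m i + s m) = y m + s m • (Pi.single i 1 : ι → ℝ) := by
    intro m
    funext j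
    by_cases hj : j = i
    · subst hj; simp
    · simp [Function.update_of_ne hj, Pi.single_eq_of_ne hj]
  have h1 : Tendsto (fun m => (y m + s m • (Pi.single i 1 : ι → ℝ), y m)) atTop (𝓝 (x, x)) := by
    rw [nhds_prod_eq]
    refine Tendsto.prodMk ?_ hy
    have := hy.add (hs.smul_const (Pi.single i 1 : ι → ℝ))
    simpa using this
  have h2 := hst.comp_tendsto h1
  rw [Asymptotics.isLittleO_iff] at h2
  rw [Metric.tendsto_atTop]
  intro ε hε
  have h3 := h2 (half_pos hε)
  rw [eventually_atTop] at h3 hs0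
  obtain ⟨N1, hN1⟩ := h3
  obtain ⟨N2, hN2⟩ := hs0
  refine ⟨max N1 N2, fun m hm => ?_⟩
  have h4 := hN1 m (le_of_max_le_left hm)
  have h5 := hN2 m (le_of_max_le_right hm)
  simp only [Function.comp, add_sub_cancel_left, map_smul] at h4
  have h6 : ‖s m • (Pi.single i 1 : ι → ℝ)‖ ≤ |s m| := by
    rw [norm_smul, Real.norm_eq_abs]
    have : ‖(Pi.single i 1 : ι → ℝ)‖ ≤ 1 := by
      rw [pi_norm_le_iff_of_nonneg zero_le_one]
      intro j
      by_cases hj : j = i
      · subst hj; simp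
      · simp [Pi.single_eq_of_ne hj]
    have := mul_le_mul_of_nonneg_left this (abs_nonneg (s m))
    linarith
  rw [Real.dist_eq, dq, hu]
  have e : (F (y m + s m • (Pi.single i 1 : ι → ℝ)) - F (y m)) / s m -
      fderiv ℝ F x (Pi.single i 1) =
      (F (y m + s m • (Pi.single i 1 : ι → ℝ)) - F (y m) -
        s m • fderiv ℝ F x (Pi.single i 1)) / s m := by
    rw [smul_eq_mul]
    field_simp
  rw [e, abs_div, div_lt_iff₀ (abs_pos.2 h5)]
  rw [Real.norm_eq_abs] at h4
  have h7 := h4.trans (mul_le_mul_of_nonneg_left h6 (half_pos hε).le)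
  have h8 : 0 < |s m| := abs_pos.2 h5
  nlinarith

open Classical in
/-- Energy of a function at a state, with rates. -/
theorem energy_le' [Fintype ι] [DecidableEq ι] {b : Bool} {m : ℕ}
    {E : Set ((ι × Bool) × (ι × Bool))} {v : ι → ℤ} (hv : Valid m E v)
    (r : ℕ → ℝ) (hr0 : b = true → r 0 = 0)
    (f : (ι → ℤ) → ℝ) (A : ι → ℤ → ℝ) (hA0 : ∀ i u, 0 ≤ A i u)
    (hA : ∀ k < m, (b = true → 1 ≤ k) → ∀ i,
      r k * (f (Function.update v i (mv k (v i))) - f v) ^ 2 ≤ A i (mv k (v i)))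
    {B : ℝ} (hB0 : 0 ≤ B)
    (hB : ∀ k < m, (b = true → 1 ≤ k) → r k * (f (mvS k v) - f v) ^ 2 ≤ B) :
    ∑ k ∈ range m, r k * (f (stp m E k v) - f v) ^ 2 ≤
      ∑ i, (A i (v i + 2) + A i (v i - 2)) +
      (if Bad v then 2 * Fintype.card ι * B else 0) := by
  set c : ℝ := if Bad v then B else 0 with hc
  have hc0 : 0 ≤ c := by
    rw [hc]; split_ifs
    · exact hB0
    · exact le_rfl
  let φ : ι → ℤ → ℝ := fun i w => A i w + c
  have hφ : ∀ i w, 0 ≤ φ i w := fun i w => add_nonneg (hA0 i w) hc0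
  have hk : ∀ k ∈ range m, r k * (f (stp m E k v) - f v) ^ 2 ≤
      ∑ i, (if mv k (v i) ≠ v i then φ i (mv k (v i)) else 0) := by
    intro k hk
    have hk' := Finset.mem_range.1 hk
    have hnn : ∀ i ∈ (Finset.univ : Finset ι),
        0 ≤ (if mv k (v i) ≠ v i then φ i (mv k (v i)) else 0) := by
      intro i _
      split_ifs
      · exact hφ _ _
      · exact le_rfl
    by_cases hs : stp m E k v = v
    · rw [hs, sub_self, zero_pow two_ne_zero, mul_zero]
      exact Finset.sum_nonneg hnn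
    by_cases hkb : b = true → 1 ≤ k
    swap
    · push Not at hkb
      obtain ⟨hb, hk0⟩ := hkb
      have hk0' : k = 0 := by omega
      subst hk0'
      rw [hr0 hb, zero_mul]
      exact Finset.sum_nonneg hnn
    · have hs' : stp m E k v = mvS k v := by
        by_cases h : Valid m E (mvS k v)
        · exact stp_of_valid h
        · exact absurd (stp_of_not_valid h) hs
      rw [hs'] at hs ⊢
      obtain ⟨i, hi⟩ := Function.ne_iff.1 hs
      have hi' : mv k (v i) ≠ v i := hi
      refine le_trans ?_ (Finset.single_le_sum hnn (Finset.mem_univ i))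
      rw [if_pos hi']
      by_cases hbad : Bad v
      · have : c = B := by rw [hc, if_pos hbad]
        simp only [φ, this]
        have := hB k hk' hkb
        have := hA0 i (mv k (v i))
        linarith
      · have huniq : ∀ j, j ≠ i → mv k (v j) = v j := by
          intro j hj
          by_contra hcon
          apply hbad
          obtain ⟨h1, h2⟩ := hv.inj j i hj
          have h3 : |v j| ≠ |v i| := by
            intro h
            rcases abs_eq_abs.1 h with h | h
            · exact h1 h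
            · exact h2 h
          have h4 := mv_ne_abs hcon
          have h5 := mv_ne_abs hi'
          rcases Nat.eq_zero_or_pos k with hk0 | hkpos
          · subst hk0
            exfalso
            simp at h4 h5
            omega
          · have h6 : |2 * (k : ℤ) - 1| = 2 * (k : ℤ) - 1 := abs_of_nonneg (by omega)
            rw [h6] at h4 h5
            rcases h4 with h4 | h4 <;> rcases h5 with h5 | h5
            · omega
            · exact ⟨j, i, by omega⟩
            · exact ⟨i, j, by omega⟩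
            · omega
        have : mvS k v = Function.update v i (mv k (v i)) := by
          funext j
          by_cases hj : j = i
          · subst hj
            simp [mvS]
          · rw [Function.update_of_ne hj]
            exact huniq j hj
        rw [this]
        simp only [φ]
        have := hA k hk' hkb i
        linarith
  refine (Finset.sum_le_sum hk).trans ?_
  rw [Finset.sum_comm]
  have h2 : ∀ i ∈ (Finset.univ : Finset ι), ∑ k ∈ range m, (if mv k (v i) ≠ v i then φ i (mv k (v i)) else 0) ≤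
      (A i (v i + 2) + A i (v i - 2)) + 2 * c := by
    intro i _
    refine (sum_mv_le m (hv.site i).1 (φ i) (hφ i)).trans (le_of_eq ?_)
    simp only [φ]
    ring
  refine (Finset.sum_le_sum h2).trans (le_of_eq ?_)
  rw [Finset.sum_add_distrib, Finset.sum_const, Finset.card_univ, nsmul_eq_mul]
  congr 1
  rw [hc]
  split_ifs
  · ring
  · ring

theorem abs_step_le {b : Bool} {Y : ℤ → ℝ} (hY : b = false → ∀ v, Y (-v) = - Y v) {k : ℕ} {u : ℤ}
    (hk : b = true → 1 ≤ k) (hu : b = true → 0 < u) :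
    |Y (mv k u) - Y u| ≤ |Y (2 * k + 1) - Y (2 * k - 1)| := by
  have hodd : ∀ v : ℤ, v ≤ 0 → u ≤ 0 → Y (-v) = - Y v := by
    intro v _ hu0
    cases b
    · exact hY rfl v
    · exact absurd (hu rfl) (by omega)
  rcases mv_cases k u with ⟨h1, h2⟩ | ⟨h1, h2⟩ | ⟨h1, h2⟩ | ⟨h1, h2⟩ | ⟨-, -, -, -, h2⟩
  · rw [h2, h1, show (2 * (k : ℤ) - 1 + 2) = 2 * (k : ℤ) + 1 by ring]
  · have hu0 : u ≤ 0 := by omega
    cases b
    · have e1 : Y (2 * k + 1) = - Y u := by
        rw [← hY rfl, h1]; congr 1; ring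
      have e2 : Y (2 * k - 1) = - Y (u + 2) := by
        rw [← hY rfl, h1]; congr 1; ring
      rw [h2, e1, e2]
      apply le_of_eq
      congr 1; ring
    · exact absurd (hu rfl) (by omega)
  · rw [h2, h1, show (2 * (k : ℤ) + 1 - 2) = 2 * (k : ℤ) - 1 by ring, abs_sub_comm]
  · cases b
    · have e1 : Y (2 * k + 1) = - Y (u - 2) := by
        rw [← hY rfl, h1]; congr 1; ring
      have e2 : Y (2 * k - 1) = - Y u := by
        rw [← hY rfl, h1]; congr 1; ring
      rw [h2, e1, e2]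
      rw [abs_sub_comm]
      apply le_of_eq
      congr 1; ring
    · have := hu rfl
      have := hk rfl
      omega
  · rw [h2, sub_self, abs_zero]
    exact abs_nonneg _

/-- The squared difference quotients at a state. -/
noncomputable def Qs [Fintype ι] [DecidableEq ι] (Y : ℤ → ℝ) (F : (ι → ℝ) → ℝ) (v : ι → ℤ) : ℝ :=
  ∑ i, (dq F (fun j => Y (v j)) i (Y (v i + 2) - Y (v i)) ^ 2 +
    dq F (fun j => Y (v j)) i (Y (v i - 2) - Y (v i)) ^ 2)

open Classical in
theorem energy_sample [Fintype ι] [DecidableEq ι] {b : Bool} {m : ℕ}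
    {E : Set ((ι × Bool) × (ι × Bool))} {v : ι → ℤ} (hv : Valid m E v)
    (hpos : b = true → ∀ i, 0 < v i)
    {r : ℕ → ℝ} (hr : ∀ k, 0 ≤ r k) (hr0 : b = true → r 0 = 0) {Y : ℤ → ℝ}
    (hY : b = false → ∀ v, Y (-v) = - Y v)
    (hrY : ∀ k : ℕ, k < m → (b = true → 1 ≤ k) → r k * (Y (2 * k + 1) - Y (2 * k - 1)) ^ 2 ≤ 1)
    {F : (ι → ℝ) → ℝ} {L : NNReal} (hF : LipschitzWith L F) :
    ∑ k ∈ range m, r k * (F (fun j => Y (stp m E k v j)) - F (fun j => Y (v j))) ^ 2 ≤
      Qs Y F v + (if Bad v then 2 * Fintype.card ι * (L : ℝ) ^ 2 else 0) := by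
  have hstep : ∀ k : ℕ, k < m → (b = true → 1 ≤ k) → ∀ i,
      r k * (Y (mv k (v i)) - Y (v i)) ^ 2 ≤ 1 := by
    intro k hk hkb i
    have h1 := abs_step_le hY hkb (fun hb => hpos hb i) (u := v i)
    have h2 : (Y (mv k (v i)) - Y (v i)) ^ 2 ≤ (Y (2 * k + 1) - Y (2 * k - 1)) ^ 2 :=
      sq_le_sq.2 h1
    exact (mul_le_mul_of_nonneg_left h2 (hr k)).trans (hrY k hk hkb)
  refine energy_le' (b := b) hv r hr0 (fun v => F (fun j => Y (v j)))
    (fun i u => dq F (fun j => Y (v j)) i (Y u - Y (v i)) ^ 2) (fun i u => sq_nonneg _) ?_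
    (sq_nonneg _) ?_
  · intro k hk hkb i
    have e : (fun j => Y (Function.update v i (mv k (v i)) j)) =
        Function.update (fun j => Y (v j)) i (Y (v i) + (Y (mv k (v i)) - Y (v i))) := by
      funext j
      by_cases hj : j = i
      · subst hj; simp
      · simp [Function.update_of_ne hj]
    rw [e]
    exact sq_update_le (hstep k hk hkb i)
  · intro k hk hkb
    have h1 : |F (fun j => Y (mvS k v j)) - F (fun j => Y (v j))| ≤
        L * |Y (2 * k + 1) - Y (2 * k - 1)| := by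
      rw [← Real.dist_eq]
      refine (hF.dist_le_mul _ _).trans (mul_le_mul_of_nonneg_left ?_ L.coe_nonneg)
      rw [dist_pi_le_iff (abs_nonneg _)]
      intro j
      rw [Real.dist_eq]
      exact abs_step_le hY hkb (fun hb => hpos hb j)
    have h2 : (F (fun j => Y (mvS k v j)) - F (fun j => Y (v j))) ^ 2 ≤
        (L * |Y (2 * k + 1) - Y (2 * k - 1)|) ^ 2 := by
      rw [← sq_abs]
      exact pow_le_pow_left₀ (abs_nonneg _) h1 2
    rw [mul_pow, sq_abs] at h2
    have h3 := hrY k hk hkb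
    have h4 := hr k
    have h5 : (0 : ℝ) ≤ (L : ℝ) ^ 2 := sq_nonneg _
    calc r k * (F (fun j => Y (mvS k v j)) - F (fun j => Y (v j))) ^ 2
        ≤ r k * ((L : ℝ) ^ 2 * (Y (2 * k + 1) - Y (2 * k - 1)) ^ 2) :=
          mul_le_mul_of_nonneg_left h2 h4
      _ = (L : ℝ) ^ 2 * (r k * (Y (2 * k + 1) - Y (2 * k - 1)) ^ 2) := by ring
      _ ≤ (L : ℝ) ^ 2 * 1 := mul_le_mul_of_nonneg_left h3 h5
      _ = (L : ℝ) ^ 2 := mul_one _

end Pool.Agent.Lib.MP_8d00da_gt
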