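import Pool.Agent.Lib.MP_8d00da_gt.Scheme

/-!
# The limit along a discretization scheme
-/

open Finset MeasureTheory Filter Topology

namespace Pool.Agent.Lib.MP_8d00da_gt

variable {ι : Type*} [Fintype ι] [DecidableEq ι] {b : Bool} {ρ : Measure ℝ} {κ : ℝ}

/-- The product measure. -/
noncomputable abbrev prodM (ι : Type*) [Fintype ι] (ρ : Measure ℝ) : Measure (ι → ℝ) := Measure.pi fun _ => ρ

/-- The index vector. -/
def Scheme.ixv (S : Scheme b ρ κ) (m : ℕ) (x : ι → ℝ) : ι → ℤ := fun i => S.ix m (x i)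

/-- The union of the cells of valid states. -/
def Scheme.U (S : Scheme b ρ κ) (E : Set ((ι × Bool) × (ι × Bool))) (m : ℕ) : Set (ι → ℝ) :=
  {x | Valid m E (S.ixv m x)}

/-- The bad part. -/
def Scheme.B (S : Scheme b ρ κ) (m : ℕ) : Set (ι → ℝ) := {x | Bad (S.ixv m x)}

theorem Scheme.measurable_ixv (S : Scheme b ρ κ) (m : ℕ) :
    Measurable (S.ixv m : (ι → ℝ) → ι → ℤ) :=
  measurable_pi_iff.2 fun i => (S.meas m).comp (measurable_pi_apply i)

theorem Scheme.measurableSet_U (S : Scheme b ρ κ) (E : Set ((ι × Bool) × (ι × Bool))) (m : ℕ) :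
    MeasurableSet (S.U E m) :=
  S.measurable_ixv m (show MeasurableSet {v : ι → ℤ | Valid m E v} from
    (Set.to_countable _).measurableSet)

theorem Scheme.measurableSet_B (S : Scheme b ρ κ) (m : ℕ) :
    MeasurableSet (S.B m : Set (ι → ℝ)) :=
  S.measurable_ixv m (show MeasurableSet {v : ι → ℤ | Bad v} from
    (Set.to_countable _).measurableSet)

theorem Scheme.measurable_comp (S : Scheme b ρ κ) (m : ℕ) (Φ : (ι → ℤ) → ℝ) :
    Measurable fun x : ι → ℝ => Φ (S.ixv m x) :=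
  (measurable_of_countable Φ).comp (S.measurable_ixv m)

theorem Scheme.cell_mass [IsProbabilityMeasure ρ] (S : Scheme b ρ κ) {m : ℕ} {v : ι → ℤ}
    (hv : ∀ i, Site m (v i)) (hpos : b = true → ∀ i, 0 < v i) :
    (prodM ι ρ).real (S.ixv m ⁻¹' {v}) = S.w m ^ Fintype.card ι := by
  have e : (S.ixv m ⁻¹' {v} : Set (ι → ℝ)) = Set.pi Set.univ fun i => S.ix m ⁻¹' {v i} := by
    ext x
    simp only [Set.mem_preimage, Set.mem_singleton_iff, Set.mem_pi, Set.mem_univ, forall_true_left]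
    constructor
    · intro h i; exact congrFun h i
    · intro h; funext i; exact h i
  rw [e, Measure.real, Measure.pi_pi, ENNReal.toReal_prod]
  have h : ∀ i : ι, (ρ (S.ix m ⁻¹' {v i})).toReal = S.w m := fun i =>
    S.mass m (v i) (hv i) (fun hb => hpos hb i)
  rw [Finset.prod_congr rfl fun i _ => h i, Finset.prod_const, Finset.card_univ]

/-- Integral of a function of the index over a finite set of indices. -/
theorem Scheme.integral_ix [IsProbabilityMeasure ρ] (S : Scheme b ρ κ) {m : ℕ}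
    (T : Finset (ι → ℤ)) (hT : ∀ v ∈ T, ∀ i, Site m (v i))
    (hpos : b = true → ∀ v ∈ T, ∀ i, 0 < v i) (Φ : (ι → ℤ) → ℝ) :
    ∫ x in {x | S.ixv m x ∈ T}, Φ (S.ixv m x) ∂(prodM ι ρ) =
      S.w m ^ Fintype.card ι * ∑ v ∈ T, Φ v := by
  have e : {x : ι → ℝ | S.ixv m x ∈ T} = ⋃ v ∈ T, S.ixv m ⁻¹' {v} := by
    ext x
    simp
  have hm : ∀ v : ι → ℤ, MeasurableSet (S.ixv m ⁻¹' {v} : Set (ι → ℝ)) := fun v =>
    S.measurable_ixv m (MeasurableSet.singleton v)
  have hc : ∀ v : ι → ℤ, Set.EqOn (fun x : ι → ℝ => Φ (S.ixv m x)) (fun _ => Φ v)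
      (S.ixv m ⁻¹' {v}) := by
    intro v x hx
    have : S.ixv m x = v := hx
    simp only [this]
  rw [e, integral_biUnion_finset T (fun v _ => hm v) ?_ ?_, Finset.mul_sum]
  · refine Finset.sum_congr rfl fun v hv => ?_
    rw [setIntegral_congr_fun (hm v) (hc v), setIntegral_const, smul_eq_mul,
      S.cell_mass (hT v hv) (fun hb => hpos hb v hv)]
  · intro v _ w _ hvw
    rw [Function.onFun, Set.disjoint_left]
    intro z hz hw
    exact hvw ((show S.ixv m z = v from hz).symm.trans (show S.ixv m z = w from hw))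
  · intro v _
    rw [integrableOn_congr_fun (hc v) (hm v)]
    exact integrableOn_const (measure_ne_top _ _)

/-- **Discrete Poincaré inequality**, variance form with rates. -/
theorem discrete_var' (b : Bool) {m : ℕ}
    {E : Set ((ι × Bool) × (ι × Bool))} {r : ℕ → ℝ} {W : ℤ → ℝ} {κ : ℝ} (hκ : 0 ≤ κ)
    (hpos : b = true → ∀ x : ι → ℤ, Valid m E x → ∀ i, 0 < x i)
    (hr : ∀ k, 0 ≤ r k) (hr0 : b = true → r 0 = 0) (hW : ∀ v, W (-v) = - W v)
    (hwt : ∀ k < m, (b = true → 1 ≤ k) → 0 < wt W k)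
    (hG : ∀ p q, Site m p → Site m q → p < q → (b = true → 0 < p) →
      genW m r W q - genW m r W p ≤ -κ * (W q - W p))
    (f : (ι → ℤ) → ℝ) :
    κ * ((states m E).card * ∑ x ∈ states m E, f x ^ 2 - (∑ x ∈ states m E, f x) ^ 2) ≤
      (states m E).card *
        ((∑ x ∈ states m E, ∑ k ∈ range m, r k * (f (stp m E k x) - f x) ^ 2) / 2) := by
  rcases (states m E).eq_empty_or_nonempty with h | h
  · rw [h]
    simp
  set S := states m E with hS
  set N : ℝ := (S.card : ℝ) with hN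
  have hNpos : 0 < N := by
    rw [hN]
    exact_mod_cast Finset.card_pos.2 h
  set a : ℝ := (∑ x ∈ S, f x) / N with ha
  have hsum : ∑ x ∈ S, (f x - a) = 0 := by
    rw [Finset.sum_sub_distrib, Finset.sum_const, nsmul_eq_mul, ha, ← hN]
    field_simp
    ring
  have h1 := discrete_poincare b (E := E) hκ hpos hr hr0 hW hwt hG (fun x => f x - a) hsum
  have h2 : ∑ x ∈ S, (f x - a) ^ 2 = ∑ x ∈ S, f x ^ 2 - (∑ x ∈ S, f x) ^ 2 / N := by
    have h3 : ∀ x ∈ S, (f x - a) ^ 2 = f x ^ 2 - 2 * a * f x + a ^ 2 := fun x _ => by ring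
    rw [Finset.sum_congr rfl h3, Finset.sum_add_distrib, Finset.sum_sub_distrib, ← Finset.mul_sum,
      Finset.sum_const, nsmul_eq_mul, ← hN, ha]
    field_simp
    ring
  have h4 : ∑ k ∈ range m, r k * ∑ x ∈ S, ((fun x => f x - a) (stp m E k x) -
      (fun x => f x - a) x) ^ 2 = ∑ x ∈ S, ∑ k ∈ range m, r k * (f (stp m E k x) - f x) ^ 2 := by
    rw [Finset.sum_comm]
    refine Finset.sum_congr rfl fun k _ => ?_
    rw [Finset.mul_sum]
    exact Finset.sum_congr rfl fun x _ => by ring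
  rw [h4, h2] at h1
  have h5 := mul_le_mul_of_nonneg_left h1 hNpos.le
  calc κ * (N * ∑ x ∈ S, f x ^ 2 - (∑ x ∈ S, f x) ^ 2)
      = N * (κ * (∑ x ∈ S, f x ^ 2 - (∑ x ∈ S, f x) ^ 2 / N)) := by
        field_simp
    _ ≤ _ := h5

open Classical in
theorem Scheme.finite_ineq [IsProbabilityMeasure ρ] (S : Scheme b ρ κ)
    (E : Set ((ι × Bool) × (ι × Bool))) (m : ℕ)
    (hpos : b = true → ∀ x : ι → ℤ, Valid m E x → ∀ i, 0 < x i)
    {F : (ι → ℝ) → ℝ} {L : NNReal} (hF : LipschitzWith L F) :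
    S.κm m * ((prodM ι ρ).real (S.U E m) *
        (∫ x in S.U E m, F (fun j => S.Y m (S.ixv m x j)) ^ 2 ∂(prodM ι ρ)) -
        (∫ x in S.U E m, F (fun j => S.Y m (S.ixv m x j)) ∂(prodM ι ρ)) ^ 2) ≤
      (prodM ι ρ).real (S.U E m) * ((∫ x in S.U E m, Qs (S.Y m) F (S.ixv m x) ∂(prodM ι ρ)) / 2 +
        Fintype.card ι * (L : ℝ) ^ 2 * (prodM ι ρ).real (S.U E m ∩ S.B m)) := by
  set T := states m E with hT
  set c : ℝ := S.w m ^ Fintype.card ι with hc
  set f : (ι → ℤ) → ℝ := fun v => F (fun j => S.Y m (v j)) with hf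
  have hsite : ∀ v ∈ T, ∀ i, Site m (v i) := fun v hv => (mem_states.1 hv).site
  have hTpos : b = true → ∀ v ∈ T, ∀ i, 0 < v i := fun hb v hv => hpos hb v (mem_states.1 hv)
  have hU : S.U E m = {x | S.ixv m x ∈ T} := by
    ext x
    exact mem_states.symm
  have hsum : ∀ Φ : (ι → ℤ) → ℝ, ∫ x in S.U E m, Φ (S.ixv m x) ∂(prodM ι ρ) = c * ∑ v ∈ T, Φ v := by
    intro Φ
    rw [hU, S.integral_ix T hsite hTpos]
  have hvol : (prodM ι ρ).real (S.U E m) = c * T.card := by
    have h1 := hsum fun _ => 1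
    rw [setIntegral_const, smul_eq_mul, mul_one, Finset.sum_const, nsmul_eq_mul, mul_one] at h1
    exact h1
  have hbad : c * ∑ v ∈ T, (if Bad v then 2 * (Fintype.card ι : ℝ) * (L : ℝ) ^ 2 else 0) =
      2 * (Fintype.card ι * (L : ℝ) ^ 2 * (prodM ι ρ).real (S.U E m ∩ S.B m)) := by
    have h1 : (S.U E m ∩ S.B m : Set (ι → ℝ)) = {x | S.ixv m x ∈ T.filter Bad} := by
      ext x
      show (Valid m E (S.ixv m x) ∧ Bad (S.ixv m x)) ↔ _
      rw [Set.mem_ofPred_eq, Finset.mem_filter, mem_states]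
    have h2 : (prodM ι ρ).real (S.U E m ∩ S.B m) = c * (T.filter Bad).card := by
      have h4 := S.integral_ix (T.filter Bad) (fun v hv => hsite v (Finset.mem_filter.1 hv).1)
        (fun hb v hv => hTpos hb v (Finset.mem_filter.1 hv).1) (fun _ => 1)
      rw [setIntegral_const, smul_eq_mul, mul_one, Finset.sum_const, nsmul_eq_mul, mul_one] at h4
      rw [h1, h4]
    rw [h2, ← Finset.sum_filter, Finset.sum_const, nsmul_eq_mul]
    ring
  have hcn : 0 ≤ c := pow_nonneg (S.w_nonneg m) _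
  have henergy : c * ∑ v ∈ T, ∑ k ∈ range m, S.r m k * (f (stp m E k v) - f v) ^ 2 ≤
      (∫ x in S.U E m, Qs (S.Y m) F (S.ixv m x) ∂(prodM ι ρ)) +
        2 * (Fintype.card ι * (L : ℝ) ^ 2 * (prodM ι ρ).real (S.U E m ∩ S.B m)) := by
    rw [← hbad, hsum, ← mul_add, ← Finset.sum_add_distrib]
    apply mul_le_mul_of_nonneg_left _ hcn
    exact Finset.sum_le_sum fun v hv => energy_sample (mem_states.1 hv) (fun hb => hTpos hb v hv)
      (S.r_nonneg m) (fun hb => S.r_zero hb m) (fun hb => S.Y_odd hb m) (S.rY m) hF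
  have hmain := discrete_var' b (S.κm_nonneg m) hpos (S.r_nonneg m) (fun hb => S.r_zero hb m)
    (S.W_odd m) (S.wt_pos m) (S.gen_le m) (E := E) f
  rw [← hT] at hmain
  have h1 := mul_le_mul_of_nonneg_left hmain (sq_nonneg c)
  rw [hsum (fun v => f v ^ 2), hsum f, hvol]
  calc S.κm m * (c * T.card * (c * ∑ v ∈ T, f v ^ 2) - (c * ∑ v ∈ T, f v) ^ 2)
      = c ^ 2 * (S.κm m * (T.card * ∑ x ∈ T, f x ^ 2 - (∑ x ∈ T, f x) ^ 2)) := by ring
    _ ≤ c ^ 2 * (T.card * ((∑ x ∈ T, ∑ k ∈ range m, S.r m k * (f (stp m E k x) - f x) ^ 2) / 2)) := h1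
    _ = c * T.card * ((c * ∑ x ∈ T, ∑ k ∈ range m, S.r m k * (f (stp m E k x) - f x) ^ 2) / 2) := by
        ring
    _ ≤ c * T.card * ((∫ x in S.U E m, Qs (S.Y m) F (S.ixv m x) ∂(prodM ι ρ)) / 2 +
        Fintype.card ι * (L : ℝ) ^ 2 * (prodM ι ρ).real (S.U E m ∩ S.B m)) := by
        apply mul_le_mul_of_nonneg_left _ (by positivity)
        linarith

/-- Dominated convergence over the sets `S.U E m`. -/
theorem Scheme.tendsto_U [IsProbabilityMeasure ρ] (S : Scheme b ρ κ)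
    (E : Set ((ι × Bool) × (ι × Bool))) {K : Set (ι → ℝ)} (hK : MeasurableSet K)
    (hKU : ∀ᵐ x ∂(prodM ι ρ), ∀ᶠ m in atTop, (x ∈ S.U E m ↔ x ∈ K))
    {Φ : ℕ → (ι → ℝ) → ℝ} {Ψ : (ι → ℝ) → ℝ} {C : ℝ}
    (hmeas : ∀ m, AEStronglyMeasurable (Φ m) (prodM ι ρ)) (hbd : ∀ m x, |Φ m x| ≤ C)
    (hlim : ∀ᵐ x ∂(prodM ι ρ), Tendsto (fun m => Φ m x) atTop (𝓝 (Ψ x))) :
    Tendsto (fun m => ∫ x in S.U E m, Φ m x ∂(prodM ι ρ)) atTop (𝓝 (∫ x in K, Ψ x ∂(prodM ι ρ))) := by
  have e1 : ∀ m, ∫ x in S.U E m, Φ m x ∂(prodM ι ρ) = ∫ x, (S.U E m).indicator (Φ m) x ∂(prodM ι ρ) :=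
    fun m => (integral_indicator (S.measurableSet_U E m)).symm
  simp only [e1]
  rw [← integral_indicator hK]
  refine tendsto_integral_of_dominated_convergence (fun _ => C) ?_ (integrable_const C) ?_ ?_
  · exact fun m => (hmeas m).indicator (S.measurableSet_U E m)
  · intro m
    filter_upwards with x
    by_cases hx : x ∈ S.U E m
    · rw [Set.indicator_of_mem hx]
      exact hbd m x
    · rw [Set.indicator_of_notMem hx, norm_zero]
      exact (abs_nonneg _).trans (hbd m x)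
  · filter_upwards [hlim, hKU] with x h1 h2
    by_cases hx : x ∈ K
    · rw [Set.indicator_of_mem hx]
      refine h1.congr' ?_
      filter_upwards [h2] with m hm
      rw [Set.indicator_of_mem (hm.2 hx)]
    · rw [Set.indicator_of_notMem hx]
      refine tendsto_const_nhds.congr' ?_
      filter_upwards [h2] with m hm
      rw [Set.indicator_of_notMem (fun h => hx (hm.1 h))]

/-- **Poincaré inequality** for bounded Lipschitz `C¹` functions, from a scheme. -/
theorem Scheme.poincare_C1 [IsProbabilityMeasure ρ] (S : Scheme b ρ κ)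
    (E : Set ((ι × Bool) × (ι × Bool)))
    (hpos : b = true → ∀ m, ∀ x : ι → ℤ, Valid m E x → ∀ i, 0 < x i)
    {K : Set (ι → ℝ)} (hK : MeasurableSet K)
    (hKU : ∀ᵐ x ∂(prodM ι ρ), ∀ᶠ m in atTop, (x ∈ S.U E m ↔ x ∈ K))
    (hB : ∀ᵐ x ∂(prodM ι ρ), ∀ᶠ m in atTop, x ∉ S.B m)
    {F : (ι → ℝ) → ℝ} {L : NNReal} (hF : LipschitzWith L F) (hF1 : ContDiff ℝ 1 F) {C : ℝ}
    (hC : ∀ x, |F x| ≤ C) :
    κ * ((prodM ι ρ).real K * (∫ x in K, F x ^ 2 ∂(prodM ι ρ)) - (∫ x in K, F x ∂(prodM ι ρ)) ^ 2) ≤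
      (prodM ι ρ).real K * ∫ x in K, ∑ i, (fderiv ℝ F x (Pi.single i 1)) ^ 2 ∂(prodM ι ρ) := by
  have hcoord : ∀ {p : ℝ → Prop}, (∀ᵐ x ∂ρ, p x) → ∀ᵐ x ∂(prodM ι ρ), ∀ i, p (x i) := by
    intro p hp
    rw [ae_all_iff]
    exact fun i => (measurePreserving_eval (fun _ : ι => ρ) i).quasiMeasurePreserving.ae hp
  have hYlim : ∀ᵐ x ∂(prodM ι ρ), Tendsto (fun m => (fun j => S.Y m (S.ixv m x j))) atTop (𝓝 x) := by
    filter_upwards [hcoord S.lim0] with x hx
    rw [tendsto_pi_nhds]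
    exact hx
  have hV : Tendsto (fun m => (prodM ι ρ).real (S.U E m)) atTop (𝓝 ((prodM ι ρ).real K)) := by
    have h := S.tendsto_U E hK hKU (Φ := fun _ _ => (1 : ℝ)) (Ψ := fun _ => 1) (C := 1)
      (fun _ => aestronglyMeasurable_const) (fun _ _ => by simp)
      (Filter.Eventually.of_forall fun _ => tendsto_const_nhds)
    simpa [setIntegral_const] using h
  have hA : Tendsto (fun m => ∫ x in S.U E m, F (fun j => S.Y m (S.ixv m x j)) ^ 2 ∂(prodM ι ρ)) atTop
      (𝓝 (∫ x in K, F x ^ 2 ∂(prodM ι ρ))) := by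
    refine S.tendsto_U E hK hKU (Φ := fun m x => F (fun j => S.Y m (S.ixv m x j)) ^ 2) (C := C ^ 2)
      (fun m => (S.measurable_comp m fun v => F (fun j => S.Y m (v j)) ^ 2).aestronglyMeasurable)
      (fun m x => ?_) ?_
    · rw [abs_pow]
      exact pow_le_pow_left₀ (abs_nonneg _) (hC _) 2
    · filter_upwards [hYlim] with x hx
      exact ((hF.continuous.tendsto x).comp hx).pow 2
  have hA1 : Tendsto (fun m => ∫ x in S.U E m, F (fun j => S.Y m (S.ixv m x j)) ∂(prodM ι ρ)) atTop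
      (𝓝 (∫ x in K, F x ∂(prodM ι ρ))) := by
    refine S.tendsto_U E hK hKU (Φ := fun m x => F (fun j => S.Y m (S.ixv m x j))) (C := C)
      (fun m => (S.measurable_comp m fun v => F (fun j => S.Y m (v j))).aestronglyMeasurable)
      (fun m x => hC _) ?_
    filter_upwards [hYlim] with x hx
    exact (hF.continuous.tendsto x).comp hx
  have hQ : Tendsto (fun m => ∫ x in S.U E m, Qs (S.Y m) F (S.ixv m x) ∂(prodM ι ρ)) atTop
      (𝓝 (∫ x in K, ∑ i, ((fderiv ℝ F x (Pi.single i 1)) ^ 2 +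
        (fderiv ℝ F x (Pi.single i 1)) ^ 2) ∂(prodM ι ρ))) := by
    refine S.tendsto_U E hK hKU (Φ := fun m x => Qs (S.Y m) F (S.ixv m x))
      (C := ∑ _i : ι, ((L : ℝ) ^ 2 + (L : ℝ) ^ 2))
      (fun m => (S.measurable_comp m fun v => Qs (S.Y m) F v).aestronglyMeasurable)
      (fun m x => ?_) ?_
    · unfold Qs
      rw [abs_of_nonneg (Finset.sum_nonneg fun i _ => by positivity)]
      apply Finset.sum_le_sum
      intro i _
      have h := fun s => pow_le_pow_left₀ (abs_nonneg _)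
        (abs_dq_le hF (fun j => S.Y m (S.ixv m x j)) i s) 2
      simp only [sq_abs] at h
      exact add_le_add (h _) (h _)
    · filter_upwards [hYlim, hcoord S.lim0, hcoord S.limp, hcoord S.limm, hcoord S.nep,
        hcoord S.nem] with x hx h0 hp hm hnp hnm
      unfold Qs
      refine tendsto_finsetSum _ fun i _ => ?_
      refine Tendsto.add ?_ ?_
      · refine (tendsto_dq hF1 hx ?_ ?_ i).pow 2
        · have := (hp i).sub (h0 i)
          rw [sub_self] at this
          exact this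
        · filter_upwards [hnp i] with m h
          exact sub_ne_zero.2 h
      · refine (tendsto_dq hF1 hx ?_ ?_ i).pow 2
        · have := (hm i).sub (h0 i)
          rw [sub_self] at this
          exact this
        · filter_upwards [hnm i] with m h
          exact sub_ne_zero.2 h
  have hbad : Tendsto (fun m => (prodM ι ρ).real (S.U E m ∩ S.B m)) atTop (𝓝 0) := by
    have h := S.tendsto_U E hK hKU (Φ := fun m => (S.B m).indicator fun _ => (1 : ℝ))
      (Ψ := fun _ => 0) (C := 1)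
      (fun m => (measurable_const.indicator (S.measurableSet_B m)).aestronglyMeasurable) ?_ ?_
    · simp only [integral_zero] at h
      refine h.congr fun m => ?_
      rw [setIntegral_indicator (S.measurableSet_B m), setIntegral_const, smul_eq_mul, mul_one]
    · intro m x
      rw [Set.indicator]
      split_ifs <;> simp
    · filter_upwards [hB] with x hx
      refine tendsto_const_nhds.congr' ?_
      filter_upwards [hx] with m hm
      rw [Set.indicator_of_notMem hm]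
  have hl := S.κm_lim.mul ((hV.mul hA).sub (hA1.pow 2))
  have hr := hV.mul ((hQ.div_const 2).add (hbad.const_mul (Fintype.card ι * (L : ℝ) ^ 2)))
  have hfin := le_of_tendsto_of_tendsto' hl hr fun m => S.finite_ineq E m (fun hb => hpos hb m) hF
  rw [mul_zero, add_zero] at hfin
  refine hfin.trans (le_of_eq ?_)
  congr 1
  have e : ∀ x : ι → ℝ, ∑ i, ((fderiv ℝ F x (Pi.single i 1)) ^ 2 +
      (fderiv ℝ F x (Pi.single i 1)) ^ 2) = 2 * ∑ i, (fderiv ℝ F x (Pi.single i 1)) ^ 2 := fun x => by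
    rw [Finset.mul_sum]
    exact Finset.sum_congr rfl fun i _ => by ring
  simp only [e]
  rw [integral_const_mul]
  ring

end Pool.Agent.Lib.MP_8d00da_gt
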