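import Pool.Agent.Lib.MP_8d00da_gt.Discrete

/-!
# The uniform rates: an explicit spectral gap
-/

open Finset Real

namespace Pool.Agent.Lib.MP_8d00da_gt

/-- the weight function -/
noncomputable def Wsin (m : ℕ) (v : ℤ) : ℝ := Real.sin (π * v / (4 * m))

/-- the spectral gap -/
noncomputable def kap (m : ℕ) : ℝ := 2 * (1 - Real.cos (π / (2 * m)))

theorem Wsin_neg (m : ℕ) (v : ℤ) : Wsin m (-v) = - Wsin m v := by
  unfold Wsin
  rw [← Real.sin_neg]
  congr 1
  push_cast
  ring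

theorem Wsin_step (m : ℕ) (v : ℤ) :
    (Wsin m (v + 2) - Wsin m v) + (Wsin m (v - 2) - Wsin m v) = - kap m * Wsin m v := by
  unfold Wsin kap
  have e1 : π * ((v + 2 : ℤ) : ℝ) / (4 * m) = π * v / (4 * m) + π / (2 * m) := by
    push_cast
    ring_nf
  have e2 : π * ((v - 2 : ℤ) : ℝ) / (4 * m) = π * v / (4 * m) - π / (2 * m) := by
    push_cast
    ring_nf
  rw [e1, e2, Real.sin_add, Real.sin_sub]
  ring

theorem Wsin_top {m : ℕ} (hm : 0 < m) : Wsin m (2 * (m : ℤ) + 1) = Wsin m (2 * (m : ℤ) - 1) := by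
  unfold Wsin
  have hm' : (m : ℝ) ≠ 0 := by positivity
  have e1 : π * ((2 * (m : ℤ) + 1 : ℤ) : ℝ) / (4 * m) = π - π * ((2 * (m : ℤ) - 1 : ℤ) : ℝ) / (4 * m) := by
    push_cast
    field_simp
    ring
  rw [e1, Real.sin_pi_sub]

theorem kap_nonneg (m : ℕ) : 0 ≤ kap m := by
  unfold kap
  have := Real.cos_le_one (π / (2 * m))
  linarith

theorem wt_Wsin_pos {m k : ℕ} (hk : k < m) : 0 < wt (Wsin m) k := by
  unfold wt Wsin
  have hm : (0 : ℝ) < m := by
    have : 0 < m := by omega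
    exact_mod_cast this
  rw [sub_pos]
  have hkm : (k : ℝ) + 1 ≤ m := by exact_mod_cast hk
  have hk0 : (0 : ℝ) ≤ k := Nat.cast_nonneg k
  apply Real.sin_lt_sin_of_lt_of_le_pi_div_two
  · rw [← neg_div, div_le_div_iff₀ (by norm_num) (by positivity)]
    push_cast
    nlinarith [Real.pi_pos]
  · rw [div_le_div_iff₀ (by positivity) (by norm_num)]
    push_cast
    nlinarith [Real.pi_pos]
  · apply div_lt_div_of_pos_right _ (by positivity)
    push_cast
    nlinarith [Real.pi_pos]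

theorem genW_pos {m : ℕ} {v : ℤ} (hv : Site m v) (hpos : 0 < v) :
    genW m (fun _ => 1) (Wsin m) v = - kap m * Wsin m v := by
  obtain ⟨h1, h2, h3⟩ := hv
  obtain ⟨j, hj⟩ : ∃ j : ℕ, v = 2 * (j : ℤ) + 1 := ⟨((v - 1) / 2).toNat, by omega⟩
  have hjm : j < m := by omega
  have hm : 0 < m := by omega
  rw [← Wsin_step]
  unfold genW
  simp only [one_mul]
  have hterm : ∀ k : ℕ, Wsin m (mv k v) - Wsin m v =
      (if k = j + 1 then (Wsin m (v + 2) - Wsin m v) else 0) +
        (if k = j then (Wsin m (v - 2) - Wsin m v) else 0) := by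
    intro k
    rcases mv_cases k v with ⟨h4, h5⟩ | ⟨h4, h5⟩ | ⟨h4, h5⟩ | ⟨h4, h5⟩ | ⟨h4, h6, h7, h8, h5⟩
    · rw [if_pos (by omega), if_neg (by omega), h5, add_zero]
    · omega
    · rw [if_neg (by omega), if_pos (by omega), h5, zero_add]
    · rw [if_neg (by omega), if_pos (by omega), h5, zero_add]
    · rw [if_neg (by omega), if_neg (by omega), h5]
      ring
  rw [Finset.sum_congr rfl fun k _ => hterm k, Finset.sum_add_distrib, Finset.sum_ite_eq',
    Finset.sum_ite_eq', if_pos (Finset.mem_range.2 hjm)]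
  congr 1
  split_ifs with h
  · rfl
  · rw [Finset.mem_range] at h
    have hjm' : j + 1 = m := by omega
    have e : v = 2 * (m : ℤ) - 1 := by omega
    rw [e, show (2 * (m : ℤ) - 1 + 2) = 2 * (m : ℤ) + 1 by ring, Wsin_top hm, sub_self]

theorem genW_neg (m : ℕ) (r : ℕ → ℝ) {W : ℤ → ℝ} (hW : ∀ v, W (-v) = - W v) (v : ℤ) :
    genW m r W (-v) = - genW m r W v := by
  unfold genW
  rw [← Finset.sum_neg_distrib]
  refine Finset.sum_congr rfl fun k _ => ?_
  rw [mv_neg, hW, hW]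
  ring

theorem genW_Wsin {m : ℕ} {v : ℤ} (hv : Site m v) :
    genW m (fun _ => 1) (Wsin m) v = - kap m * Wsin m v := by
  rcases lt_trichotomy v 0 with h | h | h
  · have := genW_pos hv.neg (by omega : (0 : ℤ) < -v)
    rw [genW_neg m _ (Wsin_neg m), Wsin_neg] at this
    linarith
  · exact absurd h hv.ne_zero
  · exact genW_pos hv h

variable {ι : Type*}

/-- **Discrete Poincaré inequality**, uniform rates, variance form. -/
theorem discrete_var [Fintype ι] [DecidableEq ι] (m : ℕ)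
    (E : Set ((ι × Bool) × (ι × Bool))) (f : (ι → ℤ) → ℝ) :
    kap m * ((states m E).card * ∑ x ∈ states m E, f x ^ 2 - (∑ x ∈ states m E, f x) ^ 2) ≤
      (states m E).card * ((∑ x ∈ states m E, ∑ k ∈ range m, (f (stp m E k x) - f x) ^ 2) / 2) := by
  rcases (states m E).eq_empty_or_nonempty with h | h
  · rw [h]
    simp
  set S := states m E with hS
  set N : ℝ := (S.card : ℝ) with hN
  have hNpos : 0 < N := by
    rw [hN]
    exact_mod_cast Finset.card_pos.2 h
  set a : ℝ := (∑ x ∈ S, f x) / N with ha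
  have hsum : ∑ x ∈ S, (f x - a) = 0 := by
    rw [Finset.sum_sub_distrib, Finset.sum_const, nsmul_eq_mul, ha, ← hN]
    field_simp
    ring
  have h1 := discrete_poincare false (E := E) (r := fun _ => 1) (W := Wsin m) (κ := kap m)
    (kap_nonneg m) (fun h => absurd h (by simp)) (fun _ => zero_le_one)
    (fun h => absurd h (by simp)) (Wsin_neg m) (fun k hk _ => wt_Wsin_pos hk)
    (fun p q hp hq _ _ => by rw [genW_Wsin hp, genW_Wsin hq]; exact le_of_eq (by ring))
    (fun x => f x - a) hsum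
  have h2 : ∑ x ∈ S, (f x - a) ^ 2 = ∑ x ∈ S, f x ^ 2 - (∑ x ∈ S, f x) ^ 2 / N := by
    have h3 : ∀ x ∈ S, (f x - a) ^ 2 = f x ^ 2 - 2 * a * f x + a ^ 2 := fun x _ => by ring
    rw [Finset.sum_congr rfl h3, Finset.sum_add_distrib, Finset.sum_sub_distrib, ← Finset.mul_sum,
      Finset.sum_const, nsmul_eq_mul, ← hN, ha]
    field_simp
    ring
  have h4 : ∑ k ∈ range m, (1 : ℝ) * ∑ x ∈ S, ((fun x => f x - a) (stp m E k x) -
      (fun x => f x - a) x) ^ 2 = ∑ x ∈ S, ∑ k ∈ range m, (f (stp m E k x) - f x) ^ 2 := by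
    rw [Finset.sum_comm]
    refine Finset.sum_congr rfl fun k _ => ?_
    rw [one_mul]
    exact Finset.sum_congr rfl fun x _ => by ring
  rw [h4, h2] at h1
  have h5 := mul_le_mul_of_nonneg_left h1 hNpos.le
  calc kap m * (N * ∑ x ∈ S, f x ^ 2 - (∑ x ∈ S, f x) ^ 2)
      = N * (kap m * (∑ x ∈ S, f x ^ 2 - (∑ x ∈ S, f x) ^ 2 / N)) := by
        field_simp
    _ ≤ _ := h5

end Pool.Agent.Lib.MP_8d00da_gt
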