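import Pool.Agent.Lib.MP_8d00da_gt.Trunc

/-!
# Symmetric functions have the same law under the conditioned measure
-/

open MeasureTheory Filter Topology Finset ENNReal

namespace Pool.Agent.Lib.MP_8d00da_gt

/-- The abstract counting argument. -/
theorem sym_lintegral {X : Type*} [MeasurableSpace X] {π : Measure X} [IsProbabilityMeasure π]
    {G : Type*} [Fintype G] [Nonempty G] (T : G → X → X)
    (hT : ∀ g, MeasurePreserving (T g) π π) {K : Set X} (hK : MeasurableSet K) (N : ENNReal)
    (hN : ∀ᵐ x ∂π, ∑ g, K.indicator (fun _ => (1 : ENNReal)) (T g x) = N)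
    {Φ : X → ENNReal} (hΦ : Measurable Φ) (hinv : ∀ g x, Φ (T g x) = Φ x) :
    ∫⁻ x in K, Φ x ∂π = π K * ∫⁻ x, Φ x ∂π := by
  have key : ∀ Ψ : X → ENNReal, Measurable Ψ → (∀ g x, Ψ (T g x) = Ψ x) →
      (Fintype.card G : ENNReal) * ∫⁻ x in K, Ψ x ∂π = N * ∫⁻ x, Ψ x ∂π := by
    intro Ψ hΨ hinv
    have h1 : ∀ g, ∫⁻ x in K, Ψ x ∂π = ∫⁻ x, K.indicator (fun _ => (1 : ENNReal)) (T g x) * Ψ x ∂π := by
      intro g
      rw [← lintegral_indicator hK, ← (hT g).lintegral_comp (hΨ.indicator hK)]
      refine lintegral_congr fun x => ?_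
      by_cases h : T g x ∈ K
      · rw [Set.indicator_of_mem h, Set.indicator_of_mem h, one_mul, hinv]
      · rw [Set.indicator_of_notMem h, Set.indicator_of_notMem h, zero_mul]
    have h2 : ∑ _g : G, ∫⁻ x in K, Ψ x ∂π =
        ∑ g, ∫⁻ x, K.indicator (fun _ => (1 : ENNReal)) (T g x) * Ψ x ∂π :=
      Finset.sum_congr rfl fun g _ => h1 g
    rw [Finset.sum_const, Finset.card_univ, nsmul_eq_mul] at h2
    rw [h2, ← lintegral_finsetSum]
    · rw [← lintegral_const_mul _ hΨ]
      refine lintegral_congr_ae ?_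
      filter_upwards [hN] with x hx
      rw [← hx, Finset.sum_mul]
    · intro g _
      exact ((measurable_const.indicator hK).comp (hT g).measurable).mul hΨ
  have hc : (Fintype.card G : ENNReal) ≠ 0 := by
    simp [Fintype.card_ne_zero]
  have hc' : (Fintype.card G : ENNReal) ≠ ⊤ := ENNReal.natCast_ne_top _
  have h1 := key (fun _ => 1) measurable_const (fun _ _ => rfl)
  rw [lintegral_one, lintegral_one, Measure.restrict_apply_univ, measure_univ, mul_one] at h1
  have h2 := key Φ hΦ hinv
  rw [← h1, mul_assoc] at h2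
  exact (ENNReal.mul_right_inj hc hc').1 h2

/-- The law of an invariant function does not change. -/
theorem map_cond_eq {X Y : Type*} [MeasurableSpace X] [MeasurableSpace Y] {π : Measure X}
    [IsProbabilityMeasure π]
    {G : Type*} [Fintype G] [Nonempty G] (T : G → X → X)
    (hT : ∀ g, MeasurePreserving (T g) π π) {K : Set X} (hK : MeasurableSet K) (hpos : π K ≠ 0)
    (N : ENNReal)
    (hN : ∀ᵐ x ∂π, ∑ g, K.indicator (fun _ => (1 : ENNReal)) (T g x) = N)
    {f : X → Y} (hf : Measurable f) (hinv : ∀ g x, f (T g x) = f x) :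
    (ProbabilityTheory.cond π K).map f = π.map f := by
  ext s hs
  rw [Measure.map_apply hf hs, Measure.map_apply hf hs, ProbabilityTheory.cond_apply hK]
  have h := sym_lintegral T hT hK N hN (Φ := (f ⁻¹' s).indicator fun _ => 1)
    (measurable_const.indicator (hf hs)) (by
      intro g x
      by_cases h : f x ∈ s
      · rw [Set.indicator_of_mem (show T g x ∈ f ⁻¹' s by rw [Set.mem_preimage, hinv]; exact h),
          Set.indicator_of_mem (show x ∈ f ⁻¹' s from h)]
      · rw [Set.indicator_of_notMem (show T g x ∉ f ⁻¹' s by rw [Set.mem_preimage, hinv]; exact h),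
          Set.indicator_of_notMem (show x ∉ f ⁻¹' s from h)])
  rw [lintegral_indicator_const (hf hs), lintegral_indicator_const (hf hs), one_mul, one_mul,
    Measure.restrict_apply (hf hs)] at h
  rw [Set.inter_comm, h, ← mul_assoc, ENNReal.inv_mul_cancel hpos (measure_ne_top _ _), one_mul]

section perm

variable {n : ℕ} {ρ : Measure ℝ} [IsProbabilityMeasure ρ]

theorem mp_perm (σ : Equiv.Perm (Fin n)) :
    MeasurePreserving (fun x : Fin n → ℝ => fun i => x (σ i)) (prodM (Fin n) ρ)
      (prodM (Fin n) ρ) := by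
  have hm : Measurable (fun x : Fin n → ℝ => fun i => x (σ i)) :=
    measurable_pi_iff.2 fun i => measurable_pi_apply _
  refine ⟨hm, ?_⟩
  symm
  apply Measure.pi_eq
  intro s hs
  rw [Measure.map_apply hm (MeasurableSet.univ_pi hs)]
  have : (fun x : Fin n → ℝ => fun i => x (σ i)) ⁻¹' (Set.pi Set.univ s) =
      Set.pi Set.univ fun j => s (σ.symm j) := by
    ext x
    simp only [Set.mem_preimage, Set.mem_pi, Set.mem_univ, forall_true_left]
    constructor
    · intro h j
      simpa using h (σ.symm j)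
    · intro h i
      have := h (σ i)
      rwa [Equiv.symm_apply_apply] at this
  rw [this, Measure.pi_pi]
  exact Equiv.prod_comp σ.symm fun j => ρ (s j)

/-- the coordinates are a.s. distinct -/
theorem ae_distinct (hat : ∀ x, ρ {x} = 0) :
    ∀ᵐ x ∂(prodM (Fin n) ρ), ∀ i j, i ≠ j → x i ≠ x j := by
  rw [ae_all_iff]
  intro i
  rw [ae_all_iff]
  intro j
  by_cases hij : i = j
  · exact Eventually.of_forall fun x h => absurd hij h
  · have := ae_pair (ρ := ρ) hij (f := fun x => x) (g := fun x => x) measurable_id measurable_id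
      (by intro y; simpa using hat y)
    filter_upwards [this] with x hx
    exact fun _ => hx

/-- the count is constant -/
theorem count_perm (hat : ∀ x, ρ {x} = 0) (E : Set (Fin n × Fin n)) :
    ∃ N : ENNReal, ∀ᵐ x ∂(prodM (Fin n) ρ),
      ∑ σ : Equiv.Perm (Fin n), (ordCone E).indicator (fun _ => (1 : ENNReal))
        (fun i => x (σ i)) = N := by
  classical
  refine ⟨∑ τ : Equiv.Perm (Fin n), (ordCone E).indicator (fun _ => (1 : ENNReal))
        (fun i => ((τ i : ℕ) : ℝ)), ?_⟩
  filter_upwards [ae_distinct (n := n) hat] with x hx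
  set s := Tuple.sort x
  have hmono : StrictMono (x ∘ s) := by
    apply (Tuple.monotone_sort x).strictMono_of_injective
    intro i j hij
    by_contra hne
    exact hx (s i) (s j) (fun h => hne (s.injective h)) hij
  refine Fintype.sum_equiv (Equiv.mulLeft s⁻¹) _ _ fun σ => ?_
  have hiff : (fun i => x (σ i)) ∈ ordCone E ↔
      (fun i => ((((Equiv.mulLeft s⁻¹) σ) i : ℕ) : ℝ)) ∈ ordCone E := by
    unfold ordCone
    simp only [Set.mem_ofPred_eq]
    refine forall₂_congr fun e _ => ?_
    have h1 : ∀ i, x (σ i) = (x ∘ s) (((Equiv.mulLeft s⁻¹) σ) i) := by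
      intro i
      simp [Equiv.coe_mulLeft, Equiv.Perm.mul_apply]
    rw [h1, h1, hmono.le_iff_le, Nat.cast_le, Fin.val_fin_le]
  by_cases h : (fun i => x (σ i)) ∈ ordCone E
  · rw [Set.indicator_of_mem h, Set.indicator_of_mem (hiff.1 h)]
  · rw [Set.indicator_of_notMem h, Set.indicator_of_notMem (fun h' => h (hiff.2 h'))]

/-- A symmetric function has the same law. -/
theorem map_sym_perm (hat : ∀ x, ρ {x} = 0) (E : Set (Fin n × Fin n))
    (hpos : prodM (Fin n) ρ (ordCone E) ≠ 0) {Y : Type*} [MeasurableSpace Y]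
    {f : (Fin n → ℝ) → Y} (hf : Measurable f)
    (hinv : ∀ (σ : Equiv.Perm (Fin n)) x, f (fun i => x (σ i)) = f x) :
    (ProbabilityTheory.cond (prodM (Fin n) ρ) (ordCone E)).map f = (prodM (Fin n) ρ).map f := by
  obtain ⟨N, hN⟩ := count_perm hat E
  exact map_cond_eq (fun σ : Equiv.Perm (Fin n) => fun x : Fin n → ℝ => fun i => x (σ i))
    (fun σ => mp_perm σ) (measurableSet_ordCone E) hpos N hN hf hinv

/-- the sign -/
def sg (b : Bool) : ℝ := if b then 1 else -1

theorem sg_ne (b : Bool) : sg b ≠ 0 := by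
  cases b <;> simp [sg]

theorem sg_xor (a b : Bool) : sg (a ^^ b) = - (sg a * sg b) := by
  cases a <;> cases b <;> simp [sg]

theorem mp_sgn (hsym : ρ.map (fun x => -x) = ρ) (b : Bool) :
    MeasurePreserving (fun x : ℝ => sg b * x) ρ ρ := by
  cases b
  · refine ⟨by fun_prop, ?_⟩
    have : (fun x : ℝ => sg false * x) = fun x => -x := by
      funext x; simp [sg]
    rw [this, hsym]
  · have : (fun x : ℝ => sg true * x) = id := by
      funext x; simp [sg]
    rw [this]
    exact MeasurePreserving.id ρ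

theorem mp_signed (hsym : ρ.map (fun x => -x) = ρ) (g : Equiv.Perm (Fin n) × (Fin n → Bool)) :
    MeasurePreserving (fun x : Fin n → ℝ => fun i => sg (g.2 i) * x (g.1 i)) (prodM (Fin n) ρ)
      (prodM (Fin n) ρ) := by
  have h1 : MeasurePreserving (fun x : Fin n → ℝ => fun i => sg (g.2 i) * x i) (prodM (Fin n) ρ)
      (prodM (Fin n) ρ) :=
    measurePreserving_pi (fun _ => ρ) (fun _ => ρ) (f := fun i x => sg (g.2 i) * x)
      (fun i => mp_sgn hsym (g.2 i))
  exact h1.comp (mp_perm g.1)

/-- the absolute values of the coordinates are a.s. distinct and nonzero -/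
theorem ae_abs_distinct (hat : ∀ x, ρ {x} = 0) :
    ∀ᵐ x ∂(prodM (Fin n) ρ), (∀ i j, i ≠ j → |x i| ≠ |x j|) ∧ ∀ i, x i ≠ 0 := by
  have h1 : ∀ᵐ x ∂(prodM (Fin n) ρ), ∀ i j, i ≠ j → |x i| ≠ |x j| := by
    rw [ae_all_iff]
    intro i
    rw [ae_all_iff]
    intro j
    by_cases hij : i = j
    · exact Eventually.of_forall fun x h => absurd hij h
    · have := ae_pair (ρ := ρ) hij (f := fun x => |x|) (g := fun x => |x|) (by fun_prop)
        (by fun_prop) (by
          intro u
          have : {y : ℝ | |y| = u} ⊆ {u} ∪ {-u} := by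
            intro y hy
            have hy' : |y| = u := hy
            rcases abs_cases y with ⟨h, _⟩ | ⟨h, _⟩
            · left
              rw [Set.mem_singleton_iff]; linarith
            · right
              rw [Set.mem_singleton_iff]; linarith
          exact measure_mono_null this (measure_union_null (hat _) (hat _)))
      filter_upwards [this] with x hx
      exact fun _ => hx
  have h2 : ∀ᵐ x ∂ρ, x ≠ 0 := by
    rw [ae_iff]
    simpa using hat 0
  filter_upwards [h1, ae_coord (ι := Fin n) h2] with x h1 h2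
  exact ⟨h1, h2⟩

/-- sign as a Boolean -/
noncomputable def bsg (x : ℝ) : Bool := decide (0 < x)

theorem sg_bsg (x : ℝ) (hx : x ≠ 0) : sg (bsg x) * |x| = x := by
  unfold sg bsg
  by_cases h : 0 < x
  · rw [if_pos (by simpa using h), one_mul, abs_of_pos h]
  · have h' : x < 0 := lt_of_le_of_ne (not_lt.1 h) hx
    rw [if_neg (by simpa using h), abs_of_neg h']
    ring

theorem sg_comb (a b : Bool) (y z : ℝ) (h : sg b * z = y) : sg a * y = sg (!(a ^^ b)) * z := by
  rw [← h]
  cases a <;> cases b <;> simp [sg]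

/-- comparison of signed values -/
theorem sg_mul_le_iff {w w' : Fin n → ℝ} (hw : StrictMono w) (hw' : StrictMono w')
    (hpos : ∀ i, 0 < w i) (hpos' : ∀ i, 0 < w' i) (a b : Bool) (i j : Fin n) :
    sg a * w i ≤ sg b * w j ↔ sg a * w' i ≤ sg b * w' j := by
  have h1 := hpos i
  have h2 := hpos j
  have h3 := hpos' i
  have h4 := hpos' j
  cases a <;> cases b <;> simp only [sg, Bool.false_eq_true, if_false, if_true, neg_mul, one_mul,
    neg_le_neg_iff, hw.le_iff_le, hw'.le_iff_le]
  · constructor <;> intro _ <;> linarith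
  · constructor <;> intro _ <;> linarith

theorem lr_eq (x : Fin n → ℝ) (a : Fin n × Bool) : lr x a = sg a.2 * x a.1 := by
  unfold lr sg
  split_ifs <;> ring

/-- the count is constant, signed case -/
theorem count_signed (hat : ∀ x, ρ {x} = 0) (E : Set ((Fin n × Bool) × (Fin n × Bool))) :
    ∃ N : ENNReal, ∀ᵐ x ∂(prodM (Fin n) ρ),
      ∑ g : Equiv.Perm (Fin n) × (Fin n → Bool), (litCone E).indicator (fun _ => (1 : ENNReal))
        (fun i => sg (g.2 i) * x (g.1 i)) = N := by
  classical
  refine ⟨∑ g : Equiv.Perm (Fin n) × (Fin n → Bool), (litCone E).indicator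
    (fun _ => (1 : ENNReal)) (fun i => sg (g.2 i) * (((g.1 i : ℕ) : ℝ) + 1)), ?_⟩
  filter_upwards [ae_abs_distinct (n := n) hat] with x hx
  set s := Tuple.sort (fun i => |x i|)
  have hmono : StrictMono ((fun i => |x i|) ∘ s) := by
    apply (Tuple.monotone_sort (fun i => |x i|)).strictMono_of_injective
    intro i j hij
    by_contra hne
    exact hx.1 (s i) (s j) (fun h => hne (s.injective h)) hij
  have hmono' : StrictMono (fun i : Fin n => ((i : ℕ) : ℝ) + 1) := by
    intro i j hij
    have : (i : ℕ) < (j : ℕ) := hij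
    have : ((i : ℕ) : ℝ) < ((j : ℕ) : ℝ) := by exact_mod_cast this
    simpa using this
  -- the bijection
  let e : Equiv.Perm (Fin n) × (Fin n → Bool) ≃ Equiv.Perm (Fin n) × (Fin n → Bool) :=
    { toFun := fun g => (s⁻¹ * g.1, fun i => !(g.2 i ^^ bsg (x (g.1 i))))
      invFun := fun g => (s * g.1, fun i => !(g.2 i ^^ bsg (x (s (g.1 i)))))
      left_inv := by
        rintro ⟨σ, ε⟩
        simp only [mul_inv_cancel_left, Prod.mk.injEq, true_and]
        funext i
        have hs : s ((s⁻¹ * σ) i) = σ i := by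
          rw [← Equiv.Perm.mul_apply, mul_inv_cancel_left]
        rw [hs]
        cases ε i <;> cases bsg (x (σ i)) <;> rfl
      right_inv := by
        rintro ⟨σ, ε⟩
        simp only [inv_mul_cancel_left, Prod.mk.injEq, true_and]
        funext i
        simp only [Equiv.Perm.mul_apply]
        cases ε i <;> cases bsg (x (s (σ i))) <;> rfl }
  refine Fintype.sum_equiv e _ _ fun g => ?_
  have hiff : (fun i => sg (g.2 i) * x (g.1 i)) ∈ litCone E ↔
      (fun i => sg ((e g).2 i) * ((((e g).1 i : ℕ) : ℝ) + 1)) ∈ litCone E := by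
    unfold litCone
    simp only [Set.mem_ofPred_eq]
    refine forall₂_congr fun c _ => ?_
    have hval : ∀ i, sg (g.2 i) * x (g.1 i) =
        sg ((e g).2 i) * ((fun i => |x i|) ∘ s) ((e g).1 i) := by
      intro i
      have h1 : (e g).2 i = !(g.2 i ^^ bsg (x (g.1 i))) := rfl
      have h2 : ((fun i => |x i|) ∘ s) ((e g).1 i) = |x (g.1 i)| := by
        have : (e g).1 = s⁻¹ * g.1 := rfl
        rw [this]
        simp [Equiv.Perm.mul_apply]
      rw [h1, h2]
      have h3 := sg_bsg (x (g.1 i)) (hx.2 _)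
      exact sg_comb _ _ _ _ h3
    have hlr : ∀ (w : Fin n → ℝ) (a : Fin n × Bool),
        lr (fun i => sg ((e g).2 i) * w ((e g).1 i)) a =
          sg (!(a.2 ^^ (e g).2 a.1)) * w ((e g).1 a.1) := by
      intro w a
      rw [lr_eq]
      cases a.2 <;> cases (e g).2 a.1 <;> simp [sg]
    have h1 : (fun i => sg (g.2 i) * x (g.1 i)) =
        fun i => sg ((e g).2 i) * ((fun i => |x i|) ∘ s) ((e g).1 i) := funext hval
    rw [h1, hlr, hlr]
    rw [hlr (fun i : Fin n => ((i : ℕ) : ℝ) + 1) c.1, hlr (fun i : Fin n => ((i : ℕ) : ℝ) + 1) c.2]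
    exact sg_mul_le_iff hmono hmono' (fun i => abs_pos.2 (hx.2 _)) (fun i => by positivity) _ _ _ _
  by_cases h : (fun i => sg (g.2 i) * x (g.1 i)) ∈ litCone E
  · rw [Set.indicator_of_mem h, Set.indicator_of_mem (hiff.1 h)]
  · rw [Set.indicator_of_notMem h, Set.indicator_of_notMem (fun h' => h (hiff.2 h'))]

/-- A function invariant under signed permutations has the same law. -/
theorem map_sym_signed (hat : ∀ x, ρ {x} = 0) (hsym : ρ.map (fun x => -x) = ρ)
    (E : Set ((Fin n × Bool) × (Fin n × Bool)))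
    (hpos : prodM (Fin n) ρ (litCone E) ≠ 0) {Y : Type*} [MeasurableSpace Y]
    {f : (Fin n → ℝ) → Y} (hf : Measurable f)
    (hinv : ∀ (g : Equiv.Perm (Fin n) × (Fin n → Bool)) x,
      f (fun i => sg (g.2 i) * x (g.1 i)) = f x) :
    (ProbabilityTheory.cond (prodM (Fin n) ρ) (litCone E)).map f = (prodM (Fin n) ρ).map f := by
  obtain ⟨N, hN⟩ := count_signed hat E
  exact map_cond_eq (fun g : Equiv.Perm (Fin n) × (Fin n → Bool) =>
    fun x : Fin n → ℝ => fun i => sg (g.2 i) * x (g.1 i))
    (fun g => mp_signed hsym g) (measurableSet_litCone E) hpos N hN hf hinv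

end perm

end Pool.Agent.Lib.MP_8d00da_gt
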