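import Pool.Agent.Lib.MP_8d00da_gt.Cone

/-!
# From compactly supported measures to general ones
-/

open MeasureTheory Filter Topology Finset

namespace Pool.Agent.Lib.MP_8d00da_gt

/-- the one-dimensional Poincaré inequality, for bounded Lipschitz functions -/
def P1 (ρ : Measure ℝ) (D : ℝ) : Prop :=
  ∀ f : ℝ → ℝ, (∃ L, LipschitzWith L f) → (∃ C, ∀ x, |f x| ≤ C) →
    ∫ x, (f x - ∫ y, f y ∂ρ) ^ 2 ∂ρ ≤ D ^ 2 * ∫ x, (deriv f x) ^ 2 ∂ρ

theorem bdd_integrable {ρ : Measure ℝ} [IsProbabilityMeasure ρ] {f : ℝ → ℝ} (hf : Continuous f)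
    {C : ℝ} (hC : ∀ x, |f x| ≤ C) : Integrable f ρ :=
  Integrable.of_bound hf.aestronglyMeasurable C (Eventually.of_forall hC)

/-- The support is an interval. -/
theorem P1.pos {ρ : Measure ℝ} [IsProbabilityMeasure ρ] (hat : ∀ x, ρ {x} = 0) {D : ℝ}
    (hP : P1 ρ D) {c d : ℝ} (hcd : c < d) (hc : 0 < HH ρ c) (hd : HH ρ d < 1) :
    0 < ρ (Set.Ioc c d) := by
  rw [pos_iff_ne_zero]
  intro h0
  let f : ℝ → ℝ := fun x => clamp01 ((x - c) / (d - c))
  have hdc : 0 < d - c := by linarith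
  have hflip : LipschitzWith (Real.nnabs (1 / (d - c))) f := by
    refine LipschitzWith.of_dist_le_mul fun x y => ?_
    have h2 := clamp01_lip.dist_le_mul ((x - c) / (d - c)) ((y - c) / (d - c))
    rw [NNReal.coe_one, one_mul] at h2
    refine h2.trans (le_of_eq ?_)
    rw [Real.dist_eq, Real.dist_eq, ← sub_div, Real.coe_nnabs, ← abs_mul]
    congr 1
    ring
  have hfb : ∀ x, |f x| ≤ 1 := fun x => clamp01_abs _
  have hfl : ∀ x, x ≤ c → f x = 0 := by
    intro x hx
    apply clamp01_of_le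
    apply div_nonpos_of_nonpos_of_nonneg <;> linarith
  have hfr : ∀ x, d ≤ x → f x = 1 := by
    intro x hx
    apply clamp01_of_ge
    rw [one_le_div hdc]
    linarith
  have hder : ∫ x, (deriv f x) ^ 2 ∂ρ = 0 := by
    rw [← integral_zero (α := ℝ) (μ := ρ) (G := ℝ)]
    apply integral_congr_ae
    have h1 : ∀ᵐ x ∂ρ, x ∉ Set.Ioc c d := by
      rw [ae_iff]
      simp only [not_not]
      exact h0
    have h2 : ∀ᵐ x ∂ρ, x ≠ c := by
      rw [ae_iff]; simpa using hat c
    have h3 : ∀ᵐ x ∂ρ, x ≠ d := by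
      rw [ae_iff]; simpa using hat d
    filter_upwards [h1, h2, h3] with x h1 h2 h3
    have h4 : deriv f x = 0 := by
      rcases lt_or_gt_of_ne h2 with h | h
      · have : f =ᶠ[𝓝 x] fun _ => 0 := by
          filter_upwards [Iio_mem_nhds h] with y hy
          exact hfl y (le_of_lt hy)
        rw [this.deriv_eq, deriv_const]
      · have hdx : d < x := by
          by_contra hcon
          push Not at hcon
          exact h1 ⟨h, hcon⟩
        have : f =ᶠ[𝓝 x] fun _ => 1 := by
          filter_upwards [Ioi_mem_nhds hdx] with y hy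
          exact hfr y (le_of_lt hy)
        rw [this.deriv_eq, deriv_const]
    rw [h4]
    simp
  have h1 := hP f ⟨_, hflip⟩ ⟨1, hfb⟩
  rw [hder, mul_zero] at h1
  set m := ∫ y, f y ∂ρ
  have hint : Integrable (fun x => (f x - m) ^ 2) ρ := by
    refine bdd_integrable ((hflip.continuous.sub continuous_const).pow 2) (C := (1 + |m|) ^ 2)
      fun x => ?_
    rw [abs_pow]
    apply pow_le_pow_left₀ (abs_nonneg _)
    exact (abs_sub _ _).trans (add_le_add (hfb x) le_rfl)
  have h2 : ∫ x, (f x - m) ^ 2 ∂ρ = 0 :=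
    le_antisymm h1 (integral_nonneg fun x => sq_nonneg _)
  rw [integral_eq_zero_iff_of_nonneg (fun x => sq_nonneg _) hint] at h2
  have h3 : ∀ᵐ x ∂ρ, f x = m := by
    filter_upwards [h2] with x hx
    simp only [Pi.zero_apply] at hx
    have := pow_eq_zero_iff (two_ne_zero) |>.1 hx
    linarith
  rw [ae_iff] at h3
  have hm0 : m = 0 := by
    by_contra hm
    have h4 : Set.Iic c ⊆ {x | ¬ f x = m} := by
      intro x hx
      show ¬ f x = m
      rw [hfl x hx]
      exact fun h => hm h.symm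
    have h5 := measure_mono_null h4 h3
    unfold HH at hc
    rw [Measure.real, h5] at hc
    simp at hc
  have hm1 : m = 1 := by
    by_contra hm
    have h4 : Set.Ioi d ⊆ {x | ¬ f x = m} := by
      intro x hx
      show ¬ f x = m
      rw [hfr x (le_of_lt hx)]
      exact fun h => hm h.symm
    have h5 := measure_mono_null h4 h3
    have h6 : ρ.real (Set.Iic d) + ρ.real (Set.Ioi d) = 1 := by
      rw [← Set.compl_Iic, measureReal_add_measureReal_compl measurableSet_Iic]
      simp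
    unfold HH at hd
    have h7 : ρ.real (Set.Ioi d) = 0 := by rw [Measure.real, h5]; rfl
    linarith
  rw [hm0] at hm1
  norm_num at hm1

/-- The restricted and normalized measure. -/
noncomputable def tr (ρ : Measure ℝ) (lo hi : ℝ) : Measure ℝ := (ρ (Set.Icc lo hi))⁻¹ • ρ.restrict (Set.Icc lo hi)

theorem tr_cpt {ρ : Measure ℝ} [IsProbabilityMeasure ρ] (hat : ∀ x, ρ {x} = 0) {D : ℝ}
    (hP : P1 ρ D) {lo hi : ℝ} (hlh : lo < hi) (hlo : 0 < HH ρ lo) (hhi : HH ρ hi < 1) :
    Cpt (tr ρ lo hi) lo hi := by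
  have hpos : 0 < ρ (Set.Icc lo hi) :=
    lt_of_lt_of_le (hP.pos hat hlh hlo hhi) (measure_mono Set.Ioc_subset_Icc_self)
  refine ⟨?_, ?_, hlh, ?_, ?_⟩
  · constructor
    unfold tr
    rw [Measure.smul_apply, Measure.restrict_apply_univ, smul_eq_mul]
    exact ENNReal.inv_mul_cancel hpos.ne' (measure_ne_top _ _)
  · intro x
    unfold tr
    rw [Measure.smul_apply, smul_eq_mul]
    have : (ρ.restrict (Set.Icc lo hi)) {x} = 0 :=
      Measure.restrict_le_self.absolutelyContinuous (hat x)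
    rw [this, mul_zero]
  · unfold tr
    rw [Measure.smul_apply, smul_eq_mul, Measure.restrict_apply measurableSet_Icc.compl,
      Set.compl_inter_self, measure_empty, mul_zero]
  · intro c d hc hcd hd
    unfold tr
    rw [Measure.smul_apply, smul_eq_mul, Measure.restrict_apply measurableSet_Ioc,
      Set.inter_eq_left.2 (show Set.Ioc c d ⊆ Set.Icc lo hi from
        fun x hx => ⟨hc.trans hx.1.le, hx.2.trans hd⟩)]
    apply ENNReal.mul_pos
    · exact ENNReal.inv_ne_zero.2 (measure_ne_top _ _)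
    · exact (hP.pos hat hcd (hlo.trans_le (HH_mono ρ hc)) ((HH_mono ρ hd).trans_lt hhi)).ne'

theorem integral_tr (ρ : Measure ℝ) [IsProbabilityMeasure ρ] (lo hi : ℝ) (f : ℝ → ℝ) :
    ∫ x, f x ∂(tr ρ lo hi) = (ρ.real (Set.Icc lo hi))⁻¹ * ∫ x in Set.Icc lo hi, f x ∂ρ := by
  unfold tr
  rw [integral_smul_measure, smul_eq_mul, ENNReal.toReal_inv]
  rfl

/-- the variance is the smallest second moment -/
theorem var_le {σ : Measure ℝ} [IsProbabilityMeasure σ] {f : ℝ → ℝ} (hf : Integrable f σ)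
    (hf2 : Integrable (fun x => f x ^ 2) σ) (c : ℝ) :
    ∫ x, (f x - ∫ y, f y ∂σ) ^ 2 ∂σ ≤ ∫ x, (f x - c) ^ 2 ∂σ := by
  have key : ∀ c : ℝ, ∫ x, (f x - c) ^ 2 ∂σ = ∫ x, f x ^ 2 ∂σ - 2 * c * ∫ x, f x ∂σ + c ^ 2 := by
    intro c
    have e : ∀ x, (f x - c) ^ 2 = (f x ^ 2 - 2 * c * f x) + c ^ 2 := fun x => by ring
    simp only [e]
    have h1 : Integrable (fun x => 2 * c * f x) σ := hf.const_mul _
    have h2 : Integrable (fun x => f x ^ 2 - 2 * c * f x) σ := hf2.sub h1
    rw [integral_add h2 (integrable_const _), integral_sub hf2 h1, integral_const_mul]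
    simp
  rw [key, key]
  nlinarith [sq_nonneg (∫ x, f x ∂σ - c)]

/-- The truncated measure satisfies the same Poincaré inequality. -/
theorem tr_P1 {ρ : Measure ℝ} [IsProbabilityMeasure ρ] (hat : ∀ x, ρ {x} = 0) {D : ℝ}
    (hP : P1 ρ D) {lo hi : ℝ} (hlh : lo < hi) (hlo : 0 < HH ρ lo) (hhi : HH ρ hi < 1)
    (f : ℝ → ℝ) (hf : ∃ L, LipschitzWith L f) :
    ∫ x, (f x - ∫ y, f y ∂(tr ρ lo hi)) ^ 2 ∂(tr ρ lo hi) ≤
      D ^ 2 * ∫ x, (deriv f x) ^ 2 ∂(tr ρ lo hi) := by
  obtain ⟨L, hL⟩ := hf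
  have hcpt := tr_cpt hat hP hlh hlo hhi
  have hprob := hcpt.prob
  have hpos : 0 < ρ.real (Set.Icc lo hi) := by
    apply ENNReal.toReal_pos _ (measure_ne_top _ _)
    exact (lt_of_lt_of_le (hP.pos hat hlh hlo hhi) (measure_mono Set.Ioc_subset_Icc_self)).ne'
  let pr : ℝ → ℝ := fun x => max lo (min hi x)
  have hpr : LipschitzWith 1 pr := (LipschitzWith.id.const_min hi).const_max lo
  let g : ℝ → ℝ := fun x => f (pr x)
  have hg : LipschitzWith L g := by
    have := hL.comp hpr
    rwa [mul_one] at this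
  have hprmem : ∀ x, pr x ∈ Set.Icc lo hi := fun x =>
    ⟨le_max_left _ _, max_le hlh.le (min_le_left _ _)⟩
  have hpreq : ∀ x ∈ Set.Icc lo hi, pr x = x := by
    intro x hx
    simp only [pr]
    rw [min_eq_right hx.2, max_eq_right hx.1]
  have hgb : ∀ x, |g x| ≤ |f lo| + L * (hi - lo) := by
    intro x
    have h1 := hL.dist_le_mul (pr x) lo
    rw [Real.dist_eq, Real.dist_eq] at h1
    have h2 : |pr x - lo| ≤ hi - lo := by
      have := hprmem x
      rw [abs_of_nonneg (by linarith [this.1])]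
      linarith [this.2]
    have h3 := mul_le_mul_of_nonneg_left h2 L.coe_nonneg
    have h4 := abs_sub_abs_le_abs_sub (f (pr x)) (f lo)
    show |f (pr x)| ≤ _
    linarith
  have h1 := hP g ⟨L, hg⟩ ⟨_, hgb⟩
  set c := ∫ y, g y ∂ρ
  have hder : ∫ x, (deriv g x) ^ 2 ∂ρ = ∫ x in Set.Icc lo hi, (deriv f x) ^ 2 ∂ρ := by
    rw [← integral_indicator measurableSet_Icc]
    apply integral_congr_ae
    have h2 : ∀ᵐ x ∂ρ, x ≠ lo := by
      rw [ae_iff]; simpa using hat lo
    have h3 : ∀ᵐ x ∂ρ, x ≠ hi := by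
      rw [ae_iff]; simpa using hat hi
    filter_upwards [h2, h3] with x h2 h3
    rcases lt_or_gt_of_ne h2 with h | h
    · rw [Set.indicator_of_notMem (fun hx => absurd hx.1 (not_le_of_gt h))]
      have : g =ᶠ[𝓝 x] fun _ => f lo := by
        filter_upwards [Iio_mem_nhds h] with y hy
        simp only [g, pr]
        rw [min_eq_right ((le_of_lt hy).trans hlh.le), max_eq_left (le_of_lt hy)]
      rw [this.deriv_eq, deriv_const]
      simp
    · rcases lt_or_gt_of_ne h3 with h' | h'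
      · rw [Set.indicator_of_mem (show x ∈ Set.Icc lo hi from ⟨h.le, h'.le⟩)]
        have : g =ᶠ[𝓝 x] f := by
          filter_upwards [Ioo_mem_nhds h h'] with y hy
          simp only [g]
          rw [hpreq y ⟨hy.1.le, hy.2.le⟩]
        rw [this.deriv_eq]
      · rw [Set.indicator_of_notMem (fun hx => absurd hx.2 (not_le_of_gt h'))]
        have : g =ᶠ[𝓝 x] fun _ => f hi := by
          filter_upwards [Ioi_mem_nhds h'] with y hy
          simp only [g, pr]
          rw [min_eq_left (le_of_lt hy), max_eq_right hlh.le]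
        rw [this.deriv_eq, deriv_const]
        simp
  rw [hder] at h1
  have hgint : Integrable (fun x => (g x - c) ^ 2) ρ := by
    refine bdd_integrable ((hg.continuous.sub continuous_const).pow 2)
      (C := (|f lo| + L * (hi - lo) + |c|) ^ 2) fun x => ?_
    rw [abs_pow]
    apply pow_le_pow_left₀ (abs_nonneg _)
    exact (abs_sub _ _).trans (add_le_add (hgb x) le_rfl)
  have h2 : ∫ x in Set.Icc lo hi, (f x - c) ^ 2 ∂ρ ≤ ∫ x, (g x - c) ^ 2 ∂ρ := by
    have h3 : ∫ x in Set.Icc lo hi, (f x - c) ^ 2 ∂ρ = ∫ x in Set.Icc lo hi, (g x - c) ^ 2 ∂ρ := by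
      apply setIntegral_congr_fun measurableSet_Icc
      intro x hx
      simp only [g]
      rw [hpreq x hx]
    rw [h3]
    exact setIntegral_le_integral hgint (Eventually.of_forall fun x => sq_nonneg _)
  have hfb : ∀ᵐ x ∂(tr ρ lo hi), |f x| ≤ |f lo| + L * (hi - lo) := by
    filter_upwards [hcpt.ae_mem] with x hx
    have := hgb x
    simp only [g] at this
    rwa [hpreq x hx] at this
  have hfi : Integrable f (tr ρ lo hi) :=
    Integrable.of_bound hL.continuous.aestronglyMeasurable _ hfb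
  have hf2i : Integrable (fun x => f x ^ 2) (tr ρ lo hi) := by
    refine Integrable.of_bound (hL.continuous.pow 2).aestronglyMeasurable
      ((|f lo| + L * (hi - lo)) ^ 2) ?_
    filter_upwards [hfb] with x hx
    rw [Real.norm_eq_abs, abs_pow]
    exact pow_le_pow_left₀ (abs_nonneg _) hx 2
  refine (var_le hfi hf2i c).trans ?_
  rw [integral_tr, integral_tr]
  have h3 := mul_le_mul_of_nonneg_left (h2.trans h1) (inv_pos.2 hpos).le
  calc (ρ.real (Set.Icc lo hi))⁻¹ * ∫ x in Set.Icc lo hi, (f x - c) ^ 2 ∂ρ ≤ _ := h3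
    _ = _ := by ring

variable {ι : Type*} [Fintype ι] [DecidableEq ι]

/-- the box -/
def boxOf (ι : Type*) (lo hi : ℝ) : Set (ι → ℝ) := Set.pi Set.univ fun _ => Set.Icc lo hi

theorem measurableSet_box (lo hi : ℝ) : MeasurableSet (boxOf ι lo hi) :=
  MeasurableSet.univ_pi fun _ => measurableSet_Icc

theorem prodM_tr (ρ : Measure ℝ) [IsProbabilityMeasure ρ] {lo hi : ℝ}
    (hpos : ρ (Set.Icc lo hi) ≠ 0) :
    prodM ι (tr ρ lo hi) =
      ((ρ (Set.Icc lo hi))⁻¹) ^ Fintype.card ι • (prodM ι ρ).restrict (boxOf ι lo hi) := by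
  have hfin : (ρ (Set.Icc lo hi))⁻¹ ≠ ⊤ := ENNReal.inv_ne_top.2 hpos
  have hsf : IsFiniteMeasure (tr ρ lo hi) := by
    unfold tr
    exact ⟨by
      rw [Measure.smul_apply, smul_eq_mul]
      exact ENNReal.mul_lt_top hfin.lt_top (measure_lt_top _ _)⟩
  symm
  refine (Measure.pi_eq fun s hs => ?_).symm
  have h1 : (prodM ι ρ).restrict (boxOf ι lo hi) (Set.pi Set.univ s) =
      ∏ i, ρ (s i ∩ Set.Icc lo hi) := by
    rw [Measure.restrict_apply (MeasurableSet.univ_pi hs), boxOf, ← Set.pi_inter_distrib,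
      Measure.pi_pi]
  rw [Measure.smul_apply, h1, smul_eq_mul]
  unfold tr
  simp only [Measure.smul_apply, smul_eq_mul]
  rw [Finset.prod_mul_distrib, Finset.prod_const, Finset.card_univ]
  congr 1
  exact Finset.prod_congr rfl fun i _ => (Measure.restrict_apply (hs i)).symm

/-- Scaling and restriction of the Poincaré inequality. -/
theorem PIneq_smul_restrict {κ : ℝ} {π : Measure (ι → ℝ)} [IsFiniteMeasure π] {c : ENNReal}
    (hc0 : c ≠ 0) (hc : c ≠ ⊤) {B K : Set (ι → ℝ)} (hK : MeasurableSet K)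
    {F : (ι → ℝ) → ℝ} (h : PIneq κ (c • π.restrict B) K F) : PIneq κ π (K ∩ B) F := by
  unfold PIneq at h ⊢
  have hcr : 0 < c.toReal := ENNReal.toReal_pos hc0 hc
  have e : ∀ Φ : (ι → ℝ) → ℝ, ∫ x in K, Φ x ∂(c • π.restrict B) = c.toReal * ∫ x in K ∩ B, Φ x ∂π := by
    intro Φ
    rw [Measure.restrict_smul, integral_smul_measure, smul_eq_mul, Measure.restrict_restrict hK]
  have e1 : (c • π.restrict B).real K = c.toReal * π.real (K ∩ B) := by
    rw [Measure.real, Measure.smul_apply, smul_eq_mul, ENNReal.toReal_mul,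
      Measure.restrict_apply hK]
    rfl
  rw [e, e, e, e1] at h
  have h2 : c.toReal ^ 2 * (κ * (π.real (K ∩ B) * (∫ x in K ∩ B, F x ^ 2 ∂π) -
      (∫ x in K ∩ B, F x ∂π) ^ 2)) ≤ c.toReal ^ 2 * (π.real (K ∩ B) *
        ∫ x in K ∩ B, ∑ i, (fderiv ℝ F x (Pi.single i 1)) ^ 2 ∂π) := by
    calc _ = _ := by ring
      _ ≤ _ := h
      _ = _ := by ring
  exact le_of_mul_le_mul_left h2 (by positivity)

/-- Limit of the Poincaré inequalities over growing boxes. -/
theorem PIneq_limit {κ : ℝ} {π : Measure (ι → ℝ)} [IsFiniteMeasure π]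
    (hmom : Integrable (fun x : ι → ℝ => ‖x‖ ^ 2) π) {K : Set (ι → ℝ)} {B : ℕ → Set (ι → ℝ)}
    (hB : ∀ k, MeasurableSet (B k)) (hBlim : ∀ᵐ x ∂π, ∀ᶠ k in atTop, x ∈ B k)
    {F : (ι → ℝ) → ℝ} {L : NNReal} (hF : LipschitzWith L F)
    (h : ∀ k, PIneq κ π (K ∩ B k) F) : PIneq κ π K F := by
  have hlim : ∀ Φ : (ι → ℝ) → ℝ, Integrable Φ π →
      Tendsto (fun k => ∫ x in K ∩ B k, Φ x ∂π) atTop (𝓝 (∫ x in K, Φ x ∂π)) := by
    intro Φ hΦ
    have e : ∀ k, ∫ x in K ∩ B k, Φ x ∂π = ∫ x in K, (B k).indicator Φ x ∂π := by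
      intro k
      rw [setIntegral_indicator (hB k)]
    simp only [e]
    refine tendsto_integral_of_dominated_convergence (fun x => ‖Φ x‖)
      (fun k => (hΦ.aestronglyMeasurable.indicator (hB k)).restrict) hΦ.norm.integrableOn ?_ ?_
    · intro k
      filter_upwards with x
      exact norm_indicator_le_norm_self _ _
    · filter_upwards [ae_restrict_of_ae hBlim] with x hx
      refine tendsto_const_nhds.congr' ?_
      filter_upwards [hx] with k hk
      rw [Set.indicator_of_mem hk]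
  have hF2 : Integrable (fun x => F x ^ 2) π := by
    refine (integrable_dom hmom |F 0| L).mono' (hF.continuous.pow 2).aestronglyMeasurable
      (Eventually.of_forall fun x => ?_)
    rw [Real.norm_eq_abs, abs_pow]
    exact pow_le_pow_left₀ (abs_nonneg _) (lip_growth hF x) 2
  have hF1 : Integrable F π :=
    (integrable_dom1 hmom |F 0| L).mono' hF.continuous.aestronglyMeasurable
      (Eventually.of_forall fun x => lip_growth hF x)
  have hV : Tendsto (fun k => π.real (K ∩ B k)) atTop (𝓝 (π.real K)) := by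
    have := hlim (fun _ => 1) (integrable_const _)
    simpa [setIntegral_const] using this
  have hl := ((hV.mul (hlim _ hF2)).sub ((hlim _ hF1).pow 2)).const_mul κ
  have hr := hV.mul (hlim _ (integrable_grad hF))
  exact le_of_tendsto_of_tendsto' hl hr h

theorem ac_pi {ρ : Measure ℝ} [IsFiniteMeasure ρ] (hac : ρ ≪ volume) (n : ℕ) :
    prodM (Fin n) ρ ≪ volume := by
  induction n with
  | zero =>
    intro s hs
    rw [volume_pi] at hs
    have e : prodM (Fin 0) ρ = Measure.pi fun _ : Fin 0 => (volume : Measure ℝ) := by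
      rw [prodM, Measure.pi_of_empty (fun _ : Fin 0 => ρ),
        Measure.pi_of_empty (fun _ : Fin 0 => (volume : Measure ℝ))]
    rw [e]
    exact hs
  | succ n ih =>
    have h1 := measurePreserving_piFinSuccAbove (fun _ : Fin (n + 1) => ρ) 0
    have h2 := measurePreserving_piFinSuccAbove (fun _ : Fin (n + 1) => (volume : Measure ℝ)) 0
    rw [volume_pi] at ih ⊢
    have h3 : ρ.prod (Measure.pi fun _ : Fin n => ρ) ≪
        (volume : Measure ℝ).prod (Measure.pi fun _ : Fin n => volume) := hac.prod ih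
    have h4 := h1.symm
    have h5 := h2.symm
    intro s hs
    rw [← h5.measure_preimage_equiv] at hs
    have := h3 hs
    rwa [h4.measure_preimage_equiv] at this

/-- general assembly -/
theorem PIneq_of_boxes {n : ℕ} {ρ : Measure ℝ} [IsProbabilityMeasure ρ] {κ : ℝ}
    {K : Set (Fin n → ℝ)} (hK : MeasurableSet K)
    (hmom : Integrable (fun x : ℝ => x ^ 2) ρ) {lo hi : ℕ → ℝ}
    (hpos : ∀ k, ρ (Set.Icc (lo k) (hi k)) ≠ 0)
    (hlim : ∀ᵐ x ∂ρ, ∀ᶠ k in atTop, x ∈ Set.Icc (lo k) (hi k))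
    {F : (Fin n → ℝ) → ℝ} {L : NNReal} (hF : LipschitzWith L F)
    (h : ∀ k, PIneq κ (prodM (Fin n) (tr ρ (lo k) (hi k))) K F) :
    PIneq κ (prodM (Fin n) ρ) K F := by
  have hmomn : Integrable (fun x : Fin n → ℝ => ‖x‖ ^ 2) (prodM (Fin n) ρ) := by
    have h1 : Integrable (fun x : Fin n → ℝ => ∑ i, x i ^ 2) (prodM (Fin n) ρ) := by
      refine integrable_finsetSum _ fun i _ => ?_
      exact (measurePreserving_eval (fun _ : Fin n => ρ) i).integrable_comp_of_integrable hmom
    refine h1.mono' (by fun_prop) (Eventually.of_forall fun x => ?_)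
    rw [norm_pow, norm_norm]
    have hn : ‖x‖ ≤ Real.sqrt (∑ i, x i ^ 2) := by
      rw [pi_norm_le_iff_of_nonneg (Real.sqrt_nonneg _)]
      intro i
      rw [Real.norm_eq_abs]
      exact Real.abs_le_sqrt (Finset.single_le_sum (f := fun i => x i ^ 2)
        (fun j _ => sq_nonneg _) (Finset.mem_univ i))
    have h2 := pow_le_pow_left₀ (norm_nonneg x) hn 2
    rwa [Real.sq_sqrt (Finset.sum_nonneg fun i _ => sq_nonneg _)] at h2
  refine PIneq_limit hmomn (B := fun k => boxOf (Fin n) (lo k) (hi k))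
    (fun k => measurableSet_box _ _) ?_ hF fun k => ?_
  · filter_upwards [ae_coord (ι := Fin n) hlim] with x hx
    rw [← eventually_all] at hx
    filter_upwards [hx] with k hk
    intro i _
    exact hk i
  · have h1 := h k
    rw [prodM_tr ρ (hpos k)] at h1
    refine PIneq_smul_restrict ?_ ?_ hK h1
    · exact pow_ne_zero _ (ENNReal.inv_ne_zero.2 (measure_ne_top _ _))
    · exact ENNReal.pow_ne_top (ENNReal.inv_ne_top.2 (hpos k))

theorem exists_level {ρ : Measure ℝ} [IsProbabilityMeasure ρ] (hat : ∀ x, ρ {x} = 0) {u : ℝ}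
    (h0 : 0 < u) (h1 : u < 1) : ∃ x, HH ρ x = u := by
  have hc := HH_continuous ρ hat
  have e : HH ρ = fun x => ProbabilityTheory.cdf ρ x := by
    funext x
    exact (ProbabilityTheory.cdf_eq_real ρ x).symm
  have hb : Tendsto (HH ρ) atBot (𝓝 0) := by rw [e]; exact ProbabilityTheory.tendsto_cdf_atBot ρ
  have ht : Tendsto (HH ρ) atTop (𝓝 1) := by rw [e]; exact ProbabilityTheory.tendsto_cdf_atTop ρ
  obtain ⟨a, ha⟩ := (hb.eventually (Iio_mem_nhds h0)).exists
  obtain ⟨b, hb⟩ := (ht.eventually (Ioi_mem_nhds h1)).exists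
  exact mem_range_of_exists_le_of_exists_ge hc ⟨a, le_of_lt ha⟩ ⟨b, le_of_lt hb⟩

theorem ae_level {ρ : Measure ℝ} [IsProbabilityMeasure ρ] (hat : ∀ x, ρ {x} = 0) :
    ∀ᵐ x ∂ρ, 0 < HH ρ x ∧ HH ρ x < 1 := by
  have h0 : ρ {x | HH ρ x = 0} = 0 := by
    by_contra hne
    have hpos : 0 < ρ.real {x | HH ρ x = 0} := ENNReal.toReal_pos hne (measure_ne_top _ _)
    have hle : ρ.real {x | HH ρ x = 0} ≤ 1 := measureReal_le_one
    obtain ⟨y, hy⟩ := exists_level hat (u := ρ.real {x | HH ρ x = 0} / 2) (by linarith) (by linarith)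
    have h1 : {x | HH ρ x = 0} ⊆ Set.Iic y := by
      intro x hx
      by_contra hcon
      have h2 := HH_mono ρ (le_of_not_ge hcon)
      rw [hy, show HH ρ x = 0 from hx] at h2
      linarith
    have h3 := measureReal_mono (μ := ρ) h1
    have h4 : ρ.real (Set.Iic y) = ρ.real {x | HH ρ x = 0} / 2 := hy
    linarith
  have h1 : ρ {x | HH ρ x = 1} = 0 := by
    by_contra hne
    have hpos : 0 < ρ.real {x | HH ρ x = 1} := ENNReal.toReal_pos hne (measure_ne_top _ _)
    have hle : ρ.real {x | HH ρ x = 1} ≤ 1 := measureReal_le_one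
    obtain ⟨y, hy⟩ := exists_level hat (u := 1 - ρ.real {x | HH ρ x = 1} / 2) (by linarith)
      (by linarith)
    have h1 : {x | HH ρ x = 1} ⊆ Set.Ioi y := by
      intro x hx
      by_contra hcon
      have h2 := HH_mono ρ (not_lt.1 hcon)
      rw [hy, show HH ρ x = 1 from hx] at h2
      linarith
    have h3 := measureReal_mono (μ := ρ) h1
    have h4 : ρ.real (Set.Iic y) = 1 - ρ.real {x | HH ρ x = 1} / 2 := hy
    have h5 : ρ.real (Set.Iic y) + ρ.real (Set.Ioi y) = 1 := by
      rw [← Set.compl_Iic, measureReal_add_measureReal_compl measurableSet_Iic]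
      simp
    linarith
  have h2 : ∀ᵐ x ∂ρ, HH ρ x ≠ 0 := by rw [ae_iff]; simpa using h0
  have h3 : ∀ᵐ x ∂ρ, HH ρ x ≠ 1 := by rw [ae_iff]; simpa using h1
  filter_upwards [h2, h3] with x h2 h3
  exact ⟨lt_of_le_of_ne (HH_nonneg ρ x) h2.symm, lt_of_le_of_ne (HH_le_one ρ x) h3⟩

theorem noatom_of_ac {ρ : Measure ℝ} (hac : ρ ≪ volume) (x : ℝ) : ρ {x} = 0 :=
  hac (by simp)

/-- **Poincaré inequality for order cones.** -/
theorem ordCone_main {n : ℕ} {ρ : Measure ℝ} [IsProbabilityMeasure ρ] (hac : ρ ≪ volume) {D : ℝ}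
    (hD : 0 < D) (hP : P1 ρ D) (hmom : Integrable (fun x : ℝ => x ^ 2) ρ)
    (E : Set (Fin n × Fin n)) {F : (Fin n → ℝ) → ℝ} {L : NNReal} (hF : LipschitzWith L F) :
    PIneq (1 / D ^ 2) (prodM (Fin n) ρ) (ordCone E) F := by
  have hat := noatom_of_ac hac
  have hu : ∀ k : ℕ, (0 : ℝ) < 1 / ((k : ℝ) + 3) ∧ 1 / ((k : ℝ) + 3) < 1 / 2 := by
    intro k
    have : (0 : ℝ) ≤ k := Nat.cast_nonneg k
    constructor
    · positivity
    · rw [div_lt_div_iff₀ (by positivity) (by norm_num)]
      linarith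
  choose lo hlo using fun k : ℕ => exists_level hat (hu k).1 (by linarith [(hu k).2])
  choose hi hhi using fun k : ℕ => exists_level hat (u := 1 - 1 / ((k : ℝ) + 3))
    (by linarith [(hu k).2]) (by linarith [(hu k).1])
  have hlh : ∀ k, lo k < hi k := by
    intro k
    by_contra hcon
    push Not at hcon
    have := HH_mono ρ hcon
    rw [hlo, hhi] at this
    linarith [(hu k).2]
  have hpos : ∀ k, ρ (Set.Icc (lo k) (hi k)) ≠ 0 := by
    intro k
    have := hP.pos hat (hlh k) (by rw [hlo]; exact (hu k).1) (by rw [hhi]; linarith [(hu k).1])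
    exact (lt_of_lt_of_le this (measure_mono Set.Ioc_subset_Icc_self)).ne'
  refine PIneq_of_boxes (measurableSet_ordCone E) hmom hpos ?_ hF fun k => ?_
  · have h0 := ae_level hat
    have hl : Tendsto (fun k : ℕ => 1 / ((k : ℝ) + 3)) atTop (𝓝 0) :=
      tendsto_const_nhds.div_atTop (tendsto_natCast_atTop_atTop.atTop_add tendsto_const_nhds)
    filter_upwards [h0] with x hx
    have h1 := hl.eventually (Iio_mem_nhds hx.1)
    have h2 := hl.eventually (Iio_mem_nhds (show 0 < 1 - HH ρ x by linarith [hx.2]))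
    filter_upwards [h1, h2] with k h1 h2
    constructor
    · by_contra hcon
      push Not at hcon
      have := HH_mono ρ hcon.le
      rw [hlo] at this
      linarith
    · by_contra hcon
      push Not at hcon
      have := HH_mono ρ hcon.le
      rw [hhi] at this
      linarith
  · have hcpt := tr_cpt hat hP (hlh k) (by rw [hlo]; exact (hu k).1)
      (by rw [hhi]; linarith [(hu k).1])
    have hac' : tr ρ (lo k) (hi k) ≪ volume := by
      intro s hs
      unfold tr
      rw [Measure.smul_apply, smul_eq_mul]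
      have : (ρ.restrict (Set.Icc (lo k) (hi k))) s = 0 :=
        Measure.restrict_le_self.absolutelyContinuous (hac hs)
      rw [this, mul_zero]
    have := hcpt.prob
    exact hcpt.ordCone_PIneq hD (tr_P1 hat hP (hlh k) (by rw [hlo]; exact (hu k).1)
      (by rw [hhi]; linarith [(hu k).1])) (ac_pi hac' n) E hF

theorem H_neg_of_symm {ρ : Measure ℝ} [IsProbabilityMeasure ρ] (hat : ∀ x, ρ {x} = 0)
    (hsym : ρ.map (fun x => -x) = ρ) (x : ℝ) : HH ρ (-x) = 1 - HH ρ x := by
  have h1 : ρ.real (Set.Iic (-x)) = ρ.real (Set.Ici x) := by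
    have h2 : ρ (Set.Iic (-x)) = ρ (Set.Ici x) := by
      conv_rhs => rw [← hsym]
      rw [Measure.map_apply measurable_neg measurableSet_Ici]
      congr 1
      ext y
      simp only [Set.mem_Iic, Set.mem_preimage, Set.mem_Ici]
      constructor <;> intro h <;> linarith
    rw [Measure.real, h2]
    rfl
  have h3 : ρ.real (Set.Ici x) = ρ.real (Set.Ioi x) := by
    apply measureReal_congr
    have h4 : ∀ᵐ y ∂ρ, y ≠ x := by
      rw [ae_iff]
      simpa using hat x
    filter_upwards [h4] with y hy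
    rw [eq_iff_iff]
    exact ⟨fun h => lt_of_le_of_ne h hy.symm, fun h => (show x < y from h).le⟩
  have h5 : ρ.real (Set.Iic x) + ρ.real (Set.Ioi x) = 1 := by
    rw [← Set.compl_Iic, measureReal_add_measureReal_compl measurableSet_Iic]
    simp
  unfold HH
  rw [h1, h3]
  linarith

theorem tr_symm {ρ : Measure ℝ} (hsym : ρ.map (fun x => -x) = ρ) (r : ℝ) :
    (tr ρ (-r) r).map (fun x => -x) = tr ρ (-r) r := by
  ext s hs
  unfold tr
  rw [Measure.map_apply measurable_neg hs, Measure.smul_apply, Measure.smul_apply,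
    Measure.restrict_apply (measurable_neg hs), Measure.restrict_apply hs]
  congr 1
  conv_rhs => rw [← hsym]
  rw [Measure.map_apply measurable_neg (hs.inter measurableSet_Icc)]
  congr 1
  ext x
  simp only [Set.mem_inter_iff, Set.mem_preimage, Set.mem_Icc]
  constructor
  · rintro ⟨h1, h2, h3⟩; exact ⟨h1, by linarith, by linarith⟩
  · rintro ⟨h1, h2, h3⟩; exact ⟨h1, by linarith, by linarith⟩

/-- **Poincaré inequality for signed order cones.** -/
theorem litCone_main {n : ℕ} {ρ : Measure ℝ} [IsProbabilityMeasure ρ] (hac : ρ ≪ volume)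
    (hsym : ρ.map (fun x => -x) = ρ) {D : ℝ}
    (hD : 0 < D) (hP : P1 ρ D) (hmom : Integrable (fun x : ℝ => x ^ 2) ρ)
    (E : Set ((Fin n × Bool) × (Fin n × Bool))) {F : (Fin n → ℝ) → ℝ} {L : NNReal}
    (hF : LipschitzWith L F) :
    PIneq (1 / D ^ 2) (prodM (Fin n) ρ) (litCone E) F := by
  have hat := noatom_of_ac hac
  have hu : ∀ k : ℕ, (0 : ℝ) < 1 / ((k : ℝ) + 3) ∧ 1 / ((k : ℝ) + 3) < 1 / 2 := by
    intro k
    have : (0 : ℝ) ≤ k := Nat.cast_nonneg k
    constructor
    · positivity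
    · rw [div_lt_div_iff₀ (by positivity) (by norm_num)]
      linarith
  choose hi hhi using fun k : ℕ => exists_level hat (u := 1 - 1 / ((k : ℝ) + 3))
    (by linarith [(hu k).2]) (by linarith [(hu k).1])
  have hlo : ∀ k, HH ρ (-hi k) = 1 / ((k : ℝ) + 3) := by
    intro k
    rw [H_neg_of_symm hat hsym, hhi]
    ring
  have hlh : ∀ k, -hi k < hi k := by
    intro k
    by_contra hcon
    push Not at hcon
    have := HH_mono ρ hcon
    rw [hlo, hhi] at this
    linarith [(hu k).2]
  have hpos : ∀ k, ρ (Set.Icc (-hi k) (hi k)) ≠ 0 := by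
    intro k
    have := hP.pos hat (hlh k) (by rw [hlo]; exact (hu k).1) (by rw [hhi]; linarith [(hu k).1])
    exact (lt_of_lt_of_le this (measure_mono Set.Ioc_subset_Icc_self)).ne'
  refine PIneq_of_boxes (measurableSet_litCone E) hmom hpos ?_ hF fun k => ?_
  · have h0 := ae_level hat
    have hl : Tendsto (fun k : ℕ => 1 / ((k : ℝ) + 3)) atTop (𝓝 0) :=
      tendsto_const_nhds.div_atTop (tendsto_natCast_atTop_atTop.atTop_add tendsto_const_nhds)
    filter_upwards [h0] with x hx
    have h1 := hl.eventually (Iio_mem_nhds hx.1)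
    have h2 := hl.eventually (Iio_mem_nhds (show 0 < 1 - HH ρ x by linarith [hx.2]))
    filter_upwards [h1, h2] with k h1 h2
    constructor
    · by_contra hcon
      push Not at hcon
      have := HH_mono ρ hcon.le
      rw [hlo] at this
      linarith
    · by_contra hcon
      push Not at hcon
      have := HH_mono ρ hcon.le
      rw [hhi] at this
      linarith
  · have hcpt := tr_cpt hat hP (hlh k) (by rw [hlo]; exact (hu k).1)
      (by rw [hhi]; linarith [(hu k).1])
    have hac' : tr ρ (-hi k) (hi k) ≪ volume := by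
      intro s hs
      unfold tr
      rw [Measure.smul_apply, smul_eq_mul]
      have : (ρ.restrict (Set.Icc (-hi k) (hi k))) s = 0 :=
        Measure.restrict_le_self.absolutelyContinuous (hac hs)
      rw [this, mul_zero]
    have := hcpt.prob
    exact hcpt.litCone_PIneq (tr_symm hsym _) rfl hD (tr_P1 hat hP (hlh k) (by rw [hlo]; exact (hu k).1)
      (by rw [hhi]; linarith [(hu k).1])) (ac_pi hac' n) E hF

end Pool.Agent.Lib.MP_8d00da_gt
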