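import Pool.Agent.Lib.MP_8d00da_gt.Bodies

/-!
# Uniform measures: order polytopes
-/

open MeasureTheory Filter Topology

set_option linter.unusedSectionVars false

namespace Pool.Agent.Lib.MP_8d00da_gt

/-- the uniform law on an interval -/
noncomputable def unifI (lo hi : ℝ) : Measure ℝ := ProbabilityTheory.cond volume (Set.Icc lo hi)

theorem vol_Icc {lo hi : ℝ} (h : lo < hi) : volume (Set.Icc lo hi) ≠ 0 := by
  rw [Real.volume_Icc]
  simp [h]

theorem vol_Icc' {lo hi : ℝ} : volume (Set.Icc lo hi) ≠ ⊤ := by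
  rw [Real.volume_Icc]
  exact ENNReal.ofReal_ne_top

theorem prob_unifI {lo hi : ℝ} (h : lo < hi) : IsProbabilityMeasure (unifI lo hi) :=
  ProbabilityTheory.cond_isProbabilityMeasure_of_finite (vol_Icc h) vol_Icc'

theorem unifI_ac (lo hi : ℝ) : unifI lo hi ≪ volume := ProbabilityTheory.cond_absolutelyContinuous

theorem integral_unifI (lo hi : ℝ) (g : ℝ → ℝ) :
    ∫ x, g x ∂(unifI lo hi) = (volume (Set.Icc lo hi)).toReal⁻¹ * ∫ x in Set.Icc lo hi, g x := by
  unfold unifI ProbabilityTheory.cond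
  rw [integral_smul_measure, ENNReal.toReal_inv, smul_eq_mul]

theorem integral_unifI' {lo hi : ℝ} (h : lo < hi) (g : ℝ → ℝ) :
    ∫ x, g x ∂(unifI lo hi) = (hi - lo)⁻¹ * ∫ x in lo..hi, g x := by
  rw [integral_unifI, Real.volume_Icc, ENNReal.toReal_ofReal (by linarith),
    integral_Icc_eq_integral_Ioc, intervalIntegral.integral_of_le h.le]

theorem prodM_unifI {n : ℕ} {lo hi : ℝ} (h : lo < hi) :
    prodM (Fin n) (unifI lo hi) =
      ((volume (Set.Icc lo hi))⁻¹) ^ n •
        (volume : Measure (Fin n → ℝ)).restrict (boxOf (Fin n) lo hi) := by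
  have := prob_unifI h
  refine (Measure.pi_eq fun s hs => ?_)
  have h1 : (volume : Measure (Fin n → ℝ)).restrict (boxOf (Fin n) lo hi) (Set.pi Set.univ s) =
      ∏ i, volume (s i ∩ Set.Icc lo hi) := by
    rw [Measure.restrict_apply (MeasurableSet.univ_pi hs), boxOf, ← Set.pi_inter_distrib,
      volume_pi, Measure.pi_pi]
  rw [Measure.smul_apply, h1, smul_eq_mul]
  unfold unifI
  have h2 : ∀ i, (ProbabilityTheory.cond volume (Set.Icc lo hi)) (s i) =
      (volume (Set.Icc lo hi))⁻¹ * volume (s i ∩ Set.Icc lo hi) := by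
    intro i
    rw [ProbabilityTheory.cond_apply measurableSet_Icc, Set.inter_comm]
  rw [Finset.prod_congr rfl fun i _ => h2 i, Finset.prod_mul_distrib, Finset.prod_const,
    Finset.card_univ, Fintype.card_fin]

theorem cond_smul_restrict {X : Type*} [MeasurableSpace X] {π : Measure X} {c : ENNReal}
    (hc0 : c ≠ 0) (hc : c ≠ ⊤) {B K : Set X} (hK : MeasurableSet K) :
    ProbabilityTheory.cond (c • π.restrict B) K = ProbabilityTheory.cond π (K ∩ B) := by
  unfold ProbabilityTheory.cond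
  rw [Measure.restrict_smul, Measure.restrict_restrict hK, Measure.smul_apply,
    Measure.restrict_apply hK, smul_eq_mul, smul_smul, ENNReal.mul_inv (Or.inl hc0) (Or.inl hc),
    mul_comm c⁻¹, mul_assoc, ENNReal.inv_mul_cancel hc0 hc, mul_one]

/-- the measure on Euclidean space -/
theorem iidCond_unifI {n : ℕ} {lo hi : ℝ} (h : lo < hi) {K : Set (Fin n → ℝ)}
    (hK : MeasurableSet K) (P : Set (EuclideanSpace ℝ (Fin n)))
    (hP : ∀ x, toE n x ∈ P ↔ x ∈ K ∧ ∀ i, x i ∈ Set.Icc lo hi) :
    iidCond n (unifI lo hi) K = ProbabilityTheory.cond volume P := by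
  have := prob_unifI h
  have hc0 : ((volume (Set.Icc lo hi))⁻¹) ^ n ≠ 0 :=
    pow_ne_zero _ (ENNReal.inv_ne_zero.2 vol_Icc')
  have hc : ((volume (Set.Icc lo hi))⁻¹) ^ n ≠ ⊤ :=
    ENNReal.pow_ne_top (ENNReal.inv_ne_top.2 (vol_Icc h))
  rw [iidCond_eq, prodM_unifI h, cond_smul_restrict hc0 hc hK]
  have hpre : toE n ⁻¹' P = K ∩ boxOf (Fin n) lo hi := by
    ext x
    rw [Set.mem_preimage, hP]
    simp only [boxOf, Set.mem_inter_iff, Set.mem_pi, Set.mem_univ, forall_true_left]
  have hmp : MeasurePreserving (toE n) (volume : Measure (Fin n → ℝ)) volume :=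
    PiLp.volume_preserving_toLp (Fin n)
  have hPm : MeasurableSet P := by
    have h1 : MeasurableSet (toE n ⁻¹' P) := by
      rw [hpre]; exact hK.inter (measurableSet_box _ _)
    have h2 : P = (toE n).symm ⁻¹' (toE n ⁻¹' P) := by
      ext x; simp
    rw [h2]
    exact (toE n).symm.continuous.measurable h1
  unfold ProbabilityTheory.cond
  rw [← hpre, Measure.map_smul, ← Measure.restrict_map hmp.measurable hPm, hmp.map_eq,
    hmp.measure_preimage hPm.nullMeasurableSet]

theorem pos_of_vol {n : ℕ} {lo hi : ℝ} (h : lo < hi) {K : Set (Fin n → ℝ)}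
    (hK : MeasurableSet K) (P : Set (EuclideanSpace ℝ (Fin n)))
    (hP : ∀ x, toE n x ∈ P ↔ x ∈ K ∧ ∀ i, x i ∈ Set.Icc lo hi) (hv : volume P ≠ 0) :
    prodM (Fin n) (unifI lo hi) K ≠ 0 := by
  have hpre : toE n ⁻¹' P = K ∩ boxOf (Fin n) lo hi := by
    ext x
    rw [Set.mem_preimage, hP]
    simp only [boxOf, Set.mem_inter_iff, Set.mem_pi, Set.mem_univ, forall_true_left]
  have hmp : MeasurePreserving (toE n) (volume : Measure (Fin n → ℝ)) volume :=
    PiLp.volume_preserving_toLp (Fin n)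
  have hPm : MeasurableSet P := by
    have h1 : MeasurableSet (toE n ⁻¹' P) := by
      rw [hpre]; exact hK.inter (measurableSet_box _ _)
    have h2 : P = (toE n).symm ⁻¹' (toE n ⁻¹' P) := by
      ext x; simp
    rw [h2]
    exact (toE n).symm.continuous.measurable h1
  rw [prodM_unifI h, Measure.smul_apply, Measure.restrict_apply hK, ← hpre,
    hmp.measure_preimage hPm.nullMeasurableSet, smul_eq_mul]
  refine mul_ne_zero ?_ hv
  exact pow_ne_zero _ (ENNReal.inv_ne_zero.2 vol_Icc')

/-- Scaling. -/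
theorem PoincareWith.affine {ρ : Measure ℝ} {D : ℝ} (h : PoincareWith ρ D) {s : ℝ} (hs : 0 < s)
    (t : ℝ) : PoincareWith (ρ.map fun x => s * x + t) (s * D) := by
  rintro f ⟨L, hf⟩
  have hg : LipschitzWith (L * Real.toNNReal s) fun x => f (s * x + t) := by
    refine LipschitzWith.of_dist_le_mul fun x y => ?_
    refine (hf.dist_le_mul _ _).trans (le_of_eq ?_)
    rw [Real.dist_eq, Real.dist_eq, NNReal.coe_mul, Real.coe_toNNReal s hs.le]
    have : s * x + t - (s * y + t) = s * (x - y) := by ring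
    rw [this, abs_mul, abs_of_pos hs]
    ring
  have h1 := h _ ⟨_, hg⟩
  have hm : Measurable fun x : ℝ => s * x + t := by fun_prop
  have hfm := hf.continuous.measurable
  have e1 : ∫ y, f y ∂(ρ.map fun x => s * x + t) = ∫ y, f (s * y + t) ∂ρ :=
    integral_map hm.aemeasurable hf.continuous.aestronglyMeasurable
  rw [e1, eLpNorm_map_measure (by fun_prop) hm.aemeasurable,
    eLpNorm_map_measure ((measurable_fderiv ℝ f).norm.aestronglyMeasurable) hm.aemeasurable]
  refine h1.trans (le_of_eq ?_)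
  have e2 : (fun x => ‖fderiv ℝ (fun x => f (s * x + t)) x‖) =
      s • ((fun x => ‖fderiv ℝ f x‖) ∘ fun x => s * x + t) := by
    funext x
    rw [norm_fderiv_line]
    simp only [Pi.smul_apply, Function.comp_apply, smul_eq_mul]
    rw [norm_fderiv_line]
    have : deriv (fun x => f (s * x + t)) x = s * deriv f (s * x + t) := by
      have h2 := deriv_comp_mul_left s (fun y => f (y + t)) x
      have h3 := deriv_comp_add_const f t (s * x)
      rw [h3] at h2
      rw [h2, smul_eq_mul]
    rw [this, abs_mul, abs_of_pos hs]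
  rw [e2, eLpNorm_const_smul, ENNReal.ofReal_mul hs.le, Real.enorm_eq_ofReal hs.le]
  ring

theorem memLp_unifI {lo hi : ℝ} (h : lo < hi) : Integrable (fun x : ℝ => x ^ 2) (unifI lo hi) := by
  have := prob_unifI h
  have hae : ∀ᵐ x ∂(unifI lo hi), x ∈ Set.Icc lo hi :=
    ProbabilityTheory.ae_cond_mem₀ measurableSet_Icc.nullMeasurableSet
  refine Integrable.of_bound (by fun_prop) ((|lo| + |hi|) ^ 2) ?_
  filter_upwards [hae] with x hx
  rw [Real.norm_eq_abs, abs_pow]
  apply pow_le_pow_left₀ (abs_nonneg _)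
  rw [abs_le]
  constructor
  · have := neg_abs_le lo
    have := abs_nonneg hi
    linarith [hx.1]
  · have := le_abs_self hi
    have := abs_nonneg lo
    linarith [hx.2]

/-- The Wirtinger inequality on `[-1, 1]`. -/
theorem wirtinger_sym : PoincareWith (unifI (-1) 1) (2 / Real.pi) := by
  have hlt : (-1 : ℝ) < 1 := by norm_num
  have := prob_unifI hlt
  have hK0 : ordCone (∅ : Set (Fin 1 × Fin 1)) = Set.univ := by
    ext x; simp [ordCone]
  have hK : prodM (Fin 1) (unifI (-1) 1) (ordCone (∅ : Set (Fin 1 × Fin 1))) ≠ 0 := by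
    rw [hK0, measure_univ]
    exact one_ne_zero
  refine ord_backward (unifI_ac _ _) one_pos hK (poin_of_PIneq hK (memLp_unifI hlt)
    (by positivity) fun F L hF => ?_)
  have h1 := body_poincare (ι := Fin 1) ∅ hF
  have hb : body (∅ : Set ((Fin 1 × Bool) × (Fin 1 × Bool))) = boxOf (Fin 1) (-1) 1 := by
    ext x
    simp only [body, boxOf, Set.mem_ofPred_eq, Set.mem_empty_iff_false, false_imp_iff,
      implies_true, and_true, Set.mem_pi, Set.mem_univ, forall_true_left, abs_le, Set.mem_Icc]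
  rw [hb] at h1
  unfold PIneq
  rw [hK0, prodM_unifI hlt]
  set c : ENNReal := ((volume (Set.Icc (-1 : ℝ) 1))⁻¹) ^ 1
  have e : ∀ Φ : (Fin 1 → ℝ) → ℝ, ∫ x in Set.univ, Φ x ∂(c • (volume : Measure (Fin 1 → ℝ)).restrict
      (boxOf (Fin 1) (-1) 1)) = c.toReal * ∫ x in boxOf (Fin 1) (-1) 1, Φ x := by
    intro Φ
    rw [Measure.restrict_univ, integral_smul_measure, smul_eq_mul]
  have e1 : (c • (volume : Measure (Fin 1 → ℝ)).restrict (boxOf (Fin 1) (-1) 1)).real Set.univ =
      c.toReal * (volume : Measure (Fin 1 → ℝ)).real (boxOf (Fin 1) (-1) 1) := by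
    rw [Measure.real, Measure.smul_apply, smul_eq_mul, ENNReal.toReal_mul,
      Measure.restrict_apply MeasurableSet.univ, Set.univ_inter]
    rfl
  rw [e, e, e, e1]
  have e2 : (1 : ℝ) / (2 / Real.pi) ^ 2 = Real.pi ^ 2 / 4 := by
    have := Real.pi_pos
    field_simp
    norm_num
  rw [e2]
  have h2 := mul_le_mul_of_nonneg_left h1 (sq_nonneg c.toReal)
  calc _ = _ := by ring
    _ ≤ _ := h2
    _ = _ := by ring

theorem unifI_map : (unifI (-1) 1).map (fun x => (1 / 2 : ℝ) * x + 1 / 2) = unifI 0 1 := by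
  have hm : Measurable fun x : ℝ => (1 / 2 : ℝ) * x + 1 / 2 := by fun_prop
  ext s hs
  unfold unifI
  rw [Measure.map_apply hm hs, ProbabilityTheory.cond_apply measurableSet_Icc,
    ProbabilityTheory.cond_apply measurableSet_Icc]
  have hpre : Set.Icc (-1 : ℝ) 1 ∩ (fun x : ℝ => (1 / 2 : ℝ) * x + 1 / 2) ⁻¹' s =
      (fun x : ℝ => (1 / 2 : ℝ) * x) ⁻¹' ((fun y : ℝ => y + 1 / 2) ⁻¹' (Set.Icc 0 1 ∩ s)) := by
    ext x
    simp only [Set.mem_inter_iff, Set.mem_Icc, Set.mem_preimage]
    constructor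
    · rintro ⟨⟨h1, h2⟩, h3⟩
      exact ⟨⟨by linarith, by linarith⟩, h3⟩
    · rintro ⟨⟨h1, h2⟩, h3⟩
      exact ⟨⟨by linarith, by linarith⟩, h3⟩
  rw [hpre, Real.volume_preimage_mul_left (by norm_num), measure_preimage_add_right,
    Real.volume_Icc, Real.volume_Icc]
  have e1 : (1 : ℝ) - -1 = 2 := by norm_num
  have e2 : |((1 / 2 : ℝ))⁻¹| = 2 := by norm_num
  rw [e1, e2, sub_zero, ENNReal.ofReal_one, inv_one, one_mul, ← mul_assoc,
    ENNReal.inv_mul_cancel (by simp) ENNReal.ofReal_ne_top, one_mul]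

theorem wirtinger_unit : PoincareWith (unifI 0 1) (1 / Real.pi) := by
  have h := wirtinger_sym.affine (s := 1 / 2) (by norm_num) (1 / 2)
  rw [unifI_map] at h
  have e : (1 / 2 : ℝ) * (2 / Real.pi) = 1 / Real.pi := by
    have := Real.pi_pos
    field_simp
  rwa [e] at h

theorem lip_cos : LipschitzWith (Real.toNNReal Real.pi) fun x : ℝ => Real.cos (Real.pi * x) := by
  apply lipschitzWith_of_nnnorm_deriv_le (by fun_prop)
  intro x
  have : deriv (fun x : ℝ => Real.cos (Real.pi * x)) x = -Real.sin (Real.pi * x) * Real.pi := by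
    have h1 : HasDerivAt (fun x : ℝ => Real.pi * x) Real.pi x := by
      simpa using (hasDerivAt_id x).const_mul Real.pi
    exact h1.cos.deriv
  rw [this, ← NNReal.coe_le_coe, coe_nnnorm, Real.norm_eq_abs, abs_mul, abs_neg,
    Real.coe_toNNReal _ Real.pi_pos.le, abs_of_pos Real.pi_pos]
  exact mul_le_of_le_one_left Real.pi_pos.le (Real.abs_sin_le_one _)

/-- The exact Poincaré constant of the unit interval. -/
theorem unit_iff {D : ℝ} : PoincareWith (unifI 0 1) D ↔ 1 / Real.pi ≤ D := by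
  have hlt : (0 : ℝ) < 1 := by norm_num
  have := prob_unifI hlt
  have hpi := Real.pi_pos
  constructor
  · intro h
    have hD := h.pos (noatom_of_ac (unifI_ac 0 1))
    have h1 := (poin_line_iff (memLp_unifI hlt) hD.le).1 h _ ⟨_, lip_cos⟩
    have hder : ∀ x, deriv (fun x : ℝ => Real.cos (Real.pi * x)) x =
        -Real.sin (Real.pi * x) * Real.pi := by
      intro x
      have h1 : HasDerivAt (fun x : ℝ => Real.pi * x) Real.pi x := by
        simpa using (hasDerivAt_id x).const_mul Real.pi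
      exact h1.cos.deriv
    simp only [hder] at h1
    have e0 : ∫ y, Real.cos (Real.pi * y) ∂(unifI 0 1) = 0 := by
      rw [integral_unifI' hlt, intervalIntegral.integral_comp_mul_left
        (fun x => Real.cos x) hpi.ne', integral_cos]
      simp
    rw [e0] at h1
    have e1 : ∫ x, (Real.cos (Real.pi * x) - 0) ^ 2 ∂(unifI 0 1) = 1 / 2 := by
      simp only [sub_zero]
      rw [integral_unifI' hlt, intervalIntegral.integral_comp_mul_left
        (fun x => Real.cos x ^ 2) hpi.ne', integral_cos_sq]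
      simp only [mul_zero, mul_one, Real.cos_pi, Real.sin_pi, Real.sin_zero, Real.cos_zero,
        smul_eq_mul, sub_zero, inv_one, one_mul]
      field_simp
      ring
    have e2 : ∫ x, (-Real.sin (Real.pi * x) * Real.pi) ^ 2 ∂(unifI 0 1) = Real.pi ^ 2 / 2 := by
      have e : ∀ x : ℝ, (-Real.sin (Real.pi * x) * Real.pi) ^ 2 =
          Real.pi ^ 2 * Real.sin (Real.pi * x) ^ 2 := fun x => by ring
      simp only [e]
      rw [integral_const_mul, integral_unifI' hlt, intervalIntegral.integral_comp_mul_left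
        (fun x => Real.sin x ^ 2) hpi.ne', integral_sin_sq]
      simp only [mul_zero, mul_one, Real.cos_pi, Real.sin_pi, Real.sin_zero, Real.cos_zero,
        smul_eq_mul, sub_zero, inv_one, one_mul]
      field_simp
      ring
    rw [e1, e2] at h1
    rw [div_le_iff₀ hpi]
    have h2 : (1 : ℝ) ^ 2 ≤ (D * Real.pi) ^ 2 := by
      rw [mul_pow]
      linarith
    exact le_of_sq_le_sq h2 (by positivity)
  · intro h
    exact wirtinger_unit.mono h

end Pool.Agent.Lib.MP_8d00da_gt
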